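import Pool.Agent.Lib.MP_dee751_an.Trans

-- part Pool.Agent.Lib.MP_dee751_an.Growth
section

set_option autoImplicit false
set_option linter.unusedSectionVars false

open scoped InnerProductSpace
open ContinuousLinearMap

namespace Pool.Agent.Lib.MP_dee751_an

variable {K : Type} [NormedAddCommGroup K] [InnerProductSpace ℂ K] [CompleteSpace K]

theorem norm_pow_le_one_add (T : K →L[ℂ] K) (k : ℕ) : ‖T ^ k‖ ≤ (1 + ‖T‖) ^ k := by
  rcases k with _ | k
  · rw [pow_zero, pow_zero]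
    exact (norm_id_le : ‖ContinuousLinearMap.id ℂ K‖ ≤ 1)
  · exact (norm_pow_le' T (Nat.succ_pos k)).trans
      (pow_le_pow_left₀ (norm_nonneg _) (by linarith) _)

theorem pow_mul_res {T R : K →L[ℂ] K} {v : ℂ} (h : T * R = v • R - 1) (hv : ‖v‖ ≤ 1) (s : ℕ) :
    ‖T ^ s * R‖ ≤ ‖R‖ * ‖v‖ ^ s + s * (1 + ‖T‖) ^ s := by
  induction s with
  | zero => simp
  | succ s ih =>
    have e : T ^ (s + 1) * R = v • (T ^ s * R) - T ^ s := by
      rw [pow_succ, mul_assoc, h, mul_sub, mul_smul_comm, mul_one]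
    rw [e]
    refine (norm_sub_le _ _).trans ?_
    rw [norm_smul]
    have a1 := norm_pow_le_one_add T s
    have a2 : (1 + ‖T‖) ^ s ≤ (1 + ‖T‖) ^ (s + 1) :=
      pow_le_pow_right₀ (by linarith [norm_nonneg T]) (by omega)
    have a3 := mul_le_mul_of_nonneg_left ih (norm_nonneg v)
    have a4 : ‖v‖ * (s * (1 + ‖T‖) ^ s) ≤ s * (1 + ‖T‖) ^ (s + 1) := by
      calc ‖v‖ * (s * (1 + ‖T‖) ^ s) ≤ 1 * (s * (1 + ‖T‖) ^ s) := by gcongr
        _ ≤ s * (1 + ‖T‖) ^ (s + 1) := by rw [one_mul]; gcongr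
    push_cast
    rw [pow_succ ‖v‖]
    nlinarith

theorem growth (hK : ¬FiniteDimensional ℂ K) (B : K →L[ℂ] K) (l : ℂ) (hl : l ∈ spectrum ℂ B)
    (c : ℝ) (s : ℕ)
    (h : ∀ ε > 0, ∃ μ ∈ resolventSet ℂ B, ‖μ - l‖ < ε ∧ ‖resolvent B μ‖ * ‖μ - l‖ ^ s ≤ c) :
    ∃ A : K →L[ℂ] K, QuasiSimilar A B ∧ HasInvSub A := by
  by_cases hB : HasInvSub B
  · exact ⟨B, qs_refl B, hB⟩
  set T := B - l • 1 with hT
  have cT : Commute T B := by
    rw [hT]
    exact (Commute.refl B).sub_left ((Commute.one_left B).smul_left l)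
  have hne : T ≠ 0 := sub_smul_ne_zero hK hB l
  have hTi := inj_of_comm hB cT.eq hne
  have hTs : T ^ s * 1 ≠ 0 := by
    have : Nontrivial K := by
      by_contra hn
      rw [not_nontrivial_iff_subsingleton] at hn
      exact hK inferInstance
    obtain ⟨x, hx⟩ := exists_ne (0 : K)
    intro h0
    have h1 : Function.Injective (T ^ s : K →L[ℂ] K) := by
      rw [FunLike.coe_pow_eq_iterate]; exact hTi.iterate s
    apply hx
    apply h1
    rw [mul_one] at h0
    rw [h0]; rfl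
  obtain ⟨x, hx0, hxZ, hxT⟩ := mittag (ContinuousLinearMap.mul ℂ (K →L[ℂ] K) T)
    {y | ∃ W, Commute W B ∧ y = T ^ s * W} {y | y * B = B * y}
    (isClosed_eq (by fun_prop) (by fun_prop)) (by
      rintro _ ⟨W, hW, rfl⟩ k
      induction k with
      | zero => exact ((cT.pow_left s).mul_left hW).eq
      | succ k ih =>
        rw [pow_succ']
        exact (cT.mul_left ih).eq) (by
      rintro _ ⟨W, hW, rfl⟩ ε hε
      set G : ℝ := (|c| + s * (1 + ‖T‖) ^ s + 1) * (‖W‖ + 1) with hG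
      have hG0 : 0 < G := by positivity
      obtain ⟨μ, hμ, h1, h2⟩ := h (min 1 (ε / G)) (by positivity)
      set R := resolvent B μ with hR
      have hu := spectrum.mem_resolventSet_iff.1 hμ
      have e0 : algebraMap ℂ (K →L[ℂ] K) μ - B = (μ - l) • 1 - T := by
        rw [Algebra.algebraMap_eq_smul_one, hT, sub_smul]; abel
      have e1 : T * R = (μ - l) • R - 1 := by
        have := Ring.mul_inverse_cancel _ hu
        rw [← resolvent, ← hR, e0, sub_mul, smul_mul_assoc, one_mul] at this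
        rw [← this]; abel
      have cR : Commute R B := by
        have c1 : Commute (algebraMap ℂ (K →L[ℂ] K) μ - B) B :=
          (Algebra.commute_algebraMap_left μ B).sub_left (Commute.refl B)
        obtain ⟨w, hw⟩ := hu
        rw [hR, resolvent, ← hw, Ring.inverse_unit]
        rw [← hw] at c1
        exact c1.units_inv_left
      refine ⟨T ^ s * (-(R * W)), ⟨_, (cR.mul_left hW).neg_left, rfl⟩, ?_⟩
      have e2 : ContinuousLinearMap.mul ℂ (K →L[ℂ] K) T (T ^ s * (-(R * W))) - T ^ s * W =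
          -((μ - l) • (T ^ s * R * W)) := by
        rw [mul_apply', ← mul_assoc, ← pow_succ', pow_succ, mul_assoc, mul_neg, ← mul_assoc T,
          e1, sub_mul, mul_neg, mul_sub, one_mul, smul_mul_assoc, mul_smul_comm, mul_assoc]
        abel
      rw [e2, norm_neg, norm_smul]
      have b1 := pow_mul_res e1 (h1.le.trans (min_le_left _ _)) s
      have b2 : ‖T ^ s * R * W‖ ≤ G := by
        refine (norm_mul_le _ _).trans ?_
        exact mul_le_mul (by linarith [le_abs_self c]) (by linarith) (norm_nonneg _)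
          (by positivity)
      have b3 : ‖μ - l‖ < ε / G := h1.trans_le (min_le_right _ _)
      calc ‖μ - l‖ * ‖T ^ s * R * W‖ ≤ ‖μ - l‖ * G := by gcongr
        _ < ε := by rwa [lt_div_iff₀ hG0] at b3)
    (y0 := T ^ s * 1) ⟨1, Commute.one_left B, rfl⟩ hTs
  exact of_div hK hl x hx0 hxZ hxT

end Pool.Agent.Lib.MP_dee751_an
end

-- part Pool.Agent.Lib.MP_dee751_an.Classes
section

/-! Classes of operators that satisfy the resolvent growth hypothesis of `growth`. -/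

set_option autoImplicit false
set_option linter.unusedSectionVars false

open scoped InnerProductSpace
open ContinuousLinearMap

namespace Pool.Agent.Lib.MP_dee751_an

variable {K : Type} [NormedAddCommGroup K] [InnerProductSpace ℂ K] [CompleteSpace K]

/-- power-bounded after scaling, at a point of modulus the scaling factor: linear growth. -/
theorem growth_of_powerBounded (B : K →L[ℂ] K) {l : ℂ} (hl : l ≠ 0) {c : ℝ}
    (h : ∀ n : ℕ, ‖B ^ n‖ ≤ c * ‖l‖ ^ n) :
    ∀ ε > 0, ∃ μ ∈ resolventSet ℂ B, ‖μ - l‖ < ε ∧ ‖resolvent B μ‖ * ‖μ - l‖ ^ 1 ≤ c := by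
  intro ε hε
  have hn : 0 < ‖l‖ := norm_pos_iff.2 hl
  set t : ℝ := ε / (2 * ‖l‖) with ht
  have ht0 : 0 < t := by positivity
  set μ : ℂ := ((1 + t : ℝ) : ℂ) * l with hμ
  have hμn : ‖μ‖ = (1 + t) * ‖l‖ := by
    rw [hμ, norm_mul, Complex.norm_real, Real.norm_of_nonneg (by positivity)]
  have hμ0 : μ ≠ 0 := by
    rw [← norm_pos_iff, hμn]; positivity
  have hd : ‖μ - l‖ = t * ‖l‖ := by
    rw [show μ - l = (t : ℂ) * l by rw [hμ]; push_cast; ring, norm_mul, Complex.norm_real,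
      Real.norm_of_nonneg ht0.le]
  set x : K →L[ℂ] K := μ⁻¹ • B with hx
  have hq : (1 + t)⁻¹ < 1 := inv_lt_one_of_one_lt₀ (by linarith)
  have hg := (hasSum_geometric_of_lt_one (r := (1 + t)⁻¹) (by positivity) hq).mul_left c
  have hb : ∀ n : ℕ, ‖x ^ n‖ ≤ c * (1 + t)⁻¹ ^ n := by
    intro n
    rw [hx, smul_pow, norm_smul, norm_pow, norm_inv, hμn]
    calc ((1 + t) * ‖l‖)⁻¹ ^ n * ‖B ^ n‖ ≤ ((1 + t) * ‖l‖)⁻¹ ^ n * (c * ‖l‖ ^ n) := by
          gcongr; exact h n
      _ = c * (1 + t)⁻¹ ^ n := by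
          rw [mul_inv, mul_pow, inv_pow ‖l‖]; field_simp
  have hs : Summable fun n : ℕ => x ^ n := Summable.of_norm_bounded hg.summable hb
  have hS : ‖∑' n : ℕ, x ^ n‖ ≤ c * (1 - (1 + t)⁻¹)⁻¹ := tsum_of_norm_bounded hg hb
  have e0 : algebraMap ℂ (K →L[ℂ] K) μ - B = μ • (1 - x) := by
    rw [smul_sub, hx, smul_smul, mul_inv_cancel₀ hμ0, one_smul, Algebra.algebraMap_eq_smul_one]
  let w : (K →L[ℂ] K)ˣ := ⟨μ • (1 - x), μ⁻¹ • ∑' n : ℕ, x ^ n, by
      rw [smul_mul_smul_comm, hs.one_sub_mul_tsum_pow, mul_inv_cancel₀ hμ0, one_smul], by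
      rw [smul_mul_smul_comm, hs.tsum_pow_mul_one_sub, inv_mul_cancel₀ hμ0, one_smul]⟩
  refine ⟨μ, spectrum.mem_resolventSet_iff.2 ⟨w, e0.symm⟩, ?_, ?_⟩
  · rw [hd, ht]; field_simp; linarith
  · have e1 : resolvent B μ = μ⁻¹ • ∑' n : ℕ, x ^ n := by
      rw [resolvent, e0]
      exact Ring.inverse_unit w
    rw [e1, norm_smul, norm_inv, hμn, pow_one, hd]
    calc ((1 + t) * ‖l‖)⁻¹ * ‖∑' n : ℕ, x ^ n‖ * (t * ‖l‖)
        ≤ ((1 + t) * ‖l‖)⁻¹ * (c * (1 - (1 + t)⁻¹)⁻¹) * (t * ‖l‖) := by gcongr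
      _ = c := by
        have : 1 - (1 + t)⁻¹ = t / (1 + t) := by field_simp; ring
        rw [this]; field_simp

/-- power-bounded operators whose spectrum meets the unit circle. -/
theorem powerBounded (hK : ¬FiniteDimensional ℂ K) (B : K →L[ℂ] K) {l : ℂ}
    (hl : l ∈ spectrum ℂ B) (h1 : ‖l‖ = 1) {c : ℝ} (h : ∀ n : ℕ, ‖B ^ n‖ ≤ c) :
    ∃ A : K →L[ℂ] K, QuasiSimilar A B ∧ HasInvSub A :=
  growth hK B l hl c 1 (growth_of_powerBounded B (by rintro rfl; simp at h1) (by simpa [h1] using h))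

/-- normaloid operators. -/
theorem normaloid (hK : ¬FiniteDimensional ℂ K) (B : K →L[ℂ] K) {l : ℂ}
    (hl : l ∈ spectrum ℂ B) (h1 : ‖l‖ = ‖B‖) :
    ∃ A : K →L[ℂ] K, QuasiSimilar A B ∧ HasInvSub A := by
  by_cases hB : HasInvSub B
  · exact ⟨B, qs_refl B, hB⟩
  have hne : B ≠ 0 := by simpa using sub_smul_ne_zero hK hB 0
  refine growth hK B l hl 1 1 (growth_of_powerBounded B ?_ fun n => ?_)
  · rw [← norm_pos_iff, h1]; exact norm_pos_iff.2 hne
  · rw [one_mul, h1]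
    rcases n with _ | n
    · rw [pow_zero, pow_zero]
      exact (norm_id_le : ‖ContinuousLinearMap.id ℂ K‖ ≤ 1)
    · exact norm_pow_le' B (Nat.succ_pos n)

theorem hypo_pow [Nontrivial K] {B : K →L[ℂ] K} (h : ∀ x, ‖adjoint B x‖ ≤ ‖B x‖) (n : ℕ) :
    ‖B ^ n‖ = ‖B‖ ^ n := by
  have h1 : ∀ n : ℕ, ‖B ^ (n + 1)‖ ^ 2 ≤ ‖B ^ n‖ * ‖B ^ (n + 2)‖ := by
    intro n
    have : ‖B ^ (n + 1)‖ ≤ √(‖B ^ n‖ * ‖B ^ (n + 2)‖) := by
      refine opNorm_le_bound _ (Real.sqrt_nonneg _) fun x => ?_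
      rw [← Real.sqrt_sq (norm_nonneg x), ← Real.sqrt_mul (by positivity)]
      apply Real.le_sqrt_of_sq_le
      have e : ⟪(B ^ (n + 1)) x, (B ^ (n + 1)) x⟫_ℂ =
          ⟪(B ^ n) x, adjoint B ((B ^ (n + 1)) x)⟫_ℂ := by
        rw [adjoint_inner_right, pow_succ']; rfl
      have a1 := norm_inner_le_norm (𝕜 := ℂ) ((B ^ n) x) (adjoint B ((B ^ (n + 1)) x))
      rw [← e, inner_self_eq_norm_sq_to_K, norm_pow, RCLike.norm_ofReal, abs_norm] at a1
      have a2 : ‖adjoint B ((B ^ (n + 1)) x)‖ ≤ ‖B ^ (n + 2)‖ * ‖x‖ := by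
        refine (h _).trans ?_
        have : B ((B ^ (n + 1)) x) = (B ^ (n + 2)) x := by rw [pow_succ' B (n + 1)]; rfl
        rw [this]; exact le_opNorm _ _
      calc _ ≤ _ := a1
        _ ≤ (‖B ^ n‖ * ‖x‖) * (‖B ^ (n + 2)‖ * ‖x‖) :=
          mul_le_mul (le_opNorm _ _) a2 (norm_nonneg _) (by positivity)
        _ = _ := by ring
    exact (Real.le_sqrt (norm_nonneg _) (by positivity)).1 this
  have h2 : ∀ n : ℕ, ‖B‖ * ‖B ^ n‖ ≤ ‖B ^ (n + 1)‖ := by
    intro n
    induction n with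
    | zero => simp
    | succ n ih =>
      rcases (norm_nonneg (B ^ (n + 1))).eq_or_lt with h0 | h0
      · rw [← h0, mul_zero]; exact norm_nonneg _
      · refine le_of_mul_le_mul_left ?_ h0
        have := mul_le_mul_of_nonneg_left (h1 n) (norm_nonneg B)
        have := mul_le_mul_of_nonneg_right ih (norm_nonneg (B ^ (n + 2)))
        nlinarith
  refine le_antisymm (norm_pow_le B n) ?_
  induction n with
  | zero => simp
  | succ n ih =>
    rw [pow_succ']
    exact (mul_le_mul_of_nonneg_left ih (norm_nonneg B)).trans (h2 n)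

/-- hyponormal operators. -/
theorem hyponormal (hK : ¬FiniteDimensional ℂ K) (B : K →L[ℂ] K)
    (h : ∀ x, ‖adjoint B x‖ ≤ ‖B x‖) : ∃ A : K →L[ℂ] K, QuasiSimilar A B ∧ HasInvSub A := by
  have : Nontrivial K := by
    by_contra hn
    rw [not_nontrivial_iff_subsingleton] at hn
    exact hK inferInstance
  obtain ⟨l, hl, he⟩ := spectrum.exists_nnnorm_eq_spectralRadius B
  have h1 := spectrum.pow_norm_pow_one_div_tendsto_nhds_spectralRadius B
  have h2 : Filter.Tendsto (fun n : ℕ => ENNReal.ofReal (‖B ^ n‖ ^ (1 / n : ℝ))) Filter.atTop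
      (nhds (ENNReal.ofReal ‖B‖)) := by
    refine tendsto_const_nhds.congr' ?_
    filter_upwards [Filter.eventually_gt_atTop 0] with n hn
    rw [hypo_pow h, one_div, Real.pow_rpow_inv_natCast (norm_nonneg _) hn.ne']
  have h3 := tendsto_nhds_unique h1 h2
  rw [← he, ofReal_norm] at h3
  refine normaloid hK B hl ?_
  have h4 : ‖l‖₊ = ‖B‖₊ := ENNReal.coe_injective h3
  exact congrArg NNReal.toReal h4

end Pool.Agent.Lib.MP_dee751_an
end
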