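import Mathlib

set_option autoImplicit false

namespace Pool.Agent.Lib.MP_dee751_an

/-- `T` has a non-trivial invariant subspace: a closed linear subspace `M`, different from `0` and
from the whole space, with `T M ⊆ M`. -/
def HasInvSub {H : Type} [NormedAddCommGroup H] [InnerProductSpace ℂ H] (T : H →L[ℂ] H) : Prop :=
  ∃ M : Submodule ℂ H, IsClosed (M : Set H) ∧ M ≠ ⊥ ∧ M ≠ ⊤ ∧ ∀ x ∈ M, T x ∈ M

/-- `A` and `B` are quasi-similar: there are injective operators `X`, `Y` with dense range such
that `X A = B X` and `A Y = Y B`. -/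
def QuasiSimilar {H : Type} [NormedAddCommGroup H] [InnerProductSpace ℂ H]
    (A B : H →L[ℂ] H) : Prop :=
  ∃ X Y : H →L[ℂ] H, Function.Injective X ∧ DenseRange X ∧ Function.Injective Y ∧ DenseRange Y ∧
    X.comp A = B.comp X ∧ A.comp Y = Y.comp B

end Pool.Agent.Lib.MP_dee751_an
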