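import Pool.Agent.Lib.MP_dee751_an.Trans

-- part Pool.Agent.Lib.MP_dee751_an.Baire
section

set_option autoImplicit false
set_option linter.unusedSectionVars false

open scoped InnerProductSpace
open ContinuousLinearMap Polynomial

namespace Pool.Agent.Lib.MP_dee751_an

variable {K : Type} [NormedAddCommGroup K] [InnerProductSpace ℂ K] [CompleteSpace K]

theorem comm_aeval {T C : K →L[ℂ] K} (hC : Commute C T) (p : ℂ[X]) : Commute C (aeval T p) := by
  rw [aeval_eq_sum_range]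
  exact Commute.sum_right _ _ _ fun i _ => (hC.pow_right i).smul_right _

/-- the ideal of polynomials sending `k` into the range of `C`. -/
def idl {T C : K →L[ℂ] K} (hC : Commute C T) (k : K) : Ideal ℂ[X] where
  carrier := {p | aeval T p k ∈ C.range}
  add_mem' := fun {p q} hp hq => by
    change aeval T (p + q) k ∈ C.range
    rw [map_add, add_apply]
    exact C.range.add_mem hp hq
  zero_mem' := by
    change aeval T (0 : ℂ[X]) k ∈ C.range
    rw [map_zero]
    exact C.range.zero_mem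
  smul_mem' := fun q p hp => by
    obtain ⟨v, hv⟩ := hp
    refine ⟨aeval T q v, ?_⟩
    have hv' : C v = aeval T p k := hv
    change C (aeval T q v) = aeval T (q * p) k
    rw [map_mul, mul_apply_eq_comp, ← hv', ← mul_apply_eq_comp, (comm_aeval hC q).eq,
      mul_apply_eq_comp]

theorem mem_idl {T C : K →L[ℂ] K} (hC : Commute C T) (k : K) (p : ℂ[X]) :
    p ∈ idl hC k ↔ aeval T p k ∈ C.range := Iff.rfl

theorem exists_gen (I : Ideal ℂ[X]) {p : ℂ[X]} (hp : p ∈ I) (h0 : p ≠ 0) :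
    ∃ q : ℂ[X], q.Monic ∧ q ∈ I ∧ ∀ r ∈ I, q ∣ r := by
  set g := Submodule.IsPrincipal.generator I with hg
  have h1 : ∀ r ∈ I, g ∣ r := fun r hr => (Submodule.IsPrincipal.mem_iff_generator_dvd I).1 hr
  have hg0 : g ≠ 0 := fun h => h0 (zero_dvd_iff.1 (h ▸ h1 p hp))
  refine ⟨g * C g.leadingCoeff⁻¹, monic_mul_leadingCoeff_inv hg0,
    I.mul_mem_right _ (Submodule.IsPrincipal.generator_mem I), fun r hr => ?_⟩
  exact (IsUnit.mul_right_dvd
    (isUnit_C.2 (IsUnit.mk0 _ (inv_ne_zero (leadingCoeff_ne_zero.2 hg0))))).2 (h1 r hr)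

theorem uniform_poly {T C : K →L[ℂ] K} (hC : Commute C T) (D : ℕ)
    (h : ∀ k, ∃ p ∈ idl hC k, p ≠ 0 ∧ p.natDegree ≤ D) : ∃ p : ℂ[X], p ≠ 0 ∧ ∀ k, p ∈ idl hC k := by
  classical
  have h1 : ∀ k, ∃ q : ℂ[X], q.Monic ∧ q ∈ idl hC k ∧ ∀ r ∈ idl hC k, q ∣ r := fun k => by
    obtain ⟨p, hp, h0, -⟩ := h k
    exact exists_gen _ hp h0
  choose q qm qi qd using h1
  have qD : ∀ k, (q k).natDegree ≤ D := fun k => by
    obtain ⟨p, hp, h0, hd⟩ := h k
    exact (natDegree_le_of_dvd (qd k p hp) h0).trans hd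
  have hex : ∃ j, ∃ k, D - (q k).natDegree = j := ⟨_, 0, rfl⟩
  obtain ⟨k1, hk1⟩ := Nat.find_spec hex
  have hmax : ∀ k, (q k).natDegree ≤ (q k1).natDegree := fun k => by
    have := Nat.find_min' hex ⟨k, rfl⟩
    have := qD k
    have := qD k1
    omega
  refine ⟨q k1, (qm k1).ne_zero, fun k2 => ?_⟩
  have h0 : q k1 * q k2 ≠ 0 := mul_ne_zero (qm k1).ne_zero (qm k2).ne_zero
  have := @Finite.of_fintype _ (fintypeSubtypeMonicDvd (q k1 * q k2) h0)
  have hm : ∀ t : ℂ, q k1 * q k2 ∈ idl hC (k1 + t • k2) := fun t => by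
    rw [mem_idl, map_add, map_smul]
    exact C.range.add_mem ((idl hC k1).mul_mem_right _ (qi k1))
      (C.range.smul_mem _ ((idl hC k2).mul_mem_left _ (qi k2)))
  obtain ⟨t, t', hne, he⟩ := Finite.exists_ne_map_eq_of_infinite
    (fun t : ℂ => (⟨q (k1 + t • k2), qm _, qd _ _ (hm t)⟩ :
      { g : ℂ[X] // g.Monic ∧ g ∣ q k1 * q k2 }))
  have he' : q (k1 + t • k2) = q (k1 + t' • k2) := congrArg Subtype.val he
  have a1 := qi (k1 + t • k2)
  have a2 := qi (k1 + t' • k2)
  rw [← he'] at a2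
  set g := q (k1 + t • k2) with hg
  rw [mem_idl, map_add, map_smul] at a1 a2
  have b2 : aeval T g k2 ∈ C.range := by
    have := C.range.smul_mem (t - t')⁻¹ (C.range.sub_mem a1 a2)
    rwa [add_sub_add_left_eq_sub, ← sub_smul, smul_smul, inv_mul_cancel₀ (sub_ne_zero.2 hne),
      one_smul] at this
  have b1 : aeval T g k1 ∈ C.range := by
    have := C.range.sub_mem a1 (C.range.smul_mem t b2)
    rwa [add_sub_cancel_right] at this
  have e : g = q k1 := eq_of_monic_of_dvd_of_natDegree_le (qm k1) (qm _) (qd k1 g b1) (hmax _)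
  rw [← e]
  exact b2

theorem mem_range_of_bound {C : K →L[ℂ] K} (hC : Function.Injective C) {x : K} {j : ℝ}
    (h : ∀ w, ‖⟪x, w⟫_ℂ‖ ≤ j * ‖adjoint C w‖) : x ∈ C.range := by
  set φ : K →L[ℂ] ℂ := ((innerSL ℂ x : K →L[ℂ] ℂ) : K →ₗ[ℂ] ℂ).extendOfNorm
    ((adjoint C : K →L[ℂ] K) : K →ₗ[ℂ] K) with hφ
  have h1 : ∀ w, φ (adjoint C w) = ⟪x, w⟫_ℂ := fun w =>
    LinearMap.extendOfNorm_eq (f := ((innerSL ℂ x : K →L[ℂ] ℂ) : K →ₗ[ℂ] ℂ))
      (e := ((adjoint C : K →L[ℂ] K) : K →ₗ[ℂ] K)) (adj_denseRange_of_inj hC) ⟨j, h⟩ w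
  refine ⟨(InnerProductSpace.toDual ℂ K).symm φ, ext_inner_right ℂ fun w => ?_⟩
  rw [← h1, coe_coe, ← adjoint_inner_right, InnerProductSpace.toDual_symm_apply]

/-- polynomial with given coefficients. -/
noncomputable def poly {d : ℕ} (a : Fin (d + 1) → ℂ) : ℂ[X] :=
  ∑ i : Fin (d + 1), monomial (i : ℕ) (a i)

theorem coeff_poly {d : ℕ} (a : Fin (d + 1) → ℂ) (i : Fin (d + 1)) : (poly a).coeff i = a i := by
  unfold poly
  rw [finsetSum_coeff, Finset.sum_eq_single i]
  · simp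
  · intro b _ hb
    rw [coeff_monomial, if_neg fun h => hb (Fin.ext h)]
  · simp

theorem natDegree_poly {d : ℕ} (a : Fin (d + 1) → ℂ) : (poly a).natDegree ≤ d :=
  natDegree_sum_le_of_forall_le _ _ fun i _ =>
    (natDegree_monomial_le _).trans (Nat.lt_succ_iff.1 i.2)

theorem aeval_poly {d : ℕ} (a : Fin (d + 1) → ℂ) (T : K →L[ℂ] K) (k : K) :
    aeval T (poly a) k = ∑ i, a i • (T ^ (i : ℕ)) k := by
  unfold poly
  rw [map_sum, _root_.sum_apply]
  refine Finset.sum_congr rfl fun i _ => ?_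
  rw [aeval_monomial, Algebra.algebraMap_eq_smul_one, smul_mul_assoc, one_mul, smul_apply]

theorem bounded_degree {T C : K →L[ℂ] K} (hC : Commute C T) (hi : Function.Injective C)
    (h : ∀ k, ∃ p ∈ idl hC k, p ≠ 0) :
    ∃ D, ∀ k, ∃ p ∈ idl hC k, p ≠ 0 ∧ p.natDegree ≤ D := by
  set G : ℕ × ℕ → Set K := fun dj => Prod.snd ''
    {z : Metric.sphere (0 : Fin (dj.1 + 1) → ℂ) 1 × K |
      ∀ w, ‖⟪∑ i, z.1.1 i • (T ^ (i : ℕ)) z.2, w⟫_ℂ‖ ≤ dj.2 * ‖adjoint C w‖} with hG
  have hc : ∀ dj, IsClosed (G dj) := by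
    intro dj
    apply isClosedMap_snd_of_compactSpace
    rw [Set.ofPred_forall]
    refine isClosed_iInter fun w => isClosed_le ?_ (by fun_prop)
    refine (Continuous.inner (continuous_finsetSum _ fun i _ => ?_) continuous_const).norm
    exact ((continuous_apply i).comp (continuous_subtype_val.comp continuous_fst)).smul
      ((T ^ (i : ℕ)).continuous.comp continuous_snd)
  have hU : ⋃ dj, G dj = Set.univ := by
    rw [Set.eq_univ_iff_forall]
    intro k
    obtain ⟨p, ⟨v, hv⟩, h0⟩ := h k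
    set a : Fin (p.natDegree + 1) → ℂ := fun i => p.coeff i with ha
    have ha0 : a ≠ 0 := fun h => h0 (leadingCoeff_eq_zero.1 (congrFun h (Fin.last _)))
    have hn : 0 < ‖a‖ := norm_pos_iff.2 ha0
    obtain ⟨j, hj⟩ := exists_nat_ge (‖a‖⁻¹ * ‖v‖)
    refine Set.mem_iUnion.2 ⟨(p.natDegree, j), ⟨⟨((‖a‖⁻¹ : ℝ) : ℂ) • a, ?_⟩, k⟩, fun w => ?_, rfl⟩
    · rw [mem_sphere_zero_iff_norm, norm_smul, Complex.norm_real, norm_inv, norm_norm,
        inv_mul_cancel₀ hn.ne']
    · have e : ∑ i : Fin (p.natDegree + 1), (((‖a‖⁻¹ : ℝ) : ℂ) • a) i • (T ^ (i : ℕ)) k =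
          C (((‖a‖⁻¹ : ℝ) : ℂ) • v) := by
        have hv' : C v = aeval T p k := hv
        rw [map_smul, hv', aeval_eq_sum_range, _root_.sum_apply, Finset.smul_sum,
          ← Fin.sum_univ_eq_sum_range (fun i => ((‖a‖⁻¹ : ℝ) : ℂ) • (p.coeff i • T ^ i) k)]
        refine Finset.sum_congr rfl fun i _ => ?_
        rw [smul_apply, smul_smul]
        rfl
      change ‖⟪∑ i : Fin (p.natDegree + 1), (((‖a‖⁻¹ : ℝ) : ℂ) • a) i • (T ^ (i : ℕ)) k, w⟫_ℂ‖ ≤ _
      rw [e, ← adjoint_inner_right]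
      refine (norm_inner_le_norm _ _).trans (mul_le_mul_of_nonneg_right ?_ (norm_nonneg _))
      rwa [norm_smul, Complex.norm_real, norm_inv, norm_norm]
  obtain ⟨⟨d, j⟩, k0, hk0⟩ := nonempty_interior_of_iUnion_of_closed hc hU
  have hGp : ∀ k ∈ G (d, j), ∃ p ∈ idl hC k, p ≠ 0 ∧ p.natDegree ≤ d := by
    rintro _ ⟨⟨a, k⟩, hz, rfl⟩
    refine ⟨poly a.1, ?_, fun h0 => ?_, natDegree_poly _⟩
    · rw [mem_idl, aeval_poly]
      exact mem_range_of_bound hi hz
    · have : a.1 = 0 := funext fun i => by rw [← coeff_poly a.1 i, h0]; simp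
      have h2 := mem_sphere_zero_iff_norm.1 a.2
      rw [this, norm_zero] at h2
      exact zero_ne_one h2
  obtain ⟨ε, hε, hb⟩ := Metric.isOpen_iff.1 isOpen_interior k0 hk0
  refine ⟨d + d, fun k => ?_⟩
  set δ : ℝ := ε / (‖k‖ + 1) with hδ
  have hδ0 : 0 < δ := by positivity
  obtain ⟨p0, m0, n0, d0⟩ := hGp k0 (interior_subset hk0)
  obtain ⟨p1, m1, n1, d1⟩ := hGp (k0 + (δ : ℂ) • k) (interior_subset (hb (by
    rw [Metric.mem_ball, dist_eq_norm, add_sub_cancel_left, norm_smul, Complex.norm_real,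
      Real.norm_of_nonneg hδ0.le, hδ, div_mul_eq_mul_div, div_lt_iff₀ (by positivity)]
    nlinarith)))
  refine ⟨p0 * p1, ?_, mul_ne_zero n0 n1, natDegree_mul_le.trans (add_le_add d0 d1)⟩
  have a0 := (idl hC _).mul_mem_right p1 m0
  have a1 := (idl hC _).mul_mem_left p0 m1
  rw [mem_idl] at a0 a1 ⊢
  rw [map_add, map_smul] at a1
  have := C.range.smul_mem (δ : ℂ)⁻¹ (C.range.sub_mem a1 a0)
  rwa [add_sub_cancel_left, smul_smul, inv_mul_cancel₀ (by exact_mod_cast hδ0.ne'), one_smul]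
    at this

theorem douglas {P C : K →L[ℂ] K} (hi : Function.Injective C) (h : ∀ k, P k ∈ C.range) :
    ∃ W : K →L[ℂ] K, C * W = P := by
  choose f hf using h
  have hf' : ∀ k, C (f k) = P k := hf
  set g : K →ₗ[ℂ] K :=
    { toFun := f
      map_add' := fun x y => hi (by rw [map_add, hf', hf', hf', map_add])
      map_smul' := fun c x => hi (by rw [map_smul, hf', hf', map_smul]; rfl) } with hg
  have hcl : IsClosed (g.graph : Set (K × K)) := by
    have : (g.graph : Set (K × K)) = {z | C z.2 = P z.1} := by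
      ext z
      simp only [SetLike.mem_coe, LinearMap.mem_graph_iff, Set.mem_ofPred_eq]
      constructor
      · intro h; rw [h]; exact hf' _
      · intro h; exact hi (h.trans (hf' _).symm)
    rw [this]
    exact isClosed_eq (by fun_prop) (by fun_prop)
  exact ⟨ofIsClosedGraph hcl, by ext k; exact hf' k⟩

theorem exists_indep {T C : K →L[ℂ] K} (hC : Commute C T) (hi : Function.Injective C)
    (h : ∀ (p : ℂ[X]) (W : K →L[ℂ] K), C * W = aeval T p → p = 0) :
    ∃ k, ∀ (p : ℂ[X]) (v : K), aeval T p k = C v → p = 0 := by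
  by_contra hcon
  push Not at hcon
  obtain ⟨D, hD⟩ := bounded_degree hC hi fun k => by
    obtain ⟨p, v, h1, h2⟩ := hcon k
    exact ⟨p, ⟨v, h1.symm⟩, h2⟩
  obtain ⟨p, hp, hk⟩ := uniform_poly hC D hD
  obtain ⟨W, hW⟩ := douglas hi hk
  exact hp (h p W hW)

end Pool.Agent.Lib.MP_dee751_an
end

-- part Pool.Agent.Lib.MP_dee751_an.Series
section

set_option autoImplicit false
set_option linter.unusedSectionVars false

open scoped InnerProductSpace
open ContinuousLinearMap Polynomial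

namespace Pool.Agent.Lib.MP_dee751_an

theorem comm_unit_or_root {A : Type} [NormedCommRing A] [NormedAlgebra ℂ A] [CompleteSpace A]
    (t f : A) (a : ℕ → ℂ) (h1 : ‖(1 : A)‖ ≤ 1) (hf : HasSum (fun n => a n • t ^ n) f) :
    IsUnit f ∨ ∃ l : ℂ, ‖l‖ ≤ ‖t‖ ∧ HasSum (fun n => a n * l ^ n) 0 := by
  by_cases hu : IsUnit f
  · exact Or.inl hu
  obtain ⟨φ, hφ⟩ := WeakDual.CharacterSpace.exists_apply_eq_zero hu
  refine Or.inr ⟨φ t, ?_, ?_⟩
  · refine (AlgHom.norm_apply_le_self_mul_norm_one φ t).trans ?_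
    exact mul_le_of_le_one_right (norm_nonneg _) h1
  · have := (WeakDual.CharacterSpace.toCLM φ).hasSum hf
    simpa [hφ] using this

variable {K : Type} [NormedAddCommGroup K] [InnerProductSpace ℂ K] [CompleteSpace K]

/-- the closed algebra generated by one operator is a commutative normed ring. -/
@[reducible] noncomputable def elemRing (T : K →L[ℂ] K) :
    NormedCommRing (Algebra.elemental ℂ T) :=
  { SubringClass.toNormedRing (Algebra.elemental ℂ T) with
    mul_comm := mul_comm }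

theorem unit_or_root {T : K →L[ℂ] K} (hT : ‖T‖ ≤ 1 / 2) {a : ℕ → ℂ} {c : ℝ}
    (ha : ∀ n, ‖a n‖ ≤ c) :
    IsUnit (ser T a) ∨ ∃ l : ℂ, ‖l‖ ≤ ‖T‖ ∧ HasSum (fun n => a n * l ^ n) 0 := by
  let _ := elemRing T
  set t : Algebra.elemental ℂ T := ⟨T, Algebra.elemental.self_mem ℂ T⟩ with ht
  have hs : Summable fun n => a n • t ^ n := by
    apply Summable.of_norm
    exact summable_ser_norm hT ha
  have h2 : HasSum (fun n => a n • T ^ n) ((∑' n, a n • t ^ n : Algebra.elemental ℂ T) : K →L[ℂ] K) :=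
    hs.hasSum.map (Algebra.elemental ℂ T).val continuous_subtype_val
  rcases comm_unit_or_root t _ a (norm_id_le : ‖ContinuousLinearMap.id ℂ K‖ ≤ 1) hs.hasSum with
    h | h
  · left
    rw [(hasSum_ser hT ha).unique h2]
    exact h.map (Algebra.elemental ℂ T).val
  · exact Or.inr h

theorem ser_sub_smul {T : K →L[ℂ] K} (hT : ‖T‖ ≤ 1 / 2) {a b : ℕ → ℂ} {c : ℝ} (l : ℂ)
    (ha : ∀ n, ‖a n‖ ≤ c) (hb : ∀ n, ‖b n‖ ≤ c) :
    ser T (fun n => a n - l * b n) = ser T a - l • ser T b := by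
  have h := (hasSum_ser hT ha).sub ((hasSum_ser hT hb).const_smul l)
  rw [← h.tsum_eq]
  refine tsum_congr fun n => ?_
  rw [sub_smul, smul_smul]

theorem divide {T : K →L[ℂ] K} (hT : ‖T‖ ≤ 1 / 2) {a : ℕ → ℂ} {c : ℝ} (ha : ∀ n, ‖a n‖ ≤ c)
    {l : ℂ} (hl : ‖l‖ ≤ 1 / 8) (h0 : HasSum (fun n => a n * l ^ n) 0) :
    ∃ b : ℕ → ℂ, (∀ n, ‖b n‖ ≤ 8 / 7 * c) ∧ a 0 = -(l * b 0) ∧
      (∀ n, a (n + 1) = b n - l * b (n + 1)) ∧ ser T a = (T - l • 1) * ser T b := by
  have hc : 0 ≤ c := (norm_nonneg _).trans (ha 0)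
  have hg : HasSum (fun j : ℕ => c * (1 / 8 : ℝ) ^ j) (8 / 7 * c) := by
    have := (hasSum_geometric_of_lt_one (r := (1 / 8 : ℝ)) (by norm_num) (by norm_num)).mul_left c
    rwa [show c * (1 - 1 / 8 : ℝ)⁻¹ = 8 / 7 * c by ring] at this
  have hbd : ∀ n j, ‖a (j + n) * l ^ j‖ ≤ c * (1 / 8 : ℝ) ^ j := by
    intro n j
    rw [norm_mul, norm_pow]
    exact mul_le_mul (ha _) (pow_le_pow_left₀ (norm_nonneg _) hl _) (by positivity) hc
  have hs : ∀ n, Summable fun j => a (j + n) * l ^ j := fun n =>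
    Summable.of_norm_bounded hg.summable (hbd n)
  set d : ℕ → ℂ := fun n => ∑' j, a (j + n) * l ^ j with hd
  have hrec : ∀ n, d n = a n + l * d (n + 1) := by
    intro n
    simp only [hd]
    rw [(hs n).tsum_eq_zero_add, zero_add, pow_zero, mul_one, ← tsum_mul_left]
    congr 1
    refine tsum_congr fun j => ?_
    rw [show j + 1 + n = j + (n + 1) by omega]
    ring
  have hd0 : d 0 = 0 := h0.tsum_eq
  have hdb : ∀ n, ‖d n‖ ≤ 8 / 7 * c := fun n => tsum_of_norm_bounded hg (hbd n)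
  have e0 : a 0 = -(l * d (0 + 1)) := by
    have := hrec 0
    rw [hd0] at this
    linear_combination -this
  have e1 : ∀ n, a (n + 1) = d (n + 1) - l * d (n + 1 + 1) := fun n => by
    rw [hrec (n + 1)]; ring
  refine ⟨fun n => d (n + 1), fun n => hdb _, e0, e1, ?_⟩
  have s1 := ser_shift hT ha
  have s2 := ser_shift hT (a := fun n => d (n + 1)) (fun n => hdb _)
  have s3 := ser_sub_smul hT (a := fun n => d (n + 1)) (b := fun n => d (n + 1 + 1)) l
    (fun n => hdb _) (fun n => hdb _)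
  rw [s1, show (fun n => a (n + 1)) = fun n => d (n + 1) - l * d (n + 1 + 1) from funext e1, s3,
    sub_mul, smul_mul_assoc, one_mul, mul_sub, mul_smul_comm, e0]
  conv_rhs => rw [s2]
  conv_lhs => rw [s2]
  rw [smul_add, smul_smul, neg_smul]
  abel

theorem ser_to_poly {T : K →L[ℂ] K} (hT : ‖T‖ ≤ 1 / 8) (N : ℕ) :
    ∀ (a : ℕ → ℂ) (c : ℝ), (∀ n, ‖a n‖ ≤ c) → (∃ n, c < 2 ^ N * (‖a n‖ * (1 / 4) ^ n)) →
      ∃ (p : ℂ[X]) (G : K →L[ℂ] K), p ≠ 0 ∧ G * ser T a = aeval T p ∧
        ∀ C : K →L[ℂ] K, Commute C T → Commute C G := by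
  have hT2 : ‖T‖ ≤ 1 / 2 := hT.trans (by norm_num)
  induction N with
  | zero =>
    rintro a c ha ⟨n, hn⟩
    exfalso
    have : ((1 : ℝ) / 4) ^ n ≤ 1 := pow_le_one₀ (by norm_num) (by norm_num)
    have := mul_le_of_le_one_right (norm_nonneg (a n)) this
    linarith [ha n]
  | succ N ih =>
    rintro a c ha ⟨n, hn⟩
    rcases unit_or_root hT2 ha with ⟨w, hw⟩ | ⟨l, hl, h0⟩
    · refine ⟨1, ↑w⁻¹, one_ne_zero, by rw [← hw]; simp, fun C hC => ?_⟩
      apply Commute.units_inv_right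
      rw [hw]
      exact Commute.tsum_right C fun n => (hC.pow_right n).smul_right _
    · have hl8 := hl.trans hT
      obtain ⟨b, hb, e0, e1, e⟩ := divide hT2 ha hl8 h0
      have hw : ∃ m, 8 / 7 * c < 2 ^ N * (‖b m‖ * (1 / 4) ^ m) := by
        by_contra hcon
        push Not at hcon
        have hc : 0 ≤ c := (norm_nonneg _).trans (ha 0)
        have hp : (0 : ℝ) < 2 ^ N := by positivity
        have hlb : ∀ m, ‖l * b m‖ ≤ 1 / 8 * ‖b m‖ := fun m => by
          rw [norm_mul]; exact mul_le_mul_of_nonneg_right hl8 (norm_nonneg _)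
        rcases n with _ | n
        · have a1 := hcon 0
          have a2 := hlb 0
          rw [e0, norm_neg, pow_succ] at hn
          simp only [pow_zero, mul_one] at hn a1
          nlinarith
        · have a1 := hcon n
          have a2 := hcon (n + 1)
          have a3 : ‖a (n + 1)‖ ≤ ‖b n‖ + 1 / 8 * ‖b (n + 1)‖ := by
            rw [e1]; exact (norm_sub_le _ _).trans (by linarith [hlb (n + 1)])
          have hq : (0 : ℝ) < (1 / 4) ^ n := by positivity
          have a4 := mul_le_mul_of_nonneg_left a3 (mul_pos hp hq).le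
          rw [pow_succ (1 / 4 : ℝ)] at hn a2
          rw [pow_succ] at hn
          nlinarith
      obtain ⟨p, G, hp, hG, hC⟩ := ih b _ hb hw
      refine ⟨(X - C l) * p, G, mul_ne_zero (X_sub_C_ne_zero l) hp, ?_, hC⟩
      have c1 : Commute (T - l • 1) G :=
        hC _ ((Commute.refl T).sub_left ((Commute.one_left T).smul_left l))
      rw [e, ← mul_assoc, ← c1.eq, mul_assoc, hG, map_mul, map_sub, aeval_X, aeval_C,
        Algebra.algebraMap_eq_smul_one]

theorem indep_of_poly {T C : K →L[ℂ] K} (hT : ‖T‖ ≤ 1 / 8) (hC : C * T = T * C) {k : K}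
    (hk : ∀ (p : ℂ[X]) (v : K), aeval T p k = C v → p = 0) (a : L2) (v : K)
    (h : ser T a k = C v) : a = 0 := by
  by_contra ha
  obtain ⟨n, hn⟩ : ∃ n, (a : ℕ → ℂ) n ≠ 0 := by
    by_contra hcon
    push Not at hcon
    exact ha (lp.ext (funext hcon))
  have hpos : 0 < ‖(a : ℕ → ℂ) n‖ * (1 / 4) ^ n := by
    have := norm_pos_iff.2 hn
    positivity
  obtain ⟨N, hN⟩ := pow_unbounded_of_one_lt (‖a‖ / (‖(a : ℕ → ℂ) n‖ * (1 / 4) ^ n))
    (by norm_num : (1 : ℝ) < 2)
  rw [div_lt_iff₀ hpos] at hN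
  obtain ⟨p, G, hp, hG, hc⟩ := ser_to_poly hT N a ‖a‖
    (fun n => lp.norm_apply_le_norm (by norm_num) a n) ⟨n, hN⟩
  apply hp
  apply hk p (G v)
  rw [← hG, mul_apply_eq_comp, h, ← mul_apply_eq_comp, ← (hc C hC).eq, mul_apply_eq_comp]

end Pool.Agent.Lib.MP_dee751_an
end

-- part Pool.Agent.Lib.MP_dee751_an.Dichotomy
section

set_option autoImplicit false
set_option linter.unusedSectionVars false

open scoped InnerProductSpace
open ContinuousLinearMap Polynomial

namespace Pool.Agent.Lib.MP_dee751_an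

variable {K : Type} [NormedAddCommGroup K] [InnerProductSpace ℂ K] [CompleteSpace K]

theorem aeval_inj (hK : ¬FiniteDimensional ℂ K) {B : K →L[ℂ] K} (hB : ¬HasInvSub B) {p : ℂ[X]}
    (hp : p ≠ 0) : Function.Injective (aeval B p) := by
  have hs : p ∈ Submonoid.closure ({C a | a : ℂ} ∪ {X + C a | a : ℂ}) := IsAlgClosed.splits p
  revert hp
  induction hs using Submonoid.closure_induction with
  | mem q hq =>
    intro hq0
    rcases hq with ⟨a, rfl⟩ | ⟨a, rfl⟩
    · have ha : a ≠ 0 := fun h => hq0 (by rw [h, map_zero])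
      rw [aeval_C, Algebra.algebraMap_eq_smul_one]
      exact smul_right_injective K ha
    · have e : aeval B (X + C a) = B - (-a) • 1 := by
        rw [map_add, aeval_X, aeval_C, Algebra.algebraMap_eq_smul_one, neg_smul, sub_neg_eq_add]
      refine inj_of_comm hB (comm_aeval (Commute.refl B) _).eq.symm ?_
      rw [e]
      exact sub_smul_ne_zero hK hB _
  | one =>
    intro _
    rw [map_one]
    exact Function.injective_id
  | mul q r _ _ hq hr =>
    intro h
    rw [map_mul]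
    exact (hq (left_ne_zero_of_mul h)).comp (hr (right_ne_zero_of_mul h))

theorem intertwine_aeval {A B X : K →L[ℂ] K} (h : X * A = B * X) (p : ℂ[X]) :
    X * aeval A p = aeval B p * X := by
  have hp : ∀ n : ℕ, X * A ^ n = B ^ n * X := fun n => (SemiconjBy.pow_right h n).eq
  rw [aeval_eq_sum_range, aeval_eq_sum_range, Finset.mul_sum, Finset.sum_mul]
  refine Finset.sum_congr rfl fun i _ => ?_
  rw [mul_smul_comm, smul_mul_assoc, hp]

theorem easy (hK : ¬FiniteDimensional ℂ K) {A B : K →L[ℂ] K} (hB : ¬HasInvSub B)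
    (hq : QuasiSimilar A B) (hA : HasInvSub A) :
    ∃ C : K →L[ℂ] K, C ≠ 0 ∧ C * B = B * C ∧
      ∀ (p : ℂ[X]) (W : K →L[ℂ] K), C * W = aeval B p → p = 0 := by
  obtain ⟨X, Y, h1, h2, h3, h4, h5, h6⟩ := hq
  obtain ⟨M, m1, m2, m3, m4⟩ := hA
  have h5' : X * A = B * X := h5
  have h6' : A * Y = Y * B := h6
  obtain ⟨x, hxM, hx0⟩ := Submodule.exists_mem_ne_zero_of_ne_bot m2
  refine ⟨X * Y, fun h => ?_, by rw [mul_assoc, ← h6', ← mul_assoc, h5', mul_assoc],
    fun p W hW => ?_⟩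
  · have hY : Y = 0 := by
      ext y
      apply h1
      have := app_eq h y
      simpa using this
    apply hx0
    refine h4.eq_zero_of_inner_left (𝕜 := ℂ) fun y => ?_
    rw [hY]; simp
  · by_contra hp
    have e : ∀ z, Y (W (X z)) = aeval A p z := by
      intro z
      apply h1
      have a1 := app_eq (intertwine_aeval h5' p) z
      have a2 := app_eq hW (X z)
      simp only [mul_apply_eq_comp] at a1 a2
      rw [a1, a2]
    have hM : ∀ z ∈ M, aeval A p z ∈ M := by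
      intro z hz
      rw [aeval_eq_sum_range, _root_.sum_apply]
      refine M.sum_mem fun i hi => M.smul_mem _ ?_
      clear hi
      induction i with
      | zero => exact hz
      | succ i ih => rw [pow_succ']; exact m4 _ ih
    refine hB ⟨M.comap (Y : K →ₗ[ℂ] K), m1.preimage Y.continuous, fun h => ?_, fun h => m3 ?_,
      fun y hy => ?_⟩
    · have a1 : W (X x) ∈ M.comap (Y : K →ₗ[ℂ] K) := by
        change Y (W (X x)) ∈ M
        rw [e]; exact hM x hxM
      rw [h, Submodule.mem_bot] at a1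
      have a2 := app_eq hW (X x)
      simp only [mul_apply_eq_comp, a1, map_zero] at a2
      apply hx0
      apply h1
      apply aeval_inj hK hB hp
      rw [← a2, map_zero, map_zero]
    · rw [eq_top_iff]
      intro z _
      refine closure_minimal (s := Set.range Y) ?_ m1 (h4 z)
      rintro _ ⟨y, rfl⟩
      have : y ∈ M.comap (Y : K →ₗ[ℂ] K) := by rw [h]; trivial
      exact this
    · change Y (B y) ∈ M
      have := app_eq h6' y
      simp only [mul_apply_eq_comp] at this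
      rw [← this]
      exact m4 _ hy

theorem adjoint_aeval (T : K →L[ℂ] K) (p : ℂ[X]) :
    adjoint (aeval (adjoint T) p) = aeval T (p.map (starRingEnd ℂ)) := by
  induction p using Polynomial.induction_on' with
  | add p q hp hq => rw [map_add, map_add, Polynomial.map_add, map_add, hp, hq]
  | monomial n a =>
    rw [Polynomial.map_monomial, aeval_monomial, aeval_monomial, Algebra.algebraMap_eq_smul_one,
      Algebra.algebraMap_eq_smul_one, smul_mul_assoc, smul_mul_assoc, one_mul, one_mul,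
      map_smulₛₗ, adjoint_pow', adjoint_adjoint]

theorem hard (hK : ¬FiniteDimensional ℂ K) {B C : K →L[ℂ] K} (hB : ¬HasInvSub B) (h0 : C ≠ 0)
    (hC : C * B = B * C) (h : ∀ (p : ℂ[X]) (W : K →L[ℂ] K), C * W = aeval B p → p = 0) :
    ∃ A : K →L[ℂ] K, QuasiSimilar A B ∧ HasInvSub A := by
  have hne : B ≠ 0 := by simpa using sub_smul_ne_zero hK hB 0
  have hn : 0 < ‖B‖ := norm_pos_iff.2 hne
  set t : ℂ := ((1 / (8 * ‖B‖) : ℝ) : ℂ) with ht
  have ht0 : t ≠ 0 := by
    rw [ht]; exact_mod_cast (by positivity : (1 / (8 * ‖B‖) : ℝ) ≠ 0)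
  set T := t • B with hT
  have hTn : ‖T‖ ≤ 1 / 8 := by
    rw [hT, norm_smul, ht, Complex.norm_real, Real.norm_of_nonneg (by positivity)]
    apply le_of_eq; field_simp
  have hCT : Commute C T := Commute.smul_right hC t
  have hCi := inj_of_comm hB hC h0
  have hCd := dense_of_comm hB hC h0
  have h1 : ∀ (p : ℂ[X]) (W : K →L[ℂ] K), C * W = aeval T p → p = 0 := by
    intro p W hW
    have := h (p.comp (Polynomial.C t * X)) W (by
      rw [aeval_comp, map_mul, aeval_C, aeval_X, ← Algebra.smul_def, hW])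
    exact (comp_C_mul_X_eq_zero_iff (mem_nonZeroDivisors_of_ne_zero ht0)).1 this
  have hCT' : Commute (adjoint C) (adjoint T) := by
    rw [← star_eq_adjoint, ← star_eq_adjoint]
    exact hCT.star_star
  have h2 : ∀ (p : ℂ[X]) (W : K →L[ℂ] K), adjoint C * W = aeval (adjoint T) p → p = 0 := by
    intro p W hW
    have a1 : adjoint W * C = aeval T (p.map (starRingEnd ℂ)) := by
      rw [← adjoint_aeval, ← hW, ← star_eq_adjoint, ← star_eq_adjoint, ← star_eq_adjoint,
        star_mul, star_star]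
    have a2 : C * adjoint W = aeval T (p.map (starRingEnd ℂ)) := by
      have a3 : C * adjoint W * C = aeval T (p.map (starRingEnd ℂ)) * C := by
        rw [mul_assoc, a1, (comm_aeval hCT _).eq]
      ext1 z
      refine congrFun (hCd.equalizer (C * adjoint W).continuous
        (aeval T (p.map (starRingEnd ℂ))).continuous (funext fun y => app_eq a3 y)) z
    exact (Polynomial.map_eq_zero (starRingEnd ℂ)).1 (h1 _ _ a2)
  obtain ⟨k, hk⟩ := exists_indep hCT hCi h1
  obtain ⟨m, hm⟩ := exists_indep hCT' (adj_inj_of_denseRange hCd) h2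
  have hTn' : ‖adjoint T‖ ≤ 1 / 8 := by rwa [LinearIsometryEquiv.norm_map]
  have := core (hTn.trans (by norm_num)) hCT.eq hCi hCd m k (indep_of_poly hTn' hCT'.eq hm)
    (indep_of_poly hTn hCT.eq hk)
  refine affine (l := 0) ht0 ?_
  rwa [zero_smul, sub_zero]

theorem dichotomy (hK : ¬FiniteDimensional ℂ K) (B : K →L[ℂ] K) :
    (∃ A : K →L[ℂ] K, QuasiSimilar A B ∧ HasInvSub A) ↔
      HasInvSub B ∨ ∃ C : K →L[ℂ] K, C ≠ 0 ∧ C * B = B * C ∧
        ∀ (p : ℂ[X]) (W : K →L[ℂ] K), C * W = aeval B p → p = 0 := by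
  by_cases hB : HasInvSub B
  · exact ⟨fun _ => Or.inl hB, fun _ => ⟨B, qs_refl B, hB⟩⟩
  constructor
  · rintro ⟨A, hq, hA⟩
    exact Or.inr (easy hK hB hq hA)
  · rintro (h | ⟨C, h0, hC, h⟩)
    · exact absurd h hB
    · exact hard hK hB h0 hC h

end Pool.Agent.Lib.MP_dee751_an
end
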