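import Mathlib

/-! Circle averages of polynomials in a rotated operator, and a tower of zero-free polynomials
whose moduli tend to one in the mean. -/

namespace Pool.Agent.Lib.MP_dee751_an.E

open Metric Set Filter Topology Polynomial Real Finset
open scoped InnerProductSpace ComplexConjugate

/-- Average over the unit circle. -/
noncomputable def av (f : ℂ → ℝ) : ℝ := circleAverage f 0 1

lemma ci {f : ℂ → ℝ} (hf : ContinuousOn f (sphere 0 1)) : CircleIntegrable f 0 1 :=
  hf.circleIntegrable zero_le_one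

lemma av_congr {f g : ℂ → ℝ} (h : ∀ z, ‖z‖ = 1 → f z = g z) : av f = av g :=
  circleAverage_congr_sphere fun z hz => h z (by simpa using hz)

lemma av_mono {f g : ℂ → ℝ} (hf : ContinuousOn f (sphere 0 1)) (hg : ContinuousOn g (sphere 0 1))
    (h : ∀ z, ‖z‖ = 1 → f z ≤ g z) : av f ≤ av g :=
  circleAverage_mono (ci hf) (ci hg) fun z hz => h z (by simpa using hz)

lemma av_const (c : ℝ) : av (fun _ => c) = c := circleAverage_const c 0 1

lemma av_add {f g : ℂ → ℝ} (hf : ContinuousOn f (sphere 0 1)) (hg : ContinuousOn g (sphere 0 1)) :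
    av (fun z => f z + g z) = av f + av g := circleAverage_fun_add (ci hf) (ci hg)

lemma av_mul (c : ℝ) (f : ℂ → ℝ) : av (fun z => c * f z) = c * av f :=
  circleAverage_fun_smul (a := c) (f := f)

lemma av_sum {ι : Type*} (s : Finset ι) {f : ι → ℂ → ℝ}
    (h : ∀ i ∈ s, ContinuousOn (f i) (sphere 0 1)) :
    av (fun z => ∑ i ∈ s, f i z) = ∑ i ∈ s, av (f i) :=
  circleAverage_fun_sum fun i hi => ci (h i hi)

lemma av_re {f : ℂ → ℂ} (hf : Differentiable ℂ f) : av (fun z => (f z).re) = (f 0).re := by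
  have h1 : circleAverage f 0 1 = f 0 := hf.diffContOnCl.circleAverage
  have h2 := Complex.reCLM.circleAverage_comp_comm (f := f) (c := 0) (R := 1)
    (hf.continuous.continuousOn.circleIntegrable zero_le_one)
  rw [h1] at h2
  exact h2

variable {H : Type*} [NormedAddCommGroup H] [InnerProductSpace ℂ H]

lemma conj_pow_mul {z : ℂ} (hz : ‖z‖ = 1) {n N : ℕ} (h : n ≤ N) :
    conj (z ^ n) * z ^ N = z ^ (N - n) := by
  obtain ⟨k, rfl⟩ := Nat.exists_eq_add_of_le h
  have : conj z * z = 1 := by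
    rw [mul_comm, Complex.mul_conj, Complex.normSq_eq_norm_sq, hz]; simp
  rw [map_pow, pow_add, ← mul_assoc, ← mul_pow, this]; simp

/-- Parseval for vector polynomials. -/
lemma parseval (x : ℕ → H) (N : ℕ) :
    av (fun z => ‖∑ n ∈ range N, z ^ n • x n‖ ^ 2) = ∑ n ∈ range N, ‖x n‖ ^ 2 := by
  induction N with
  | zero => simpa using av_const 0
  | succ N ih =>
    have c1 : Continuous fun z : ℂ => ‖∑ n ∈ range N, z ^ n • x n‖ ^ 2 := by fun_prop
    have d : Differentiable ℂ fun z : ℂ => ∑ n ∈ range N, z ^ (N - n) * ⟪x n, x N⟫_ℂ := by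
      fun_prop
    have e : av (fun z => ‖∑ n ∈ range (N + 1), z ^ n • x n‖ ^ 2) =
        av (fun z => (‖∑ n ∈ range N, z ^ n • x n‖ ^ 2 + 2 *
          (∑ n ∈ range N, z ^ (N - n) * ⟪x n, x N⟫_ℂ).re) + ‖x N‖ ^ 2) := by
      refine av_congr fun z hz => ?_
      rw [sum_range_succ, @norm_add_sq ℂ, norm_smul, norm_pow, hz, sum_inner]
      have : ∑ n ∈ range N, ⟪z ^ n • x n, z ^ N • x N⟫_ℂ =
          ∑ n ∈ range N, z ^ (N - n) * ⟪x n, x N⟫_ℂ := sum_congr rfl fun n hn => by
        rw [inner_smul_left, inner_smul_right, ← mul_assoc,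
          conj_pow_mul hz (mem_range.1 hn).le]
      rw [this]; simp
    have c2 : Continuous fun z : ℂ =>
        2 * (∑ n ∈ range N, z ^ (N - n) * ⟪x n, x N⟫_ℂ).re := by fun_prop
    rw [e, av_add (c1.fun_add c2).continuousOn continuousOn_const, av_add c1.continuousOn
      c2.continuousOn, ih, av_const, av_mul, av_re d, sum_range_succ]
    have : ∑ n ∈ range N, (0 : ℂ) ^ (N - n) * ⟪x n, x N⟫_ℂ = 0 :=
      sum_eq_zero fun n hn => by
        rw [zero_pow (by have := mem_range.1 hn; omega), zero_mul]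
    simp [this]

/-- Squared mean norm of a polynomial on the circle. -/
noncomputable def n2 (q : ℂ[X]) : ℝ := av fun z => ‖q.eval z‖ ^ 2

lemma cont_sq (q : ℂ[X]) : Continuous fun z : ℂ => ‖q.eval z‖ ^ 2 := by fun_prop

lemma n2_eq (q : ℂ[X]) : n2 q = ∑ n ∈ range (q.natDegree + 1), ‖q.coeff n‖ ^ 2 := by
  rw [← parseval (H := ℂ)]
  refine av_congr fun z _ => ?_
  rw [eval_eq_sum_range]
  simp [mul_comm]

lemma n2_nonneg (q : ℂ[X]) : 0 ≤ n2 q := by rw [n2_eq]; positivity

lemma n2_le {q : ℂ[X]} {C : ℝ} (h : ∀ z, ‖z‖ = 1 → ‖q.eval z‖ ≤ C) : n2 q ≤ C ^ 2 := by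
  rw [← av_const (C ^ 2)]
  exact av_mono (cont_sq q).continuousOn continuousOn_const fun z hz =>
    pow_le_pow_left₀ (norm_nonneg _) (h z hz) 2

lemma coeff_le {q : ℂ[X]} {C : ℝ} (hC : 0 ≤ C) (h : ∀ z, ‖z‖ = 1 → ‖q.eval z‖ ≤ C) (n : ℕ) :
    ‖q.coeff n‖ ≤ C := by
  by_cases hn : n ≤ q.natDegree
  · refine (pow_le_pow_iff_left₀ (norm_nonneg _) hC two_ne_zero).1 (le_trans ?_ (n2_le h))
    rw [n2_eq]
    exact single_le_sum (f := fun n => ‖q.coeff n‖ ^ 2) (fun _ _ => by positivity)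
      (mem_range.2 (by omega))
  · rw [coeff_eq_zero_of_natDegree_lt (by omega)]; simpa using hC

/-- The reflected polynomial. -/
noncomputable def rf (t : ℂ[X]) : ℂ[X] :=
  ∑ j ∈ range (t.natDegree + 1), C (conj (t.coeff j)) * X ^ (t.natDegree - j)

lemma rf_eval (t : ℂ[X]) {z : ℂ} (hz : ‖z‖ = 1) :
    (rf t).eval z = z ^ t.natDegree * conj (t.eval z) := by
  rw [rf, eval_finsetSum, eval_eq_sum_range (p := t), map_sum, mul_sum]
  refine sum_congr rfl fun j hj => ?_
  rw [eval_mul, eval_C, eval_pow, eval_X, map_mul,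
    ← conj_pow_mul hz (Nat.lt_succ_iff.1 (mem_range.1 hj))]
  ring

/-- The defect polynomial. -/
noncomputable def bb (t : ℂ[X]) : ℂ[X] := C (1 / 2 : ℂ) * (X ^ t.natDegree - rf t * t)

lemma bb_norm (t : ℂ[X]) {z : ℂ} (hz : ‖z‖ = 1) (h : ‖t.eval z‖ ≤ 1) :
    ‖(bb t).eval z‖ = (1 - ‖t.eval z‖ ^ 2) / 2 := by
  have : (bb t).eval z = z ^ t.natDegree * (((1 - ‖t.eval z‖ ^ 2) / 2 : ℝ) : ℂ) := by
    rw [bb, eval_mul, eval_C, eval_sub, eval_mul, rf_eval t hz, eval_pow, eval_X, mul_assoc,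
      mul_comm (conj _), Complex.mul_conj, Complex.normSq_eq_norm_sq]
    push_cast; ring
  rw [this, norm_mul, norm_pow, hz, one_pow, one_mul, Complex.norm_real, Real.norm_eq_abs,
    abs_of_nonneg]
  nlinarith [norm_nonneg (t.eval z)]

lemma n2_orth (t r : ℂ[X]) {n : ℕ} (hn : t.natDegree < n) :
    n2 (t + X ^ n * r) = n2 t + n2 r := by
  have d : Differentiable ℂ fun z : ℂ => (rf t * X ^ (n - t.natDegree) * r).eval z :=
    Polynomial.differentiable _
  have c2 : Continuous fun z : ℂ => 2 * ((rf t * X ^ (n - t.natDegree) * r).eval z).re := by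
    fun_prop
  have e : n2 (t + X ^ n * r) = av fun z => (‖t.eval z‖ ^ 2 + 2 *
      ((rf t * X ^ (n - t.natDegree) * r).eval z).re) + ‖r.eval z‖ ^ 2 := by
    refine av_congr fun z hz => ?_
    rw [eval_add, @norm_add_sq ℂ]
    congr 2
    · congr 1
      have : z ^ n = z ^ t.natDegree * z ^ (n - t.natDegree) := by
        rw [← pow_add]; congr 1; omega
      simp only [eval_mul, eval_pow, eval_X, rf_eval t hz, RCLike.inner_apply, this,
        RCLike.re_to_complex]
      congr 1; ring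
    · simp [hz]
  rw [e, av_add ((cont_sq t).fun_add c2).continuousOn (cont_sq r).continuousOn,
    av_add (cont_sq t).continuousOn c2.continuousOn, av_mul, av_re d]
  have : n - t.natDegree ≠ 0 := by omega
  simp [n2, this]

/-- One step of the tower. -/
noncomputable def stp (t : ℂ[X]) (n : ℕ) : ℂ[X] := t * (1 - X ^ n * bb t)

/-- The scalar invariants of the tower. -/
structure Sc (t : ℂ[X]) : Prop where
  le : ∀ z, ‖z‖ = 1 → ‖t.eval z‖ ≤ 1
  ne : ∀ z, ‖z‖ ≤ 1 → t.eval z ≠ 0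
  zero : t.eval 0 = 1 / 2

lemma Sc.bb_le {t : ℂ[X]} (h : Sc t) {z : ℂ} (hz : ‖z‖ = 1) : ‖(bb t).eval z‖ ≤ 1 / 2 := by
  rw [bb_norm t hz (h.le z hz)]; nlinarith [norm_nonneg (t.eval z)]

lemma Sc.stp {t : ℂ[X]} (h : Sc t) {n : ℕ} (hn : 0 < n) : Sc (stp t n) := by
  have hp : ∀ z, ‖z‖ ≤ 1 → ‖(X ^ n * bb t).eval z‖ ≤ 1 / 2 := fun z hz => by
    refine Complex.norm_le_of_forall_mem_frontier_norm_le (U := ball (0 : ℂ) 1) isBounded_ball
      (Polynomial.differentiable _).diffContOnCl (fun w hw => ?_) ?_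
    · rw [frontier_ball _ one_ne_zero] at hw
      have hw' : ‖w‖ = 1 := by simpa using hw
      simpa [hw'] using h.bb_le hw'
    · rw [closure_ball _ one_ne_zero]; simpa using hz
  refine ⟨fun z hz => ?_, fun z hz => ?_, ?_⟩
  · rw [E.stp, eval_mul, norm_mul, eval_sub, eval_one]
    have h1 : ‖1 - (X ^ n * bb t).eval z‖ ≤ 1 + (1 - ‖t.eval z‖ ^ 2) / 2 := by
      refine (norm_sub_le _ _).trans ?_
      simp [hz, bb_norm t hz (h.le z hz)]
    have h2 := h.le z hz
    have h3 := norm_nonneg (t.eval z)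
    refine (mul_le_mul_of_nonneg_left h1 h3).trans ?_
    nlinarith [mul_nonneg (sq_nonneg (1 - ‖t.eval z‖)) (by linarith : 0 ≤ ‖t.eval z‖ + 2)]
  · rw [E.stp, eval_mul, eval_sub, eval_one]
    refine mul_ne_zero (h.ne z hz) fun h0 => ?_
    have := hp z hz
    rw [← sub_eq_zero.1 h0] at this
    norm_num at this
  · simp [E.stp, hn.ne', h.zero]

lemma n2_neg (q : ℂ[X]) : n2 (-q) = n2 q := by simp [n2]

lemma n2_stp (t s : ℂ[X]) {n : ℕ} (hn : (t - s).natDegree < n) :
    n2 (stp t n - s) = n2 (t - s) + n2 (t * bb t) := by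
  rw [← n2_neg (t * bb t), ← n2_orth _ _ hn]
  congr 1; rw [stp]; ring

lemma Sc.deg_le {t : ℂ[X]} (h : Sc t) {n : ℕ} (hn : 0 < n) : t.natDegree ≤ (E.stp t n).natDegree := by
  have h0 : E.stp t n ≠ 0 := fun h0 => (h.stp hn).ne 0 (by simp) (by simp [h0])
  exact natDegree_le_of_dvd (Dvd.intro _ rfl) h0

lemma Sc.n2_bb {t : ℂ[X]} (h : Sc t) {L : ℝ} (hL : 0 < L) :
    n2 (bb t) ≤ Real.exp (2 * L) * n2 (t * bb t) + 1 / L := by
  have cl : ContinuousOn (fun z => Real.log ‖t.eval z‖) (sphere 0 1) :=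
    ContinuousOn.log (by fun_prop) fun z hz =>
      norm_ne_zero_iff.2 (h.ne z (by simpa using (mem_sphere_iff_norm.1 hz).le))
  have hl : av (fun z => Real.log ‖t.eval z‖) = Real.log (1 / 2) := by
    have := AnalyticOnNhd.circleAverage_log_norm_of_ne_zero (R := 1) (c := 0)
      (g := fun z => t.eval z) (fun z _ => (Polynomial.differentiable t).analyticAt z)
      fun u hu => h.ne u (by simpa using hu)
    simpa [h.zero, av] using this
  have c1 : Continuous fun z : ℂ => Real.exp (2 * L) * ‖(t * bb t).eval z‖ ^ 2 := by fun_prop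
  have c2 : ContinuousOn (fun z => (-1 / L) * Real.log ‖t.eval z‖) (sphere 0 1) :=
    continuousOn_const.mul cl
  have := av_mono (cont_sq (bb t)).continuousOn (c1.continuousOn.add c2) fun z hz => by
    have h1 := h.bb_le hz
    have h2 := h.le z hz
    have h3 : 0 < ‖t.eval z‖ := norm_pos_iff.2 (h.ne z hz.le)
    have h4 : Real.log ‖t.eval z‖ ≤ 0 := Real.log_nonpos h3.le h2
    have h5 := norm_nonneg ((bb t).eval z)
    have h6 : 0 ≤ -1 / L * Real.log ‖t.eval z‖ :=
      mul_nonneg_of_nonpos_of_nonpos (div_nonpos_of_nonpos_of_nonneg (by norm_num) hL.le) h4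
    simp only [Pi.add_apply, eval_mul, norm_mul]
    by_cases hc : -L ≤ Real.log ‖t.eval z‖
    · have : 1 ≤ Real.exp (2 * L) * ‖t.eval z‖ ^ 2 := by
        rw [← Real.exp_log h3, ← Real.exp_nat_mul, ← Real.exp_add]
        exact Real.one_le_exp (by push_cast; linarith)
      nlinarith [mul_le_mul_of_nonneg_right this (sq_nonneg ‖(bb t).eval z‖)]
    · have : 1 ≤ -1 / L * Real.log ‖t.eval z‖ := by
        rw [div_mul_eq_mul_div, le_div_iff₀ hL]; linarith
      have : 0 ≤ Real.exp (2 * L) * (‖t.eval z‖ * ‖(bb t).eval z‖) ^ 2 := by positivity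
      nlinarith
  refine this.trans ?_
  have e := av_add c1.continuousOn c2
  simp only [av_mul, hl] at e
  change av (fun z => Real.exp (2 * L) * ‖(t * bb t).eval z‖ ^ 2 +
    -1 / L * Real.log ‖t.eval z‖) ≤ _
  rw [e, n2]
  have : Real.log (1 / 2) = -Real.log 2 := by simp
  have h2 : Real.log 2 ≤ 1 := by linarith [Real.log_two_lt_d9]
  rw [this]
  have : -1 / L * -Real.log 2 = Real.log 2 / L := by ring
  rw [this]
  gcongr

/-- Along any tower there is a subsequence with rapidly decreasing increments and defects. -/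
lemma tower (t : ℕ → ℂ[X]) (n : ℕ → ℕ) (h0 : Sc (t 0)) (hs : ∀ k, t (k + 1) = stp (t k) (n k))
    (hn : ∀ k, (t k).natDegree < n k) (η : ℕ → ℝ) (hη : ∀ j, 0 < η j) :
    ∃ φ : ℕ → ℕ, StrictMono φ ∧ ∀ j, n2 (t (φ (j + 1)) - t (φ j)) ≤ η j ∧
      n2 (bb (t (φ j))) ≤ η j := by
  have hS : ∀ k, Sc (t k) := fun k => by
    induction k with
    | zero => exact h0
    | succ k ih => rw [hs]; exact ih.stp (by have := hn k; omega)
  have hd : Monotone fun k => (t k).natDegree := monotone_nat_of_le_succ fun k => by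
    rw [hs]; exact (hS k).deg_le (by have := hn k; omega)
  have ha : ∀ k, n2 (t (k + 1)) = n2 (t k) + n2 (t k * bb (t k)) := fun k => by
    simpa [hs] using n2_stp (t k) 0 (n := n k) (by simpa using hn k)
  have hdiff : ∀ k l, k ≤ l → n2 (t l - t k) = n2 (t l) - n2 (t k) := fun k l hkl => by
    induction l, hkl using Nat.le_induction with
    | base => simpa [n2] using av_const 0
    | succ l hkl ih =>
      rw [ha, hs, n2_stp, ih]; · ring
      exact (natDegree_sub_le _ _).trans_lt (max_lt (hn l) ((hd hkl).trans_lt (hn l)))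
  have hm : Monotone fun k => n2 (t k) := monotone_nat_of_le_succ fun k => by
    rw [ha]; linarith [n2_nonneg (t k * bb (t k))]
  have hb : BddAbove (Set.range fun k => n2 (t k)) :=
    ⟨1, by rintro _ ⟨k, rfl⟩; simpa using n2_le (hS k).le⟩
  have hl := tendsto_atTop_ciSup hm hb
  set A := ⨆ k, n2 (t k)
  have hA : ∀ k, n2 (t k) ≤ A := fun k => le_ciSup hb k
  have hev : ∀ ε > 0, ∀ᶠ k in atTop, A - n2 (t k) ≤ ε := fun ε hε =>
    (hl.eventually (lt_mem_nhds (show A - ε < A by linarith))).mono fun k hk => by linarith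
  obtain ⟨φ, hφ, hP⟩ := extraction_forall_of_eventually
    (P := fun j k => A - n2 (t k) ≤ η j ∧ n2 (bb (t k)) ≤ η j) fun j => by
      have hj := hη j
      filter_upwards [hev _ hj, hev (η j / 2 / Real.exp (2 * (2 / η j))) (by positivity)]
        with k h1 h2
      refine ⟨h1, ((hS k).n2_bb (L := 2 / η j) (by positivity)).trans ?_⟩
      have h3 : n2 (t k * bb (t k)) ≤ η j / 2 / Real.exp (2 * (2 / η j)) := by
        linarith [ha k, hA (k + 1)]
      rw [le_div_iff₀ (Real.exp_pos _)] at h3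
      have : 1 / (2 / η j) = η j / 2 := by field_simp
      rw [this]; linarith
  refine ⟨φ, hφ, fun j => ⟨?_, (hP j).2⟩⟩
  rw [hdiff _ _ (hφ.monotone (Nat.le_succ j))]
  linarith [(hP j).1, hA (φ (j + 1))]

end Pool.Agent.Lib.MP_dee751_an.E
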