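import Pool.Agent.Lib.MP_dee751_an.EA

/-! The tower of polynomials applied to rotations of a power bounded operator. -/

namespace Pool.Agent.Lib.MP_dee751_an.E

open Metric Set Filter Topology Polynomial Real Finset
open scoped InnerProductSpace ComplexConjugate

variable {H : Type*} [NormedAddCommGroup H] [InnerProductSpace ℂ H] [CompleteSpace H]
  {T : H →L[ℂ] H} {M : ℝ}

/-- A polynomial evaluated at a rotated operator. -/
noncomputable def ev (T : H →L[ℂ] H) (q : ℂ[X]) (z : ℂ) : H →L[ℂ] H := aeval (z • T) q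

omit [CompleteSpace H] in
lemma ev_eq (q : ℂ[X]) (z : ℂ) :
    ev T q z = ∑ n ∈ range (q.natDegree + 1), z ^ n • (q.coeff n • T ^ n) := by
  rw [ev, aeval_eq_sum_range]
  exact sum_congr rfl fun n _ => by rw [_root_.smul_pow, smul_comm]

omit [CompleteSpace H] in
lemma ev_apply (q : ℂ[X]) (z : ℂ) (x : H) :
    ev T q z x = ∑ n ∈ range (q.natDegree + 1), z ^ n • (q.coeff n • (T ^ n) x) := by
  simp [ev_eq]

omit [CompleteSpace H] in
lemma cont_ev (q : ℂ[X]) (x : H) : Continuous fun z => ev T q z x := by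
  simp only [ev_apply]; fun_prop

omit [CompleteSpace H] in
lemma av_ev (hM : ∀ n, ‖T ^ n‖ ≤ M) (q : ℂ[X]) (x : H) :
    av (fun z => ‖ev T q z x‖ ^ 2) ≤ (M * ‖x‖) ^ 2 * n2 q := by
  simp only [ev_apply]
  rw [parseval, n2_eq, mul_sum]
  refine sum_le_sum fun n _ => ?_
  rw [norm_smul, mul_pow, mul_comm]
  gcongr
  exact ((T ^ n).le_opNorm x).trans (by gcongr; exact hM n)

omit [CompleteSpace H] in
lemma norm_rot (hM : ∀ n, ‖T ^ n‖ ≤ M) {z : ℂ} (hz : ‖z‖ = 1) (n : ℕ) : ‖(z • T) ^ n‖ ≤ M := by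
  rw [_root_.smul_pow, norm_smul, norm_pow, hz]; simpa using hM n

omit [CompleteSpace H] in
lemma norm_ev (hM : ∀ n, ‖T ^ n‖ ≤ M) {q : ℂ[X]} {C : ℝ} (hC : 0 ≤ C)
    (h : ∀ z, ‖z‖ = 1 → ‖q.eval z‖ ≤ C) {z : ℂ} (hz : ‖z‖ = 1) :
    ‖ev T q z‖ ≤ (q.natDegree + 1) * (C * M) := by
  rw [ev_eq]
  refine (norm_sum_le _ _).trans ((sum_le_card_nsmul _ _ (C * M) fun n _ => ?_).trans (by simp))
  rw [norm_smul, norm_smul, norm_pow, hz, one_pow, one_mul]
  exact mul_le_mul (coeff_le hC h n) (hM n) (norm_nonneg _) hC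

/-- Uniform invertibility on the circle. -/
def Inv (T : H →L[ℂ] H) (t : ℂ[X]) (D : ℝ) : Prop :=
  ∀ z, ‖z‖ = 1 → IsUnit (ev T t z) ∧ ‖Ring.inverse (ev T t z)‖ ≤ D

lemma inv_stp (hM : ∀ n, ‖T ^ n‖ ≤ M) {t : ℂ[X]} (h : Sc t) {D : ℝ} (hD : Inv T t D) :
    ∃ D', ∀ n, Inv T (stp t n) D' := by
  have hM0 : 0 ≤ M := (norm_nonneg _).trans (hM 0)
  set e := (bb t).natDegree
  let g : ℕ → ℝ := fun j => M * ((j * e + 1) * ((1 / 2) ^ j * M))
  have hg : Summable g := by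
    have h1 := summable_pow_mul_geometric_of_norm_lt_one (R := ℝ) 1 (r := 1 / 2) (by norm_num)
    refine (((h1.mul_left (e : ℝ)).add summable_geometric_two).mul_left (M * M)).congr fun j => ?_
    simp only [g]; ring
  refine ⟨(∑' j, g j) * D, fun n z hz => ?_⟩
  set P := ev T (X ^ n * bb t) z
  have hP : ∀ j, ‖P ^ j‖ ≤ g j := fun j => by
    have : P ^ j = (z • T) ^ (n * j) * ev T (bb t ^ j) z := by
      rw [show P = aeval (z • T) (X ^ n * bb t) from rfl, ← map_pow, mul_pow, map_mul, ← pow_mul,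
        map_pow, aeval_X, ev]
    rw [this]
    refine (norm_mul_le _ _).trans (mul_le_mul (norm_rot hM hz _) ?_ (norm_nonneg _) hM0)
    refine (norm_ev hM (C := (1 / 2) ^ j) (by positivity) (fun w hw => ?_) hz).trans ?_
    · rw [eval_pow, norm_pow]; exact pow_le_pow_left₀ (norm_nonneg _) (h.bb_le hw) j
    · gcongr; exact_mod_cast natDegree_pow_le
  have hs : Summable fun j => P ^ j := .of_norm_bounded hg hP
  let u : (H →L[ℂ] H)ˣ := ⟨1 - P, ∑' j, P ^ j, hs.one_sub_mul_tsum_pow, hs.tsum_pow_mul_one_sub⟩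
  have e1 : ev T (stp t n) z = ev T t z * u := by simp [stp, ev, u, P]
  rw [e1]
  refine ⟨(hD z hz).1.mul u.isUnit, ?_⟩
  rw [Ring.inverse_mul (.inr u.isUnit), Ring.inverse_unit]
  exact (norm_mul_le _ _).trans (mul_le_mul (tsum_of_norm_bounded hg.hasSum hP) (hD z hz).2
    (norm_nonneg _) (tsum_nonneg fun j => by positivity))

/-- The solution of the adjoint equation. -/
noncomputable def uu (T : H →L[ℂ] H) (y : H) (t : ℂ[X]) (z : ℂ) : H :=
  star (Ring.inverse (ev T t z)) y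

lemma step (hM : ∀ n, ‖T ^ n‖ ≤ M) {y : H} (hy : Tendsto (fun n => (star T ^ n) y) atTop (𝓝 0))
    {t : ℂ[X]} (h : Sc t) (hD : ∃ D, Inv T t D) {ε : ℝ} (hε : 0 < ε) :
    ∃ n, t.natDegree < n ∧ (∃ D, Inv T (stp t n) D) ∧
      ∀ z, ‖z‖ = 1 → ‖uu T y (stp t n) z - uu T y t z‖ ≤ ε := by
  obtain ⟨D, hD⟩ := hD
  obtain ⟨D', hD'⟩ := inv_stp hM h hD
  set K := ((bb t).natDegree + 1) * (1 / 2 * M) * D'
  have h1 : Tendsto (fun n => K * ‖(star T ^ n) y‖) atTop (𝓝 0) := by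
    simpa using hy.norm.const_mul K
  obtain ⟨n, hn1, hn2⟩ := ((eventually_gt_atTop t.natDegree).and
    (h1.eventually (gt_mem_nhds hε))).exists
  refine ⟨n, hn1, ⟨D', hD' n⟩, fun z hz => le_trans ?_ hn2.le⟩
  have e1 : ev T (stp t n) z = ev T t z - ev T t z * ((z • T) ^ n * ev T (bb t) z) := by
    simp [stp, ev, mul_sub]
  have e2 : Ring.inverse (ev T (stp t n) z) - Ring.inverse (ev T t z) =
      (z • T) ^ n * (ev T (bb t) z * Ring.inverse (ev T (stp t n) z)) := by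
    have a1 := Ring.mul_inverse_cancel _ (hD' n z hz).1
    have a2 := Ring.inverse_mul_cancel _ (hD z hz).1
    set R' := Ring.inverse (ev T (stp t n) z)
    set R := Ring.inverse (ev T t z)
    rw [e1] at a1
    calc R' - R = (R * ev T t z) * R' - R *
          ((ev T t z - ev T t z * ((z • T) ^ n * ev T (bb t) z)) * R') := by rw [a1, a2]; simp
      _ = (R * ev T t z) * ((z • T) ^ n * (ev T (bb t) z * R')) := by noncomm_ring
      _ = _ := by rw [a2, one_mul]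
  rw [uu, uu, ← sub_apply, ← star_sub, e2, star_mul,
    mul_apply_eq_comp]
  refine (ContinuousLinearMap.le_opNorm _ _).trans (mul_le_mul ?_ ?_ (norm_nonneg _) ?_)
  · rw [norm_star]
    exact (norm_mul_le _ _).trans (mul_le_mul (norm_ev hM (by norm_num) (fun w hw => h.bb_le hw) hz)
      (hD' n z hz).2 (norm_nonneg _) ((norm_nonneg _).trans
        (norm_ev hM (by norm_num) (fun w hw => h.bb_le hw) hz)))
  · rw [_root_.smul_pow, star_smul, star_pow T, smul_apply, norm_smul, norm_star, norm_pow, hz]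
    simp
  · have : 0 ≤ M := (norm_nonneg _).trans (hM 0)
    have : 0 ≤ D' := (norm_nonneg _).trans (hD' n z hz).2
    positivity

/-- The tower adapted to the vector `y`. -/
lemma exists_tower (hM : ∀ n, ‖T ^ n‖ ≤ M) {y : H} (hy0 : y ≠ 0)
    (hy : Tendsto (fun n => (star T ^ n) y) atTop (𝓝 0)) (η : ℕ → ℝ) (hη : ∀ j, 0 < η j) :
    ∃ s : ℕ → ℂ[X], (s 0).eval 0 = 1 / 2 ∧ (∀ j, n2 (s (j + 1) - s j) ≤ η j ∧
      n2 (bb (s j)) ≤ η j) ∧ ∀ z, ‖z‖ = 1 → (∀ j, IsUnit (ev T (s j) z)) ∧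
      ∃ u, Tendsto (fun j => uu T y (s j) z) atTop (𝓝 u) ∧ ‖y‖ ^ 2 ≤ (⟪y, u⟫_ℂ).re := by
  have hy1 : 0 < ‖y‖ := norm_pos_iff.2 hy0
  let G := {t : ℂ[X] // Sc t ∧ ∃ D, Inv T t D}
  choose ν h1 h2 h3 using fun (k : ℕ) (t : G) =>
    step hM hy t.2.1 t.2.2 (ε := ‖y‖ / 2 / 2 ^ k) (by positivity)
  have e0 : ∀ z, ev T (C (1 / 2 : ℂ)) z = (1 / 2 : ℂ) • (1 : H →L[ℂ] H) := fun z => by
    simp [ev, Algebra.algebraMap_eq_smul_one]
  let u0 : (H →L[ℂ] H)ˣ := ⟨(1 / 2 : ℂ) • 1, (2 : ℂ) • 1, by simp [smul_smul], by simp [smul_smul]⟩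
  have i0 : ∀ z, Ring.inverse (ev T (C (1 / 2 : ℂ)) z) = (2 : ℂ) • (1 : H →L[ℂ] H) := fun z => by
    rw [e0]; exact Ring.inverse_unit u0
  let t0 : G := ⟨C (1 / 2), ⟨fun z _ => by norm_num, fun z _ => by norm_num, by simp⟩,
    ‖(2 : ℂ) • (1 : H →L[ℂ] H)‖, fun z _ => ⟨e0 z ▸ u0.isUnit, (i0 z ▸ le_rfl)⟩⟩
  let t : ℕ → G := fun k => Nat.rec t0
    (fun k t => ⟨stp t.1 (ν k t), t.2.1.stp (by have := h1 k t; omega), h2 k t⟩) k
  obtain ⟨φ, hφ, hP⟩ := tower (fun k => (t k).1) (fun k => ν k (t k)) t0.2.1 (fun k => rfl)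
    (fun k => h1 k (t k)) η hη
  refine ⟨fun j => (t (φ j)).1, (t (φ 0)).2.1.zero, hP, fun z hz => ⟨fun j => ?_, ?_⟩⟩
  · obtain ⟨D, hD⟩ := (t (φ j)).2.2
    exact (hD z hz).1
  have hd : ∀ k, dist (uu T y (t k).1 z) (uu T y (t (k + 1)).1 z) ≤ ‖y‖ / 2 / 2 ^ k := fun k => by
    rw [dist_comm, dist_eq_norm]; exact h3 k (t k) z hz
  obtain ⟨u, hu⟩ := cauchySeq_tendsto_of_complete (cauchySeq_of_le_geometric_two hd)
  refine ⟨u, hu.comp hφ.tendsto_atTop, ?_⟩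
  have h4 := dist_le_of_le_geometric_two_of_tendsto₀ hd hu
  have h5 : uu T y (t 0).1 z = (2 : ℂ) • y := by
    change star (Ring.inverse (ev T (C (1 / 2 : ℂ)) z)) y = _
    rw [i0]; simp
  rw [h5, dist_eq_norm] at h4
  have h6 : (⟪y, (2 : ℂ) • y - u⟫_ℂ).re ≤ ‖y‖ * ‖y‖ :=
    (Complex.re_le_norm _).trans ((norm_inner_le_norm _ _).trans (by gcongr))
  rw [inner_sub_right, inner_smul_right, inner_self_eq_norm_sq_to_K] at h6
  simp only [Complex.sub_re, Complex.mul_re, Complex.re_ofNat, Complex.im_ofNat, zero_mul,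
    sub_zero, Complex.coe_algebraMap, ← Complex.ofReal_pow, Complex.ofReal_re] at h6
  nlinarith

section Form
variable {Q W : H →L[ℂ] H}

lemma form_pow (h : star W * Q * W = Q) (n : ℕ) (a b : H) :
    ⟪(W ^ n) a, Q ((W ^ n) b)⟫_ℂ = ⟪a, Q b⟫_ℂ := by
  induction n with
  | zero => simp
  | succ n ih =>
    rw [← ih, pow_succ', mul_apply_eq_comp, mul_apply_eq_comp]
    conv_rhs => rw [← h]
    simp [ContinuousLinearMap.star_eq_adjoint, ContinuousLinearMap.adjoint_inner_right]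

lemma form_poly (h : star W * Q * W = Q) (t : ℂ[X]) (f g : H) :
    ⟪aeval W t f, Q (aeval W t g)⟫_ℂ = ⟪f, Q g⟫_ℂ -
      2 * ⟪(W ^ t.natDegree) f, Q (aeval W (bb t) g)⟫_ℂ := by
  set d := t.natDegree
  have c : ∀ x, (W ^ d) (aeval W t x) = aeval W t ((W ^ d) x) := fun x => by
    have : W ^ d * aeval W t = aeval W t * W ^ d := by
      have := congrArg (aeval W) (mul_comm (X ^ d : ℂ[X]) t)
      simpa only [map_mul, map_pow, aeval_X] using this
    exact congrArg (fun A : H →L[ℂ] H => A x) this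
  have e : ∀ f' k, ⟪aeval W t f', Q ((W ^ d) k)⟫_ℂ = ⟪f', Q (aeval W (rf t) k)⟫_ℂ := fun f' k => by
    rw [aeval_eq_sum_range, rf, map_sum]
    simp only [_root_.sum_apply, sum_inner, map_sum, inner_sum]
    refine sum_congr rfl fun j hj => ?_
    have hj' : j + (d - j) = d := by have := mem_range.1 hj; omega
    have : (W ^ d) k = (W ^ j) ((W ^ (d - j)) k) := by
      rw [← mul_apply_eq_comp, ← pow_add, hj']
    rw [smul_apply, inner_smul_left, this, form_pow h]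
    simp [Algebra.algebraMap_eq_smul_one, inner_smul_right, d]
  rw [← form_pow h d, c f, e, ← form_pow h d f g]
  simp [bb, Algebra.algebraMap_eq_smul_one, d]

end Form

end Pool.Agent.Lib.MP_dee751_an.E
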