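import Pool.Agent.Lib.MP_dee751_an.EB

/-! The core theorem: a pair of non-zero vectors that the commutant keeps orthogonal. -/

namespace Pool.Agent.Lib.MP_dee751_an.E

open Metric Set Filter Topology Polynomial Real Finset
open scoped InnerProductSpace ComplexConjugate

variable {H : Type*} [NormedAddCommGroup H] [InnerProductSpace ℂ H] [CompleteSpace H]
  {T Q : H →L[ℂ] H} {M : ℝ}

/-- Two non-zero vectors that stay orthogonal under the commutant. -/
def Pair (T : H →L[ℂ] H) : Prop :=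
  ∃ a w : H, a ≠ 0 ∧ w ≠ 0 ∧ ∀ S : H →L[ℂ] H, S * T = T * S → ⟪S a, w⟫_ℂ = 0

lemma exists_point (G : ℕ → ℂ → ℝ) (hc : ∀ J, Continuous (G J))
    (hm : ∀ J z, G J z ≤ G (J + 1) z) {c c' : ℝ} (h : ∀ J, av (G J) ≤ c) (hcc : c < c') :
    ∃ z, ‖z‖ = 1 ∧ ∀ J, G J z ≤ c' := by
  have cl : ∀ J, IsClosed (sphere (0 : ℂ) 1 ∩ {z | G J z ≤ c'}) := fun J =>
    isClosed_sphere.inter (isClosed_le (hc J) continuous_const)
  obtain ⟨z, hz⟩ := IsCompact.nonempty_iInter_of_sequence_nonempty_isCompact_isClosed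
    (fun J => sphere (0 : ℂ) 1 ∩ {z | G J z ≤ c'})
    (fun J z hz => ⟨hz.1, (hm J z).trans hz.2⟩) (fun J => by
      by_contra hn
      have := av_mono (f := fun _ => c') continuousOn_const (hc J).continuousOn fun z hz =>
        (not_le.1 fun h => hn ⟨z, by simpa using hz, h⟩).le
      rw [av_const] at this
      linarith [h J]) ((isCompact_sphere 0 1).inter_right (isClosed_le (hc 0) continuous_const)) cl
  rw [mem_iInter] at hz
  exact ⟨z, by simpa using (hz 0).1, fun J => (hz J).2⟩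

lemma sum_quarter (J : ℕ) : ∑ j ∈ range J, (1 / 4 : ℝ) ^ j ≤ 4 / 3 := by
  have := (summable_geometric_of_lt_one (r := 1 / 4) (by norm_num) (by norm_num)).sum_le_tsum
    (range J) fun _ _ => by positivity
  rw [tsum_geometric_of_lt_one (by norm_num) (by norm_num)] at this
  linarith [show (1 - 1 / 4 : ℝ)⁻¹ = 4 / 3 by norm_num]

lemma le_half_pow {a B : ℝ} {j : ℕ} (h : 4 ^ j * a ^ 2 ≤ B) : a ≤ (B + 1) * (1 / 2) ^ j := by
  have e : (4 : ℝ) ^ j = (2 ^ j) ^ 2 := by rw [← pow_mul, mul_comm, pow_mul]; norm_num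
  rw [one_div, inv_pow, ← div_eq_mul_inv, le_div_iff₀ (by positivity)]
  rw [e] at h
  nlinarith [sq_nonneg (a * 2 ^ j - 1), sq_nonneg (a * 2 ^ j)]

omit [InnerProductSpace ℂ H] in
lemma conv_of_bound {x : ℕ → H} {B : ℝ} (h : ∀ j, 4 ^ j * ‖x (j + 1) - x j‖ ^ 2 ≤ B) :
    ∃ a, Tendsto x atTop (𝓝 a) :=
  cauchySeq_tendsto_of_complete (cauchySeq_of_le_geometric (1 / 2) (B + 1) (by norm_num)
    fun j => by rw [dist_comm, dist_eq_norm]; exact le_half_pow (h j))

theorem core (hM : ∀ n, ‖T ^ n‖ ≤ M) (hQ : star T * Q * T = Q) {g : H} (hy0 : Q g ≠ 0)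
    (hy : Tendsto (fun n => (star T ^ n) (Q g)) atTop (𝓝 0)) : Pair T := by
  set y := Q g with hyg
  have hy1 : 0 < ‖y‖ := norm_pos_iff.2 hy0
  set κ := 2 * ‖Q‖ ^ 2 + 1
  have hκ : 0 < κ := by positivity
  set A := (M * ‖y‖) ^ 2 + 2 * (M * ‖g‖) ^ 2 + 1
  have hA : 0 < A := by positivity
  set δ := ‖y‖ ^ 2 / 16 / (κ * A)
  have hδ : 0 < δ := by positivity
  obtain ⟨s, s0, hs, hu⟩ := exists_tower hM hy0 hy (fun j => δ * (1 / 4) ^ j * (1 / 4) ^ j)
    fun j => by positivity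
  let F : ℕ → ℂ → ℝ := fun j z => κ * 4 ^ j * (‖ev T (s (j + 1) - s j) z y‖ ^ 2 +
    ‖ev T (s (j + 1) - s j) z g‖ ^ 2 + ‖ev T (bb (s j)) z g‖ ^ 2)
  have F0 : ∀ j z, 0 ≤ F j z := fun j z => by positivity
  have cn : ∀ q x, Continuous fun z => ‖ev T q z x‖ ^ 2 := fun q x => (cont_ev q x).norm.pow 2
  have cF : ∀ j, Continuous (F j) := fun j =>
    continuous_const.mul (((cn _ _).add (cn _ _)).add (cn _ _))
  have aF : ∀ j, av (F j) ≤ ‖y‖ ^ 2 / 16 * (1 / 4) ^ j := fun j => by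
    simp only [F]
    rw [av_mul, av_add ((cn _ _).fun_add (cn _ _)).continuousOn (cn _ _).continuousOn,
      av_add (cn _ _).continuousOn (cn _ _).continuousOn]
    have a1 := (av_ev hM (s (j + 1) - s j) y).trans
      (mul_le_mul_of_nonneg_left (hs j).1 (sq_nonneg _))
    have a2 := (av_ev hM (s (j + 1) - s j) g).trans
      (mul_le_mul_of_nonneg_left (hs j).1 (sq_nonneg _))
    have a3 := (av_ev hM (bb (s j)) g).trans (mul_le_mul_of_nonneg_left (hs j).2 (sq_nonneg _))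
    have e : ‖y‖ ^ 2 / 16 * (1 / 4) ^ j = κ * 4 ^ j * (A * (δ * (1 / 4) ^ j * (1 / 4) ^ j)) := by
      simp only [δ, one_div, inv_pow]; field_simp
    rw [e]
    refine mul_le_mul_of_nonneg_left ?_ (by positivity)
    have : 0 ≤ δ * (1 / 4) ^ j * (1 / 4) ^ j := by positivity
    simp only [A]; nlinarith
  have d0 : Differentiable ℂ fun z => ⟪y, Q (ev T (s 0) z g)⟫_ℂ := by
    simp only [ev_apply, map_sum, map_smul, inner_sum, inner_smul_right]; fun_prop
  have c0 : Continuous fun z => (⟪y, Q (ev T (s 0) z g)⟫_ℂ).re :=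
    Complex.continuous_re.comp d0.continuous
  have a0 : av (fun z => (⟪y, Q (ev T (s 0) z g)⟫_ℂ).re) = ‖y‖ ^ 2 / 2 := by
    have : ev T (s 0) 0 = (1 / 2 : ℂ) • (1 : H →L[ℂ] H) := by
      rw [ev, zero_smul, ← coeff_zero_eq_aeval_zero', coeff_zero_eq_eval_zero, s0,
        Algebra.algebraMap_eq_smul_one]
    rw [av_re d0, this]
    simp [← hyg, inner_self_eq_norm_sq_to_K, ← Complex.ofReal_pow]
    ring
  obtain ⟨z, hz, hG⟩ := exists_point
    (fun J z => (⟪y, Q (ev T (s 0) z g)⟫_ℂ).re + ∑ j ∈ range J, F j z)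
    (fun J => c0.add (continuous_finsetSum _ fun j _ => cF j))
    (fun J z => by rw [sum_range_succ]; linarith [F0 J z]) (c := 7 / 12 * ‖y‖ ^ 2)
    (c' := 3 / 4 * ‖y‖ ^ 2) (fun J => by
      rw [av_add c0.continuousOn (continuous_finsetSum _ fun j _ => cF j).continuousOn, a0,
        av_sum _ fun j _ => (cF j).continuousOn]
      have := (sum_le_sum fun j (_ : j ∈ range J) => aF j).trans_eq (mul_sum _ _ _).symm
      nlinarith [sum_quarter J]) (by nlinarith)
  obtain ⟨hun, u, hu1, hu2⟩ := hu z hz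
  set r0 := (⟪y, Q (ev T (s 0) z g)⟫_ℂ).re
  set B := 3 / 4 * ‖y‖ ^ 2 - r0
  have hF : ∀ j, F j z ≤ B := fun j => by
    have := hG (j + 1)
    rw [sum_range_succ] at this
    simp only [B]
    linarith [sum_nonneg fun i (_ : i ∈ range j) => F0 i z]
  have sub : ∀ j x, ev T (s (j + 1) - s j) z x = ev T (s (j + 1)) z x - ev T (s j) z x :=
    fun j x => by simp [ev]
  have hκ1 : 1 ≤ κ := by simp only [κ]; nlinarith [sq_nonneg ‖Q‖]
  have hb : ∀ j, 4 ^ j * (‖ev T (s (j + 1) - s j) z y‖ ^ 2 +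
      ‖ev T (s (j + 1) - s j) z g‖ ^ 2 + ‖ev T (bb (s j)) z g‖ ^ 2) ≤ B := fun j => by
    refine le_trans ?_ (hF j)
    simp only [F]; rw [mul_assoc]
    exact le_mul_of_one_le_left (by positivity) hκ1
  have p4 : ∀ j : ℕ, (0 : ℝ) < 4 ^ j := fun j => by positivity
  obtain ⟨a, ha⟩ := conv_of_bound (x := fun j => ev T (s j) z y) (B := B) fun j => by
    rw [← sub]; refine le_trans ?_ (hb j); gcongr; nlinarith [sq_nonneg ‖ev T (bb (s j)) z g‖,
      sq_nonneg ‖ev T (s (j + 1) - s j) z g‖]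
  obtain ⟨g', hg'⟩ := conv_of_bound (x := fun j => ev T (s j) z g) (B := B) fun j => by
    rw [← sub]; refine le_trans ?_ (hb j); gcongr; nlinarith [sq_nonneg ‖ev T (bb (s j)) z g‖,
      sq_nonneg ‖ev T (s (j + 1) - s j) z y‖]
  have hbb : Tendsto (fun j => ‖ev T (bb (s j)) z g‖) atTop (𝓝 0) := by
    refine squeeze_zero (fun _ => norm_nonneg _) (fun j => le_half_pow (B := B) (j := j) ?_) ?_
    · refine le_trans ?_ (hb j); gcongr; nlinarith [sq_nonneg ‖ev T (s (j + 1) - s j) z g‖,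
        sq_nonneg ‖ev T (s (j + 1) - s j) z y‖]
    · simpa only [mul_zero] using (tendsto_pow_atTop_nhds_zero_of_lt_one (r := (1 / 2 : ℝ))
        (by norm_num) (by norm_num)).const_mul (B + 1)
  have hW : star (z • T) * Q * (z • T) = Q := by
    have : z * conj z = 1 := by rw [Complex.mul_conj, Complex.normSq_eq_norm_sq, hz]; simp
    rw [star_smul, smul_mul_assoc, smul_mul_assoc, mul_smul_comm, smul_smul, hQ, mul_comm]
    simp [this]
  have key : ∀ f, Tendsto (fun j => ⟪ev T (s j) z f, Q (ev T (s j) z g)⟫_ℂ) atTop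
      (𝓝 ⟪f, y⟫_ℂ) := fun f => by
    simp only [ev, form_poly hW]
    have : Tendsto (fun j => 2 * ⟪((z • T) ^ (s j).natDegree) f,
        Q (aeval (z • T) (bb (s j)) g)⟫_ℂ) atTop (𝓝 0) := by
      refine squeeze_zero_norm (fun j => ?_)
        (by simpa using hbb.const_mul (2 * (M * ‖f‖) * ‖Q‖))
      rw [norm_mul, mul_assoc, mul_assoc]
      refine mul_le_mul (by simp) ((norm_inner_le_norm _ _).trans (mul_le_mul
        ((ContinuousLinearMap.le_opNorm _ _).trans (by gcongr; exact norm_rot hM hz _))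
        (Q.le_opNorm _) (norm_nonneg _) ?_)) (norm_nonneg _) (by norm_num)
      exact mul_nonneg ((norm_nonneg _).trans (hM 0)) (norm_nonneg _)
    simpa using tendsto_const_nhds.sub this
  have hv : Tendsto (fun j => Q (ev T (s j) z g)) atTop (𝓝 (Q g')) := (Q.continuous.tendsto _).comp hg'
  have hS : ∀ S : H →L[ℂ] H, S * T = T * S → ⟪S a, Q g'⟫_ℂ = ⟪S y, y⟫_ℂ ∧
      ⟪S a, u⟫_ℂ = ⟪S y, y⟫_ℂ := fun S hS => by
    have cm : ∀ j, S * ev T (s j) z = ev T (s j) z * S := fun j => by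
      rw [ev_eq, mul_sum, sum_mul]
      refine sum_congr rfl fun n _ => ?_
      simp only [mul_smul_comm, smul_mul_assoc]
      rw [((show Commute S T from hS).pow_right n).eq]
    have ha' : Tendsto (fun j => ev T (s j) z (S y)) atTop (𝓝 (S a)) :=
      ((S.continuous.tendsto _).comp ha).congr fun j =>
        congrArg (fun A : H →L[ℂ] H => A y) (cm j)
    refine ⟨tendsto_nhds_unique (ha'.inner hv) (key _), tendsto_nhds_unique (ha'.inner hu1)
      (tendsto_const_nhds.congr fun j => ?_)⟩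
    rw [uu, ContinuousLinearMap.star_eq_adjoint, ContinuousLinearMap.adjoint_inner_right,
      ← mul_apply_eq_comp (Ring.inverse _), Ring.inverse_mul_cancel _ (hun j)]
    rfl
  refine ⟨a, u - Q g', fun h => ?_, fun h => ?_, fun S h => ?_⟩
  · have := (hS 1 (by simp)).1
    simp only [h, map_zero, inner_zero_left] at this
    exact hy0 (inner_self_eq_zero.1 this.symm)
  · have hle : ∀ J, (⟪y, Q (ev T (s J) z g)⟫_ℂ).re ≤
        r0 + ∑ j ∈ range J, (F j z + ‖y‖ ^ 2 / 8 * (1 / 4) ^ j) := fun J => by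
      induction J with
      | zero => simp [r0]
      | succ J ih =>
        have e : ev T (s (J + 1)) z g = ev T (s J) z g + ev T (s (J + 1) - s J) z g := by
          rw [sub]; abel
        rw [e, map_add, inner_add_right, Complex.add_re, sum_range_succ]
        set d := ev T (s (J + 1) - s J) z g
        have b1 : (⟪y, Q d⟫_ℂ).re ≤ ‖y‖ * (‖Q‖ * ‖d‖) :=
          (Complex.re_le_norm _).trans ((norm_inner_le_norm _ _).trans
            (by gcongr; exact Q.le_opNorm _))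
        have b2 : 2 * ‖Q‖ ^ 2 * (4 ^ J * ‖d‖ ^ 2) ≤ F J z := by
          simp only [F, κ]
          have := p4 J
          nlinarith [sq_nonneg ‖ev T (s (J + 1) - s J) z y‖, sq_nonneg ‖ev T (bb (s J)) z g‖,
            sq_nonneg ‖Q‖, sq_nonneg ‖d‖, mul_nonneg this.le (sq_nonneg ‖d‖),
            mul_nonneg (mul_nonneg (sq_nonneg ‖Q‖) this.le)
              (sq_nonneg ‖ev T (s (J + 1) - s J) z y‖),
            mul_nonneg (mul_nonneg (sq_nonneg ‖Q‖) this.le) (sq_nonneg ‖ev T (bb (s J)) z g‖),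
            mul_nonneg this.le (sq_nonneg ‖ev T (s (J + 1) - s J) z y‖),
            mul_nonneg this.le (sq_nonneg ‖ev T (bb (s J)) z g‖)]
        have b3 : ‖y‖ * (‖Q‖ * ‖d‖) ≤ 2 * ‖Q‖ ^ 2 * (4 ^ J * ‖d‖ ^ 2) +
            ‖y‖ ^ 2 / 8 * (1 / 4) ^ J := by
          have := p4 J
          rw [one_div, inv_pow, ← sub_nonneg]
          have e : 2 * ‖Q‖ ^ 2 * (4 ^ J * ‖d‖ ^ 2) + ‖y‖ ^ 2 / 8 * (4 ^ J)⁻¹ - ‖y‖ * (‖Q‖ * ‖d‖) =
              (4 * 4 ^ J * ‖Q‖ * ‖d‖ - ‖y‖) ^ 2 / (8 * 4 ^ J) := by field_simp; ring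
          rw [e]; positivity
        linarith
    have hl : (⟪y, Q g'⟫_ℂ).re ≤ 11 / 12 * ‖y‖ ^ 2 :=
      le_of_tendsto' ((Complex.continuous_re.tendsto _).comp (tendsto_const_nhds.inner hv))
        fun J => by
          refine (hle J).trans ?_
          rw [sum_add_distrib, ← mul_sum]
          nlinarith [hG J, sum_quarter J]
    rw [sub_eq_zero.1 h] at hu2
    nlinarith
  · rw [inner_sub_right, (hS S h).1, (hS S h).2, sub_self]

end Pool.Agent.Lib.MP_dee751_an.E
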