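import Pool.Agent.Lib.MP_dee751_an.EC
import Pool.Agent.Lib.MP_45cb44_an.Weak

/-! Reduction of the general power bounded case to the core theorem, and the transfer. -/

namespace Pool.Agent.Lib.MP_dee751_an.E

open Metric Set Filter Topology Finset
open scoped InnerProductSpace ComplexConjugate

variable {H : Type*} [NormedAddCommGroup H] [InnerProductSpace ℂ H] [CompleteSpace H]
  {T Q : H →L[ℂ] H} {M : ℝ}

lemma star_inner (A : H →L[ℂ] H) (x y : H) : ⟪x, star A y⟫_ℂ = ⟪A x, y⟫_ℂ := by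
  rw [ContinuousLinearMap.star_eq_adjoint, ContinuousLinearMap.adjoint_inner_right]

lemma star_inner' (A : H →L[ℂ] H) (x y : H) : ⟪star A x, y⟫_ℂ = ⟪x, A y⟫_ℂ := by
  rw [ContinuousLinearMap.star_eq_adjoint, ContinuousLinearMap.adjoint_inner_left]

lemma exists_wot (C : ℕ → H →L[ℂ] H) {K : ℝ} (hK : ∀ n, ‖C n‖ ≤ K) :
    ∃ Q : H →L[ℂ] H, ∀ v x, Tendsto (fun n => ⟪v, C n x⟫_ℂ) (hyperfilter ℕ) (𝓝 ⟪v, Q x⟫_ℂ) := by
  have hb : ∀ x n, ‖C n x‖ ≤ K * ‖x‖ := fun x n =>
    ((C n).le_opNorm x).trans (by gcongr; exact hK n)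
  choose q hq using fun x => MP_45cb44_an.exists_weak_limit' (𝕜 := ℂ) (hyperfilter ℕ)
    (fun n => C n x) _ (hb x)
  let L : H →ₗ[ℂ] H :=
    { toFun := q
      map_add' := fun x y => ext_inner_left ℂ fun v => tendsto_nhds_unique (hq _ v) (by
        simpa only [map_add, inner_add_right] using (hq x v).add (hq y v))
      map_smul' := fun c x => ext_inner_left ℂ fun v => tendsto_nhds_unique (hq _ v) (by
        simpa only [map_smul, inner_smul_right, RingHom.id_apply] using (hq x v).const_mul c) }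
  refine ⟨L.mkContinuous K fun x => ?_, fun v x => hq x v⟩
  change ‖q x‖ ≤ _
  have h1 : ‖⟪q x, q x⟫_ℂ‖ ≤ ‖q x‖ * (K * ‖x‖) := le_of_tendsto' (hq x (q x)).norm fun n =>
    (norm_inner_le_norm _ _).trans (by gcongr; exact hb x n)
  rw [inner_self_eq_norm_sq_to_K, norm_pow, RCLike.norm_ofReal, abs_norm, sq] at h1
  rcases (norm_nonneg (q x)).eq_or_lt with h | h
  · rw [← h]; exact (norm_nonneg _).trans (hb x 0)
  · exact le_of_mul_le_mul_left h1 h

lemma exists_form (hM : ∀ n, ‖T ^ n‖ ≤ M) : ∃ Q : H →L[ℂ] H, 0 ≤ Q ∧ star T * Q * T = Q ∧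
    ∀ x, ¬Tendsto (fun n => (T ^ n) x) atTop (𝓝 0) → Q x ≠ 0 := by
  have hM0 : 0 ≤ M := (norm_nonneg _).trans (hM 0)
  let C : ℕ → H →L[ℂ] H := fun N => (((N + 1 : ℝ)⁻¹ : ℝ) : ℂ) •
    ∑ n ∈ range (N + 1), star (T ^ n) * T ^ n
  have h1 : ∀ n, ‖star (T ^ n) * T ^ n‖ ≤ M * M := fun n =>
    (norm_mul_le _ _).trans (by rw [norm_star]; exact mul_le_mul (hM n) (hM n) (norm_nonneg _) hM0)
  obtain ⟨Q, hQ⟩ := exists_wot C (K := M * M) fun N => by
    simp only [C]
    rw [norm_smul, Complex.norm_real, norm_inv, Real.norm_of_nonneg (by positivity),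
      inv_mul_le_iff₀ (by positivity)]
    exact (norm_sum_le _ _).trans ((sum_le_card_nsmul _ _ _ fun n _ => h1 n).trans (by simp))
  have hC : ∀ N v x, ⟪v, C N x⟫_ℂ = (((N + 1 : ℝ)⁻¹ : ℝ) : ℂ) *
      ∑ n ∈ range (N + 1), ⟪(T ^ n) v, (T ^ n) x⟫_ℂ := fun N v x => by
    simp only [C, smul_apply, _root_.sum_apply, inner_smul_right, inner_sum, mul_apply_eq_comp,
      star_inner]
  have hC' : ∀ N x, ⟪x, C N x⟫_ℂ = (((N + 1 : ℝ)⁻¹ *
      ∑ n ∈ range (N + 1), ‖(T ^ n) x‖ ^ 2 : ℝ) : ℂ) := fun N x => by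
    rw [hC]; simp only [inner_self_eq_norm_sq_to_K]; push_cast; rfl
  refine ⟨Q, ?_, ?_, fun x hx h0 => ?_⟩
  · rw [ContinuousLinearMap.nonneg_iff_isPositive, ContinuousLinearMap.isPositive_iff_complex]
    intro x
    have h2 := (Complex.continuous_conj.tendsto _).comp (hQ x x)
    simp only [Function.comp_def, hC', Complex.conj_ofReal, inner_conj_symm] at h2
    have a1 := (Complex.continuous_im.tendsto _).comp h2
    have a2 := (Complex.continuous_re.tendsto _).comp h2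
    simp only [Function.comp_def, Complex.ofReal_im, Complex.ofReal_re] at a1 a2
    exact ⟨Complex.ext (by simp) (by simpa using tendsto_nhds_unique tendsto_const_nhds a1),
      ge_of_tendsto' a2 fun N => by positivity⟩
  · ext x
    refine ext_inner_left ℂ fun v => ?_
    rw [mul_apply_eq_comp, mul_apply_eq_comp, star_inner]
    refine tendsto_nhds_unique (hQ _ _) ?_
    have h2 : Tendsto (fun N : ℕ => (((N + 1 : ℝ)⁻¹ : ℝ) : ℂ) *
        (⟪(T ^ (N + 1)) v, (T ^ (N + 1)) x⟫_ℂ - ⟪v, x⟫_ℂ)) (hyperfilter ℕ) (𝓝 0) := by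
      refine Tendsto.mono_left (squeeze_zero_norm (a := fun N : ℕ => 1 / (N + 1 : ℝ) *
        (M * ‖v‖ * (M * ‖x‖) + ‖v‖ * ‖x‖)) (fun N => ?_) ?_) Nat.hyperfilter_le_atTop
      · rw [norm_mul, Complex.norm_real, norm_inv, Real.norm_of_nonneg (by positivity), one_div]
        gcongr
        refine (norm_sub_le _ _).trans (add_le_add ((norm_inner_le_norm _ _).trans ?_)
          (norm_inner_le_norm _ _))
        gcongr <;> exact (ContinuousLinearMap.le_opNorm _ _).trans (by gcongr; exact hM _)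
      · simpa using tendsto_one_div_add_atTop_nhds_zero_nat.mul_const
          (M * ‖v‖ * (M * ‖x‖) + ‖v‖ * ‖x‖)
    refine (by simpa only [add_zero] using (hQ v x).add h2 :
      Tendsto _ _ (𝓝 ⟪v, Q x⟫_ℂ)).congr fun N => ?_
    simp only [hC]
    have := sum_range_succ' (fun n => ⟪(T ^ n) v, (T ^ n) x⟫_ℂ) (N + 1)
    rw [sum_range_succ] at this
    simp only [pow_succ T, mul_apply_eq_comp, pow_zero, one_apply_eq_self] at this ⊢
    linear_combination (((N + 1 : ℝ)⁻¹ : ℝ) : ℂ) * this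
  · obtain ⟨c, hc, hcx⟩ : ∃ c > 0, ∀ n, c ≤ ‖(T ^ n) x‖ := by
      by_contra! hn
      refine hx (Metric.tendsto_atTop.2 fun ε hε => ?_)
      obtain ⟨n, hn⟩ := hn (ε / (M + 1)) (by positivity)
      refine ⟨n, fun m hm => ?_⟩
      obtain ⟨k, rfl⟩ := Nat.exists_eq_add_of_le' hm
      rw [dist_zero_right, pow_add, mul_apply_eq_comp]
      rw [lt_div_iff₀ (by positivity)] at hn
      nlinarith [(T ^ k).le_opNorm ((T ^ n) x), hM k, norm_nonneg ((T ^ n) x),
        mul_le_mul_of_nonneg_right (hM k) (norm_nonneg ((T ^ n) x))]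
    have a2 := (Complex.continuous_re.tendsto _).comp (hQ x x)
    simp only [Function.comp_def, hC', Complex.ofReal_re, h0, inner_zero_right,
      Complex.zero_re] at a2
    have : c ^ 2 ≤ 0 := ge_of_tendsto' a2 fun N => by
      rw [le_inv_mul_iff₀ (by positivity)]
      refine le_trans (by simp) (card_nsmul_le_sum (range (N + 1)) _ (c ^ 2) fun n _ => ?_)
      exact pow_le_pow_left₀ hc.le (hcx n) 2
    nlinarith

lemma Pair.of_star (h : Pair (star T)) : Pair T := by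
  obtain ⟨a, w, ha, hw, h⟩ := h
  refine ⟨w, a, hw, ha, fun S hS => ?_⟩
  have := h (star S) (by rw [← star_mul, ← star_mul, hS])
  rwa [star_inner', inner_eq_zero_symm] at this

lemma pair_mixed (hM : ∀ n, ‖T ^ n‖ ≤ M) {a x : H} (ha : a ≠ 0)
    (h0 : Tendsto (fun n => (T ^ n) a) atTop (𝓝 0))
    (hx : ¬Tendsto (fun n => (T ^ n) x) atTop (𝓝 0)) : Pair T := by
  obtain ⟨Q, -, hQ, hq⟩ := exists_form hM
  refine ⟨a, Q x, ha, hq x hx, fun S hS => ?_⟩
  refine tendsto_nhds_unique (tendsto_const_nhds (f := (atTop : Filter ℕ))) (squeeze_zero_norm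
    (fun n => ?_) (by simpa only [norm_zero, mul_zero] using
      h0.norm.const_mul (‖S‖ * (‖Q‖ * (M * ‖x‖)))))
  rw [← form_pow hQ n, ← mul_apply_eq_comp (T ^ n) S,
    ← ((show Commute S T from hS).pow_right n).eq, mul_apply_eq_comp, mul_right_comm]
  refine (norm_inner_le_norm _ _).trans (mul_le_mul (S.le_opNorm _) ((Q.le_opNorm _).trans ?_)
    (norm_nonneg _) (by positivity))
  gcongr
  exact (ContinuousLinearMap.le_opNorm _ _).trans (by gcongr; exact hM n)

lemma pair_eleven {Q' : H →L[ℂ] H} (hQ0 : 0 ≤ Q) (hQ : star T * Q * T = Q)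
    (iQ : ∀ x, x ≠ 0 → Q x ≠ 0) (hQ0' : 0 ≤ Q') (hQ' : T * Q' * star T = Q')
    (iQ' : ∀ x, x ≠ 0 → Q' x ≠ 0) (hT : ∀ c : ℂ, T ≠ c • 1) : Pair T := by
  obtain ⟨Y, sY, hY⟩ : ∃ Y : H →L[ℂ] H, star Y = Y ∧ Y * Y = Q' :=
    ⟨CFC.sqrt Q', (CFC.sqrt_nonneg Q').isSelfAdjoint.star_eq, CFC.sqrt_mul_sqrt_self Q' hQ0'⟩
  have sQ : star Q = Q := hQ0.isSelfAdjoint.star_eq
  have iY : ∀ x, x ≠ 0 → Y x ≠ 0 := fun x hx h => iQ' x hx (by rw [← hY, mul_apply_eq_comp, h, map_zero])
  have iT : ∀ x, x ≠ 0 → T x ≠ 0 := fun x hx h => iQ x hx (by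
    rw [← hQ, mul_apply_eq_comp, h, map_zero])
  have mv : ∀ x y, ⟪Y x, y⟫_ℂ = ⟪x, Y y⟫_ℂ := fun x y => by rw [← star_inner', sY]
  have dY : DenseRange Y := by
    change Dense ((LinearMap.range (Y : H →ₗ[ℂ] H) : Submodule ℂ H) : Set H)
    rw [Submodule.dense_iff_topologicalClosure_eq_top, Submodule.topologicalClosure_eq_top_iff,
      Submodule.eq_bot_iff]
    intro x hx
    by_contra h
    exact iY x h (inner_self_eq_zero.1 ((mv _ _).trans (inner_eq_zero_symm.1
      (hx (Y (Y x)) ⟨Y x, rfl⟩))))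
  have hn : ∀ x, ‖Y (star T x)‖ = ‖Y x‖ := fun x => by
    have : ⟪Y (star T x), Y (star T x)⟫_ℂ = ⟪Y x, Y x⟫_ℂ := by
      rw [mv, mv, star_inner', ← mul_apply_eq_comp Y Y, ← mul_apply_eq_comp Y Y, hY]
      conv_rhs => rw [← hQ']
      rfl
    rw [inner_self_eq_norm_sq_to_K, inner_self_eq_norm_sq_to_K] at this
    exact (pow_left_inj₀ (norm_nonneg _) (norm_nonneg _) two_ne_zero).1 (by exact_mod_cast this)
  let U : H →L[ℂ] H := ((Y * star T : H →L[ℂ] H) : H →ₗ[ℂ] H).extendOfNorm (Y : H →ₗ[ℂ] H)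
  have hU : ∀ x, U (Y x) = Y (star T x) := fun x =>
    LinearMap.extendOfNorm_eq (f := ((Y * star T : H →L[ℂ] H) : H →ₗ[ℂ] H)) (e := (Y : H →ₗ[ℂ] H))
      dY ⟨1, fun x => by simpa using (hn x).le⟩ x
  have hU' : U * Y = Y * star T := ContinuousLinearMap.ext hU
  have u1 : star U * U = 1 := by
    rw [ContinuousLinearMap.star_eq_adjoint]
    exact (ContinuousLinearMap.norm_map_iff_adjoint_comp_self U).1 fun x =>
      dY.induction_on x (isClosed_eq (by fun_prop) (by fun_prop)) fun x => by rw [hU, hn]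
  have e1 : Y * star U = T * Y := by simpa [sY] using congrArg star hU'
  have u2 : U * star U = 1 := by
    ext x
    by_contra h
    refine iT _ (iY _ (sub_ne_zero.2 h)) ?_
    rw [← mul_apply_eq_comp T, ← e1, mul_apply_eq_comp, map_sub, ← mul_apply_eq_comp (star U),
      ← mul_assoc, u1]
    simp
  set W := star U
  have e2 : W * (Y * Q) = Y * Q * T := by
    calc W * (Y * Q) = W * (Y * (star T * Q * T)) := by rw [hQ]
      _ = W * (U * Y) * Q * T := by rw [hU']; noncomm_ring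
      _ = _ := by rw [← mul_assoc, u1, one_mul]
  have nW : IsStarNormal W := ⟨by simp only [W, star_star]; exact u2.trans u1.symm⟩
  have nt : Nontrivial H := by
    by_contra h
    have := not_nontrivial_iff_subsingleton.1 h
    exact hT 0 (Subsingleton.elim _ _)
  obtain ⟨l, hl⟩ := spectrum.nonempty W
  obtain ⟨m, hm, hml⟩ : ∃ m ∈ spectrum ℂ W, m ≠ l := by
    by_contra! h
    have : W = l • 1 := by
      rw [← cfc_id' ℂ W, cfc_congr (g := fun _ => l) fun x hx => h x hx, cfc_const _ _,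
        Algebra.algebraMap_eq_smul_one]
    refine hT l (ContinuousLinearMap.ext fun x => dY.induction_on x
      (isClosed_eq (by fun_prop) (by fun_prop)) fun x => ?_)
    rw [← mul_apply_eq_comp T, ← e1, this]; simp
  let f : ℂ → ℂ → ℂ := fun c z => (max 0 (dist m l / 2 - dist z c) : ℝ)
  have cf : ∀ c, Continuous (f c) := fun c => by simp only [f]; fun_prop
  have nf : ∀ c ∈ spectrum ℂ W, ∃ x, cfc (f c) W x ≠ 0 ∧ ∃ x, star (cfc (f c) W) x ≠ 0 :=
    fun c hc => by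
      have h : cfc (f c) W ≠ 0 := fun h => by
        have := norm_apply_le_norm_cfc (f c) W hc (cf c).continuousOn
        have h2 := dist_pos.2 hml
        rw [h, norm_zero] at this
        simp [f, max_eq_right (by positivity : 0 ≤ dist m l / 2)] at this
        linarith
      obtain ⟨x, hx⟩ := ContinuousLinearMap.exists_ne_zero h
      exact ⟨x, hx, ContinuousLinearMap.exists_ne_zero (star_ne_zero.2 h)⟩
  obtain ⟨x, hx, -⟩ := nf l hl
  obtain ⟨-, -, x', hx'⟩ := nf m hm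
  refine ⟨Y (cfc (f l) W x), Q (Y (star (cfc (f m) W) x')), iY _ hx, iQ _ (iY _ hx'),
    fun S hS => ?_⟩
  have c1 : Commute W (Y * Q * S * Y) := by
    change W * _ = _ * W
    calc W * (Y * Q * S * Y) = W * (Y * Q) * S * Y := by noncomm_ring
      _ = Y * Q * (T * S) * Y := by rw [e2]; noncomm_ring
      _ = Y * Q * S * (T * Y) := by rw [← hS]; noncomm_ring
      _ = _ := by rw [← e1]; noncomm_ring
  have c2 : Commute (star W) (Y * Q * S * Y) := by
    change star W * _ = _ * star W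
    simp only [W, star_star]
    calc U * (Y * Q * S * Y) = U * (Y * Q * S * Y * W) * U := by
          rw [mul_assoc U, mul_assoc _ W, u1, mul_one]
      _ = _ := by rw [← c1.eq, ← mul_assoc, u2, one_mul]
  have z : cfc (f m) W * cfc (f l) W = 0 := by
    rw [← cfc_mul _ _ W (cf m).continuousOn (cf l).continuousOn,
      cfc_congr (g := fun _ => 0) fun z _ => ?_, cfc_const_zero]
    have := dist_triangle_left m l z
    by_cases h : dist m l / 2 - dist z m ≤ 0
    · simp [f, max_eq_left h]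
    · simp [f, max_eq_left (show dist m l / 2 - dist z l ≤ 0 by linarith)]
  rw [← star_inner', sQ, ← mv, star_inner]
  change ⟪(cfc (f m) W * (Y * Q * S * Y * cfc (f l) W)) x, x'⟫_ℂ = 0
  rw [← (c1.cfc c2 (f l)).eq, ← mul_assoc, z]; simp

theorem pair_of_not_stable (hM : ∀ n, ‖T ^ n‖ ≤ M) (hT : ∀ c : ℂ, T ≠ c • 1) {x : H}
    (hx : ¬Tendsto (fun n => (T ^ n) x) atTop (𝓝 0)) : Pair T := by
  obtain ⟨Q, h0, hQ, hq⟩ := exists_form hM
  by_cases h1 : Tendsto (fun n => (star T ^ n) (Q x)) atTop (𝓝 0)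
  · exact core hM hQ (hq x hx) h1
  have hM' : ∀ n, ‖star T ^ n‖ ≤ M := fun n => by rw [← star_pow, norm_star]; exact hM n
  by_cases h2 : ∃ a, a ≠ 0 ∧ Tendsto (fun n => (T ^ n) a) atTop (𝓝 0)
  · obtain ⟨a, ha, h2⟩ := h2
    exact pair_mixed hM ha h2 hx
  by_cases h3 : ∃ a, a ≠ 0 ∧ Tendsto (fun n => (star T ^ n) a) atTop (𝓝 0)
  · obtain ⟨a, ha, h3⟩ := h3
    exact (pair_mixed hM' ha h3 h1).of_star
  push Not at h2 h3
  obtain ⟨Q', h0', hQ', hq'⟩ := exists_form hM'
  exact pair_eleven h0 hQ (fun a ha => hq a (h2 a ha)) h0' (by simpa using hQ')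
    (fun a ha => hq' a (h3 a ha)) hT

variable {K : Type*} [NormedAddCommGroup K] [InnerProductSpace ℂ K] [CompleteSpace K]

omit [CompleteSpace H] [CompleteSpace K] in
theorem Pair.transfer (h : Pair T) {B : K →L[ℂ] K} {X : H →L[ℂ] K} {Y : K →L[ℂ] H}
    (hX : Function.Injective X) (hY : DenseRange Y) (h1 : X.comp T = B.comp X)
    (h2 : T.comp Y = Y.comp B) :
    ∃ N : Submodule ℂ K, IsClosed (N : Set K) ∧ N ≠ ⊥ ∧ N ≠ ⊤ ∧
      ∀ S : K →L[ℂ] K, S.comp B = B.comp S → ∀ x ∈ N, S x ∈ N := by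
  obtain ⟨a, w, ha, hw, h⟩ := h
  let N : Submodule ℂ K := ⨅ S : {S : K →L[ℂ] K // S.comp B = B.comp S},
    ((innerSL ℂ w).comp (Y.comp S.1)).ker
  have m : ∀ x, x ∈ N ↔ ∀ S : K →L[ℂ] K, S.comp B = B.comp S → ⟪w, Y (S x)⟫_ℂ = 0 := fun x => by
    simp [N]
  refine ⟨N, ?_, fun h0 => ?_, fun h0 => hw ?_, fun S hS x hx => (m _).2 fun S' hS' => ?_⟩
  · rw [Submodule.coe_iInf]
    exact isClosed_iInter fun S => ContinuousLinearMap.isClosed_ker _
  · have : X a ∈ N := (m _).2 fun S hS => inner_eq_zero_symm.1 (h (Y.comp (S.comp X)) (by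
      ext v
      have a1 := fun v => congrArg (fun A : H →L[ℂ] K => A v) h1
      have a2 := fun v => congrArg (fun A : K →L[ℂ] H => A v) h2
      have a3 := fun v => congrArg (fun A : K →L[ℂ] K => A v) hS
      simp only [ContinuousLinearMap.comp_apply] at a1 a2 a3
      simp [a1, a2, a3]))
    rw [h0, Submodule.mem_bot] at this
    exact ha (hX (by simpa using this))
  · refine inner_self_eq_zero.1 (hY.induction_on (p := fun v => ⟪w, v⟫_ℂ = 0) w
      (isClosed_eq (by fun_prop) (by fun_prop)) fun v => ?_)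
    exact (m v).1 (h0 ▸ Submodule.mem_top) (.id ℂ K) (by simp)
  · exact (m x).1 hx (S'.comp S) (by
      rw [ContinuousLinearMap.comp_assoc, hS, ← ContinuousLinearMap.comp_assoc, hS',
        ContinuousLinearMap.comp_assoc])

end Pool.Agent.Lib.MP_dee751_an.E
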