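import Pool.Agent.Lib.MP_45cb44_an.HyBS
import Pool.Agent.Lib.MP_45cb44_an.HyOps

/-! Enlarging the two positive parts of a self-commutator so that they are stable under a given
operator and its adjoint. -/

namespace Pool.Agent.Lib.MP_dee751_an.Q

open Pool.Agent.Lib.MP_45cb44_an Pool.Agent.Lib.MP_45cb44_an.Hy
open Filter Topology InnerProductSpace
open scoped InnerProductSpace ComplexConjugate

variable {H : Type*} [NormedAddCommGroup H] [InnerProductSpace ℂ H] [CompleteSpace H]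

/-- The quadratic form of an operator. -/
noncomputable def fm (K : H →L[ℂ] H) (x : H) : ℝ := (⟪x, K x⟫_ℂ).re

omit [CompleteSpace H] in
lemma fm_add (K K' : H →L[ℂ] H) (x : H) : fm (K + K') x = fm K x + fm K' x := by
  simp [fm, inner_add_right]

omit [CompleteSpace H] in
lemma fm_smul (c : ℝ) (K : H →L[ℂ] H) (x : H) : fm ((c : ℂ) • K) x = c * fm K x := by
  simp [fm, inner_smul_right]

lemma fm_conj (K R : H →L[ℂ] H) (x : H) : fm (star R * K * R) x = fm K (R x) := by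
  simp only [fm, mul_apply_eq_comp]
  rw [bas_sr]

lemma fm_sq {Φ : H →L[ℂ] H} (h : star Φ = Φ) (x : H) : fm (Φ * Φ) x = ‖Φ x‖ ^ 2 := by
  have := bs_form Φ x
  rwa [h] at this

omit [CompleteSpace H] in
lemma fm_nonneg {K : H →L[ℂ] H} (hK : K.IsPositive) (x : H) : 0 ≤ fm K x :=
  hK.re_inner_nonneg_right x

lemma tr_conj (b : HilbertBasis ℕ ℂ H) {K : H →L[ℂ] H} (hK : K.IsPositive)
    (h : Summable fun i => fm K (b i)) (R : H →L[ℂ] H) :
    Summable (fun i => fm K (R (b i))) ∧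
      ∑' i, fm K (R (b i)) ≤ ‖R‖ ^ 2 * ∑' i, fm K (b i) := by
  obtain ⟨Φ, h1, rfl⟩ := exists_sqrt hK
  simp only [fm_sq h1] at h ⊢
  have hle : ∀ j, ‖(star R * Φ) (b j)‖ ^ 2 ≤ ‖R‖ ^ 2 * ‖Φ (b j)‖ ^ 2 := fun j => by
    rw [← mul_pow, ← norm_star R]
    exact pow_le_pow_left₀ (norm_nonneg _) ((star R).le_opNorm _) 2
  have h3 : Summable fun j => ‖(star R * Φ) (b j)‖ ^ 2 :=
    (h.mul_left (‖R‖ ^ 2)).of_nonneg_of_le (fun _ => by positivity) hle
  have h4 := hs_star b h3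
  simp only [star_mul, star_star, h1, mul_apply_eq_comp] at h4
  refine ⟨h4.summable, ?_⟩
  rw [h4.tsum_eq, ← tsum_mul_left]
  exact h3.tsum_le_tsum hle (h.mul_left _)

/-- The terms of the stabilising series. -/
noncomputable def qs (R P0 : H →L[ℂ] H) (c : ℝ) : ℕ → H →L[ℂ] H
  | 0 => P0
  | k + 1 => (c : ℂ) • (star R * qs R P0 c k * R + star (star R) * qs R P0 c k * star R)

lemma fm_qs (R P0 : H →L[ℂ] H) (c : ℝ) (k : ℕ) (x : H) :
    fm (qs R P0 c (k + 1)) x = c * (fm (qs R P0 c k) (R x) + fm (qs R P0 c k) (star R x)) := by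
  rw [qs, fm_smul, fm_add, fm_conj, fm_conj]

/-- A positive trace class operator dominating `P0` and stable under `R` and its adjoint. -/
theorem exists_stable (b : HilbertBasis ℕ ℂ H) {P0 : H →L[ℂ] H} (h0 : P0.IsPositive)
    (hs : Summable fun i => fm P0 (b i)) (R : H →L[ℂ] H) :
    ∃ P : H →L[ℂ] H, P.IsPositive ∧ Summable (fun i => fm P (b i)) ∧ (∀ x, fm P0 x ≤ fm P x) ∧
      ∀ x, fm P (R x) + fm P (star R x) ≤ 4 * (‖R‖ ^ 2 + 1) * fm P x := by
  set l : ℝ := 4 * (‖R‖ ^ 2 + 1) with hl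
  have l0 : 0 < l := by positivity
  set c : ℝ := l⁻¹ with hc
  have c0 : 0 < c := by positivity
  have cl : c * (2 * ‖R‖ ^ 2) ≤ 1 / 2 := by
    rw [hc, inv_mul_le_iff₀ l0, hl]; nlinarith
  set Q := qs R P0 c with hQ
  have pos : ∀ k, (Q k).IsPositive := fun k => by
    induction k with
    | zero => exact h0
    | succ k ih =>
      have h1 : (star R * Q k * R + star (star R) * Q k * star R).IsPositive :=
        (ih.adjoint_conj R).add (ih.adjoint_conj (star R))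
      exact h1.smul_of_nonneg (by exact_mod_cast c0.le)
  have nrm : ∀ k, ‖Q k‖ ≤ ‖P0‖ * (1 / 2) ^ k := fun k => by
    induction k with
    | zero => simp [hQ, qs]
    | succ k ih =>
      have a1 : ∀ S : H →L[ℂ] H, ‖S‖ = ‖R‖ → ‖star S * Q k * S‖ ≤ ‖R‖ ^ 2 * ‖Q k‖ := fun S hS => by
        refine (norm_mul_le _ _).trans ((mul_le_mul_of_nonneg_right (norm_mul_le _ _)
          (norm_nonneg _)).trans (le_of_eq ?_))
        rw [norm_star, hS]; ring
      have a2 : ‖Q (k + 1)‖ ≤ c * (‖R‖ ^ 2 * ‖Q k‖ + ‖R‖ ^ 2 * ‖Q k‖) := by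
        rw [hQ, qs, norm_smul, Complex.norm_real, Real.norm_of_nonneg c0.le]
        exact mul_le_mul_of_nonneg_left ((norm_add_le _ _).trans
          (add_le_add (a1 R rfl) (a1 _ (norm_star R)))) c0.le
      have a3 := mul_le_mul_of_nonneg_right cl (norm_nonneg (Q k))
      rw [pow_succ]
      nlinarith
  have sm : Summable Q :=
    Summable.of_norm_bounded ((summable_geometric_two).mul_left ‖P0‖) nrm
  have hf : ∀ x, HasSum (fun k => fm (Q k) x) (fm (∑' k, Q k) x) := fun x =>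
    Complex.hasSum_re ((sm.hasSum.mapL (ContinuousLinearMap.apply ℂ H x)).mapL (innerSL ℂ x))
  have tr : ∀ k, Summable (fun i => fm (Q k) (b i)) ∧
      ∑' i, fm (Q k) (b i) ≤ (∑' i, fm P0 (b i)) * (1 / 2) ^ k := fun k => by
    induction k with
    | zero => exact ⟨hs, by simp [hQ, qs]⟩
    | succ k ih =>
      obtain ⟨a1, a2⟩ := tr_conj b (pos k) ih.1 R
      obtain ⟨a3, a4⟩ := tr_conj b (pos k) ih.1 (star R)
      rw [norm_star] at a4
      simp only [hQ, fm_qs]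
      refine ⟨(a1.add a3).mul_left c, ?_⟩
      rw [tsum_mul_left, a1.tsum_add a3, pow_succ]
      have a5 : 0 ≤ ∑' i, fm (Q k) (b i) := tsum_nonneg fun i => fm_nonneg (pos k) _
      have a6 := mul_le_mul_of_nonneg_right cl a5
      have a7 := mul_le_mul_of_nonneg_left (add_le_add a2 a4) c0.le
      nlinarith [ih.2]
  have P0le : ∀ x, fm (Q 0) x + ∑' k, fm (Q (k + 1)) x = fm (∑' k, Q k) x := fun x => by
    rw [← (hf x).tsum_eq, (hf x).summable.tsum_eq_zero_add]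
  refine ⟨∑' k, Q k, ?_, ?_, fun x => ?_, fun x => ?_⟩
  · rw [← ContinuousLinearMap.nonneg_iff_isPositive]
    exact tsum_nonneg fun k => (ContinuousLinearMap.nonneg_iff_isPositive _).2 (pos k)
  · refine summable_of_sum_le (c := ∑' k : ℕ, (∑' i, fm P0 (b i)) * (1 / 2) ^ k)
      (fun i => (hf _).nonneg fun k => fm_nonneg (pos k) _) fun u => ?_
    refine hasSum_le (fun k => ?_) (hasSum_sum fun i _ => hf (b i))
      ((summable_geometric_two).mul_left _).hasSum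
    exact ((tr k).1.sum_le_tsum u fun i _ => fm_nonneg (pos k) _).trans (tr k).2
  · rw [← P0le]
    have : 0 ≤ ∑' k, fm (Q (k + 1)) x := tsum_nonneg fun k => fm_nonneg (pos _) _
    have e : Q 0 = P0 := rfl
    rw [e]; linarith
  · have a1 := ((hf (R x)).add (hf (star R x))).mul_left c
    have a2 : ∑' k, fm (Q (k + 1)) x =
        c * (fm (∑' k, Q k) (R x) + fm (∑' k, Q k) (star R x)) := by
      rw [← a1.tsum_eq]
      exact tsum_congr fun k => fm_qs R P0 c k x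
    have a3 := P0le x
    have a4 := fm_nonneg (pos 0) x
    rw [a2, hc] at a3
    rw [← inv_mul_le_iff₀ l0]
    linarith

/-- The decomposition of the self-commutator adapted to `R`. -/
theorem exists_adapted (b : HilbertBasis ℕ ℂ H) {T A B : H →L[ℂ] H} (hA : A.IsPositive)
    (hB : B.IsPositive) (hc : star T * T - T * star T = A - B)
    (sA : Summable fun i => fm A (b i)) (sB : Summable fun i => fm B (b i))
    (hlt : ∑' i, fm B (b i) < ∑' i, fm A (b i)) (R : H →L[ℂ] H) :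
    ∃ (Φ Ψ : H →L[ℂ] H) (κ : ℝ), star T * T + Ψ * star Ψ = T * star T + Φ * star Φ ∧
      Summable (fun j => ‖Φ (b j)‖ ^ 2) ∧ Summable (fun j => ‖Ψ (b j)‖ ^ 2) ∧
      ∑' j, ‖Ψ (b j)‖ ^ 2 < ∑' j, ‖Φ (b j)‖ ^ 2 ∧ 1 ≤ κ ∧ ‖R‖ ≤ κ ∧
      ∀ h, ‖star Φ (R h)‖ ≤ κ * ‖star Φ h‖ ∧ ‖star Φ (star R h)‖ ≤ κ * ‖star Φ h‖ ∧
        ‖star Ψ (R h)‖ ≤ κ * ‖star Φ h‖ := by
  obtain ⟨P, hP, sP, h1, h2⟩ := exists_stable b (hA.add hB)
    (by simpa only [fm_add] using sA.add sB) R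
  obtain ⟨Φ, hΦ, eΦ⟩ := exists_sqrt (hA.add hP)
  obtain ⟨Ψ, hΨ, eΨ⟩ := exists_sqrt (hB.add hP)
  have fΦ : ∀ x, ‖Φ x‖ ^ 2 = fm A x + fm P x := fun x => by rw [← fm_sq hΦ, eΦ, fm_add]
  have fΨ : ∀ x, ‖Ψ x‖ ^ 2 = fm B x + fm P x := fun x => by rw [← fm_sq hΨ, eΨ, fm_add]
  have k0 : 0 ≤ 8 * (‖R‖ ^ 2 + 1) := by positivity
  have key : ∀ {a : ℝ} {x h : H}, 0 ≤ a → a ^ 2 ≤ 2 * fm P x →
      fm P x ≤ 4 * (‖R‖ ^ 2 + 1) * fm P h → a ≤ √(8 * (‖R‖ ^ 2 + 1)) * ‖Φ h‖ := by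
    intro a x h ha a1 a2
    refine ops_le (by positivity) ?_
    rw [mul_pow, Real.sq_sqrt k0, fΦ]
    have := fm_nonneg hA h
    nlinarith [sq_nonneg ‖R‖]
  refine ⟨Φ, Ψ, √(8 * (‖R‖ ^ 2 + 1)), ?_, ?_, ?_, ?_, ?_, ?_, fun h => ?_⟩
  · rw [hΦ, hΨ, eΦ, eΨ, sub_eq_iff_eq_add.1 hc]
    abel
  · simpa only [fΦ] using sA.add sP
  · simpa only [fΨ] using sB.add sP
  · simp only [fΦ, fΨ]
    rw [sA.tsum_add sP, sB.tsum_add sP]
    linarith
  · exact Real.le_sqrt_of_sq_le (by nlinarith [sq_nonneg ‖R‖])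
  · exact Real.le_sqrt_of_sq_le (by nlinarith [sq_nonneg ‖R‖])
  · rw [hΦ, hΨ]
    have a1 := h2 h
    have a2 := fm_nonneg hP (R h)
    have a3 := fm_nonneg hP (star R h)
    have a4 : ∀ x, fm A x ≤ fm P x ∧ fm B x ≤ fm P x := fun x => by
      have := h1 x
      rw [fm_add] at this
      constructor <;> linarith [fm_nonneg hA x, fm_nonneg hB x]
    refine ⟨key (x := R h) (norm_nonneg _) ?_ (by linarith),
      key (x := star R h) (norm_nonneg _) ?_ (by linarith),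
      key (x := R h) (norm_nonneg _) ?_ (by linarith)⟩
    · rw [fΦ]; linarith [(a4 (R h)).1]
    · rw [fΦ]; linarith [(a4 (star R h)).1]
    · rw [fΨ]; linarith [(a4 (R h)).2]

end Pool.Agent.Lib.MP_dee751_an.Q
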