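import Pool.Agent.Lib.MP_45cb44_an.HyOps

/-! Overlaps of the states with their images under an operator of the commutant. -/

namespace Pool.Agent.Lib.MP_dee751_an.Q

open Pool.Agent.Lib.MP_45cb44_an Pool.Agent.Lib.MP_45cb44_an.Hy
open MeasureTheory Metric Set Filter Topology InnerProductSpace
open scoped InnerProductSpace ComplexConjugate

variable {H : Type*} [NormedAddCommGroup H] [InnerProductSpace ℂ H] [CompleteSpace H]

/-- Overlap bounds between a family of test vectors `u` and a family `y`. -/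
structure Ovl (A : Set ℂ) (u y : ℂ → ℝ → H) (q : ℂ → ℝ → ℝ) (β C s0 : ℝ) : Prop where
  farInc : ∀ z w σ1 σ2 s, 0 < σ1 → σ1 ≤ σ2 → 0 < s → s ≤ ‖z - w‖ ^ 2 →
    ‖⟪u w s, y z σ1 - y z σ2⟫_ℂ‖ ≤ C * q z σ2 * q w (‖z - w‖ ^ 2) / ‖z - w‖ ^ 2
  farSt : ∀ z w s s', 0 < s → s ≤ ‖z - w‖ ^ 2 → 0 < s' → s' ≤ ‖z - w‖ ^ 2 →
    ‖⟪u z s, y w s'⟫_ℂ‖ ≤ C * q z (‖z - w‖ ^ 2) * q w (‖z - w‖ ^ 2) / ‖z - w‖ ^ 2
  del : ∀ z ∈ A, ∀ z' ∈ A, ∀ w s' s σ, 0 < s' → s' ≤ s → s ≤ σ → σ ≤ s0 → ‖z' - z‖ ^ 2 ≤ s →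
    ‖⟪u z' s' - u z s, y w σ⟫_ℂ‖ ≤ C * (s / σ) ^ β * q z σ * q w σ / σ

/-- The decomposition of the self-commutator is adapted to `R`. -/
structure Ad (T Φ Ψ R : H →L[ℂ] H) (κ : ℝ) : Prop where
  hc : star T * T + Ψ * star Ψ = T * star T + Φ * star Φ
  comm : R * T = T * R
  k1 : 1 ≤ κ
  nR : ‖R‖ ≤ κ
  p1 : ∀ h, ‖star Φ (R h)‖ ≤ κ * ‖star Φ h‖
  p2 : ∀ h, ‖star Φ (star R h)‖ ≤ κ * ‖star Φ h‖
  p3 : ∀ h, ‖star Ψ (R h)‖ ≤ κ * ‖star Φ h‖

variable {T Φ Ψ R : H →L[ℂ] H} {κ : ℝ} {z w : ℂ} {s σ : ℝ}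

lemma Ad.SS_R (a : Ad T Φ Ψ R κ) (z : ℂ) (h : H) : SS T z (R h) = R (SS T z h) := by
  have := congrArg (fun X : H →L[ℂ] H => X h) a.comm
  simp only [mul_apply_eq_comp] at this
  simp only [SS, sub_apply, smul_apply, one_apply_eq_self, map_sub, map_smul, this]

lemma Ad.star_SS_R (a : Ad T Φ Ψ R κ) (z : ℂ) (h : H) :
    star (SS T z) (star R h) = star R (star (SS T z) h) := by
  have e : R * SS T z = SS T z * R := by
    ext h; exact (a.SS_R z h).symm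
  have := congrArg (fun X : H →L[ℂ] H => star X h) e
  simpa only [star_mul, mul_apply_eq_comp] using this

lemma Ad.app (a : Ad T Φ Ψ R κ) (h : H) : ‖R h‖ ≤ κ * ‖h‖ ∧ ‖star R h‖ ≤ κ * ‖h‖ :=
  ⟨(R.le_opNorm h).trans (mul_le_mul_of_nonneg_right a.nR (norm_nonneg _)),
    ((star R).le_opNorm h).trans
      (mul_le_mul_of_nonneg_right (by rw [norm_star]; exact a.nR) (norm_nonneg _))⟩

lemma Ad.null_star (a : Ad T Φ Ψ R κ) {h : H} {e : ℝ} (h1 : ‖star (SS T z) h‖ ≤ e)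
    (h2 : ‖star Φ h‖ ≤ e) :
    ‖star (SS T z) (star R h)‖ ≤ κ * e ∧ ‖star Φ (star R h)‖ ≤ κ * e := by
  have k0 : 0 ≤ κ := by linarith [a.k1]
  rw [a.star_SS_R]
  exact ⟨(a.app _).2.trans (mul_le_mul_of_nonneg_left h1 k0),
    (a.p2 h).trans (mul_le_mul_of_nonneg_left h2 k0)⟩

lemma Ad.null (a : Ad T Φ Ψ R κ) {h : H} {e : ℝ} (h1 : ‖star (SS T z) h‖ ≤ e)
    (h2 : ‖star Φ h‖ ≤ e) :
    ‖star (SS T z) (R h)‖ ≤ 2 * κ * e ∧ ‖star Φ (R h)‖ ≤ 2 * κ * e := by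
  have k0 : 0 ≤ κ := by linarith [a.k1]
  have he : 0 ≤ e := (norm_nonneg _).trans h1
  have a1 := (a.p1 h).trans (mul_le_mul_of_nonneg_left h2 k0)
  have a2 := (a.p3 h).trans (mul_le_mul_of_nonneg_left h2 k0)
  have a3 := (ops_null_sq a.hc h1 h2).1
  have a4 := norm_SS_eq a.hc z (R h)
  rw [a.SS_R] at a4
  have a5 := pow_le_pow_left₀ (norm_nonneg _) (a.app (SS T z h)).1 2
  have a6 := pow_le_pow_left₀ (norm_nonneg _) a2 2
  have a7 := mul_le_mul_of_nonneg_left a3 (sq_nonneg κ)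
  have a8 : 0 ≤ κ * e := by positivity
  refine ⟨ops_le (by positivity) ?_, by linarith⟩
  nlinarith [sq_nonneg ‖star Φ (R h)‖, sq_nonneg (κ * e)]

/-- The algebra behind the overlap of two null vectors at distinct points. -/
lemma ov_alg (hc : star T * T + Ψ * star Ψ = T * star T + Φ * star Φ) {k k' : H}
    {e e' X X' : ℝ} (n1 : ‖star (SS T z) k‖ ≤ e) (n2 : ‖star Φ k‖ ≤ e)
    (m1 : ‖star (SS T w) k'‖ ≤ e') (m2 : ‖star Φ k'‖ ≤ e')
    (c1 : ‖conj (w - z) * ⟪star (SS T z) k, k'⟫_ℂ‖ ≤ X)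
    (c3 : ‖(z - w) * ⟪k, star (SS T w) k'⟫_ℂ‖ ≤ X') :
    ‖z - w‖ ^ 2 * ‖⟪k, k'⟫_ℂ‖ ≤ 6 * e * e' + X + X' := by
  have he : 0 ≤ e := (norm_nonneg _).trans n1
  have he' : 0 ≤ e' := (norm_nonneg _).trans m1
  obtain ⟨n3, n4⟩ := ops_null_sq hc n1 n2
  obtain ⟨m3, m4⟩ := ops_null_sq hc m1 m2
  have k1 : ⟪SS T z k, SS T w k'⟫_ℂ + ⟪star Ψ k, star Ψ k'⟫_ℂ =
      ⟪star (SS T w) k, star (SS T z) k'⟫_ℂ + ⟪star Φ k, star Φ k'⟫_ℂ := by
    rw [← bas_sr (SS T z), bas_sl Ψ, bas_sl (SS T w), bas_sl Φ, ← inner_add_right,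
      ← inner_add_right, ops_comm hc]
  have k2 : ⟪star (SS T w) k, star (SS T z) k'⟫_ℂ = ⟪star (SS T z) k, star (SS T w) k'⟫_ℂ +
      conj (w - z) * ⟪star (SS T z) k, k'⟫_ℂ + (z - w) * ⟪k, star (SS T w) k'⟫_ℂ +
        (z - w) * conj (w - z) * ⟪k, k'⟫_ℂ := by
    rw [star_SS_shift T z w k, star_SS_shift T w z k']
    simp only [inner_add_left, inner_add_right, inner_smul_left, inner_smul_right,
      Complex.conj_conj]
    ring
  have k3 : ((‖z - w‖ ^ 2 : ℝ) : ℂ) * ⟪k, k'⟫_ℂ = ⟪star (SS T z) k, star (SS T w) k'⟫_ℂ +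
      conj (w - z) * ⟪star (SS T z) k, k'⟫_ℂ + (z - w) * ⟪k, star (SS T w) k'⟫_ℂ +
        ⟪star Φ k, star Φ k'⟫_ℂ - ⟪SS T z k, SS T w k'⟫_ℂ - ⟪star Ψ k, star Ψ k'⟫_ℂ := by
    have e : conj (w - z) = -conj (z - w) := by rw [← map_neg, neg_sub]
    rw [← ops_mul_conj]
    rw [e] at k2 ⊢
    linear_combination k1 + k2
  have k4 := congrArg norm k3
  rw [norm_mul, Complex.norm_real, Real.norm_of_nonneg (by positivity)] at k4
  rw [k4]
  have b1 := ops_in n1 m1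
  have b2 := ops_in n2 m2
  have b3 := ops_in2 he he' n3 m3
  have b4 := ops_in2 he he' n4 m4
  generalize ⟪star (SS T z) k, star (SS T w) k'⟫_ℂ = x1 at *
  generalize conj (w - z) * ⟪star (SS T z) k, k'⟫_ℂ = x2 at *
  generalize (z - w) * ⟪k, star (SS T w) k'⟫_ℂ = x3 at *
  generalize ⟪star Φ k, star Φ k'⟫_ℂ = x4 at *
  generalize ⟪SS T z k, SS T w k'⟫_ℂ = x5 at *
  generalize ⟪star Ψ k, star Ψ k'⟫_ℂ = x6 at *
  have d1 := norm_sub_le (x1 + x2 + x3 + x4 - x5) x6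
  have d2 := norm_sub_le (x1 + x2 + x3 + x4) x5
  have d3 := norm_add_le (x1 + x2 + x3) x4
  have d4 := norm_add_le (x1 + x2) x3
  have d5 := norm_add_le x1 x2
  linarith

lemma Ad.inc (ad : Ad T Φ Ψ R κ) {s' σ' : ℝ} (hs : 0 < s) (h : s ≤ σ) (hs' : 0 < s')
    (h' : s' ≤ σ') (a b : H) :
    ‖z - w‖ ^ 2 * ‖⟪st T Φ z s a - st T Φ z σ a, star R (st T Φ w s' b - st T Φ w σ' b)⟫_ℂ‖ ≤
      84 * κ * gn T Φ z σ a * gn T Φ w σ' b := by
  obtain ⟨n1, n2⟩ := inc_null (T := T) (Φ := Φ) (z := z) hs h a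
  obtain ⟨m1, m2⟩ := inc_null (T := T) (Φ := Φ) (z := w) hs' h' b
  obtain ⟨n3, n4⟩ := ad.null n1 n2
  obtain ⟨m3, m4⟩ := ad.null_star m1 m2
  have c1 := ops_cross (z := z) ad.hc hs h a m3 m4
  have c2 := ops_cross (z := w) ad.hc hs' h' b n3 n4
  refine (ov_alg ad.hc n1 n2 m3 m4 c1 (X' := 10 * gn T Φ w σ' b * (2 * κ * (2 * gn T Φ z σ a)))
    ?_).trans (le_of_eq (by ring))
  rw [ad.star_SS_R, bas_sr R, norm_mul, norm_inner_symm]
  rwa [norm_mul, Complex.norm_conj] at c2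

lemma Ad.prod (ad : Ad T Φ Ψ R κ) (hσ : 0 < σ) (a b : H) :
    ‖⟪star R (st T Φ z σ a), st T Φ w σ b⟫_ℂ‖ ≤ κ * gn T Φ z σ a * gn T Φ w σ b / σ := by
  have n1 := ops_st_sq (T := T) (Φ := Φ) (z := z) hσ a
  have n2 := ops_st_sq (T := T) (Φ := Φ) (z := w) hσ b
  have hg := gn_nonneg (T := T) (Φ := Φ) (z := z) (s := σ) a
  have hg' := gn_nonneg (T := T) (Φ := Φ) (z := w) (s := σ) b
  have k0 : 0 ≤ κ := by linarith [ad.k1]
  refine (ops_in (ad.app _).2 le_rfl).trans ?_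
  rw [le_div_iff₀ hσ, mul_assoc κ, mul_assoc κ, mul_assoc κ]
  refine mul_le_mul_of_nonneg_left (ops_le (by positivity) ?_) k0
  calc (‖st T Φ z σ a‖ * ‖st T Φ w σ b‖ * σ) ^ 2
      = σ * ‖st T Φ z σ a‖ ^ 2 * (σ * ‖st T Φ w σ b‖ ^ 2) := by ring
    _ ≤ gn T Φ z σ a ^ 2 * gn T Φ w σ b ^ 2 := mul_le_mul n1 n2 (by positivity) (by positivity)
    _ = (gn T Φ z σ a * gn T Φ w σ b) ^ 2 := by ring

lemma Ad.coarse (ad : Ad T Φ Ψ R κ) (hs : 0 < s) (h : s ≤ σ) (a b : H) :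
    ‖⟪star R (st T Φ z s a), st T Φ w σ b⟫_ℂ‖ ≤ 7 * κ * gn T Φ z σ a * gn T Φ w σ b / σ := by
  have hσ : 0 < σ := hs.trans_le h
  obtain ⟨n1, n2⟩ := inc_null (T := T) (Φ := Φ) (z := z) hs h a
  obtain ⟨m1, m2⟩ := ad.null_star n1 n2
  have o1 := ov_null ad.hc m1 m2 hσ w b
  rw [map_sub] at o1
  refine (ops_split _ (star R (st T Φ z σ a)) _).trans
    ((add_le_add o1 (ad.prod hσ a b)).trans (le_of_eq ?_))
  ring

lemma Ad.farInc (ad : Ad T Φ Ψ R κ) {s' : ℝ} (hs : 0 < s) (h : s ≤ σ) (hs' : 0 < s')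
    (h' : s' ≤ ‖z - w‖ ^ 2) (a b : H) :
    ‖⟪star R (st T Φ w s' b), st T Φ z s a - st T Φ z σ a⟫_ℂ‖ ≤
      96 * κ * gn T Φ z σ a * gn T Φ w (‖z - w‖ ^ 2) b / ‖z - w‖ ^ 2 := by
  have hρ : 0 < ‖z - w‖ ^ 2 := hs'.trans_le h'
  obtain ⟨n1, n2⟩ := inc_null (T := T) (Φ := Φ) (z := z) hs h a
  obtain ⟨m1, m2⟩ := ad.null n1 n2
  have o1 := ov_null ad.hc m1 m2 hρ w b
  have o2 := ad.inc (z := z) (w := w) hs h hs' h' a b
  rw [mul_comm, ← le_div_iff₀ hρ, norm_inner_symm, map_sub] at o2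
  rw [norm_inner_symm, ← bas_sl] at o1
  refine (ops_split _ (star R (st T Φ w (‖z - w‖ ^ 2) b)) _).trans
    ((add_le_add o2 o1).trans (le_of_eq ?_))
  ring

lemma Ad.farSt (ad : Ad T Φ Ψ R κ) {s' : ℝ} (hs : 0 < s) (h : s ≤ ‖z - w‖ ^ 2) (hs' : 0 < s')
    (h' : s' ≤ ‖z - w‖ ^ 2) (a b : H) :
    ‖⟪star R (st T Φ z s a), st T Φ w s' b⟫_ℂ‖ ≤
      103 * κ * gn T Φ z (‖z - w‖ ^ 2) a * gn T Φ w (‖z - w‖ ^ 2) b / ‖z - w‖ ^ 2 := by
  have o1 := ad.farInc (z := w) (w := z) (σ := ‖z - w‖ ^ 2) hs' h' hs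
    (by rwa [norm_sub_rev]) b a
  have o2 := ad.coarse (z := z) (w := w) hs h a b
  rw [norm_sub_rev w z] at o1
  rw [norm_inner_symm] at o1 o2 ⊢
  refine (ops_split _ (st T Φ w (‖z - w‖ ^ 2) b) _).trans ((add_le_add o1 o2).trans (le_of_eq ?_))
  ring

lemma Ad.del (ad : Ad T Φ Ψ R κ) {v : H} {A : Set ℂ}
    {x : ℂ → H} {β C s0 : ℝ} (h : Dir T Φ v A x β C s0) {z' : ℂ} (hz : z ∈ A) (hz' : z' ∈ A)
    (w : ℂ) {s' : ℝ} (hs' : 0 < s') (h1 : s' ≤ s) (h2 : s ≤ σ) (h3 : σ ≤ s0)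
    (h4 : ‖z' - z‖ ^ 2 ≤ s) :
    ‖⟪star R (st T Φ z' s' (x z')) - star R (st T Φ z s (x z)), st T Φ w σ (x w)⟫_ℂ‖ ≤
      31 * κ * (1 + C) * (s / σ) ^ (β / 2) * gn T Φ z σ (x z) * gn T Φ w σ (x w) / σ := by
  have hs : 0 < s := hs'.trans_le h1
  have hσ : 0 < σ := hs.trans_le h2
  have hC := h.C1
  have k0 : 0 ≤ κ := by linarith [ad.k1]
  rw [norm_sub_rev] at h4
  have hτ : 0 ≤ (s / σ) ^ (β / 2) := by positivity
  have eτ : (s / σ) ^ β = ((s / σ) ^ (β / 2)) ^ 2 := by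
    rw [← Real.rpow_natCast, ← Real.rpow_mul (by positivity)]
    norm_num
  have a1 := h.d1 z hz s σ hs h2 h3
  have a2 := h.d3 z hz z' hz' s σ hs h2 h3 (by linarith)
  have a3 := h.ops_other hz hz' hs (h2.trans h3) (by linarith)
  rw [eτ, ← gn_sq hs, ← gn_sq hσ] at a1
  rw [eτ, ← gn_sq hσ, ← gn_sq hσ] at a2
  have hq := gn_nonneg (T := T) (Φ := Φ) (z := z) (s := σ) (x z)
  have hq' := gn_nonneg (T := T) (Φ := Φ) (z := w) (s := σ) (x w)
  have o2 := ad.coarse (z := z) (w := w) hs h2 (x z' - x z) (x w)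
  generalize (s / σ) ^ (β / 2) = τ at *
  generalize gn T Φ z σ (x z) = q at *
  have hτq : 0 ≤ (τ * q) ^ 2 := sq_nonneg _
  have b1 : gn T Φ z s (x z') ≤ 2 * (1 + C) * (τ * q) := by
    refine ops_le (by positivity) (a3.trans ?_)
    have c1 := mul_le_mul_of_nonneg_left a1 (by positivity : 0 ≤ 2 * (1 + C))
    have c2 : 2 * (1 + C) * C * (τ * q) ^ 2 ≤ (2 * (1 + C)) ^ 2 * (τ * q) ^ 2 :=
      mul_le_mul_of_nonneg_right (by nlinarith) hτq
    nlinarith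
  have b2 : gn T Φ z σ (x z' - x z) ≤ (1 + C) * (τ * q) := by
    refine ops_le (by positivity) (a2.trans ?_)
    have c2 : C * (τ * q) ^ 2 ≤ (1 + C) ^ 2 * (τ * q) ^ 2 :=
      mul_le_mul_of_nonneg_right (by nlinarith) hτq
    nlinarith
  have hg := gn_nonneg (T := T) (Φ := Φ) (z := z) (s := s) (x z')
  have b3 : gn T Φ z' s' (x z') ≤ 2 * gn T Φ z s (x z') := by
    refine ops_le (by positivity) ?_
    have c1 : GG T Φ z' s' (x z') ≤ 4 * GG T Φ z s (x z') :=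
      GG_comp hs hs' (by norm_num) (by linarith) _
    rw [← gn_sq hs, ← gn_sq hs'] at c1
    linarith
  have b4 : ‖z - z'‖ * ‖st T Φ z s (x z')‖ ≤ gn T Φ z s (x z') := by
    refine ops_le hg (le_trans ?_ (ops_st_sq hs _))
    rw [mul_pow]
    exact mul_le_mul_of_nonneg_right h4 (by positivity)
  have n1 : ‖star (SS T z') (st T Φ z' s' (x z') - st T Φ z s (x z'))‖ ≤
      8 * (1 + C) * (τ * q) := by
    rw [map_sub, star_SS_shift T z z' (st T Φ z s (x z'))]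
    have d1 := norm_sub_le (star (SS T z') (st T Φ z' s' (x z')))
      (star (SS T z) (st T Φ z s (x z')) + conj (z - z') • st T Φ z s (x z'))
    have d2 := norm_add_le (star (SS T z) (st T Φ z s (x z'))) (conj (z - z') • st T Φ z s (x z'))
    rw [norm_smul, Complex.norm_conj] at d2
    have d3 := norm_star_st_le (T := T) (Φ := Φ) (z := z') hs' (x z')
    have d4 := norm_star_st_le (T := T) (Φ := Φ) (z := z) hs (x z')
    linarith
  have n2 : ‖star Φ (st T Φ z' s' (x z') - st T Φ z s (x z'))‖ ≤ 8 * (1 + C) * (τ * q) := by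
    have e : star Φ (st T Φ z' s' (x z') - st T Φ z s (x z')) =
        (x z' - star Φ (st T Φ z s (x z'))) - (x z' - star Φ (st T Φ z' s' (x z'))) := by
      rw [map_sub]; abel
    rw [e]
    have d1 := norm_sub_le (x z' - star Φ (st T Φ z s (x z')))
      (x z' - star Φ (st T Φ z' s' (x z')))
    have d3 := norm_res_le (T := T) (Φ := Φ) (z := z') hs' (x z')
    have d4 := norm_res_le (T := T) (Φ := Φ) (z := z) hs (x z')
    linarith
  obtain ⟨m1, m2⟩ := ad.null_star n1 n2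
  have o1 := ov_null ad.hc m1 m2 hσ w (x w)
  have e : star R (st T Φ z' s' (x z')) - star R (st T Φ z s (x z)) -
      star R (st T Φ z s (x z' - x z)) = star R (st T Φ z' s' (x z') - st T Φ z s (x z')) := by
    rw [st_sub, map_sub, map_sub]; abel
  refine (ops_split _ (star R (st T Φ z s (x z' - x z))) _).trans ?_
  rw [e]
  refine (add_le_add o1 o2).trans ?_
  rw [← add_div]
  refine div_le_div_of_nonneg_right ?_ hσ.le
  have := mul_le_mul_of_nonneg_left (mul_le_mul_of_nonneg_right b2 hq') k0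
  linarith

theorem Ad.ovl (ad : Ad T Φ Ψ R κ) {v : H} {A : Set ℂ} {x : ℂ → H} {β C s0 : ℝ}
    (h : Dir T Φ v A x β C s0) : Ovl A (fun z s => star R (st T Φ z s (x z)))
      (fun z s => st T Φ z s (x z)) (fun z s => gn T Φ z s (x z)) (β / 2)
      (200 * κ * (1 + C)) s0 := by
  have hC := h.C1
  have hk := ad.k1
  have key : ∀ {N c a b r : ℝ}, c ≤ 200 * κ * (1 + C) → 0 ≤ a → 0 ≤ b → 0 ≤ r →
      N ≤ c * a * b / r → N ≤ 200 * κ * (1 + C) * a * b / r :=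
    fun hc ha hb hr hN => hN.trans (by gcongr)
  refine ⟨fun z w σ1 σ2 s h1 h2 hs h3 => key (by nlinarith) (gn_nonneg _) (gn_nonneg _)
      (by positivity) (ad.farInc h1 h2 hs h3 _ _),
    fun z w s s' h1 h2 h3 h4 => key (by nlinarith) (gn_nonneg _) (gn_nonneg _) (by positivity)
      (ad.farSt h1 h2 h3 h4 _ _), fun z hz z' hz' w s' s σ h1 h2 h3 h4 h5 => ?_⟩
  have hs : 0 < s := h1.trans_le h2
  have hσ : 0 < σ := hs.trans_le h3
  have q1 := gn_nonneg (T := T) (Φ := Φ) (z := z) (s := σ) (x z)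
  have q2 := gn_nonneg (T := T) (Φ := Φ) (z := w) (s := σ) (x w)
  refine (ad.del h hz hz' w h1 h2 h3 h4 h5).trans ?_
  gcongr
  norm_num

lemma unb (ht : ∀ z y, star (SS T z) y = 0 → y = 0) {v x : H} (hv : ‖v‖ ≤ 1)
    (hx : ⟪v, x⟫_ℂ = 1) {s0 : ℝ} (h0 : 0 < s0) (M : ℝ) :
    ∃ s, 0 < s ∧ s ≤ s0 ∧ M * s ≤ gn T Φ z s x ^ 2 := by
  by_contra hM
  push Not at hM
  set r : ℕ → ℝ := fun n => s0 * (1 / ((n : ℝ) + 1)) with hr
  have r0 : ∀ n, 0 < r n := fun n => by simp only [hr]; positivity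
  have r1 : ∀ n, r n ≤ s0 := fun n => by
    refine mul_le_of_le_one_right h0.le ?_
    rw [div_le_one (by positivity)]
    linarith [Nat.cast_nonneg (α := ℝ) n]
  have b1 : ∀ n, ‖st T Φ z (r n) x‖ ≤ √M := fun n => by
    refine Real.le_sqrt_of_sq_le (le_of_mul_le_mul_left ?_ (r0 n))
    have := ops_st_sq (T := T) (Φ := Φ) (z := z) (r0 n) x
    have := hM _ (r0 n) (r1 n)
    linarith
  have q0 : Tendsto (fun n => gn T Φ z (r n) x) atTop (𝓝 0) := by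
    have a1 : Tendsto (fun n => √(M * r n)) atTop (𝓝 0) := by
      have := ((tendsto_one_div_add_atTop_nhds_zero_nat (𝕜 := ℝ)).const_mul s0).const_mul M
      simpa [hr] using this.sqrt
    exact squeeze_zero (fun n => gn_nonneg x)
      (fun n => Real.le_sqrt_of_sq_le (hM _ (r0 n) (r1 n)).le) a1
  have q1 : Tendsto (fun n => gn T Φ z (r n) x) (hyperfilter ℕ) (𝓝 0) :=
    q0.mono_left Nat.hyperfilter_le_atTop
  obtain ⟨y, hy⟩ := exists_weak_limit' (𝕜 := ℂ) (hyperfilter ℕ) (fun n => st T Φ z (r n) x) _ b1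
  have hy0 : y = 0 := by
    refine ht z y ?_
    have a1 := hy (SS T z (star (SS T z) y))
    have a2 : Tendsto (fun n => ⟪SS T z (star (SS T z) y), st T Φ z (r n) x⟫_ℂ) (hyperfilter ℕ)
        (𝓝 0) := by
      refine squeeze_zero_norm (a := fun n => ‖star (SS T z) y‖ * gn T Φ z (r n) x)
        (fun n => ?_) (by simpa using q1.const_mul ‖star (SS T z) y‖)
      rw [← bas_sr]
      exact ops_in le_rfl (norm_star_st_le (r0 n) x)
    have a3 := tendsto_nhds_unique a1 a2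
    rwa [← bas_sr, inner_self_eq_zero] at a3
  subst hy0
  have a1 := (Complex.continuous_re.tendsto _).comp (hy (Φ v))
  have a2 := le_of_tendsto_of_tendsto' (q1.const_sub 1) a1 fun n => ops_nd hv hx (r0 n)
  simp at a2
  linarith

/-- The family of states when the adjoint has no eigenvector. -/
theorem fam (hc : star T * T + Ψ * star Ψ = T * star T + Φ * star Φ)
    (ht : ∀ z y, star (SS T z) y = 0 → y = 0) {v : H} {A : Set ℂ} {x : ℂ → H} {β C s0 C' : ℝ}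
    (h : Dir T Φ v A x β C s0) (hC' : 200 * (1 + C) ≤ C') :
    Fam T (Φ v) A (fun z s => st T Φ z s (x z)) (fun z s => gn T Φ z s (x z)) (β / 2) C' s0 := by
  have hC := h.C1
  have hβ := h.β0
  have key : ∀ {N c a b r : ℝ}, c ≤ C' → 0 ≤ a → 0 ≤ b → 0 ≤ r → N ≤ c * a * b / r →
      N ≤ C' * a * b / r := fun hc ha hb hr hN => hN.trans (by gcongr)
  refine ⟨by positivity, by linarith [h.β1], by linarith, h.s0pos,
    fun z s => gn_nonneg _, fun z s hs => ?_, fun z s hs => ops_st_sq hs _,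
    fun z hz s hs => ops_nd h.v1 (h.nd z hz) hs, fun z s σ hs hσ => gn_mono hs hσ _,
    fun z s σ hs hσ => ?_, fun z s σ hs hσ => ?_, fun z w σ1 σ2 s h1 h2 hs => ?_,
    fun z w σ1 σ2 s h1 h2 hs h3 => key (by linarith) (gn_nonneg _) (gn_nonneg _) (by positivity)
      (ov_farInc hc h1 h2 hs h3 _ _),
    fun z w s s' h1 h2 h3 h4 => key (by linarith) (gn_nonneg _) (gn_nonneg _) (by positivity)
      (ov_farSt hc h1 h2 h3 h4 _ _),
    fun z hz z' hz' w s' s σ h1 h2 h3 h4 h5 => ?_, fun z hz s' s h1 h2 h3 => ?_, fun z hz => ?_,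
    fun z hz w hw s hs h0 hzw => ?_, fun z hz M => unb ht h.v1 (h.nd z hz) h.s0pos M⟩
  · have := norm_star_st_le (T := T) (Φ := Φ) (z := z) hs (x z)
    rwa [star_SS] at this
  · rw [gn_sq hs, gn_sq (hs.trans_le hσ)]
    exact GG_scale hs hσ _
  · rw [gn_sq hs, gn_sq hσ]
    exact inner_st_same hs hσ _
  · obtain ⟨n1, n2⟩ := inc_null (T := T) (Φ := Φ) (z := z) h1 h2 (x z)
    have o1 := ov_null hc n1 n2 hs w (x w)
    rw [norm_inner_symm, ← mul_assoc] at o1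
    exact key (by linarith) (gn_nonneg _) (gn_nonneg _) hs.le o1
  · have hs : 0 < s := h1.trans_le h2
    have hσ : 0 < σ := hs.trans_le h3
    have q1 := gn_nonneg (T := T) (Φ := Φ) (z := z) (s := σ) (x z)
    have q2 := gn_nonneg (T := T) (Φ := Φ) (z := w) (s := σ) (x w)
    refine (h.ops_del hc hz hz' w h1 h2 h3 h4 h5).trans ?_
    gcongr
    linarith
  · have hs : 0 < s := h1.trans_le h2
    rw [gn_sq hs, gn_sq h1]
    refine (h.d1 z hz s' s h1 h2 h3).trans (mul_le_mul_of_nonneg_right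
      (mul_le_mul (by linarith) ?_ (by positivity) (by linarith)) (GG_nonneg hs _))
    exact Real.rpow_le_rpow_of_exponent_ge (by positivity) ((div_le_one hs).2 h2) (by linarith)
  · rw [gn_sq h.s0pos]
    linarith [h.d2 z hz]
  · have a1 : GG T Φ w s (x w) ≤ 9 * GG T Φ z s (x w) :=
      GG_comp hs hs (by norm_num) (by linarith) _
    rw [← gn_sq hs, ← gn_sq hs] at a1
    have a2 := h.ops_other hz hw hs h0 hzw
    have a3 : 0 ≤ gn T Φ z s (x z) ^ 2 := by positivity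
    have a4 := mul_le_mul_of_nonneg_right hC' a3
    nlinarith

end Pool.Agent.Lib.MP_dee751_an.Q
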