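import Pool.Agent.Lib.MP_45cb44_an.HyTree
import Pool.Agent.Lib.MP_45cb44_an.HyBas
import Pool.Agent.Lib.MP_dee751_an.QOps

-- part Pool.Agent.Lib.MP_dee751_an.QWeak
section

/-! A maximal inequality for a family of approximate eigenvectors, and comparison of the family
with its image under an operator of the commutant. -/

namespace Pool.Agent.Lib.MP_dee751_an.Q

open Pool.Agent.Lib.MP_45cb44_an Pool.Agent.Lib.MP_45cb44_an.Hy
open MeasureTheory Metric Set Filter Topology InnerProductSpace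
open scoped InnerProductSpace ComplexConjugate ENNReal

variable {H : Type*} [NormedAddCommGroup H] [InnerProductSpace ℂ H] [CompleteSpace H]
  {T : H →L[ℂ] H} {v : H} {A : Set ℂ} {y : ℂ → ℝ → H} {q : ℂ → ℝ → ℝ} {β C s0 : ℝ}

lemma wk_q (h : Fam T v A y q β C s0) {z : ℂ} (hz : z ∈ A) {s : ℝ} (hs : 0 < s) (h0 : s ≤ s0) :
    q z s ≤ C * (s / s0) ^ (β / 2) := by
  have hq := h.q_le hz hs h0
  have hC := h.C1
  have hr : 0 < s / s0 := div_pos hs h.s0pos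
  have e1 : (s / s0) ^ β = ((s / s0) ^ (β / 2)) ^ 2 := by
    rw [← Real.rpow_natCast, ← Real.rpow_mul hr.le]; congr 1; push_cast; ring
  rw [e1, ← mul_pow] at hq
  exact loc_sq (by positivity) hq

lemma wk_pair (h : Fam T v A y q β C s0) {P Q : ℂ} (hP : P ∈ A) (hQ : Q ∈ A) {σ1 σ2 s : ℝ}
    (h1 : 0 < σ1) (h2 : σ1 ≤ σ2) (h3 : σ2 ≤ s0) (hs : 0 < s) (hρ : 0 < ‖P - Q‖ ^ 2)
    (hρ0 : ‖P - Q‖ ^ 2 ≤ s0) :
    ‖⟪y Q s, y P σ1 - y P σ2⟫_ℂ‖ ≤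
      C ^ 3 * (σ2 / s0) ^ (β / 2) / s0 * (s0 / ‖P - Q‖ ^ 2) ^ (1 - β / 2) := by
  have hC := h.C1
  have hs0 := h.s0pos
  have a1 := wk_q h hP (h1.trans_le h2) h3
  have a2 := wk_q h hQ hρ hρ0
  have q1 := h.q0 P σ2
  have d : ‖⟪y Q s, y P σ1 - y P σ2⟫_ℂ‖ ≤ C * q P σ2 * q Q (‖P - Q‖ ^ 2) / ‖P - Q‖ ^ 2 := by
    rcases le_total s (‖P - Q‖ ^ 2) with h4 | h4
    · exact h.farInc P Q σ1 σ2 s h1 h2 hs h4
    · refine (h.coarse P Q σ1 σ2 s h1 h2 hs).trans ?_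
      have b1 := h.scale Q _ s hρ h4
      have q2 := h.q0 Q s
      have q3 := h.q0 Q (‖P - Q‖ ^ 2)
      generalize ‖P - Q‖ ^ 2 = ρ at *
      have b2 : q Q s / s ≤ q Q ρ / ρ := by
        rw [div_le_div_iff₀ hs hρ]
        refine loc_sq (by positivity) ?_
        have b3 := mul_le_mul_of_nonneg_left b1 hρ.le
        have b4 := mul_le_mul_of_nonneg_right h4 (by positivity : 0 ≤ s * q Q ρ ^ 2)
        nlinarith
      rw [mul_div_assoc, mul_div_assoc]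
      exact mul_le_mul_of_nonneg_left b2 (by positivity)
  have q3 := h.q0 Q (‖P - Q‖ ^ 2)
  generalize ‖P - Q‖ ^ 2 = ρ at *
  have hr : 0 < ρ / s0 := by positivity
  have e2 : (s0 / ρ) ^ (1 - β / 2) = s0 / ρ * (ρ / s0) ^ (β / 2) := by
    rw [Real.rpow_sub (by positivity), Real.rpow_one, ← inv_div ρ s0, Real.inv_rpow hr.le,
      div_inv_eq_mul]
  have hσ : 0 < σ2 := h1.trans_le h2
  calc _ ≤ C * (C * (σ2 / s0) ^ (β / 2)) * (C * (ρ / s0) ^ (β / 2)) / ρ := d.trans (by gcongr)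
    _ = _ := by rw [e2]; field_simp

omit [CompleteSpace H] in
lemma wk_unimod (a : ℂ) : ∃ c : ℂ, ‖c‖ ≤ 1 ∧ conj c * a = (‖a‖ : ℝ) := by
  by_cases h : a = 0
  · exact ⟨0, by simp, by simp [h]⟩
  have h0 : (‖a‖ : ℂ) ≠ 0 := by exact_mod_cast norm_ne_zero_iff.2 h
  refine ⟨a / (‖a‖ : ℝ), ?_, ?_⟩
  · rw [norm_div, Complex.norm_real, norm_norm, div_self (norm_ne_zero_iff.2 h)]
  · rw [map_div₀, Complex.conj_ofReal, div_mul_eq_mul_div, Complex.conj_mul', div_eq_iff h0, sq]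

/-- Weak type bound for the increments. -/
theorem weak (h : Fam T v A y q β C s0) (hA : ∀ z ∈ A, ∀ z' ∈ A, ‖z - z'‖ ^ 2 ≤ s0) :
    ∃ K, 0 < K ∧ ∀ σ1 σ2 lam (f : H), 0 < σ1 → σ1 ≤ σ2 → σ2 ≤ s0 → 0 < lam →
      mm {z | z ∈ A ∧ lam < ‖⟪y z σ1 - y z σ2, f⟫_ℂ‖} ≤
        ENNReal.ofReal (K * (σ2 / s0) ^ (β / 2) * ‖f‖ ^ 2 / lam ^ 2) := by
  classical
  have hβ := h.β0
  have hβ1 := h.β1
  have hC := h.C1
  have hs0 := h.s0pos
  obtain ⟨Cp, hCp, hp⟩ := packing (a := 1 - β / 2) (by linarith) (by linarith)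
  refine ⟨2 * (4 * C ^ 2 + 2 * (C ^ 3 * Cp)), by positivity,
    fun σ1 σ2 lam f h1 h2 h3 hl => ?_⟩
  have hσ : 0 < σ2 := h1.trans_le h2
  set τ := (σ2 / s0) ^ (β / 2) with hτ
  have τ0 : 0 < τ := by positivity
  have τ1 : τ ≤ 1 := Real.rpow_le_one (by positivity) ((div_le_one hs0).2 h3) (by positivity)
  set X := 2 * (4 * C ^ 2 + 2 * (C ^ 3 * Cp)) * τ * ‖f‖ ^ 2 / lam ^ 2 with hX
  have X0 : 0 ≤ X := by positivity
  set E := {z | z ∈ A ∧ lam < ‖⟪y z σ1 - y z σ2, f⟫_ℂ‖} with hE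
  by_contra hc
  rw [not_le] at hc
  have e1 : √σ1 ^ 2 = σ1 := Real.sq_sqrt h1.le
  obtain ⟨S, s1, s2, s3, s4⟩ : ∃ S : Finset ℂ, ↑S ⊆ E ∧ 0 < S.card ∧ X ≤ 2 * S.card * σ1 ∧
      ∀ x ∈ S, ∀ y ∈ S, x ≠ y → √σ1 ≤ ‖x - y‖ := by
    have a1 : X < (⌊X / σ1⌋₊ + 1) * σ1 := by
      rw [← div_lt_iff₀ h1]; exact Nat.lt_floor_add_one _
    rcases Nat.eq_zero_or_pos ⌊X / σ1⌋₊ with h0 | h0
    · obtain ⟨z, hz⟩ := nonempty_of_measure_ne_zero (ne_zero_of_lt hc)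
      refine ⟨{z}, by simpa using hz, by simp, ?_, by simp⟩
      rw [h0] at a1
      simp only [Finset.card_singleton, Nat.cast_one]
      push_cast at a1
      linarith
    · obtain ⟨S, b1, b2, b3⟩ := exists_separated (E := E) (h := √σ1) (Real.sqrt_pos.2 h1)
        ⌊X / σ1⌋₊ (lt_of_le_of_lt (ENNReal.ofReal_le_ofReal (by
          rw [e1, ← le_div_iff₀ h1]; exact Nat.floor_le (by positivity))) hc)
      refine ⟨S, b1, b2 ▸ h0, ?_, b3⟩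
      have : (1 : ℝ) ≤ ⌊X / σ1⌋₊ := by exact_mod_cast h0
      rw [b2]
      nlinarith
  have hS : ∀ Q ∈ S, Q ∈ A := fun Q hQ => (s1 hQ).1
  have hN : (0 : ℝ) < S.card := by exact_mod_cast s2
  let d : ℂ → H := fun Q => y Q σ1 - y Q σ2
  choose c c1 c2 using fun Q => wk_unimod ⟪d Q, f⟫_ℂ
  have n1 := step_norm S c d (u := 1) (D := 4 * C ^ 2 * τ / σ1) (F := 2 * (C ^ 3 * Cp) * τ / σ1)
    zero_le_one (fun Q _ => c1 Q) (fun Q hQ => by
      have a1 := h.nrm Q σ1 h1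
      have a2 := h.nrm Q σ2 hσ
      have a3 := pow_le_pow_left₀ (h.q0 _ _) (h.mono Q σ1 σ2 h1 h2) 2
      have a4 := pow_le_pow_left₀ (h.q0 _ _) (wk_q h (hS Q hQ) hσ h3) 2
      have a5 := pow_le_pow_left₀ (norm_nonneg _) (norm_sub_le (y Q σ1) (y Q σ2)) 2
      have a6 := mul_le_mul_of_nonneg_right h2 (sq_nonneg ‖y Q σ2‖)
      have a7 : (C * τ) ^ 2 ≤ C ^ 2 * τ := by
        rw [mul_pow]
        exact mul_le_mul_of_nonneg_left (by nlinarith) (sq_nonneg C)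
      have a8 := mul_le_mul_of_nonneg_left a5 h1.le
      have a9 := mul_nonneg h1.le (sq_nonneg (‖y Q σ1‖ - ‖y Q σ2‖))
      rw [le_div_iff₀ h1]
      change ‖y Q σ1 - y Q σ2‖ ^ 2 * σ1 ≤ _
      rw [← hτ] at a4
      nlinarith) fun Q hQ => by
      have h4 := hp S Q √s0 √σ1 (Real.sqrt_pos.2 h1) (Real.sqrt_pos.2 hs0)
        (fun P hP => Real.le_sqrt_of_sq_le (hA P (hS P hP) Q (hS Q hQ))) s4 Q hQ
      rw [Real.sq_sqrt hs0.le, e1] at h4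
      have h5 : 0 ≤ 2 * (C ^ 3 * τ / s0) := by positivity
      refine le_trans ?_ ((mul_le_mul_of_nonneg_left h4 h5).trans (le_of_eq (by field_simp)))
      rw [Finset.mul_sum]
      refine Finset.sum_le_sum fun P hP => ?_
      obtain ⟨h6, h7⟩ := Finset.mem_erase.1 hP
      have h8 : 0 < ‖P - Q‖ ^ 2 := by
        have := norm_pos_iff.2 (sub_ne_zero.2 h6)
        positivity
      have h9 := hA P (hS P h7) Q (hS Q hQ)
      have b1 := wk_pair h (hS P h7) (hS Q hQ) h1 h2 h3 h1 h8 h9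
      have b2 := wk_pair h (hS P h7) (hS Q hQ) h1 h2 h3 hσ h8 h9
      have b3 : (s0 / ‖P - Q‖ ^ 2) ^ (1 - β / 2) ≤ (4 * s0 / ‖Q - P‖ ^ 2) ^ (1 - β / 2) := by
        rw [norm_sub_rev Q P]
        exact Real.rpow_le_rpow (by positivity) (by gcongr; linarith) (by linarith)
      have b4 := mul_le_mul_of_nonneg_left b3 h5
      rw [show d Q = y Q σ1 - y Q σ2 from rfl, inner_sub_left]
      refine (norm_sub_le _ _).trans ?_
      rw [← hτ] at b1 b2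
      change ‖⟪y Q σ1, y P σ1 - y P σ2⟫_ℂ‖ + ‖⟪y Q σ2, y P σ1 - y P σ2⟫_ℂ‖ ≤ _
      linarith
  have n2 : S.card * lam < ‖∑ Q ∈ S, c Q • d Q‖ * ‖f‖ := by
    refine lt_of_lt_of_le ?_ ((Complex.re_le_norm _).trans (norm_inner_le_norm (𝕜 := ℂ) _ _))
    rw [sum_inner, Complex.re_sum, ← nsmul_eq_mul, ← Finset.sum_const]
    refine Finset.sum_lt_sum_of_nonempty (Finset.card_pos.1 s2) fun Q hQ => ?_
    rw [inner_smul_left, c2, Complex.ofReal_re]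
    exact (s1 hQ).2
  have n3 := pow_lt_pow_left₀ n2 (by positivity) two_ne_zero
  rw [mul_pow, mul_pow] at n3
  have n4 := n3.trans_le (mul_le_mul_of_nonneg_right n1 (sq_nonneg ‖f‖))
  have n5 : S.card * (1 ^ 2 * (4 * C ^ 2 * τ / σ1 + 2 * (C ^ 3 * Cp) * τ / σ1)) * ‖f‖ ^ 2 =
      S.card * lam ^ 2 * (X / (2 * σ1)) := by
    rw [hX]; field_simp
  have n6 : X / (2 * σ1) ≤ S.card := by
    rw [div_le_iff₀ (by positivity)]; linarith
  have n7 := mul_le_mul_of_nonneg_left n6 (by positivity : 0 ≤ S.card * lam ^ 2)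
  rw [n5] at n4
  nlinarith

/-- Maximal inequality along a geometric sequence of scales. -/
theorem maxl (h : Fam T v A y q β C s0) (hA : ∀ z ∈ A, ∀ z' ∈ A, ‖z - z'‖ ^ 2 ≤ s0) :
    ∃ σ : ℕ → ℝ, (∀ j, 0 < σ j) ∧ (∀ j, σ j ≤ s0) ∧ Tendsto σ atTop (𝓝 0) ∧
      ∀ lam η : ℝ, 0 < lam → 0 < η → ∃ ε, 0 < ε ∧ ∀ f : H, ‖f‖ ≤ ε →
        mm {z | z ∈ A ∧ ∃ j, lam < ‖⟪y z (σ j), f⟫_ℂ‖} ≤ ENNReal.ofReal η := by
  have hβ := h.β0
  have hC := h.C1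
  have hs0 := h.s0pos
  obtain ⟨K, hK, hw⟩ := weak h hA
  set r : ℝ := (1 / 8) ^ (2 / β) with hr
  have r0 : 0 < r := by positivity
  have r1 : r < 1 := Real.rpow_lt_one (by norm_num) (by norm_num) (by positivity)
  have r2 : ∀ j : ℕ, (s0 * r ^ j / s0) ^ (β / 2) = (1 / 8) ^ j := fun j => by
    have e : r ^ (β / 2) = 1 / 8 := by
      rw [hr, ← Real.rpow_mul (by norm_num), show 2 / β * (β / 2) = 1 by field_simp,
        Real.rpow_one]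
    rw [mul_div_cancel_left₀ _ hs0.ne', ← Real.rpow_natCast, ← Real.rpow_mul r0.le, mul_comm,
      Real.rpow_mul r0.le, e, Real.rpow_natCast]
  have p0 : ∀ j : ℕ, 0 < s0 * r ^ j := fun j => by positivity
  have p1 : ∀ j : ℕ, s0 * r ^ j ≤ s0 := fun j =>
    mul_le_of_le_one_right hs0.le (pow_le_one₀ r0.le r1.le)
  refine ⟨fun j => s0 * r ^ j, p0, p1, ?_, fun lam η hl hη => ?_⟩
  · simpa using (tendsto_pow_atTop_nhds_zero_of_lt_one r0.le r1).const_mul s0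
  set M : ℝ := √(C / s0) with hM
  have M0 : 0 < M := Real.sqrt_pos.2 (by positivity)
  set ε : ℝ := min (lam / (2 * M)) √(η * lam ^ 2 / (32 * K)) with hε
  refine ⟨ε, lt_min (by positivity) (Real.sqrt_pos.2 (by positivity)), fun f hf => ?_⟩
  have f1 : M * ‖f‖ ≤ lam / 2 := by
    have := hf.trans (min_le_left _ _)
    rw [le_div_iff₀ (by positivity)] at this
    linarith
  have f2 : 32 * K * ‖f‖ ^ 2 / lam ^ 2 ≤ η := by
    have := pow_le_pow_left₀ (norm_nonneg _) (hf.trans (min_le_right _ _)) 2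
    rw [Real.sq_sqrt (by positivity), le_div_iff₀ (by positivity)] at this
    rw [div_le_iff₀ (by positivity)]
    linarith
  let B : ℕ → Set ℂ := fun j =>
    {z | z ∈ A ∧ lam / 4 * (1 / 2) ^ j < ‖⟪y z (s0 * r ^ (j + 1)) - y z (s0 * r ^ j), f⟫_ℂ‖}
  have hB : ∀ j, mm (B j) ≤ ENNReal.ofReal (16 * K * ‖f‖ ^ 2 / lam ^ 2 * (1 / 2) ^ j) := by
    intro j
    refine (hw _ _ _ f (p0 _) ?_ (p1 j) (by positivity)).trans (le_of_eq ?_)
    · rw [pow_succ, ← mul_assoc]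
      exact mul_le_of_le_one_right (p0 j).le r1.le
    · rw [r2]
      congr 1
      have e : ((1 : ℝ) / 8) ^ j = (1 / 2) ^ j * (1 / 2) ^ j * (1 / 2) ^ j := by
        rw [← mul_pow, ← mul_pow]; norm_num
      rw [e]
      field_simp
      norm_num
  have sub : {z | z ∈ A ∧ ∃ j, lam < ‖⟪y z (s0 * r ^ j), f⟫_ℂ‖} ⊆ ⋃ j, B j := by
    rintro z ⟨hz, j, hj⟩
    by_contra hn
    simp only [mem_iUnion, not_exists, B, mem_setOf_eq, hz, true_and, not_lt] at hn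
    have a1 : ∀ j : ℕ, ‖⟪y z (s0 * r ^ j), f⟫_ℂ‖ ≤ lam - lam / 2 * (1 / 2) ^ j := fun j => by
      induction j with
      | zero =>
        have b1 : ‖y z s0‖ ≤ M := Real.le_sqrt_of_sq_le (by
          rw [le_div_iff₀' hs0]; exact (h.nrm z s0 hs0).trans (h.top z hz))
        have b2 := (norm_inner_le_norm (𝕜 := ℂ) (y z s0) f).trans
          (mul_le_mul_of_nonneg_right b1 (norm_nonneg f))
        simp only [pow_zero, mul_one]
        linarith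
      | succ j ih =>
        have b1 := hn j
        rw [inner_sub_left] at b1
        have b2 := norm_le_norm_sub_add ⟪y z (s0 * r ^ (j + 1)), f⟫_ℂ ⟪y z (s0 * r ^ j), f⟫_ℂ
        rw [pow_succ (1 / 2 : ℝ)]
        linarith
    have a2 : 0 ≤ lam / 2 * (1 / 2 : ℝ) ^ j := by positivity
    linarith [a1 j]
  refine (measure_mono sub).trans ((measure_iUnion_le B).trans
    ((ENNReal.tsum_le_tsum hB).trans ?_))
  have hs := (hasSum_geometric_two).mul_left (16 * K * ‖f‖ ^ 2 / lam ^ 2)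
  rw [← ENNReal.ofReal_tsum_of_nonneg (fun j => by positivity) hs.summable, hs.tsum_eq]
  refine ENNReal.ofReal_le_ofReal (le_trans (le_of_eq ?_) f2)
  ring

/-- The family evaluates polynomials. -/
lemma poly (h : Fam T v A y q β C s0) {L : ℝ} (hL : ∀ z ∈ A, ‖z‖ ≤ L) {σ : ℕ → ℝ}
    (h0 : ∀ j, 0 < σ j) (hq : ∀ z ∈ A, Tendsto (fun j => q z (σ j)) atTop (𝓝 0)) (e : H) {g : H}
    (hg : g ∈ Submodule.span ℂ (range fun n : ℕ => (T ^ n) e)) :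
    ∃ (p : ℂ → ℂ) (P : ℝ), ∀ z ∈ A, ‖p z‖ ≤ P ∧ ∀ S : H →L[ℂ] H, S * T = T * S →
      Tendsto (fun j => ⟪y z (σ j), S g⟫_ℂ - p z * ⟪y z (σ j), S e⟫_ℂ) atTop (𝓝 0) := by
  induction hg using Submodule.span_induction with
  | mem g hg =>
    obtain ⟨n, rfl⟩ := hg
    induction n with
    | zero => exact ⟨fun _ => 1, 1, fun z _ => ⟨by simp, fun S _ => by simp⟩⟩
    | succ n ih =>
      obtain ⟨p, P, hp⟩ := ih
      refine ⟨fun z => z * p z, L * P, fun z hz => ⟨?_, fun S hS => ?_⟩⟩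
      · rw [norm_mul]
        exact mul_le_mul (hL z hz) (hp z hz).1 (norm_nonneg _) ((norm_nonneg _).trans (hL z hz))
      · have a1 := ((hp z hz).2 S hS).const_mul z
        have a2 : Tendsto (fun j => ⟪star T (y z (σ j)) - conj z • y z (σ j), S ((T ^ n) e)⟫_ℂ)
            atTop (𝓝 0) := by
          refine squeeze_zero_norm (a := fun j => q z (σ j) * ‖S ((T ^ n) e)‖) (fun j =>
            (norm_inner_le_norm _ _).trans (mul_le_mul_of_nonneg_right (h.eig z _ (h0 j))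
              (norm_nonneg _))) ?_
          simpa using (hq z hz).mul_const ‖S ((T ^ n) e)‖
        have a3 := a2.add a1
        rw [mul_zero, add_zero] at a3
        refine a3.congr fun j => ?_
        have e1 : S ((T ^ (n + 1)) e) = T (S ((T ^ n) e)) := by
          rw [pow_succ', mul_apply_eq_comp, ← mul_apply_eq_comp S, hS, mul_apply_eq_comp]
        simp only [e1, inner_sub_left, inner_smul_left, bas_sl, Complex.conj_conj]
        ring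
  | zero => exact ⟨fun _ => 0, 0, fun z _ => ⟨by simp, fun S _ => by simp⟩⟩
  | add g g' _ _ ih ih' =>
    obtain ⟨p, P, hp⟩ := ih
    obtain ⟨p', P', hp'⟩ := ih'
    refine ⟨fun z => p z + p' z, P + P', fun z hz => ⟨(norm_add_le _ _).trans
      (add_le_add (hp z hz).1 (hp' z hz).1), fun S hS => ?_⟩⟩
    have a1 := ((hp z hz).2 S hS).add ((hp' z hz).2 S hS)
    rw [add_zero] at a1
    refine a1.congr fun j => ?_
    simp only [map_add, inner_add_right]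
    ring
  | smul c g _ ih =>
    obtain ⟨p, P, hp⟩ := ih
    refine ⟨fun z => c * p z, ‖c‖ * P, fun z hz => ⟨?_, fun S hS => ?_⟩⟩
    · rw [norm_mul]
      exact mul_le_mul_of_nonneg_left (hp z hz).1 (norm_nonneg _)
    · have a1 := ((hp z hz).2 S hS).const_mul c
      rw [mul_zero] at a1
      refine a1.congr fun j => ?_
      simp only [map_smul, inner_smul_right]
      ring

lemma wk_avoid {D B1 B2 : Set ℂ} {a : ℝ} (ha : 0 < a) (hD : ENNReal.ofReal a < mm D)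
    (h1 : mm B1 ≤ ENNReal.ofReal (a / 2)) (h2 : mm B2 ≤ ENNReal.ofReal (a / 2)) :
    mm (D \ (B1 ∪ B2)) ≠ 0 := by
  intro h0
  have a1 : mm D ≤ mm (D \ (B1 ∪ B2)) + (mm B1 + mm B2) :=
    (measure_mono (subset_diff_union D (B1 ∪ B2))).trans ((measure_union_le _ _).trans
      (add_le_add le_rfl (measure_union_le _ _)))
  rw [h0, zero_add] at a1
  have a2 := a1.trans (add_le_add h1 h2)
  rw [← ENNReal.ofReal_add (by positivity) (by positivity), add_halves] at a2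
  exact hD.not_ge a2

lemma wk_real {D : Set ℂ} (h : mm D ≠ 0) : ∃ a : ℝ, 0 < a ∧ ENNReal.ofReal a < mm D := by
  obtain ⟨a, -, a1, a2⟩ := ENNReal.lt_iff_exists_real_btwn.1 (pos_iff_ne_zero.2 h)
  exact ⟨a, ENNReal.ofReal_pos.1 a1, a2⟩

/-- On a set of positive area the family is dominated by its image under the adjoint of `R`. -/
theorem sym (h : Fam T v A y q β C s0) (hA : ∀ z ∈ A, ∀ z' ∈ A, ‖z - z'‖ ^ 2 ≤ s0) {L : ℝ}
    (hL : ∀ z ∈ A, ‖z‖ ≤ L) (h0 : mm A ≠ 0) {e : H}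
    (he : Dense (Submodule.span ℂ (range fun n : ℕ => (T ^ n) e) : Set H)) {R : H →L[ℂ] H}
    (hR : DenseRange R) (hc : R * T = T * R) :
    ∃ A' ⊆ A, mm A' ≠ 0 ∧ ∃ c : ℝ, 0 < c ∧ ∀ (f : H) (lam : ℝ), 0 < lam → ∀ D ⊆ A', mm D ≠ 0 →
      ∀ b, 0 < b → ∃ z ∈ D, ∃ s, 0 < s ∧ s ≤ b ∧
        ‖⟪y z s, f⟫_ℂ‖ ≤ c * ‖⟪y z s, R f⟫_ℂ‖ + lam := by
  obtain ⟨σ, σ0, σ1, σ2, hm⟩ := maxl h hA
  have hβ := h.β0
  have hq : ∀ z ∈ A, Tendsto (fun j => q z (σ j)) atTop (𝓝 0) := fun z hz => by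
    refine squeeze_zero (fun j => h.q0 _ _) (fun j => wk_q h hz (σ0 j) (σ1 j)) ?_
    have a1 := ((Real.continuous_rpow_const (by positivity : 0 ≤ β / 2)).tendsto 0).comp
      (by simpa using σ2.div_const s0 : Tendsto (fun j => σ j / s0) atTop (𝓝 0))
    have a2 := a1.const_mul C
    rwa [Real.zero_rpow (by positivity), mul_zero] at a2
  obtain ⟨a, ha, hA0⟩ := wk_real h0
  obtain ⟨ε1, hε1, b1⟩ := hm 1 (a / 2) one_pos (by positivity)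
  obtain ⟨ε2, hε2, b2⟩ := hm (1 / 4) (a / 2) (by norm_num) (by positivity)
  set θ : ℝ := ε1 / (‖e‖ + 1) with hθ
  have θ0 : 0 < θ := by positivity
  have b3 := b1 ((θ : ℂ) • e) (by
    rw [norm_smul, Complex.norm_real, Real.norm_of_nonneg θ0.le, hθ, div_mul_eq_mul_div,
      div_le_iff₀ (by positivity)]
    nlinarith [norm_nonneg e])
  obtain ⟨_, ⟨g0, g1, rfl⟩, g2⟩ := (hR.dense_image R.continuous he).exists_dist_lt v hε2
  have b4 := b2 (v - R g0) (by rw [← dist_eq_norm]; exact g2.le)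
  obtain ⟨p0, P, hp0⟩ := poly h hL σ0 hq e g1
  refine ⟨_, diff_subset, wk_avoid ha hA0 b3 b4, 2 * (|P| + 1) / θ, by positivity,
    fun f lam hl D hD hD0 b hb => ?_⟩
  set c : ℝ := 2 * (|P| + 1) / θ with hcc
  have c0 : 0 < c := by positivity
  set l : ℝ := lam / (2 * (1 + c)) with hll
  have l0 : 0 < l := by positivity
  obtain ⟨a', ha', hD1⟩ := wk_real hD0
  obtain ⟨ε, hε, b5⟩ := hm l (a' / 2) l0 (by positivity)
  obtain ⟨g, g3, g4⟩ := he.exists_dist_lt f (show 0 < ε / (‖R‖ + 1) by positivity)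
  rw [dist_eq_norm, lt_div_iff₀ (by positivity)] at g4
  have b6 := b5 (f - g) (by nlinarith [norm_nonneg R, norm_nonneg (f - g)])
  have b7 := b5 (R (f - g)) (by nlinarith [R.le_opNorm (f - g), norm_nonneg (f - g)])
  obtain ⟨z, hz, hz'⟩ := nonempty_of_measure_ne_zero (wk_avoid ha' hD1 b6 b7)
  obtain ⟨zA, hz''⟩ := hD hz
  simp only [mem_union, mem_setOf_eq, zA, true_and, not_or, not_exists, not_lt] at hz' hz''
  obtain ⟨p, P', hp⟩ := poly h hL σ0 hq e g3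
  have ev : ∀ {F : ℕ → ℂ} {η : ℝ}, Tendsto F atTop (𝓝 0) → 0 < η → ∀ᶠ j in atTop, ‖F j‖ < η :=
    fun hF hη => (tendsto_zero_iff_norm_tendsto_zero.1 hF).eventually_lt_const hη
  obtain ⟨j, j1, j2, j3, j4, j5⟩ := ((σ2.eventually_lt_const hb).and
    (((hq z zA).eventually_lt_const (show (0 : ℝ) < 1 / 8 by norm_num)).and
    ((ev ((hp0 z zA).2 R hc) (show (0 : ℝ) < 1 / 8 by norm_num)).and
    ((ev ((hp z zA).2 1 (by simp)) l0).and (ev ((hp z zA).2 R hc) l0))))).exists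
  refine ⟨z, hz, σ j, σ0 j, j1.le, ?_⟩
  have k1 := hz''.1 j
  have k2 := hz''.2 j
  have k3 := hz'.1 j
  have k4 := hz'.2 j
  have k5 := (h.nd z zA _ (σ0 j)).trans (Complex.re_le_norm _)
  have k6 := (hp0 z zA).1.trans (le_abs_self P)
  rw [norm_inner_symm] at k5
  rw [inner_smul_right, norm_mul, Complex.norm_real, Real.norm_of_nonneg θ0.le] at k1
  rw [map_sub] at k4
  simp only [one_apply_eq_self] at j4
  rw [inner_sub_right] at k2 k3 k4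
  generalize ⟪y z (σ j), e⟫_ℂ = x1 at *
  generalize ⟪y z (σ j), R e⟫_ℂ = x2 at *
  generalize ⟪y z (σ j), v⟫_ℂ = x3 at *
  generalize ⟪y z (σ j), R g0⟫_ℂ = x4 at *
  generalize ⟪y z (σ j), f⟫_ℂ = x5 at *
  generalize ⟪y z (σ j), g⟫_ℂ = x6 at *
  generalize ⟪y z (σ j), R f⟫_ℂ = x7 at *
  generalize ⟪y z (σ j), R g⟫_ℂ = x8 at *
  have m1 := norm_le_norm_sub_add x3 x4
  have m2 := norm_le_norm_sub_add x4 (p0 z * x2)
  have m3 := norm_le_norm_sub_add x5 x6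
  have m4 := norm_le_norm_sub_add x6 (p z * x1)
  have m5 := norm_le_norm_sub_add (p z * x2) x8
  have m6 := norm_le_norm_sub_add x8 x7
  rw [norm_sub_rev] at m5 m6
  rw [norm_mul] at m2 m4 m5
  have m7 : 1 ≤ 2 * (|P| + 1) * ‖x2‖ := by
    nlinarith [mul_le_mul_of_nonneg_right k6 (norm_nonneg x2), norm_nonneg x2]
  have m8 : ‖x1‖ ≤ c * ‖x2‖ := by
    rw [hcc, div_mul_eq_mul_div, le_div_iff₀ θ0]
    linarith
  have m9 := mul_le_mul_of_nonneg_left m8 (norm_nonneg (p z))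
  have m10 := mul_le_mul_of_nonneg_left (show ‖p z‖ * ‖x2‖ ≤ ‖x7‖ + 2 * l by linarith) c0.le
  have m11 : 2 * l + c * (2 * l) = lam := by rw [hll]; field_simp
  nlinarith

end Pool.Agent.Lib.MP_dee751_an.Q
end

-- part Pool.Agent.Lib.MP_dee751_an.QTree
section

/-! The tree construction with a second family of test vectors. -/

namespace Pool.Agent.Lib.MP_dee751_an.Q

open Pool.Agent.Lib.MP_45cb44_an Pool.Agent.Lib.MP_45cb44_an.Hy
open MeasureTheory Metric Set Filter Topology InnerProductSpace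
open scoped InnerProductSpace ComplexConjugate ENNReal

variable {H : Type*} [NormedAddCommGroup H] [InnerProductSpace ℂ H] [CompleteSpace H]
  {T : H →L[ℂ] H} {v : H} {A : Set ℂ} {u y : ℂ → ℝ → H} {q : ℂ → ℝ → ℝ} {β C s0 : ℝ}
  {Λ t ε s σ1 σ2 : ℝ} {z : ℂ}

lemma ovl_self (h : Fam T v A y q β C s0) : Ovl A y y q β C s0 := ⟨h.farInc, h.farSt, h.del⟩

omit [CompleteSpace H] in
lemma Ovl.subset (o : Ovl A u y q β C s0) {A' : Set ℂ} (hA : A' ⊆ A) : Ovl A' u y q β C s0 :=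
  ⟨o.farInc, o.farSt, fun z hz z' hz' => o.del z (hA hz) z' (hA hz')⟩

lemma Ovl.par_loc (o : Ovl A u y q β C s0) (h : Fam T v A y q β C s0) (hΛ : 4 ≤ Λ)
    (hΛ' : 32 * C * (1 / Λ) ^ β ≤ 1) (hz : z ∈ A) (ht : 0 < t) (l : Loc q s0 Λ t ε z s σ1 σ2)
    {z' : ℂ} (hz' : z' ∈ A) {s' : ℝ} (h0 : 0 < s') (h1 : s' ≤ s) (h2 : ‖z' - z‖ ^ 2 ≤ s) :
    ‖⟪u z' s' - u z s, y z σ1 - y z σ2⟫_ℂ‖ ≤ t / 16 := by
  have a1 := l.pos1 hΛ
  have a2 := a1.trans_le l.h2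
  have a0 := l.h0
  have h4 : 4 * s ≤ σ1 := le_trans (by gcongr) l.h1
  have d1 := o.del z hz z' hz' z s' s σ1 h0 h1 (by linarith) (l.h2.trans l.h3) h2
  have d2 := o.del z hz z' hz' z s' s σ2 h0 h1 (by linarith [l.h2]) l.h3 h2
  have r1 := h.loc_ratio hΛ hΛ' a0 l.h1
  have r2 := h.loc_ratio hΛ hΛ' a0 (l.h1.trans l.h2)
  rw [mul_assoc, ← sq, l.e1, mul_div_assoc, mul_div_cancel_right₀ _ a1.ne'] at d1
  rw [mul_assoc, ← sq, show q z σ2 ^ 2 = t / 4 * σ2 by linarith [l.e2], mul_div_assoc,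
    mul_div_cancel_right₀ _ a2.ne'] at d2
  rw [inner_sub_right]
  refine (norm_sub_le _ _).trans ?_
  nlinarith

lemma Ovl.far_loc (o : Ovl A u y q β C s0) (h : Fam T v A y q β C s0) (hΛ : 4 ≤ Λ)
    (l : Loc q s0 Λ t ε z s σ1 σ2) {w : ℂ} (hw : w ∈ A) {s' : ℝ} (h0 : 0 < s')
    (h1 : s' ≤ ‖z - w‖ ^ 2) (h2 : ‖z - w‖ ^ 2 ≤ s0) :
    ‖⟪u w s', y z σ1 - y z σ2⟫_ℂ‖ ≤ C ^ 2 * ε / s0 * (s0 / ‖z - w‖ ^ 2) ^ (1 - β / 2) := by
  have hρ := h0.trans_le h1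
  have hC := h.C1
  have hs0 := h.s0pos
  have d := o.farInc z w σ1 σ2 s' (l.pos1 hΛ) l.h2 h0 h1
  have hq' := wk_q h hw hρ h2
  generalize ‖z - w‖ ^ 2 = ρ at *
  have hr : 0 < ρ / s0 := by positivity
  have e2 : (s0 / ρ) ^ (1 - β / 2) = s0 / ρ * (ρ / s0) ^ (β / 2) := by
    rw [Real.rpow_sub (by positivity), Real.rpow_one, ← inv_div ρ s0, Real.inv_rpow hr.le,
      div_inv_eq_mul]
  have hε := (h.q0 z σ2).trans l.sm
  calc _ ≤ C * ε * (C * (ρ / s0) ^ (β / 2)) / ρ := d.trans (by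
        have := h.q0 w ρ
        have := l.sm
        gcongr)
    _ = _ := by rw [e2]; field_simp

lemma Ovl.reg (o : Ovl A u y q β C s0) (h : Fam T v A y q β C s0) (w : ℂ) {σ : ℝ} (h0 : 0 < σ)
    (h1 : σ ≤ s0) : Reg A u (y w σ) := by
  intro η hη
  obtain ⟨b, hb, hb0, hs⟩ := loc_small h.β0 (C * C * q w σ / σ) hη h0
  refine ⟨b, hb, fun z hz z' hz' s' s a1 a2 a3 a4 => ?_⟩
  have a0 := a1.trans_le a2
  have hC := h.C1
  have hq : q z σ ≤ C := loc_sq (by linarith) ((h.q_le hz h0 h1).trans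
    (mul_le_of_le_one_right (sq_nonneg _) (Real.rpow_le_one (div_pos h0 h.s0pos).le
      ((div_le_one h.s0pos).2 h1) h.β0.le)))
  refine (o.del z hz z' hz' w s' s σ a1 a2 (a3.trans hb0) h1 a4).trans (le_trans ?_ (hs s a0 a3))
  have := h.q0 w σ
  calc _ ≤ C * (s / σ) ^ β * C * q w σ / σ := by gcongr
    _ = _ := by ring

lemma far_sum (h : Fam T v A y q β C s0) (hA : ∀ z ∈ A, ∀ z' ∈ A, ‖z - z'‖ ^ 2 ≤ s0) :
    ∃ Cp, 0 < Cp ∧ ∀ {u : ℂ → ℝ → H}, Ovl A u y q β C s0 →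
      ∀ {Λ t ε δ : ℝ} {G : Finset ℂ} {s s1 s2 : ℂ → ℝ}, 4 ≤ Λ → 0 ≤ ε → 0 < δ →
      (∀ Q ∈ G, Q ∈ A) → (∀ Q ∈ G, ∀ Q' ∈ G, Q ≠ Q' → δ ≤ ‖Q - Q'‖ ^ 2) →
      (∀ Q ∈ G, Loc q s0 Λ t ε Q (s Q) (s1 Q) (s2 Q)) → ∀ Q ∈ G, ∀ z ∈ A, ∀ s', 0 < s' →
      64 * s' ≤ δ → 64 * ‖z - Q‖ ^ 2 ≤ δ →
      ∑ P ∈ G.erase Q, ‖⟪u z s', y P (s1 P) - y P (s2 P)⟫_ℂ‖ ≤ ε * Cp / δ := by
  have hβ := h.β0
  have hβ1 := h.β1
  have hC := h.C1
  have hs := h.s0pos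
  obtain ⟨Cp, hCp, hp⟩ := packing (a := 1 - β / 2) (by linarith) (by linarith)
  refine ⟨C ^ 2 * Cp, by positivity, ?_⟩
  intro u o Λ t ε δ G s s1 s2 hΛ hε hδ hG hsep hl Q hQ z hz s' h0 h1 h2
  have h3 := hp G Q √s0 √δ (by positivity) (by positivity)
    (fun P hP => Real.le_sqrt_of_sq_le (hA P (hG P hP) Q (hG Q hQ)))
    (fun P hP P' hP' hne => Real.sqrt_le_iff.2 ⟨norm_nonneg _, hsep P hP P' hP' hne⟩) Q hQ
  rw [Real.sq_sqrt hs.le, Real.sq_sqrt hδ.le] at h3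
  have h4 : 0 ≤ C ^ 2 * ε / s0 := by positivity
  refine le_trans ?_ ((mul_le_mul_of_nonneg_left h3 h4).trans (le_of_eq (by field_simp)))
  rw [Finset.mul_sum]
  refine Finset.sum_le_sum fun P hP => ?_
  obtain ⟨h5, h6⟩ := Finset.mem_erase.1 hP
  have h7 := hsep Q hQ P h6 h5.symm
  have h8 : ‖Q - P‖ ≤ ‖z - Q‖ + ‖P - z‖ := by
    rw [norm_sub_rev Q, add_comm]
    exact norm_sub_le_norm_sub_add_norm_sub _ _ _
  have h9 : ‖Q - P‖ ^ 2 ≤ 4 * ‖P - z‖ ^ 2 := by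
    nlinarith [pow_le_pow_left₀ (norm_nonneg _) h8 2, sq_nonneg (‖z - Q‖ - ‖P - z‖)]
  refine (o.far_loc h hΛ (hl P h6) hz h0 (by linarith) (hA P (hG P h6) z hz)).trans
    (mul_le_mul_of_nonneg_left (Real.rpow_le_rpow (by positivity) ?_ (by linarith)) h4)
  rw [div_le_div_iff₀ (by linarith) (by linarith)]
  nlinarith

/-- The test family sees what the family sees, at many points and small scales. -/
def Sees (A : Set ℂ) (u y : ℂ → ℝ → H) : Prop :=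
  ∀ (f : H) (lam : ℝ), 0 < lam → ∀ D ⊆ A, mm D ≠ 0 → ∀ b, 0 < b → ∃ z ∈ D, ∃ s, 0 < s ∧ s ≤ b ∧
    ‖⟪y z s, f⟫_ℂ‖ ≤ ‖⟪u z s, f⟫_ℂ‖ + lam

lemma Ovl.diag_loc (o : Ovl A u y q β C s0) (h : Fam T v A y q β C s0) (hy : Sees A u y)
    (hΛ : 4 ≤ Λ) (hΛ' : 32 * C * (1 / Λ) ^ β ≤ 1) (hz : z ∈ A) (ht : 0 < t)
    (l : Loc q s0 Λ t ε z s σ1 σ2) (hd : mm (A ∩ closedBall z √s) ≠ 0) :
    t / 3 ≤ ‖⟪u z s, y z σ1 - y z σ2⟫_ℂ‖ := by
  obtain ⟨z', hz', s', a0, a1, a2⟩ := hy (y z σ1 - y z σ2) (t / 24) (by positivity) _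
    inter_subset_left hd s l.h0
  have a3 : ‖z' - z‖ ^ 2 ≤ s :=
    (Real.le_sqrt (norm_nonneg _) l.h0.le).1 (mem_closedBall_iff_norm.1 hz'.2)
  have b1 := h.diag_loc hΛ hΛ' hz ht l
  have b2 := h.par_loc hΛ hΛ' hz ht l hz'.1 a0 a1 a3
  have b3 := o.par_loc h hΛ hΛ' hz ht l hz'.1 a0 a1 a3
  rw [inner_sub_left] at b2 b3
  generalize y z σ1 - y z σ2 = d at *
  have c1 := norm_le_norm_sub_add ⟪y z s, d⟫_ℂ ⟪y z' s', d⟫_ℂ
  have c2 := norm_le_norm_sub_add ⟪u z' s', d⟫_ℂ ⟪u z s, d⟫_ℂ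
  rw [norm_sub_rev] at c1
  linarith

theorem step (h : Fam T v A y q β C s0) (o : Ovl A u y q β C s0) (hy : Sees A u y)
    (hA : ∀ z ∈ A, ∀ z' ∈ A, ‖z - z'‖ ^ 2 ≤ s0) :
    ∃ C1 C2, 0 ≤ C1 ∧ 0 ≤ C2 ∧ ∀ {m w e ε : ℝ} {G : Finset ℂ} {s : ℂ → ℝ} {x : H}
      {κ : ℂ → ℂ → ℝ}, 0 < m → 0 < w → Stage A u q s0 m w e ε G s x κ → ∀ ε', 0 < ε' →
      ∃ G' s' x' κ', Stage A u q s0 (m / 2) (w / 4) (e + C1 * m ^ 2) ε' G' s' x' κ' ∧
        ‖x' - x‖ ≤ C2 * (w / m) := by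
  obtain ⟨Λ, hΛ, hΛ'⟩ := h.exists_ratio
  obtain ⟨C1, hC1, hen⟩ := h.energy
  obtain ⟨Cp, hCp, hfar⟩ := far_sum h hA
  have hΛ0 : 0 < Λ := by linarith
  refine ⟨C1, 11 * √Λ, hC1, by positivity, ?_⟩
  intro m w e ε0 G s x κ hm hw S ε' hε'
  have S0 : Stage A y q s0 m 0 e ε0 G s 0 κ :=
    { S with
      reg := fun η hη => ⟨1, one_pos, fun _ _ _ _ _ _ _ _ _ _ => by simpa using hη.le⟩
      small := fun _ _ _ _ _ _ _ _ => by simp }
  obtain ⟨O0, hO0, ha⟩ := G.exists_min_image s S.ne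
  have ha0 := S.pos O0 hO0
  generalize s O0 = a at ha ha0
  obtain ⟨r, hr, hE⟩ := S.exists_radius
  obtain ⟨b, hb, hreg⟩ := S.reg (w / 64) (by positivity)
  have hG : (0 : ℝ) < G.card := by exact_mod_cast S.ne.card_pos
  obtain ⟨γ, hγ, eγ⟩ : ∃ γ : ℝ, 0 < γ ∧ γ * ((m / 2) ^ 2 * G.card) = Λ :=
    ⟨Λ / ((m / 2) ^ 2 * G.card), by positivity, div_mul_cancel₀ _ (by positivity)⟩
  obtain ⟨ε, hε, k1, k2, k3, k4, k5, k6⟩ : ∃ ε : ℝ, 0 < ε ∧ ε ≤ ε' ∧ ε ≤ 1 ∧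
      ε ≤ a / (128 * Cp * γ) ∧ ε ≤ a / (512 * γ) ∧ ε ≤ b / 4 ∧ ε ≤ r ^ 2 / 4 :=
    ⟨min ε' (min 1 (min (a / (128 * Cp * γ)) (min (a / (512 * γ)) (min (b / 4) (r ^ 2 / 4))))),
      by positivity, by simp, by simp, by simp, by simp, by simp, by simp⟩
  rw [le_div_iff₀ (by positivity)] at k3 k4
  obtain ⟨t0, ht0, hloc⟩ := h.exists_loc hΛ hε
  obtain ⟨N, hN⟩ := exists_nat_ge (max t0 1 * γ)
  obtain ⟨t, et⟩ : ∃ t : ℝ, t * γ = N := ⟨N / γ, div_mul_cancel₀ _ hγ.ne'⟩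
  have ht : max t0 1 ≤ t := le_of_mul_le_mul_right (hN.trans_eq et.symm) hγ
  have ht1 : 1 ≤ t := (le_max_right _ _).trans ht
  have ht2 : 0 < t := by linarith
  have hN0 : (0 : ℝ) < N := by rw [← et]; positivity
  have hN1 : 0 < N := by exact_mod_cast hN0
  have hN2 : (1 : ℝ) ≤ N := by exact_mod_cast hN1
  obtain ⟨G', par, k⟩ := exists_kids S.pos S.sep hE hN1
  have hG' : ∀ Q ∈ G', Q ∈ A := fun Q hQ => (k.sub Q hQ).1
  choose! s' s1 s2 hl using fun Q hQ => hloc t ((le_max_left _ _).trans ht) Q (hG' Q hQ)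
  have ec : Λ * t = (m / 2) ^ 2 * G'.card := by
    rw [k.card_eq, Nat.cast_mul, ← et, ← eγ]; ring
  obtain ⟨δ, hδ, eδ⟩ : ∃ δ : ℝ, 0 < δ ∧ 2 * N * δ = a :=
    ⟨a / (2 * N), by positivity, mul_div_cancel₀ _ (by positivity)⟩
  have hsep : ∀ Q ∈ G', ∀ Q' ∈ G', Q ≠ Q' → δ ≤ ‖Q - Q'‖ ^ 2 := fun Q hQ Q' hQ' hne =>
    le_of_mul_le_mul_left (eδ.trans_le (k.sep_all hN1 ha0.le ha S.sep Q hQ Q' hQ' hne))
      (by positivity)
  have l1 : ∀ Q ∈ G', s' Q ≤ s1 Q := fun Q hQ => by nlinarith [(hl Q hQ).h0, (hl Q hQ).h1]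
  have l2 : ∀ Q ∈ G', s' Q ≤ s2 Q := fun Q hQ => (l1 Q hQ).trans (hl Q hQ).h2
  have p1 : ∀ Q ∈ G', 0 < s1 Q := fun Q hQ => (hl Q hQ).h0.trans_le (l1 Q hQ)
  have p2 : ∀ Q ∈ G', 0 < s2 Q := fun Q hQ => (hl Q hQ).h0.trans_le (l2 Q hQ)
  have l3 : ∀ Q ∈ G', t * s2 Q ≤ 4 * ε := fun Q hQ => by
    have := pow_le_pow_left₀ (h.q0 _ _) (hl Q hQ).sm 2
    nlinarith [(hl Q hQ).e2]
  have l4 : ∀ Q ∈ G', s2 Q ≤ 4 * ε := fun Q hQ => by nlinarith [l3 Q hQ, p2 Q hQ]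
  have l5 : ∀ Q ∈ G', 64 * s2 Q ≤ δ := fun Q hQ => by
    refine le_of_mul_le_mul_left ?_ (show (0 : ℝ) < 2 * N by positivity)
    rw [eδ, ← et]
    nlinarith [mul_le_mul_of_nonneg_left (l3 Q hQ) hγ.le]
  have l6 : ∀ Q ∈ G', 4 * s' Q ≤ s (par Q) := fun Q hQ => by
    nlinarith [ha _ (k.mem Q hQ), l5 Q hQ, l2 Q hQ, p2 Q hQ]
  have l7 : ∀ Q ∈ G', ∀ Q' ∈ G', Q ≠ Q' → 64 * s' Q ≤ ‖Q - Q'‖ ^ 2 := fun Q hQ Q' hQ' hne => by
    linarith [hsep Q hQ Q' hQ' hne, l5 Q hQ, l2 Q hQ]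
  have far : ∀ {u' : ℂ → ℝ → H}, Ovl A u' y q β C s0 → ∀ Q ∈ G', ∀ z ∈ A, ∀ σ, 0 < σ →
      σ ≤ s2 Q → ‖z - Q‖ ^ 2 ≤ s2 Q →
      ∑ P ∈ G'.erase Q, ‖⟪u' z σ, y P (s1 P) - y P (s2 P)⟫_ℂ‖ ≤ t / 64 :=
    fun o' Q hQ z hz σ h0 h1 h2 => by
      refine (hfar o' hΛ hε.le hδ hG' hsep hl Q hQ z hz σ h0 (by linarith [l5 Q hQ])
        (by linarith [l5 Q hQ])).trans ?_
      rw [div_le_iff₀ hδ]
      refine le_of_mul_le_mul_left ?_ hγ
      have : γ * (t / 64 * δ) = a / 128 := by rw [← eδ, ← et]; ring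
      linarith
  obtain ⟨κ', hκ, hκ'⟩ := hen S0 ⟨hG', k.mem, k.near, k.card, k.sep⟩ hN1
    (fun Q hQ => (hl Q hQ).h0) l6 l7
  have den : ∀ Q ∈ G', ENNReal.ofReal (s' Q / 2) < mm (A ∩ closedBall Q √(s' Q)) := by
    intro Q hQ
    have h0 := (hl Q hQ).h0
    refine lt_of_lt_of_le ?_ ((k.sub Q hQ).2 _ (Real.sqrt_pos.2 h0)
      (Real.sqrt_le_iff.2 ⟨hr.le, by linarith [l2 Q hQ, l4 Q hQ]⟩))
    rw [Real.sq_sqrt h0.le, ENNReal.ofReal_lt_ofReal_iff (by positivity)]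
    linarith
  let d : ℂ → H := fun Q => y Q (s1 Q) - y Q (s2 Q)
  let c : ℂ → ℂ := fun Q => ⟪u Q (s' Q), x⟫_ℂ / ⟪u Q (s' Q), d Q⟫_ℂ
  have hd : ∀ Q ∈ G', t / 3 ≤ ‖⟪u Q (s' Q), d Q⟫_ℂ‖ := fun Q hQ =>
    o.diag_loc h hy hΛ hΛ' (hG' Q hQ) ht2 (hl Q hQ) (ne_zero_of_lt (den Q hQ))
  have hc : ∀ Q ∈ G', ‖c Q‖ ≤ 3 * w / t := fun Q hQ => by
    have h1 := S.small _ (k.mem Q hQ) Q (hG' Q hQ) _ (hl Q hQ).h0
      (by linarith [l6 Q hQ, (hl Q hQ).h0]) (k.near Q hQ)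
    rw [norm_div]
    exact (div_le_div₀ hw.le h1 (by positivity) (hd Q hQ)).trans (le_of_eq (by field_simp))
  refine ⟨G', s', x - ∑ Q ∈ G', c Q • d Q, κ', ⟨?_, hG', fun Q hQ => (hl Q hQ).h0,
    fun Q hQ => (l2 Q hQ).trans (hl Q hQ).h3, fun Q hQ => by rw [(hl Q hQ).e0, ec],
    fun Q hQ => (h.mono _ _ _ (hl Q hQ).h0 (l2 Q hQ)).trans ((hl Q hQ).sm.trans k1),
    den, l7, S.reg.sub (Reg.sum _ fun Q hQ => Reg.smul (Reg.sub
      (o.reg h Q (p1 Q hQ) ((hl Q hQ).h2.trans (hl Q hQ).h3))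
      (o.reg h Q (p2 Q hQ) (hl Q hQ).h3)) _),
    fun Q hQ z hz σ h0 h1 h2 => ?_, hκ, hκ'⟩, ?_⟩
  · rw [← Finset.card_pos, k.card_eq]
    exact Nat.mul_pos hN1 S.ne.card_pos
  · refine (step_small G' c d hQ (y0 := u Q (s' Q)) (by positivity) hc
      (div_mul_cancel₀ _ (norm_pos_iff.1 (lt_of_lt_of_le (by positivity) (hd Q hQ))))
      (hreg Q (hG' Q hQ) z hz σ _ h0 h1 (by linarith [l2 Q hQ, l4 Q hQ]) h2)
      (o.par_loc h hΛ hΛ' (hG' Q hQ) ht2 (hl Q hQ) hz h0 h1 h2)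
      (far o Q hQ z hz σ h0 (h1.trans (l2 Q hQ)) (h2.trans (l2 Q hQ)))).trans (le_of_eq ?_)
    field_simp
    ring
  · have h1 := step_norm G' c d (F := t / 64 + t / 64) (by positivity) hc
      (fun Q hQ => h.norm_loc hΛ (hl Q hQ)) fun Q hQ => by
        have h0 : ‖Q - Q‖ ^ 2 ≤ s2 Q := by simpa using (p2 Q hQ).le
        refine le_trans ?_ (add_le_add
          (far (ovl_self h) Q hQ Q (hG' Q hQ) _ (p1 Q hQ) (hl Q hQ).h2 h0)
          (far (ovl_self h) Q hQ Q (hG' Q hQ) _ (p2 Q hQ) le_rfl h0))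
        rw [← Finset.sum_add_distrib]
        exact Finset.sum_le_sum fun P _ => by
          rw [show d Q = y Q (s1 Q) - y Q (s2 Q) from rfl, inner_sub_left]
          exact norm_sub_le _ _
    rw [sub_sub_cancel_left, norm_neg]
    refine le_of_sq_le_sq (h1.trans ?_) (by positivity)
    have e1 : (G'.card : ℝ) = 4 * Λ * t / m ^ 2 := by
      rw [mul_assoc, ec]; field_simp; norm_num
    rw [e1, mul_pow, mul_pow, Real.sq_sqrt hΛ0.le]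
    have e2 : 4 * Λ * t / m ^ 2 * ((3 * w / t) ^ 2 * (3 * t + (t / 64 + t / 64))) =
        873 / 8 * (Λ * (w / m) ^ 2) := by field_simp; ring
    have : 0 ≤ Λ * (w / m) ^ 2 := by positivity
    rw [e2]
    linarith

lemma Ovl.far (o : Ovl A u y q β C s0) (h : Fam T v A y q β C s0) {z w : ℂ} (hz : z ∈ A)
    (hw : w ∈ A) {s s' d : ℝ} (hs : 0 < s) (hs' : 0 < s') (h1 : s ≤ d) (h2 : s' ≤ d)
    (hd : d ≤ ‖z - w‖ ^ 2) (h3 : ‖z - w‖ ^ 2 ≤ s0) : ‖⟪u z s, y w s'⟫_ℂ‖ ≤ C ^ 2 / d := by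
  have hC := h.C1
  have hd0 : 0 < d := hs.trans_le h1
  have hr : 0 < ‖z - w‖ ^ 2 := hd0.trans_le hd
  have a1 := h.mono z _ _ hr h3
  have a2 := h.mono w _ _ hr h3
  have b1 := h.top z hz
  have b2 := h.top w hw
  have c1 := h.q0 z (‖z - w‖ ^ 2)
  have c2 := h.q0 w (‖z - w‖ ^ 2)
  have d1 : q z (‖z - w‖ ^ 2) * q w (‖z - w‖ ^ 2) ≤ q z s0 * q w s0 :=
    mul_le_mul a1 a2 c2 (h.q0 _ _)
  have d2 : q z s0 * q w s0 ≤ C := by nlinarith [sq_nonneg (q z s0 - q w s0)]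
  refine (o.farSt z w s s' hs (h1.trans hd) hs' (h2.trans hd)).trans ?_
  have d3 : C * q z (‖z - w‖ ^ 2) * q w (‖z - w‖ ^ 2) ≤ C ^ 2 := by
    rw [mul_assoc, sq C]
    exact mul_le_mul_of_nonneg_left (d1.trans d2) (zero_le_one.trans hC)
  exact div_le_div₀ (by positivity) d3 hd0 hd

theorem start (h : Fam T v A y q β C s0) (o : Ovl A u y q β C s0)
    (hA : ∀ z ∈ A, ∀ z' ∈ A, ‖z - z'‖ ^ 2 ≤ s0) (h0 : mm A ≠ 0) :
    ∃ m, 0 < m ∧ ∀ w, 0 < w → ∃ G s x κ,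
      Stage A u q s0 m w 0 (1 / 2) G s x κ ∧ 1 ≤ ‖x‖ := by
  have hC := h.C1
  obtain ⟨r, hr, hD⟩ := exists_dens (A := A) (B := univ) (a := 0)
    (by rw [inter_univ]; exact pos_iff_ne_zero.2 h0)
  rw [inter_univ] at hD
  have hnt : (Dens A r).Nontrivial := by
    by_contra hc
    rw [Set.not_nontrivial_iff] at hc
    exact hD.ne' (hc.measure_zero mm)
  obtain ⟨O, hO, P, hP, hOP⟩ := hnt
  have hρ : 0 < ‖O - P‖ := norm_pos_iff.2 (sub_ne_zero.2 hOP)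
  obtain ⟨s1, hs1, hs10, hq1⟩ := tree_small h hO.1
  set d : ℝ := ‖O - P‖ ^ 2 / 4 with hd
  have hd0 : 0 < d := by positivity
  set a : ℝ := min s1 (min (r ^ 2) d) with ha
  have ha0 : 0 < a := lt_min hs1 (lt_min (by positivity) hd0)
  have ha1 : a ≤ s1 := min_le_left _ _
  have ha2 : a ≤ r ^ 2 := (min_le_right _ _).trans (min_le_left _ _)
  have ha3 : a ≤ d := (min_le_right _ _).trans (min_le_right _ _)
  have hsa : 0 < √a := Real.sqrt_pos.2 ha0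
  have hq0 := h.q0 O a
  refine ⟨q O a / √a + 1, by positivity, fun w hw => ?_⟩
  set M : ℝ := C ^ 2 / d / w with hM
  have hM0 : 0 < M := by positivity
  obtain ⟨σ, hσ0, hσd, hσs, hσM⟩ := h.unbounded hP.1 M hd0
  have hnM : ‖((M : ℂ))⁻¹‖ = M⁻¹ := by
    rw [norm_inv, Complex.norm_real, Real.norm_of_nonneg hM0.le]
  refine ⟨{O}, fun _ => a, ((M : ℂ))⁻¹ • y P σ, fun _ _ => 0, ?_, ?_⟩
  · refine ⟨Finset.singleton_nonempty O, ?_, fun _ _ => ha0, fun _ _ => ha1.trans hs10, ?_, ?_,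
      ?_, ?_, (o.reg h P hσ0 hσs).smul _, ?_, ?_, ?_⟩
    · intro O' hO'
      rw [Finset.mem_singleton.1 hO']
      exact hO.1
    · intro O' hO'
      rw [Finset.mem_singleton.1 hO', Finset.card_singleton, Nat.cast_one, mul_one]
      have e1 : (q O a / √a) ^ 2 * a = q O a ^ 2 := by
        rw [div_pow, Real.sq_sqrt ha0.le, div_mul_cancel₀ _ ha0.ne']
      have e2 : 0 ≤ q O a / √a := by positivity
      rw [← e1]
      exact mul_le_mul_of_nonneg_right (pow_le_pow_left₀ e2 (by linarith) 2) ha0.le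
    · intro O' hO'
      rw [Finset.mem_singleton.1 hO']
      exact (h.mono O a s1 ha0 ha1).trans hq1
    · intro O' hO'
      rw [Finset.mem_singleton.1 hO']
      refine lt_of_lt_of_le ?_ (hO.2 √a hsa (Real.sqrt_le_left hr.le |>.2 ha2))
      rw [Real.sq_sqrt ha0.le, ENNReal.ofReal_lt_ofReal_iff (by positivity)]
      linarith
    · intro O1 h1 O2 h2 h12
      exact absurd ((Finset.mem_singleton.1 h1).trans (Finset.mem_singleton.1 h2).symm) h12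
    · intro O' hO' z hz s' hs' hs'a hzO
      rw [Finset.mem_singleton.1 hO'] at hzO
      have f1 : ‖z - O‖ ≤ ‖O - P‖ / 2 := by
        refine (pow_le_pow_iff_left₀ (norm_nonneg _) (by positivity) two_ne_zero).1 ?_
        rw [div_pow]
        linarith
      have f2 : ‖O - P‖ ≤ ‖z - O‖ + ‖z - P‖ := by
        have : O - P = -(z - O) + (z - P) := by ring
        rw [this]
        exact (norm_add_le _ _).trans (by rw [norm_neg])
      have f3 : d ≤ ‖z - P‖ ^ 2 := by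
        have : ‖O - P‖ / 2 ≤ ‖z - P‖ := by linarith
        have := pow_le_pow_left₀ (by positivity) this 2
        rw [div_pow] at this
        linarith
      have f4 := o.far h hz hP.1 hs' hσ0 (hs'a.trans ha3) hσd f3 (hA z hz P hP.1)
      rw [inner_smul_right, norm_mul, hnM, inv_mul_le_iff₀ hM0, hM, div_mul_cancel₀ _ hw.ne']
      exact f4
    · intro O1 h1 O2 h2 h12
      exact absurd ((Finset.mem_singleton.1 h1).trans (Finset.mem_singleton.1 h2).symm) h12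
    · simp
  · rw [norm_smul, hnM, le_inv_mul_iff₀ hM0, mul_one]
    exact hσM

theorem pair_of_seq {x Y : ℕ → H} {x0 : H} (hx : Tendsto x atTop (𝓝 x0)) {B : ℝ}
    (hB : ∀ n, ‖Y n‖ ≤ B) (hv : ∀ n, 1 / 2 ≤ (⟪v, Y n⟫_ℂ).re)
    (h : ∀ k : ℕ, Tendsto (fun n => ⟪(star T ^ k) (Y n), x n⟫_ℂ) atTop (𝓝 0)) :
    ∃ Y0, Y0 ≠ 0 ∧ ∀ k : ℕ, ⟪(T ^ k) x0, Y0⟫_ℂ = 0 := by
  obtain ⟨Y0, hY⟩ := exists_weak_limit' (𝕜 := ℂ) (hyperfilter ℕ) Y B hB
  refine ⟨Y0, fun e => ?_, fun k => tendsto_nhds_unique (hY _)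
    (Tendsto.mono_left ?_ Nat.hyperfilter_le_atTop)⟩
  · have := ge_of_tendsto' ((Complex.continuous_re.tendsto _).comp (hY v)) hv
    rw [e, inner_zero_right, Complex.zero_re] at this
    norm_num at this
  · have e (n : ℕ) : ⟪(T ^ k) x0, Y n⟫_ℂ =
        ⟪(T ^ k) (x0 - x n), Y n⟫_ℂ + conj ⟪(star T ^ k) (Y n), x n⟫_ℂ := by
      rw [inner_conj_symm, ← star_pow, ContinuousLinearMap.star_eq_adjoint,
        ContinuousLinearMap.adjoint_inner_right, map_sub, inner_sub_left, sub_add_cancel]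
    simp only [e]
    have t1 : Tendsto (fun n => ‖(T ^ k) (x0 - x n)‖ * B) atTop (𝓝 0) := by
      simpa using ((((T ^ k).continuous.tendsto _).comp (hx.const_sub x0)).norm).mul_const B
    have t2 : Tendsto (fun n => ⟪(T ^ k) (x0 - x n), Y n⟫_ℂ) atTop (𝓝 0) :=
      squeeze_zero_norm (fun n => (norm_inner_le_norm _ _).trans
        (mul_le_mul_of_nonneg_left (hB n) (norm_nonneg _))) t1
    simpa using t2.add ((Complex.continuous_conj.tendsto _).comp (h k))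

/-- The orbit of a vector in the range of `R` is orthogonal to a nonzero vector. -/
theorem tree_pair {R : H →L[ℂ] H} (h : Fam T v A y q β C s0)
    (o : Ovl A (fun z s => star R (y z s)) y q β C s0) (hy : Sees A (fun z s => star R (y z s)) y)
    (hA : ∀ z ∈ A, ∀ z' ∈ A, ‖z - z'‖ ^ 2 ≤ s0)
    {L : ℝ} (hT : ‖T‖ ≤ L) (hL : ∀ z ∈ A, ‖z‖ ≤ L) (h0 : mm A ≠ 0) :
    ∃ x Y : H, x ≠ 0 ∧ Y ≠ 0 ∧ ∀ k : ℕ, ⟪(T ^ k) (R x), Y⟫_ℂ = 0 := by
  obtain ⟨m, hm, hst⟩ := start h o hA h0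
  obtain ⟨C1, C2, hC1, hC2, hstep⟩ := step h o hy hA
  set u : ℂ → ℝ → H := fun z s => star R (y z s) with hu
  have conv : ∀ {m w e ε : ℝ} {G : Finset ℂ} {s : ℂ → ℝ} {x : H} {κ : ℂ → ℂ → ℝ},
      Stage A u q s0 m w e ε G s x κ → Stage A y q s0 m w e ε G s (R x) κ := fun S =>
    { S with
      reg := fun η hη => by
        obtain ⟨b, hb, h1⟩ := S.reg η hη
        refine ⟨b, hb, fun z hz z' hz' s' s a1 a2 a3 a4 => ?_⟩
        have := h1 z hz z' hz' s' s a1 a2 a3 a4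
        rwa [hu, ← map_sub, bas_sl] at this
      small := fun O hO z hz s' a1 a2 a3 => by
        have := S.small O hO z hz s' a1 a2 a3
        rwa [hu, bas_sl] at this }
  set w : ℝ := m / (4 * (C2 + 1)) with hw
  have hw0 : 0 < w := by positivity
  obtain ⟨G0, t0, x0, κ0, S0, hx0⟩ := hst w hw0
  let P : ℕ → Finset ℂ × (ℂ → ℝ) × H × (ℂ → ℂ → ℝ) → Prop := fun n a =>
    Stage A u q s0 (m / 2 ^ n) (w / 4 ^ n) (4 / 3 * C1 * m ^ 2 * (1 - (1 / 4) ^ n))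
      (1 / ((n : ℝ) + 2)) a.1 a.2.1 a.2.2.1 a.2.2.2
  let W : ℕ → Finset ℂ × (ℂ → ℝ) × H × (ℂ → ℂ → ℝ) →
      Finset ℂ × (ℂ → ℝ) × H × (ℂ → ℂ → ℝ) → Prop := fun n a b =>
    dist a.2.2.1 b.2.2.1 ≤ 1 / 2 / 2 / 2 ^ n
  have hP0 : P 0 (G0, t0, x0, κ0) := by
    have e1 : m / 2 ^ 0 = m := by simp
    have e2 : w / 4 ^ 0 = w := by simp
    have e3 : 4 / 3 * C1 * m ^ 2 * (1 - (1 / 4) ^ 0) = 0 := by simp
    have e4 : 1 / (((0 : ℕ) : ℝ) + 2) = 1 / 2 := by simp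
    show Stage A u q s0 (m / 2 ^ 0) (w / 4 ^ 0) (4 / 3 * C1 * m ^ 2 * (1 - (1 / 4) ^ 0))
      (1 / (((0 : ℕ) : ℝ) + 2)) G0 t0 x0 κ0
    rw [e1, e2, e3, e4]
    exact S0
  have hPs : ∀ n a, P n a → ∃ b, P (n + 1) b ∧ W n a b := by
    intro n a ha
    obtain ⟨G', s', x', κ', S', hx'⟩ := hstep (by positivity) (by positivity) ha
      (1 / (((n + 1 : ℕ) : ℝ) + 2)) (by positivity)
    have e1 : m / 2 ^ n / 2 = m / 2 ^ (n + 1) := by rw [pow_succ, div_div]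
    have e2 : w / 4 ^ n / 4 = w / 4 ^ (n + 1) := by rw [pow_succ, div_div]
    have e0 : ((1 : ℝ) / 4) ^ n = 1 / (2 ^ n) ^ 2 := by
      rw [one_div_pow, ← pow_mul, mul_comm, pow_mul]
      norm_num
    have e3 : 4 / 3 * C1 * m ^ 2 * (1 - (1 / 4) ^ n) + C1 * (m / 2 ^ n) ^ 2 =
        4 / 3 * C1 * m ^ 2 * (1 - (1 / 4) ^ (n + 1)) := by
      rw [pow_succ (1 / 4 : ℝ) n, e0, div_pow]
      ring
    rw [e1, e2, e3] at S'
    refine ⟨(G', s', x', κ'), S', ?_⟩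
    show dist a.2.2.1 x' ≤ 1 / 2 / 2 / 2 ^ n
    rw [dist_comm, dist_eq_norm]
    refine hx'.trans ?_
    have e4 : (4 : ℝ) ^ n = 2 ^ n * 2 ^ n := by
      rw [← mul_pow]
      norm_num
    have e5 : C2 * (w / 4 ^ n / (m / 2 ^ n)) = C2 / (C2 + 1) * (1 / 2 / 2 / 2 ^ n) := by
      rw [e4, hw]
      field_simp
      norm_num
    rw [e5]
    exact mul_le_of_le_one_left (by positivity) ((div_le_one (by positivity)).2 (by linarith))
  obtain ⟨f, hf0, hf⟩ := tree_rec P W hP0 hPs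
  have hcau : CauchySeq fun n => (f n).2.2.1 :=
    cauchySeq_of_le_geometric_two fun n => (hf n).2
  obtain ⟨x, hx⟩ := cauchySeq_tendsto_of_complete hcau
  have hd := dist_le_of_le_geometric_two_of_tendsto₀ (fun n => (hf n).2) hx
  have hx1 : x ≠ 0 := by
    rintro rfl
    rw [hf0, dist_zero_right] at hd
    have : ‖x0‖ ≤ 1 / 2 := hd
    linarith
  have hRx : Tendsto (fun n => R (f n).2.2.1) atTop (𝓝 (R x)) := (R.continuous.tendsto x).comp hx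
  obtain ⟨Y, hY⟩ := pair_of_seq (T := T) (v := v) (Y := fun n => treeAvg y (f n).1 (f n).2.1) hRx
    (B := √(m ^ 2 + C ^ 2 * (4 / 3 * C1 * m ^ 2))) (fun n => by
      refine Real.le_sqrt_of_sq_le ((tree_avg_norm h hA (conv (hf n).1)).trans (add_le_add ?_ ?_))
      · exact pow_le_pow_left₀ (by positivity)
          (div_le_self hm.le (one_le_pow₀ (by norm_num))) 2
      · refine mul_le_mul_of_nonneg_left (mul_le_of_le_one_right (by positivity) ?_) (sq_nonneg _)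
        have : (0 : ℝ) ≤ (1 / 4) ^ n := by positivity
        linarith) (fun n => by
      refine le_trans ?_ (tree_avg_re h (conv (hf n).1))
      have : 1 / ((n : ℝ) + 2) ≤ 1 / 2 :=
        one_div_le_one_div_of_le (by norm_num) (by linarith [Nat.cast_nonneg (α := ℝ) n])
      linarith) fun k => by
      obtain ⟨D, hD, hU⟩ := tree_pow h hT k
      refine squeeze_zero_norm (fun n => tree_avg_pow (conv (hf n).1) hD hL hU) ?_
      have t1 : Tendsto (fun n : ℕ => 1 / ((n : ℝ) + 2)) atTop (𝓝 0) :=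
        tendsto_const_nhds.div_atTop
          (tendsto_atTop_add_const_right _ _ tendsto_natCast_atTop_atTop)
      have t2 : Tendsto (fun n : ℕ => w / (4 : ℝ) ^ n) atTop (𝓝 0) :=
        tendsto_const_nhds.div_atTop (tendsto_pow_atTop_atTop_of_one_lt (by norm_num))
      have t3 := ((t1.mul hRx.norm).add t2).const_mul D
      rw [zero_mul, zero_add, mul_zero] at t3
      exact t3
  exact ⟨x, Y, hx1, hY.1, hY.2⟩

end Pool.Agent.Lib.MP_dee751_an.Q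
end
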