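import Pool.Agent.Lib.MP_45cb44_an.HyMain
import Pool.Agent.Lib.MP_dee751_an.QEnl
import Pool.Agent.Lib.MP_dee751_an.QTree

/-! Assembly: transfer of invariant subspaces along a pair of intertwining operators. -/

namespace Pool.Agent.Lib.MP_dee751_an.Q

open Pool.Agent.Lib.MP_45cb44_an Pool.Agent.Lib.MP_45cb44_an.Hy
open MeasureTheory Metric Set Filter Topology InnerProductSpace
open scoped InnerProductSpace ComplexConjugate ENNReal

variable {H : Type*} [NormedAddCommGroup H] [InnerProductSpace ℂ H] [CompleteSpace H]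
  {T R : H →L[ℂ] H} {e : H}

/-- `e` is a cyclic vector. -/
def Cyc (T : H →L[ℂ] H) (e : H) : Prop := ∀ y : H, (∀ n : ℕ, ⟪(T ^ n) e, y⟫_ℂ = 0) → y = 0

/-- The orbit of a vector `R x` is orthogonal to a nonzero vector. -/
def Pr (T R : H →L[ℂ] H) : Prop :=
  ∃ x Y : H, x ≠ 0 ∧ Y ≠ 0 ∧ ∀ k : ℕ, ⟪(T ^ k) (R x), Y⟫_ℂ = 0

/-- The data coming from a transitive operator that is quasi-similar to `T`. -/
structure QS (T R : H →L[ℂ] H) : Prop where
  comm : R * T = T * R
  i1 : ∀ y, R y = 0 → y = 0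
  i2 : ∀ y, star R y = 0 → y = 0
  c1 : ∃ e, Cyc T e
  c2 : ∃ e, Cyc (star T) e

lemma QS.adj (h : QS T R) : QS (star T) (star R) :=
  ⟨by rw [← star_mul, ← star_mul, h.comm], h.i2, by rw [star_star]; exact h.i1, h.c2,
    by rw [star_star]; exact h.c1⟩

lemma Pr.adj (hc : R * T = T * R) (h : Pr (star T) (star R)) : Pr T R := by
  obtain ⟨x, Y, hx, hY, h⟩ := h
  refine ⟨Y, x, hY, hx, fun k => ?_⟩
  have e1 : T ^ k * R = R * T ^ k := ((show Commute R T from hc).pow_right k).eq.symm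
  have := h k
  rw [← star_pow, ← mul_apply_eq_comp, ← star_mul, bas_sl, ← e1] at this
  rw [← inner_conj_symm, ← mul_apply_eq_comp, this, map_zero]

lemma Cyc.eq_top (h : Cyc T e) {M : Submodule ℂ H} (hc : IsClosed (M : Set H))
    (hM : ∀ x ∈ M, T x ∈ M) (hx : e ∈ M) : M = ⊤ := by
  have := hc.completeSpace_coe
  rw [← Submodule.orthogonal_eq_bot_iff, eq_bot_iff]
  intro y hy
  refine h y fun n => hy _ ?_
  induction n with
  | zero => simpa
  | succ n ih => rw [pow_succ', mul_apply_eq_comp]; exact hM _ ih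

lemma Cyc.dense (h : Cyc T e) :
    Dense (Submodule.span ℂ (range fun n : ℕ => (T ^ n) e) : Set H) := by
  rw [Submodule.dense_iff_topologicalClosure_eq_top, Submodule.topologicalClosure_eq_top_iff,
    eq_bot_iff]
  exact fun y hy => h y fun n => hy _ (Submodule.subset_span ⟨n, rfl⟩)

lemma QS.dense (h : QS T R) : DenseRange R := by
  have : Dense (LinearMap.range (R : H →ₗ[ℂ] H) : Set H) := by
    rw [Submodule.dense_iff_topologicalClosure_eq_top, Submodule.topologicalClosure_eq_top_iff,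
      eq_bot_iff]
    intro y hy
    refine h.i2 y ?_
    rw [← inner_self_eq_zero (𝕜 := ℂ), bas_sr]
    exact hy _ ⟨_, rfl⟩
  exact this

lemma pr_of_eig (hd : ¬FiniteDimensional ℂ H) {z : ℂ} {y : H} (hy : y ≠ 0)
    (h : star (SS T z) y = 0) : Pr T R := by
  have e : star T y = conj z • y := by
    rw [star_SS] at h
    exact sub_eq_zero.1 h
  by_contra hn
  refine hd (FiniteDimensional.of_injective (innerSL ℂ (star R y)).toLinearMap ?_)
  rw [injective_iff_map_eq_zero]
  intro x hx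
  have hx' : ⟪R x, y⟫_ℂ = 0 := by
    rw [← bas_sr]; exact inner_eq_zero_symm.1 hx
  by_contra h0
  refine hn ⟨x, y, h0, hy, fun n => ?_⟩
  induction n with
  | zero => simpa using hx'
  | succ n ih =>
    rw [pow_succ', mul_apply_eq_comp, ← bas_sr, e, inner_smul_right, ih, mul_zero]

lemma dir_subset {Φ : H →L[ℂ] H} {v : H} {A A' : Set ℂ} {x : ℂ → H}
    {β C s0 : ℝ} (h : Dir T Φ v A x β C s0) (hA : A' ⊆ A) : Dir T Φ v A' x β C s0 :=
  { h with
    nd := fun z hz => h.nd z (hA hz)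
    d1 := fun z hz => h.d1 z (hA hz)
    d2 := fun z hz => h.d2 z (hA hz)
    d3 := fun z hz w hw => h.d3 z (hA hz) w (hA hw) }

lemma Ad.smul {Φ Ψ : H →L[ℂ] H} {κ c : ℝ} (a : Ad T Φ Ψ R κ) (hc : 0 < c) :
    Ad T Φ Ψ ((c : ℂ) • R) (κ * (1 + c)) := by
  have k1 := a.k1
  have key : ∀ {X : H →L[ℂ] H} {x : H} {r : ℝ}, 0 ≤ r → ‖X x‖ ≤ κ * r →
      ‖X ((c : ℂ) • x)‖ ≤ κ * (1 + c) * r := fun hr h => by
    rw [map_smul, norm_smul, Complex.norm_real, Real.norm_of_nonneg hc.le]
    have := mul_le_mul_of_nonneg_left h hc.le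
    nlinarith [mul_nonneg (zero_le_one.trans k1) hr]
  refine ⟨a.hc, by rw [smul_mul_assoc, mul_smul_comm, a.comm], by nlinarith, ?_,
    fun h => key (norm_nonneg _) (a.p1 h), fun h => ?_, fun h => key (norm_nonneg _) (a.p3 h)⟩
  · rw [norm_smul, Complex.norm_real, Real.norm_of_nonneg hc.le]
    nlinarith [mul_le_mul_of_nonneg_left a.nR hc.le]
  · have e1 : star ((c : ℂ) • R) h = (c : ℂ) • star R h := by simp [star_smul]
    rw [e1]
    exact key (norm_nonneg _) (a.p2 h)

theorem core (b : HilbertBasis ℕ ℂ H) {A B : H →L[ℂ] H} (hA : A.IsPositive) (hB : B.IsPositive)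
    (hc : star T * T - T * star T = A - B) (sA : Summable fun i => fm A (b i))
    (sB : Summable fun i => fm B (b i)) (hlt : ∑' i, fm B (b i) < ∑' i, fm A (b i))
    (h : QS T R) : Pr T R := by
  by_cases ht : ∀ z y, star (SS T z) y = 0 → y = 0
  swap
  · push Not at ht
    obtain ⟨z, y, h1, h2⟩ := ht
    exact pr_of_eig (not_finiteDimensional b) h2 h1
  obtain ⟨Φ, Ψ, κ, hc, hΦ, hΨ, hlt, k1, k2, k3⟩ := exists_adapted b hA hB hc sA sB hlt R
  have ad : Ad T Φ Ψ R κ := ⟨hc, h.comm, k1, k2, fun x => (k3 x).1, fun x => (k3 x).2.1,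
    fun x => (k3 x).2.2⟩
  obtain ⟨J, K, R0, A0, hS, hf, hfl⟩ := exists_sys hc b hΦ
  obtain ⟨i, n, k0, x1, x3, C0, hin, h1, h3, hm⟩ := hS.ana (sub_pos.2 hlt) (Cs := 10000)
    (fun ε h0 _ => by
      simp only [hfl _ _ _ h0]
      exact trace_pos hc b hΦ hΨ h0) (by norm_num)
  rw [hf] at hm
  obtain ⟨x, β, C, s0, hD⟩ := exists_dir (k0 := k0) (C0 := C0) hc b hΦ hin h1 h3
  generalize {u | Good (ww T fun l => Φ (b l)) 10000 i n k0 x1 x3 C0 u} = E at hm hD
  have hs : 0 < √s0 := Real.sqrt_pos.2 hD.s0pos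
  obtain ⟨p, hp⟩ := exists_small_ball hm (r := √s0 / 2) (by positivity)
  have hD1 := dir_subset hD (inter_subset_left (t := closedBall p (√s0 / 2)))
  have g1 : ∀ z ∈ E ∩ closedBall p (√s0 / 2), ∀ z' ∈ E ∩ closedBall p (√s0 / 2),
      ‖z - z'‖ ^ 2 ≤ s0 := fun z hz z' hz' => by
    have h1 : dist z z' ≤ √s0 := by
      have a1 := mem_closedBall.1 hz.2
      have a2 := mem_closedBall.1 hz'.2
      have a3 := dist_triangle_right z z' p
      linarith
    rw [dist_eq_norm] at h1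
    have := pow_le_pow_left₀ (norm_nonneg _) h1 2
    rwa [Real.sq_sqrt hD.s0pos.le] at this
  have g2 : ∀ z ∈ E ∩ closedBall p (√s0 / 2), ‖z‖ ≤ ‖T‖ + ‖p‖ + √s0 := fun z hz => by
    have a1 := mem_closedBall.1 hz.2
    rw [dist_eq_norm] at a1
    linarith [norm_nonneg T, norm_le_norm_sub_add z p]
  generalize E ∩ closedBall p (√s0 / 2) = E1 at hp hD1 g1 g2
  obtain ⟨e, he⟩ := h.c1
  obtain ⟨E2, s2, m2, c, c0, hy⟩ := sym (fam hc ht hD1 le_rfl) g1 g2 hp he.dense h.dense h.comm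
  have hD2 := dir_subset hD1 s2
  have hC := hD.C1
  obtain ⟨x0, Y, x1, Y1, hxY⟩ := tree_pair (R := (c : ℂ) • R) (fam hc ht hD2
    (C' := 200 * (κ * (1 + c)) * (1 + C)) (by
      have : 1 ≤ κ * (1 + c) := by nlinarith
      nlinarith)) ((ad.smul c0).ovl hD2) (fun f lam hl D hD hD0 b hb => by
      obtain ⟨z, hz, s, a1, a2, a3⟩ := hy f lam hl D hD hD0 b hb
      refine ⟨z, hz, s, a1, a2, a3.trans (le_of_eq ?_)⟩
      simp only [bas_sl, smul_apply, inner_smul_right, norm_mul, Complex.norm_real,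
        Real.norm_of_nonneg c0.le])
    (fun z hz z' hz' => g1 z (s2 hz) z' (s2 hz')) (L := ‖T‖ + ‖p‖ + √s0)
    (by linarith [norm_nonneg p]) (fun z hz => g2 z (s2 hz)) m2
  refine ⟨x0, Y, x1, Y1, fun k => ?_⟩
  have := hxY k
  rw [smul_apply, map_smul, inner_smul_left, Complex.conj_ofReal] at this
  exact (mul_eq_zero.1 this).resolve_left (by exact_mod_cast c0.ne')

/-- Self-commutators of trace class with nonzero trace. -/
theorem core' {A B : H →L[ℂ] H} (hA : A.IsPositive) (hB : B.IsPositive)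
    (hc : star T * T - T * star T = A - B) (b : HilbertBasis ℕ ℂ H)
    (sA : Summable fun i => (⟪b i, A (b i)⟫_ℂ).re) (sB : Summable fun i => (⟪b i, B (b i)⟫_ℂ).re)
    (h : ¬HasSum (fun i => ⟪b i, (star T * T - T * star T) (b i)⟫_ℂ) 0) (hq : QS T R) :
    Pr T R := by
  rcases lt_trichotomy (∑' i, fm B (b i)) (∑' i, fm A (b i)) with hl | hl | hl
  · exact core b hA hB hc sA sB hl hq
  · refine (h ?_).elim
    obtain ⟨Φ, hΦ, rfl⟩ := exists_sqrt hA
    obtain ⟨Ψ, hΨ, rfl⟩ := exists_sqrt hB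
    simp only [re_inner_sq hΦ, re_inner_sq hΨ] at sA sB
    simp only [fm_sq hΦ, fm_sq hΨ] at hl
    have := Complex.hasSum_ofReal.2 (sA.hasSum.sub sB.hasSum)
    rw [hl, sub_self, Complex.ofReal_zero] at this
    simpa only [hc, ContinuousLinearMap.sub_apply, inner_sub_right, inner_sq hΦ, inner_sq hΨ,
      Complex.ofReal_sub] using this
  · refine Pr.adj hq.comm (core b hB hA ?_ sB sA hl hq.adj)
    rw [star_star, ← neg_sub A B, ← hc, neg_sub]

/-- The Berger-Shaw inequality in the basis obtained from a cyclic vector. -/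
theorem Cyc.exists_basis {x : H} (h : Cyc T x) (hd : ¬FiniteDimensional ℂ H) :
    ∃ b : HilbertBasis ℕ ℂ H,
    ∀ n, ∑ j ∈ Finset.range n, (‖T (b j)‖ ^ 2 - ‖star T (b j)‖ ^ 2) ≤ ‖T‖ ^ 2 := by
  let v : ℕ → H := fun n => (T ^ n) x
  have hv : ∀ n, T (v n) = v (n + 1) := fun n => by
    simp only [v, pow_succ', mul_apply_eq_comp]
  have hinv : ∀ {s : Set ℕ} {M : Submodule ℂ H}, (∀ k ∈ s, v (k + 1) ∈ M) →
      ∀ u ∈ Submodule.span ℂ (v '' s), T u ∈ M := fun {s M} hs u hu => by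
    have : Submodule.span ℂ (v '' s) ≤ M.comap (T : H →ₗ[ℂ] H) :=
      Submodule.span_le.2 (by
        rintro _ ⟨k, hk, rfl⟩
        change T (v k) ∈ M
        rw [hv]; exact hs k hk)
    exact this hu
  have hne : ∀ n, gramSchmidt ℂ v n ≠ 0 := fun n h0 => by
    have h1 : v n ∈ Submodule.span ℂ (v '' Iio n) := by
      rw [← span_gramSchmidt_Iio ℂ v n, gramSchmidt_def'' ℂ v n, h0, zero_add]
      exact Submodule.sum_mem _ fun a ha => Submodule.smul_mem _ _
        (Submodule.subset_span ⟨a, Finset.mem_Iio.1 ha, rfl⟩)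
    have : FiniteDimensional ℂ (Submodule.span ℂ (v '' Iio n)) :=
      FiniteDimensional.span_of_finite ℂ ((finite_Iio n).image v)
    have h2 : x ∈ Submodule.span ℂ (v '' Iio n) := by
      rcases Nat.eq_zero_or_pos n with rfl | hn
      · exact h1
      · exact Submodule.subset_span ⟨0, hn, rfl⟩
    have h3 := h.eq_top (Submodule.closed_of_finiteDimensional _) (hinv fun k hk => by
      rcases (Nat.succ_le_of_lt hk).eq_or_lt with e | e
      · rw [show k + 1 = n from e]; exact h1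
      · exact Submodule.subset_span ⟨k + 1, e, rfl⟩) h2
    rw [h3] at this
    exact hd (Module.Finite.equiv Submodule.topEquiv)
  have hon : Orthonormal ℂ (gramSchmidtNormed ℂ v) :=
    ⟨fun n => norm_smul_inv_norm (hne n), fun i j hij => by
      simp [gramSchmidtNormed, inner_smul_left, inner_smul_right, gramSchmidt_orthogonal ℂ v hij]⟩
  have hsp : ⊤ ≤ (Submodule.span ℂ (range (gramSchmidtNormed ℂ v))).topologicalClosure := by
    rw [span_gramSchmidtNormed_range, span_gramSchmidt, ← image_univ]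
    refine (h.eq_top (Submodule.isClosed_topologicalClosure _) (fun u hu => ?_)
      (Submodule.le_topologicalClosure _
        (Submodule.subset_span (mem_image_of_mem v (mem_univ 0))))).ge
    exact map_mem_closure T.continuous hu
      (hinv fun k _ => Submodule.subset_span ⟨k + 1, trivial, rfl⟩)
  set b := HilbertBasis.mk hon hsp with hb
  have eb : ∀ j, b j = gramSchmidtNormed ℂ v j := fun j => by rw [hb, HilbertBasis.coe_mk]
  have tri : ∀ i j, j + 1 < i → ⟪b i, T (b j)⟫_ℂ = 0 := fun i j hij => by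
    refine Submodule.mem_orthogonal_singleton_iff_inner_right.1
      (hinv (s := Iic j) (fun k hk => ?_) _ ?_)
    · rw [Submodule.mem_orthogonal_singleton_iff_inner_right, eb, gramSchmidtNormed,
        inner_smul_left, gramSchmidt_inv_triangular ℂ v (by have : k ≤ j := hk; omega), mul_zero]
    · rw [eb]
      exact Submodule.smul_mem _ _ (gramSchmidt_mem_span ℂ v le_rfl)
  refine ⟨b, fun n => ?_⟩
  have h1 : ∀ j ∈ Finset.range n,
      ‖T (b j)‖ ^ 2 = ∑ i ∈ Finset.range (n + 1), ‖⟪b j, star T (b i)⟫_ℂ‖ ^ 2 := fun j hj => by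
    have := hasSum_sum_of_ne_finset_zero (f := fun i => ‖⟪b i, T (b j)⟫_ℂ‖ ^ 2)
      (s := Finset.range (n + 1)) (L := .unconditional ℕ) fun i hi => by
        rw [Finset.mem_range] at hi hj
        rw [tri i j (by omega)]; simp
    rw [(bs_parseval b _).unique this]
    refine Finset.sum_congr rfl fun i _ => ?_
    rw [bs_adj_right, norm_inner_symm]
  have h2 : ‖star T (b n)‖ ^ 2 ≤ ‖T‖ ^ 2 := by
    have := (star T).le_opNorm (b n)
    rw [b.orthonormal.1 n, mul_one, norm_star] at this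
    exact pow_le_pow_left₀ (norm_nonneg _) this 2
  rw [Finset.sum_sub_distrib, Finset.sum_congr rfl h1, Finset.sum_comm]
  have h3 : ∑ i ∈ Finset.range (n + 1), ∑ j ∈ Finset.range n, ‖⟪b j, star T (b i)⟫_ℂ‖ ^ 2 ≤
      ∑ i ∈ Finset.range (n + 1), ‖star T (b i)‖ ^ 2 :=
    Finset.sum_le_sum fun i _ => b.orthonormal.sum_inner_products_le _
  rw [Finset.sum_range_succ (fun i => ‖star T (b i)‖ ^ 2)] at h3
  linarith

theorem summable_of_cyc {K : H →L[ℂ] H} (ht : Cyc T e) (b : HilbertBasis ℕ ℂ H)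
    (hK : K.IsPositive) (hs : Summable fun i => (⟪b i, K (b i)⟫_ℂ).re)
    (hD : (K + (star T * T - T * star T)).IsPositive) :
    Summable fun i => (⟪b i, (K + (star T * T - T * star T)) (b i)⟫_ℂ).re := by
  obtain ⟨c, hc⟩ := ht.exists_basis (not_finiteDimensional b)
  have hs' := summable_basis b c hK hs
  refine summable_basis c b hD (summable_of_sum_range_le (c := ∑' i, (⟪c i, K (c i)⟫_ℂ).re +
    ‖T‖ ^ 2) (fun i => hD.re_inner_nonneg_right _) fun n => ?_)
  simp only [ContinuousLinearMap.add_apply, inner_add_right, Complex.add_re, re_inner_comm,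
    Finset.sum_add_distrib]
  exact add_le_add (hs'.sum_le_tsum _ fun i _ => hK.re_inner_nonneg_right _) (hc n)

/-- An orbit of the resolvent spans the same closed subspace or a larger one. -/
lemma orb_res {z : ℂ} (hz : ‖T‖ < ‖z‖) {x y : H}
    (hxy : ∀ n : ℕ, ⟪(resolvent T z ^ n) x, y⟫_ℂ = 0) (n : ℕ) : ⟪(T ^ n) x, y⟫_ℂ = 0 := by
  obtain ⟨M, hc, hS, m⟩ := bs_orb (resolvent T z) y
  obtain ⟨e1, e2⟩ := bs_res hz
  set S := resolvent T z
  have z0 : 0 < ‖z‖ := (norm_nonneg _).trans_lt hz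
  set r : ℝ := (‖T‖ / ‖z‖) ^ 2 with hr
  have q1 : ‖T‖ / ‖z‖ < 1 := (div_lt_one z0).2 hz
  have q0 : 0 ≤ ‖T‖ / ‖z‖ := by positivity
  have r1 : r ≤ 1 := pow_le_one₀ q0 q1.le
  set W : H →L[ℂ] H := (((r : ℂ) * z) • 1 - T) * S with hW
  have hW1 : W = 1 - (z - r * z) • S := by
    have : (((r : ℂ) * z) • 1 - T : H →L[ℂ] H) = (z • 1 - T) - (z - r * z) • 1 := by module
    rw [hW, this, sub_mul _ _ S, e1, smul_one_mul]
  have hn : ‖W‖ < 1 := by
    refine lt_of_le_of_lt (W.opNorm_le_bound q0 fun u => ?_) q1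
    have a1 : u = z • S u - T (S u) := by
      simpa using (congrArg (fun B : H →L[ℂ] H => B u) e1).symm
    have a2 : W u = (r : ℂ) • (z • S u) - T (S u) := by simp [hW, smul_smul]
    have a3 : ‖T (S u)‖ ^ 2 ≤ r * ‖z • S u‖ ^ 2 := by
      rw [hr, ← mul_pow, norm_smul, ← mul_assoc, div_mul_cancel₀ _ z0.ne']
      exact pow_le_pow_left₀ (norm_nonneg _) (T.le_opNorm _) 2
    have a4 := bs_apol (by positivity) r1 a3
    rw [← a1, ← a2, hr, ← mul_pow] at a4
    exact le_of_sq_le_sq a4 (by positivity)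
  have hWM : ∀ n : ℕ, ∀ u ∈ M, (W ^ n) u ∈ M := fun n => by
    induction n with
    | zero => simp
    | succ n ih =>
      intro u hu
      rw [pow_succ, mul_apply_eq_comp]
      refine ih _ ?_
      rw [hW1]
      exact M.sub_mem hu (M.smul_mem _ (hS u hu))
  have hT : ∀ u ∈ M, T u ∈ M := fun u hu => by
    set v := z • u - T u with hv
    have b1 : S v = u := by simpa [hv] using congrArg (fun B : H →L[ℂ] H => B u) e2
    have b2 : v - W v = (z - r * z) • u := by rw [hW1]; simp [b1]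
    have b3 : ∀ n : ℕ, v - (W ^ n) v ∈ M := fun n => by
      induction n with
      | zero => simp
      | succ n ih =>
        have : v - (W ^ (n + 1)) v = (v - (W ^ n) v) + (W ^ n) (v - W v) := by
          rw [pow_succ, mul_apply_eq_comp, map_sub (W ^ n) v (W v)]; abel
        rw [this, b2]
        exact M.add_mem ih (hWM n _ (M.smul_mem _ hu))
    have b4 : Tendsto (fun n : ℕ => v - (W ^ n) v) atTop (𝓝 (v - (0 : H →L[ℂ] H) v)) :=
      tendsto_const_nhds.sub (((ContinuousLinearMap.apply ℂ H v).continuous.tendsto 0).comp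
        (tendsto_pow_atTop_nhds_zero_of_norm_lt_one hn))
    have b5 : v ∈ M := by simpa using hc.mem_of_tendsto b4 (Eventually.of_forall b3)
    have : T u = z • u - v := by rw [hv]; abel
    rw [this]
    exact M.sub_mem (M.smul_mem _ hu) b5
  have hx : (T ^ n) x ∈ M := by
    induction n with
    | zero => simpa using (m x).2 hxy
    | succ n ih => rw [pow_succ', mul_apply_eq_comp]; exact hT _ ih
  simpa using (m _).1 hx 0

lemma orb_adj (S : H →L[ℂ] H) (n : ℕ) (x y : H) :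
    ⟪(star S ^ n) x, y⟫_ℂ = 0 ↔ ⟪(S ^ n) y, x⟫_ℂ = 0 := by
  rw [← star_pow, bas_sl, inner_eq_zero_symm]

lemma QS.res (h : QS T R) {z : ℂ} (hz : ‖T‖ < ‖z‖) : QS (resolvent T z) R := by
  obtain ⟨e1, e2⟩ := bs_res hz
  obtain ⟨e, he⟩ := h.c1
  obtain ⟨e', he'⟩ := h.c2
  refine ⟨?_, h.i1, h.i2, ⟨e, fun y hy => he y (orb_res hz hy)⟩, ⟨e', fun y hy => he' y fun n =>
    (orb_adj T n _ _).2 (orb_res hz (fun n => (orb_adj _ n _ _).1 (hy n)) n)⟩⟩
  have e3 : (z • 1 - T) * R = R * (z • 1 - T) := by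
    rw [sub_mul, mul_sub, h.comm, smul_one_mul, mul_smul_one]
  calc R * resolvent T z = resolvent T z * ((z • 1 - T) * R) * resolvent T z := by
        rw [← mul_assoc, e2, one_mul]
    _ = resolvent T z * R := by rw [e3, mul_assoc, mul_assoc, e1, mul_one]

theorem pr_lower {K S : H →L[ℂ] H} (b : HilbertBasis ℕ ℂ H) (hK : K.IsPositive)
    (hs : Summable fun i => (⟪b i, K (b i)⟫_ℂ).re) {A : H →L[ℂ] H} (hA : A.IsPositive)
    (sA : Summable fun i => (⟪b i, A (b i)⟫_ℂ).re) (e : star T * T - T * star T = A - K)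
    (hS : S = T ∨ ∃ z : ℂ, ‖T‖ < ‖z‖ ∧ S = resolvent T z)
    (h : ¬HasSum (fun i => ⟪b i, (star S * S - S * star S) (b i)⟫_ℂ) 0) (hq : QS T R) :
    Pr T R := by
  rcases hS with rfl | ⟨z, hz, rfl⟩
  · exact core' hA hK e b sA hs h hq
  obtain ⟨P, M, hPM⟩ := comm_resolvent hz
  obtain ⟨x, Y, h1, h2, h3⟩ := core' (A := star P * A * P + star M * K * M)
    (B := star P * K * P + star M * A * M)
    ((pos_conj hA P).add (pos_conj hK M)) ((pos_conj hK P).add (pos_conj hA M))
    (by rw [hPM, e]; noncomm_ring) b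
    (by simpa only [ContinuousLinearMap.add_apply, inner_add_right, Complex.add_re] using
      (summable_conj b hA sA P).add (summable_conj b hK hs M))
    (by simpa only [ContinuousLinearMap.add_apply, inner_add_right, Complex.add_re] using
      (summable_conj b hK hs P).add (summable_conj b hA sA M)) h (hq.res hz)
  exact ⟨x, Y, h1, h2, orb_res hz h3⟩

theorem pr_one_sided {K S : H →L[ℂ] H} (b : HilbertBasis ℕ ℂ H) (hK : K.IsPositive)
    (hs : Summable fun i => ⟪b i, K (b i)⟫_ℂ)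
    (hD : (K + (star T * T - T * star T)).IsPositive ∨ (K - (star T * T - T * star T)).IsPositive)
    (hS : S = T ∨ ∃ z : ℂ, ‖T‖ < ‖z‖ ∧ S = resolvent T z)
    (h : ¬HasSum (fun i => ⟪b i, (star S * S - S * star S) (b i)⟫_ℂ) 0) (hq : QS T R) :
    Pr T R := by
  have hs' : Summable fun i => (⟪b i, K (b i)⟫_ℂ).re := (Complex.hasSum_re hs.hasSum).summable
  rcases hD with hD | hD
  · obtain ⟨e, he⟩ := hq.c1
    exact pr_lower b hK hs' hD (summable_of_cyc he b hK hs' hD) (by abel) hS h hq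
  · have e : K - (star T * T - T * star T) =
        K + (star (star T) * star T - star T * star (star T)) := by rw [star_star]; abel
    obtain ⟨e', he⟩ := hq.c2
    have := summable_of_cyc he b hK hs' (e ▸ hD)
    rw [← e] at this
    exact pr_lower b hD this hK hs' (by abel) hS h hq

lemma pr_normal (hc : star T * T = T * star T) (hd : ¬FiniteDimensional ℂ H)
    (hR : R * T = T * R) : Pr T R := by
  have hN : IsStarNormal T := ⟨hc⟩
  have := bs_nontrivial hd
  obtain ⟨a, ha⟩ := spectrum.nonempty T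
  by_cases h : spectrum ℂ T ⊆ {a}
  · obtain ⟨x, hx⟩ := exists_ne (0 : H)
    have e := CFC.eq_algebraMap_of_spectrum_subset_singleton T a h
    refine pr_of_eig hd hx (z := a) ?_
    rw [SS, e, Algebra.algebraMap_eq_smul_one, sub_self, star_zero]
    rfl
  obtain ⟨b, hb, hab⟩ := not_subset.1 h
  let f : ℂ → ℂ → ℂ → ℂ := fun a b z => (max 0 (‖z - b‖ - ‖z - a‖) : ℝ)
  have hf : ∀ a b, Continuous (f a b) := fun a b => by fun_prop
  have nz : ∀ a b, a ∈ spectrum ℂ T → a ≠ b → ∃ x, cfc (f a b) T x ≠ 0 := fun a b ha hab => by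
    by_contra! h0
    have e : cfc (f a b) T = cfc (fun _ => (0 : ℂ)) T := by
      rw [cfc_const_zero]; exact ContinuousLinearMap.ext h0
    have := eqOn_of_cfc_eq_cfc e (hf a b).continuousOn continuousOn_const hN ha
    simp [f, sub_eq_zero, hab] at this
  obtain ⟨x, hx⟩ := nz b a hb hab
  obtain ⟨y, hy⟩ := nz a b ha (Ne.symm hab)
  refine ⟨_, _, hx, hy, fun n => ?_⟩
  have c1 : Commute T R := hR.symm
  have c2 : Commute (cfc (f b a) T) R := c1.cfc (hN.commute_star_left c1) _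
  have e : star (cfc (f a b) T) * T ^ n * cfc (f b a) T = 0 := by
    rw [← cfc_star, ← cfc_pow_id (R := ℂ) T n, ← cfc_mul _ _ _ (by fun_prop) (by fun_prop),
      ← cfc_mul _ _ _ (by fun_prop) (by fun_prop), ← cfc_const_zero ℂ T]
    refine cfc_congr fun z _ => ?_
    rcases le_total ‖z - a‖ ‖z - b‖ with h | h <;> simp [f, h]
  rw [← mul_apply_eq_comp R, ← c2.eq, mul_apply_eq_comp, ← bs_adj_left, ← mul_apply_eq_comp,
    ← mul_apply_eq_comp, e]
  simp

lemma pr_hypo (hd : ¬FiniteDimensional ℂ H) (h : ∀ x, ‖star T x‖ ≤ ‖T x‖) (hq : QS T R) :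
    Pr T R := by
  obtain ⟨e, he⟩ := hq.c1
  obtain ⟨b, -⟩ := he.exists_basis hd
  have sa : IsSelfAdjoint (star T * T - T * star T) := by simp [IsSelfAdjoint]
  have hD : (star T * T - T * star T).IsPositive := by
    refine ContinuousLinearMap.isPositive_def'.2 ⟨sa, fun x => ?_⟩
    rw [ContinuousLinearMap.reApplyInnerSelf_apply, inner_re_symm]
    have := re_inner_comm T x
    simp only [RCLike.re_to_complex, this]
    nlinarith [h x, norm_nonneg (star T x)]
  by_cases h0 : HasSum (fun i => ⟪b i, (star T * T - T * star T) (b i)⟫_ℂ) 0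
  swap
  · exact pr_one_sided (K := 0) (S := T) b ContinuousLinearMap.isPositive_zero
      (by simpa using summable_zero) (Or.inl (by rwa [zero_add])) (Or.inl rfl) h0 hq
  obtain ⟨Φ, hΦ, e⟩ := exists_sqrt hD
  rw [← e] at h0
  have h1 := Complex.hasSum_re h0
  simp only [re_inner_sq hΦ, Complex.zero_re] at h1
  have h2 : ∀ i, Φ (b i) = 0 := fun i => by
    have := congrFun ((hasSum_zero_iff_of_nonneg fun i => by positivity).1 h1) i
    simpa using this
  have h3 : Φ = 0 := by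
    ext x
    have := (b.hasSum_repr x).mapL Φ
    simp only [map_smul, h2, smul_zero] at this
    exact this.unique hasSum_zero
  rw [h3, zero_mul] at e
  exact pr_normal (sub_eq_zero.1 e.symm) hd hq.comm

theorem pr_semi (hd : ¬FiniteDimensional ℂ H)
    (h : (∀ x, ‖star T x‖ ≤ ‖T x‖) ∨ ∀ x, ‖T x‖ ≤ ‖star T x‖) (hq : QS T R) : Pr T R := by
  rcases h with h | h
  · exact pr_hypo hd h hq
  · exact Pr.adj hq.comm (pr_hypo (T := star T) hd (by rwa [star_star]) hq.adj)

variable {K : Type*} [NormedAddCommGroup K] [InnerProductSpace ℂ K] [CompleteSpace K]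

/-- Transfer to the second operator. -/
theorem transfer (hd : ¬FiniteDimensional ℂ H) {B : K →L[ℂ] K} {X : H →L[ℂ] K} {Y : K →L[ℂ] H}
    (hX : Function.Injective X) (hY : DenseRange Y) (h1 : X.comp T = B.comp X)
    (h2 : T.comp Y = Y.comp B) (h : QS T (Y.comp X) → Pr T (Y.comp X)) :
    ∃ N : Submodule ℂ K, IsClosed (N : Set K) ∧ N ≠ ⊥ ∧ N ≠ ⊤ ∧ ∀ x ∈ N, B x ∈ N := by
  suffices ht : ¬Tr B by
    obtain ⟨M, a1, a2, a3, a4⟩ := invariant_of_not_tr ht
    exact ⟨M, a1, a3, a4, a2⟩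
  intro ht
  have := bs_nontrivial hd
  obtain ⟨h0, hh0⟩ := exists_ne (0 : H)
  have e1 : ∀ x, X (T x) = B (X x) := fun x => congrArg (fun F : H →L[ℂ] K => F x) h1
  have e2 : ∀ x, T (Y x) = Y (B x) := fun x => congrArg (fun F : K →L[ℂ] H => F x) h2
  have p1 : ∀ (n : ℕ) x, X ((T ^ n) x) = (B ^ n) (X x) := fun n x => by
    induction n with
    | zero => simp
    | succ n ih => rw [pow_succ', pow_succ', mul_apply_eq_comp, mul_apply_eq_comp, e1, ih]
  have p2 : ∀ (n : ℕ) x, (T ^ n) (Y x) = Y ((B ^ n) x) := fun n x => by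
    induction n with
    | zero => simp
    | succ n ih => rw [pow_succ', pow_succ', mul_apply_eq_comp, mul_apply_eq_comp, ih, e2]
  have iX : ∀ x, X x = 0 → x = 0 := (injective_iff_map_eq_zero X).1 hX
  have iY : ∀ y, Y.adjoint y = 0 → y = 0 := fun y hy =>
    hY.eq_zero_of_inner_right (𝕜 := ℂ) fun k => by
      rw [← ContinuousLinearMap.adjoint_inner_right, hy, inner_zero_right]
  have jY : ∀ k, Y k = 0 → k = 0 := fun k hk =>
    (ht k (Y.adjoint h0) fun n => by
      rw [ContinuousLinearMap.adjoint_inner_right, ← p2, hk, map_zero, inner_zero_left]).resolve_right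
      fun h3 => hh0 (iY _ h3)
  have jX : ∀ k, X.adjoint k = 0 → k = 0 := fun k hk =>
    (ht (X h0) k fun n => by
      rw [← p1, ← ContinuousLinearMap.adjoint_inner_right, hk, inner_zero_right]).resolve_left
      fun h3 => hh0 (iX _ h3)
  have k0 : X h0 ≠ 0 := fun h3 => hh0 (iX _ h3)
  have hq : QS T (Y.comp X) := by
    refine ⟨?_, fun y hy => iX _ (jY _ hy), fun y hy => iY _ (jX _ ?_),
      ⟨Y (X h0), fun y hy => iY _ ((ht _ _ fun n => ?_).resolve_left k0)⟩,
      ⟨X.adjoint (X h0), fun y hy => iX _ ((ht _ _ fun n => ?_).resolve_right k0)⟩⟩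
    · ext x
      simp only [mul_apply_eq_comp, ContinuousLinearMap.comp_apply, e1, e2]
    · rwa [ContinuousLinearMap.star_eq_adjoint, ContinuousLinearMap.adjoint_comp] at hy
    · rw [ContinuousLinearMap.adjoint_inner_right, ← p2]
      exact hy n
    · rw [← p1, ← ContinuousLinearMap.adjoint_inner_right]
      exact (orb_adj T n _ _).1 (hy n)
  obtain ⟨x, y, hx, hy, hxy⟩ := h hq
  refine (ht (X x) (Y.adjoint y) fun n => ?_).elim (fun h3 => hx (iX _ h3))
    fun h3 => hy (iY _ h3)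
  rw [ContinuousLinearMap.adjoint_inner_right, ← p2]
  exact hxy n

end Pool.Agent.Lib.MP_dee751_an.Q
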