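import Pool.Agent.Lib.MP_dee751_an.Defs

-- part Pool.Agent.Lib.MP_dee751_an.Basic
section

set_option autoImplicit false
set_option linter.unusedSectionVars false

open scoped InnerProductSpace
open ContinuousLinearMap

namespace Pool.Agent.Lib.MP_dee751_an

section Stack

variable {E F : Type} [NormedAddCommGroup E] [NormedSpace ℂ E] [NormedAddCommGroup F]
  [NormedSpace ℂ F]

theorem memTwo {b : ℕ → F} (hb : Summable fun i => ‖b i‖) : Memℓp b 2 := by
  have h1 : Memℓp b 1 := memℓp_gen (by simpa using hb)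
  exact h1.of_exponent_ge (by norm_num)

theorem norm_le_tsum (f : lp (fun _ : ℕ => F) 2) (hf : Summable fun i => ‖f i‖) :
    ‖f‖ ≤ ∑' i, ‖f i‖ := by
  have h := lp.hasSum_single (p := 2) (by norm_num) f
  refine h.norm_le_of_bounded hf.hasSum ?_
  intro i
  rw [lp.norm_single (by norm_num)]

theorem summable_apply (T : ℕ → E →L[ℂ] F) (hT : Summable fun i => ‖T i‖) (x : E) :
    Summable fun i => ‖T i x‖ :=
  Summable.of_nonneg_of_le (fun _ => norm_nonneg _) (fun i => (T i).le_opNorm x)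
    (hT.mul_right ‖x‖)

/-- a summable family of operators stacked into an operator to `ℓ²`. -/
noncomputable def stack (T : ℕ → E →L[ℂ] F) (hT : Summable fun i => ‖T i‖) :
    E →L[ℂ] lp (fun _ : ℕ => F) 2 :=
  LinearMap.mkContinuous
    { toFun := fun x => ⟨fun i => T i x, memTwo (summable_apply T hT x)⟩
      map_add' := fun x y => by ext i; simp
      map_smul' := fun c x => by ext i; simp }
    (∑' i, ‖T i‖) fun x => by
      refine (norm_le_tsum _ (summable_apply T hT x)).trans ?_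
      rw [← tsum_mul_right]
      exact Summable.tsum_le_tsum (fun i => (T i).le_opNorm x) (summable_apply T hT x)
        (hT.mul_right ‖x‖)

theorem stack_apply (T : ℕ → E →L[ℂ] F) (hT : Summable fun i => ‖T i‖) (x : E) (i : ℕ) :
    (stack T hT x : ℕ → F) i = T i x := rfl

theorem norm_stack_le (T : ℕ → E →L[ℂ] F) (hT : Summable fun i => ‖T i‖) :
    ‖stack T hT‖ ≤ ∑' i, ‖T i‖ :=
  LinearMap.mkContinuous_norm_le _ (tsum_nonneg fun _ => norm_nonneg _) _

end Stack

/-- the sequence space. -/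
abbrev L2 : Type := lp (fun _ : ℕ => ℂ) 2

theorem memShift (a : L2) : Memℓp (fun n => (a : ℕ → ℂ) (n + 1)) 2 := by
  have h := (lp.memℓp a).summable (by norm_num)
  exact memℓp_gen ((summable_nat_add_iff 1).2 h)

/-- the backward shift. -/
noncomputable def bshift : L2 →L[ℂ] L2 :=
  LinearMap.mkContinuous
    { toFun := fun a => ⟨fun n => (a : ℕ → ℂ) (n + 1), memShift a⟩
      map_add' := fun x y => by ext i; simp
      map_smul' := fun c x => by ext i; simp }
    1 fun a => by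
      rw [one_mul]
      apply lp.norm_le_of_tsum_le (by norm_num) (norm_nonneg _)
      rw [lp.norm_rpow_eq_tsum (by norm_num) a]
      have h := (lp.memℓp a).summable (by norm_num)
      rw [h.tsum_eq_zero_add]
      have : 0 ≤ ‖(a : ℕ → ℂ) 0‖ ^ (2 : ENNReal).toReal := by positivity
      change ∑' n, ‖(a : ℕ → ℂ) (n + 1)‖ ^ (2 : ENNReal).toReal ≤ _
      linarith

theorem bshift_apply (a : L2) (n : ℕ) : (bshift a : ℕ → ℂ) n = (a : ℕ → ℂ) (n + 1) := rfl

theorem norm_bshift_le : ‖bshift‖ ≤ 1 :=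
  LinearMap.mkContinuous_norm_le _ zero_le_one _

section D

variable {K : Type} [NormedAddCommGroup K] [InnerProductSpace ℂ K]

theorem norm_pow_half {B : K →L[ℂ] K} (hB : ‖B‖ ≤ 1 / 2) (n : ℕ) : ‖B ^ n‖ ≤ (1 / 2) ^ n := by
  rcases n with _ | n
  · rw [pow_zero, pow_zero]
    exact (norm_id_le : ‖ContinuousLinearMap.id ℂ K‖ ≤ 1)
  · exact (norm_pow_le' B (Nat.succ_pos n)).trans (pow_le_pow_left₀ (norm_nonneg _) hB _)

theorem norm_term_le {B : K →L[ℂ] K} (hB : ‖B‖ ≤ 1 / 2) (g : K) (n : ℕ) :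
    ‖(innerSL ℂ g).comp (B ^ n)‖ ≤ ‖g‖ * (1 / 2) ^ n := by
  refine (opNorm_comp_le _ _).trans ?_
  rw [innerSL_apply_norm]
  exact mul_le_mul_of_nonneg_left (norm_pow_half hB n) (norm_nonneg _)

theorem summable_term {B : K →L[ℂ] K} (hB : ‖B‖ ≤ 1 / 2) (g : K) :
    Summable fun n => ‖(innerSL ℂ g).comp (B ^ n)‖ :=
  Summable.of_nonneg_of_le (fun _ => norm_nonneg _) (norm_term_le hB g)
    (summable_geometric_two.mul_left _)

/-- `D B g y = (⟪g, Bⁿ y⟫)ₙ`. -/
noncomputable def D {B : K →L[ℂ] K} (hB : ‖B‖ ≤ 1 / 2) (g : K) : K →L[ℂ] L2 :=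
  stack (fun n => (innerSL ℂ g).comp (B ^ n)) (summable_term hB g)

theorem D_apply {B : K →L[ℂ] K} (hB : ‖B‖ ≤ 1 / 2) (g y : K) (n : ℕ) :
    (D hB g y : ℕ → ℂ) n = ⟪g, (B ^ n) y⟫_ℂ := rfl

theorem norm_D_le {B : K →L[ℂ] K} (hB : ‖B‖ ≤ 1 / 2) (g : K) : ‖D hB g‖ ≤ 2 * ‖g‖ := by
  refine (norm_stack_le _ _).trans ?_
  refine (Summable.tsum_le_tsum (norm_term_le hB g) (summable_term hB g)
    (summable_geometric_two.mul_left _)).trans ?_
  rw [tsum_mul_left, tsum_geometric_two, mul_comm]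

theorem norm_D_apply_le {B : K →L[ℂ] K} (hB : ‖B‖ ≤ 1 / 2) (g y : K) :
    ‖D hB g y‖ ≤ 2 * ‖g‖ * ‖y‖ :=
  ((D hB g).le_opNorm y).trans (mul_le_mul_of_nonneg_right (norm_D_le hB g) (norm_nonneg _))

theorem D_B {B : K →L[ℂ] K} (hB : ‖B‖ ≤ 1 / 2) (g y : K) :
    D hB g (B y) = bshift (D hB g y) := by
  ext n
  rw [bshift_apply, D_apply, D_apply, pow_succ]
  rfl

theorem D_sub {B : K →L[ℂ] K} (hB : ‖B‖ ≤ 1 / 2) (g g' y : K) :
    D hB (g - g') y = D hB g y - D hB g' y := by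
  ext n
  simp only [lp.coeFn_sub, Pi.sub_apply, D_apply, inner_sub_left]

theorem D_zero {B : K →L[ℂ] K} (hB : ‖B‖ ≤ 1 / 2) (y : K) : D hB 0 y = 0 := by
  ext n
  simp [D_apply]

variable [CompleteSpace K]

theorem D_adj {B C : K →L[ℂ] K} (hB : ‖B‖ ≤ 1 / 2) (hC : C * B = B * C) (u y : K) :
    D hB (adjoint C u) y = D hB u (C y) := by
  ext n
  rw [D_apply, D_apply, adjoint_inner_left]
  have : C * B ^ n = B ^ n * C := (Commute.pow_right hC n).eq
  have h2 := congrArg (fun T : K →L[ℂ] K => T y) this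
  exact congrArg (fun z => ⟪u, z⟫_ℂ) h2

theorem norm_adj_half {B : K →L[ℂ] K} (hB : ‖B‖ ≤ 1 / 2) : ‖adjoint B‖ ≤ 1 / 2 := by
  rwa [LinearIsometryEquiv.norm_map]

theorem adjoint_pow' (B : K →L[ℂ] K) (n : ℕ) : adjoint (B ^ n) = (adjoint B) ^ n := by
  rw [← star_eq_adjoint, star_pow, star_eq_adjoint]

theorem norm_D_swap {B : K →L[ℂ] K} (hB : ‖B‖ ≤ 1 / 2) (u k : K) :
    ‖D hB u k‖ ≤ ‖D (norm_adj_half hB) k u‖ := by
  apply lp.norm_mono (by norm_num)
  intro n
  rw [D_apply, D_apply, ← adjoint_pow', adjoint_inner_right, norm_inner_symm]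

/-- `ser B a = ∑ aₙ Bⁿ`. -/
noncomputable def ser (B : K →L[ℂ] K) (a : ℕ → ℂ) : K →L[ℂ] K := ∑' n, a n • B ^ n

omit [CompleteSpace K] in
theorem summable_ser_norm {B : K →L[ℂ] K} (hB : ‖B‖ ≤ 1 / 2) {a : ℕ → ℂ} {c : ℝ}
    (ha : ∀ n, ‖a n‖ ≤ c) : Summable fun n => ‖a n • B ^ n‖ := by
  refine Summable.of_nonneg_of_le (fun _ => norm_nonneg _) (fun n => ?_)
    (summable_geometric_two.mul_left c)
  rw [norm_smul]
  exact mul_le_mul (ha n) (norm_pow_half hB n) (norm_nonneg _) ((norm_nonneg _).trans (ha n))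

theorem hasSum_ser {B : K →L[ℂ] K} (hB : ‖B‖ ≤ 1 / 2) {a : ℕ → ℂ} {c : ℝ}
    (ha : ∀ n, ‖a n‖ ≤ c) : HasSum (fun n => a n • B ^ n) (ser B a) :=
  (summable_ser_norm hB ha).of_norm.hasSum

theorem inner_D {B : K →L[ℂ] K} (hB : ‖B‖ ≤ 1 / 2) (a : L2) (m y : K) :
    ⟪a, D hB m y⟫_ℂ = ⟪ser (adjoint B) a m, y⟫_ℂ := by
  have h1 := lp.hasSum_inner (𝕜 := ℂ) a (D hB m y)
  have h2 := hasSum_ser (norm_adj_half hB) (a := a) (fun n => lp.norm_apply_le_norm (by norm_num) a n)
  have h3 := ((ContinuousLinearMap.apply ℂ K m).hasSum h2)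
  have h4 := (innerSL ℂ y).hasSum h3
  have h5 := (Complex.conjCLE.toContinuousLinearMap).hasSum h4
  have e : ⟪ser (adjoint B) a m, y⟫_ℂ = Complex.conjCLE.toContinuousLinearMap
      (innerSL ℂ y (ContinuousLinearMap.apply ℂ K m (ser (adjoint B) a))) := by
    simp [inner_conj_symm]
  rw [e]
  refine h1.unique ?_
  have e2 : (fun i => ⟪(a : ℕ → ℂ) i, (D hB m y : ℕ → ℂ) i⟫_ℂ) =
      fun b => Complex.conjCLE.toContinuousLinearMap
        (innerSL ℂ y (ContinuousLinearMap.apply ℂ K m ((a : ℕ → ℂ) b • adjoint B ^ b))) := by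
    funext n
    rw [D_apply]
    simp [← adjoint_pow', adjoint_inner_right, mul_comm]
  rw [e2]
  exact h5

end D

end Pool.Agent.Lib.MP_dee751_an
end

-- part Pool.Agent.Lib.MP_dee751_an.Transfer
section

set_option autoImplicit false
set_option linter.unusedSectionVars false

open scoped InnerProductSpace
open ContinuousLinearMap

namespace Pool.Agent.Lib.MP_dee751_an

section Dense

variable {E F : Type} [NormedAddCommGroup E] [InnerProductSpace ℂ E] [CompleteSpace E]
  [NormedAddCommGroup F] [InnerProductSpace ℂ F] [CompleteSpace F]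

theorem denseRange_of_adj_inj {T : E →L[ℂ] F} (h : Function.Injective (adjoint T)) :
    DenseRange T := by
  have h1 : T.rangeᗮ = ⊥ := by
    rw [orthogonal_range]
    exact LinearMap.ker_eq_bot.2 h
  have h2 : T.range.topologicalClosure = ⊤ := by
    rw [Submodule.topologicalClosure_eq_top_iff]; exact h1
  have h3 := Submodule.dense_iff_topologicalClosure_eq_top.2 h2
  exact h3

theorem adj_inj_of_denseRange {T : E →L[ℂ] F} (h : DenseRange T) :
    Function.Injective (adjoint T) := by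
  rw [injective_iff_map_eq_zero]
  intro v hv
  refine h.eq_zero_of_inner_left (𝕜 := ℂ) fun x => ?_
  rw [← adjoint_inner_left, hv, inner_zero_left]

theorem adj_denseRange_of_inj {T : E →L[ℂ] F} (h : Function.Injective T) :
    DenseRange (adjoint T) := by
  apply denseRange_of_adj_inj
  rwa [adjoint_adjoint]

/-- a quasi-affinity between two Hilbert spaces gives a unitary. -/
theorem exists_unitary (Y : E →L[ℂ] F) (hi : Function.Injective Y) (hd : DenseRange Y) :
    Nonempty (E ≃ₗᵢ[ℂ] F) := by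
  have hp : (0 : E →L[ℂ] E) ≤ adjoint Y ∘L Y :=
    (nonneg_iff_isPositive _).2 (isPositive_adjoint_comp_self Y)
  set R : E →L[ℂ] E := CFC.sqrt (adjoint Y ∘L Y) with hR
  have hRR : R * R = adjoint Y ∘L Y := CFC.sqrt_mul_sqrt_self _ hp
  have hRp : R.IsPositive := (nonneg_iff_isPositive _).1 (CFC.sqrt_nonneg _)
  have hRa : adjoint R = R := hRp.isSelfAdjoint
  have hn : ∀ x, ‖Y x‖ = ‖R x‖ := by
    intro x
    have h1 : ⟪R x, R x⟫_ℂ = ⟪Y x, Y x⟫_ℂ := by
      rw [← adjoint_inner_right, hRa, ← adjoint_inner_right Y]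
      exact congrArg (fun T : E →L[ℂ] E => ⟪x, T x⟫_ℂ) hRR
    rw [inner_self_eq_norm_sq_to_K, inner_self_eq_norm_sq_to_K] at h1
    have h2 : ‖R x‖ ^ 2 = ‖Y x‖ ^ 2 := by exact_mod_cast h1
    exact ((sq_eq_sq₀ (norm_nonneg _) (norm_nonneg _)).1 h2).symm
  have hRi : Function.Injective R := by
    rw [injective_iff_map_eq_zero]
    intro x hx
    apply hi
    rw [map_zero, ← norm_eq_zero, hn, hx, norm_zero]
  have hRd : DenseRange R := by
    apply denseRange_of_adj_inj
    rwa [hRa]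
  exact ⟨(LinearEquiv.refl ℂ E).extendOfIsometry (R : E →ₗ[ℂ] E) (Y : E →ₗ[ℂ] F) hRd hd hn⟩

end Dense

theorem transfer {H K : Type} [NormedAddCommGroup H] [InnerProductSpace ℂ H] [CompleteSpace H]
    [NormedAddCommGroup K] [InnerProductSpace ℂ K] [CompleteSpace K]
    (A : H →L[ℂ] H) (B : K →L[ℂ] K) (X : H →L[ℂ] K) (Y : K →L[ℂ] H)
    (hX : Function.Injective X) (hX' : DenseRange X) (hY : Function.Injective Y)
    (hY' : DenseRange Y) (h1 : ∀ h, X (A h) = B (X h)) (h2 : ∀ y, A (Y y) = Y (B y))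
    (hA : HasInvSub A) : ∃ A' : K →L[ℂ] K, QuasiSimilar A' B ∧ HasInvSub A' := by
  obtain ⟨U⟩ := exists_unitary Y hY hY'
  set U1 : K →L[ℂ] H := U.toContinuousLinearEquiv.toContinuousLinearMap with hU1
  set U2 : H →L[ℂ] K := U.symm.toContinuousLinearEquiv.toContinuousLinearMap with hU2
  have e1 : ∀ x, U1 x = U x := fun _ => rfl
  have e2 : ∀ x, U2 x = U.symm x := fun _ => rfl
  refine ⟨U2 ∘L A ∘L U1, ⟨X ∘L U1, U2 ∘L Y, ?_, ?_, ?_, ?_, ?_, ?_⟩, ?_⟩
  · exact hX.comp U.injective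
  · exact hX'.comp U.surjective.denseRange X.continuous
  · exact U.symm.injective.comp hY
  · exact U.symm.surjective.denseRange.comp hY' U.symm.continuous
  · ext x
    simp [e1, e2, h1]
  · ext x
    simp [e1, e2, h2]
  · obtain ⟨M, hMc, hM0, hM1, hMA⟩ := hA
    refine ⟨M.comap (U1 : K →ₗ[ℂ] H), hMc.preimage U1.continuous, ?_, ?_, ?_⟩
    · intro h
      apply hM0
      rw [eq_bot_iff]
      intro x hx
      have : U.symm x ∈ M.comap (U1 : K →ₗ[ℂ] H) := by
        simp [e1, hx]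
      rw [h, Submodule.mem_bot] at this
      simpa using this
    · intro h
      apply hM1
      rw [eq_top_iff]
      intro x _
      have : U.symm x ∈ M.comap (U1 : K →ₗ[ℂ] H) := by rw [h]; trivial
      simpa [e1] using this
    · intro x hx
      simp only [Submodule.mem_comap, coe_coe, comp_apply, e1, e2,
        LinearIsometryEquiv.apply_symm_apply] at hx ⊢
      exact hMA _ hx

section Approx

variable {K : Type} [NormedAddCommGroup K] [InnerProductSpace ℂ K] [CompleteSpace K]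

theorem approx {B C : K →L[ℂ] K} (hB : ‖B‖ ≤ 1 / 2) (hC : DenseRange C) (m k : K)
    (hm : ∀ (a : L2) (v : K), ser (adjoint B) a m = adjoint C v → a = 0) {ε : ℝ} (hε : 0 < ε) :
    ∃ y, ‖C y - k‖ < ε ∧ ‖D hB m y‖ < ε := by
  set e := WithLp.prodContinuousLinearEquiv 2 ℂ K L2 with he
  set T : K →L[ℂ] WithLp 2 (K × L2) := e.symm.toContinuousLinearMap ∘L C.prod (D hB m) with hT
  have hd : DenseRange T := by
    apply denseRange_of_adj_inj
    rw [injective_iff_map_eq_zero]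
    intro w hw
    have h0 : ∀ y, ⟪w.fst, C y⟫_ℂ + ⟪w.snd, D hB m y⟫_ℂ = 0 := by
      intro y
      have : ⟪w, T y⟫_ℂ = 0 := by rw [← adjoint_inner_left, hw, inner_zero_left]
      rw [WithLp.prod_inner_apply] at this
      exact this
    have h1 : ser (adjoint B) w.snd m = adjoint C (-w.fst) := by
      refine ext_inner_right ℂ fun y => ?_
      rw [← inner_D hB, adjoint_inner_left, inner_neg_left]
      linear_combination h0 y
    have h2 := hm _ _ h1
    have h3 : w.fst = 0 := by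
      refine hC.eq_zero_of_inner_left (𝕜 := ℂ) fun y => ?_
      have := h0 y
      rwa [h2, inner_zero_left, add_zero] at this
    have : e w = 0 := Prod.ext h3 h2
    simpa using this
  have hd2 : DenseRange (C.prod (D hB m)) := by
    have := e.surjective.denseRange.comp hd e.continuous
    exact this
  obtain ⟨y, hy⟩ := hd2.exists_dist_lt (k, 0) hε
  refine ⟨y, ?_, ?_⟩
  · rw [dist_comm, dist_eq_norm] at hy
    exact lt_of_le_of_lt (norm_fst_le (C.prod (D hB m) y - (k, 0))) hy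
  · rw [dist_comm, dist_eq_norm] at hy
    have := lt_of_le_of_lt (norm_snd_le (C.prod (D hB m) y - (k, 0))) hy
    simpa using this

end Approx

end Pool.Agent.Lib.MP_dee751_an
end

-- part Pool.Agent.Lib.MP_dee751_an.Core
section

set_option autoImplicit false
set_option linter.unusedSectionVars false

open scoped InnerProductSpace
open ContinuousLinearMap

namespace Pool.Agent.Lib.MP_dee751_an

/-- the bookkeeping recursion of the gliding hump. -/
noncomputable def st {K : Type} [NormedAddCommGroup K] (yf uf : ℝ → K) : ℕ → ℝ × ℝ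
  | 0 => (0, 0)
  | N + 1 =>
    ((st yf uf N).1 + ‖uf ((1 / 4) ^ (N + 1) /
        (1 + ((st yf uf N).2 + ‖yf ((1 / 4) ^ N / (1 + (st yf uf N).1))‖)))‖,
      (st yf uf N).2 + ‖yf ((1 / 4) ^ N / (1 + (st yf uf N).1))‖)

theorem exists_seqs {K : Type} [NormedAddCommGroup K] (P Q : K → ℝ → Prop)
    (hP : ∀ ε > 0, ∃ y, P y ε) (hQ : ∀ ε > 0, ∃ u, Q u ε) :
    ∃ (y u : ℕ → K) (η θ : ℕ → ℝ), u 0 = 0 ∧ (∀ N, P (y N) (η N)) ∧
      (∀ i, Q (u (i + 1)) (θ i)) ∧
      (∀ N, η N ≤ (1 / 4) ^ N ∧ ∀ i ≤ N, η N * ‖u i‖ ≤ (1 / 4) ^ N) ∧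
      (∀ i, θ i ≤ (1 / 4) ^ (i + 1) ∧ ∀ N ≤ i, θ i * ‖y N‖ ≤ (1 / 4) ^ (i + 1)) := by
  classical
  choose! yf hyf using hP
  choose! uf huf using hQ
  set s := st yf uf with hs
  set η : ℕ → ℝ := fun N => (1 / 4) ^ N / (1 + (s N).1) with hη
  set θ : ℕ → ℝ := fun N => (1 / 4) ^ (N + 1) / (1 + (s (N + 1)).2) with hθ
  set y : ℕ → K := fun N => yf (η N) with hy
  set u : ℕ → K := fun i => Nat.casesOn i 0 fun j => uf (θ j) with hu
  have r1 : ∀ N, (s (N + 1)).1 = (s N).1 + ‖u (N + 1)‖ := fun N => rfl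
  have r2 : ∀ N, (s (N + 1)).2 = (s N).2 + ‖y N‖ := fun N => rfl
  have r0 : s 0 = (0, 0) := rfl
  have p1 : ∀ N, 0 ≤ (s N).1 ∧ ∀ i ≤ N, ‖u i‖ ≤ (s N).1 := by
    intro N
    induction N with
    | zero =>
      refine ⟨by rw [r0], fun i hi => ?_⟩
      obtain rfl : i = 0 := by omega
      rw [r0]; simp [hu]
    | succ N ih =>
      refine ⟨by rw [r1]; linarith [ih.1, norm_nonneg (u (N + 1))], fun i hi => ?_⟩
      rw [r1]
      rcases Nat.lt_or_ge i (N + 1) with h | h
      · linarith [ih.2 i (by omega), norm_nonneg (u (N + 1))]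
      · obtain rfl : i = N + 1 := by omega
        linarith [ih.1]
  have p2 : ∀ N, 0 ≤ (s N).2 ∧ ∀ i < N, ‖y i‖ ≤ (s N).2 := by
    intro N
    induction N with
    | zero => exact ⟨by rw [r0], fun i hi => by omega⟩
    | succ N ih =>
      refine ⟨by rw [r2]; linarith [ih.1, norm_nonneg (y N)], fun i hi => ?_⟩
      rw [r2]
      rcases Nat.lt_or_ge i N with h | h
      · linarith [ih.2 i h, norm_nonneg (y N)]
      · obtain rfl : i = N := by omega
        linarith [ih.1]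
  have key : ∀ t a b : ℝ, 0 < t → 0 ≤ a → b ≤ a → t / (1 + a) * b ≤ t := by
    intro t a b ht ha hb
    rw [div_mul_eq_mul_div, div_le_iff₀ (by linarith)]
    nlinarith
  have key2 : ∀ t a : ℝ, 0 < t → 0 ≤ a → t / (1 + a) ≤ t := by
    intro t a ht ha
    exact div_le_self ht.le (by linarith)
  refine ⟨y, u, η, θ, rfl, fun N => hyf _ ?_, fun i => huf _ ?_, fun N => ⟨?_, fun i hi => ?_⟩,
    fun i => ⟨?_, fun N hN => ?_⟩⟩
  · have := (p1 N).1
    simp only [hη]; positivity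
  · have := (p2 (i + 1)).1
    simp only [hθ]; positivity
  · exact key2 _ _ (by positivity) (p1 N).1
  · exact key _ _ _ (by positivity) (p1 N).1 ((p1 N).2 i hi)
  · exact key2 _ _ (by positivity) (p2 (i + 1)).1
  · exact key _ _ _ (by positivity) (p2 (i + 1)).1 ((p2 (i + 1)).2 N (by omega))

theorem quarter_le {N i j : ℕ} (h1 : N ≤ j) (h2 : i ≤ j) :
    ((1 : ℝ) / 4) ^ j ≤ (1 / 2) ^ N * (1 / 2) ^ i := by
  have : ((1 : ℝ) / 4) ^ j = (1 / 2) ^ j * (1 / 2) ^ j := by rw [← mul_pow]; norm_num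
  rw [this]
  exact mul_le_mul (pow_le_pow_of_le_one (by norm_num) (by norm_num) h1)
    (pow_le_pow_of_le_one (by norm_num) (by norm_num) h2) (by positivity) (by positivity)

/-- the big sequence space. -/
abbrev LL : Type := lp (fun _ : ℕ => L2) 2

theorem LL_const {b : LL} (h : ∀ i, (b : ℕ → L2) i = (b : ℕ → L2) 0) : b = 0 := by
  have h1 := ((lp.memℓp b).summable (by norm_num)).tendsto_atTop_zero
  simp only [h] at h1
  have h2 := tendsto_nhds_unique h1 tendsto_const_nhds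
  have h3 : ‖(b : ℕ → L2) 0‖ = 0 := by
    by_contra h4
    have : 0 < ‖(b : ℕ → L2) 0‖ ^ (2 : ENNReal).toReal :=
      Real.rpow_pos_of_pos (lt_of_le_of_ne (norm_nonneg _) (Ne.symm h4)) _
    linarith
  ext1
  funext i
  rw [h i, norm_eq_zero.1 h3]
  rfl

variable {K : Type} [NormedAddCommGroup K] [InnerProductSpace ℂ K] [CompleteSpace K]

/-- the data produced by the gliding hump. -/
theorem hump {B C : K →L[ℂ] K} (hB : ‖B‖ ≤ 1 / 2) (hBC : C * B = B * C)
    (hCi : Function.Injective C) (hCd : DenseRange C) (m k : K)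
    (hm : ∀ (a : L2) (v : K), ser (adjoint B) a m = adjoint C v → a = 0)
    (hk : ∀ (a : L2) (v : K), ser B a k = C v → a = 0) :
    ∃ (u : ℕ → K) (W : K →L[ℂ] LL) (ξ : LL), u 0 = 0 ∧
      (∀ y i, (W y : ℕ → L2) i = D hB (m - adjoint C (u i)) y) ∧ (ξ : ℕ → L2) 0 = 0 ∧
      (k, ξ) ∈ closure (Set.range (C.prod W)) := by
  have hP : ∀ ε > 0, ∃ y, ‖C y - k‖ < ε ∧ ‖D hB m y‖ < ε := fun ε hε => approx hB hCd m k hm hε
  have hQ : ∀ ε > 0, ∃ u, ‖adjoint C u - m‖ < ε ∧ ‖D hB u k‖ < ε := by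
    intro ε hε
    obtain ⟨u, h1, h2⟩ := approx (norm_adj_half hB) (adj_denseRange_of_inj hCi) k m
      (by simpa only [adjoint_adjoint] using hk) hε
    exact ⟨u, h1, lt_of_le_of_lt (norm_D_swap hB u k) h2⟩
  obtain ⟨y, u, η, θ, hu0, hy, hu, hη, hθ⟩ := exists_seqs _ _ hP hQ
  have q1 : ∀ i, ‖m - adjoint C (u (i + 1))‖ ≤ θ i := fun i => by
    rw [norm_sub_rev]; exact (hu i).1.le
  have hq : ∀ i : ℕ, ((1 : ℝ) / 4) ^ (i + 1) ≤ (1 / 2) ^ i := fun i => by
    simpa using quarter_le (N := 0) (i := i) (j := i + 1) (by omega) (by omega)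
  have s1 : Summable fun i => ‖D hB (m - adjoint C (u i))‖ := by
    rw [← summable_nat_add_iff 1]
    refine Summable.of_nonneg_of_le (fun _ => norm_nonneg _) (fun i => ?_)
      (summable_geometric_two.mul_left 2)
    refine (norm_D_le hB _).trans ?_
    linarith [q1 i, (hθ i).1, hq i]
  have s2 : Summable fun i => ‖-D hB (u i) k‖ := by
    rw [← summable_nat_add_iff 1]
    refine Summable.of_nonneg_of_le (fun _ => norm_nonneg _) (fun i => ?_)
      summable_geometric_two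
    rw [norm_neg]
    linarith [(hu i).2, (hθ i).1, hq i]
  refine ⟨u, stack _ s1, ⟨fun i => -D hB (u i) k, memTwo s2⟩, hu0, fun _ _ => rfl, ?_, ?_⟩
  · change -D hB (u 0) k = 0
    rw [hu0, D_zero, neg_zero]
  · set ξ : LL := ⟨fun i => -D hB (u i) k, memTwo s2⟩ with hξ
    have est : ∀ N i, ‖((stack _ s1 (y N) - ξ : LL) : ℕ → L2) i‖ ≤
        3 * ((1 / 2) ^ N * (1 / 2) ^ i) := by
      intro N i
      have e0 : ((stack _ s1 (y N) - ξ : LL) : ℕ → L2) i =
          D hB (m - adjoint C (u i)) (y N) + D hB (u i) k := by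
        rw [lp.coeFn_sub, Pi.sub_apply, stack_apply]
        change _ - -D hB (u i) k = _
        rw [sub_neg_eq_add]
      rw [e0]
      rcases Nat.lt_or_ge N i with h | h
      · obtain ⟨j, rfl⟩ : ∃ j, i = j + 1 := ⟨i - 1, by omega⟩
        have a1 := norm_D_apply_le hB (m - adjoint C (u (j + 1))) (y N)
        have a2 := mul_le_mul_of_nonneg_right (q1 j) (norm_nonneg (y N))
        have a3 := (hθ j).2 N (by omega)
        have a4 := quarter_le (N := N) (i := j + 1) (j := j + 1) (by omega) le_rfl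
        refine (norm_add_le _ _).trans ?_
        linarith [(hu j).2, (hθ j).1]
      · have e1 : D hB (m - adjoint C (u i)) (y N) + D hB (u i) k =
            D hB m (y N) - D hB (u i) (C (y N) - k) := by
          rw [D_sub, D_adj hB hBC, map_sub]; abel
        rw [e1]
        have a1 := norm_D_apply_le hB (u i) (C (y N) - k)
        have a2 := mul_le_mul_of_nonneg_left (hy N).1.le (norm_nonneg (u i))
        have a3 := (hη N).2 i h
        have a4 := quarter_le (N := N) (i := i) (j := N) le_rfl h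
        refine (norm_sub_le _ _).trans ?_
        linarith [(hy N).2, (hη N).1]
    have est2 : ∀ N, ‖stack _ s1 (y N) - ξ‖ ≤ 6 * (1 / 2) ^ N := by
      intro N
      have sg : Summable fun i : ℕ => 3 * (((1 : ℝ) / 2) ^ N * (1 / 2) ^ i) :=
        (summable_geometric_two.mul_left _).mul_left _
      have s3 := Summable.of_nonneg_of_le (fun _ => norm_nonneg _) (est N) sg
      refine (norm_le_tsum _ s3).trans ((s3.tsum_le_tsum (est N) sg).trans ?_)
      rw [tsum_mul_left, tsum_mul_left, tsum_geometric_two]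
      linarith
    refine mem_closure_of_tendsto (f := fun N => C.prod (stack _ s1) (y N))
      (b := Filter.atTop) ?_ (Filter.Eventually.of_forall fun N => ⟨_, rfl⟩)
    have t0 : Filter.Tendsto (fun N : ℕ => 6 * ((1 : ℝ) / 2) ^ N) Filter.atTop (nhds 0) := by
      simpa using (tendsto_pow_atTop_nhds_zero_of_lt_one (r := (1 : ℝ) / 2) (by norm_num)
        (by norm_num)).const_mul 6
    refine Filter.Tendsto.prodMk_nhds ?_ ?_
    · rw [tendsto_iff_norm_sub_tendsto_zero]
      refine squeeze_zero (fun _ => norm_nonneg _) (fun N => ?_) t0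
      have a4 := quarter_le (N := N) (i := 0) (j := N) le_rfl (by omega)
      have : (0 : ℝ) < (1 / 2) ^ N := by positivity
      change ‖C (y N) - k‖ ≤ _
      linarith [(hy N).1, (hη N).1]
    · rw [tendsto_iff_norm_sub_tendsto_zero]
      exact squeeze_zero (fun _ => norm_nonneg _) est2 t0

theorem ser_single (B : K →L[ℂ] K) : ser B (lp.single 2 0 (1 : ℂ) : L2) = 1 := by
  unfold ser
  rw [tsum_eq_single 0]
  · simp
  · intro n hn
    rw [lp.single_apply_ne _ _ _ hn, zero_smul]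

theorem ne_zero_of_indep {B C : K →L[ℂ] K} {k : K}
    (hk : ∀ (a : L2) (v : K), ser B a k = C v → a = 0) : k ≠ 0 := by
  rintro rfl
  have := hk (lp.single 2 0 (1 : ℂ)) 0 (by simp)
  have h2 := congrArg (fun a : L2 => (a : ℕ → ℂ) 0) this
  simp at h2

/-- The main construction. -/
theorem core {B C : K →L[ℂ] K} (hB : ‖B‖ ≤ 1 / 2) (hBC : C * B = B * C)
    (hCi : Function.Injective C) (hCd : DenseRange C) (m k : K)
    (hm : ∀ (a : L2) (v : K), ser (adjoint B) a m = adjoint C v → a = 0)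
    (hk : ∀ (a : L2) (v : K), ser B a k = C v → a = 0) :
    ∃ A : K →L[ℂ] K, QuasiSimilar A B ∧ HasInvSub A := by
  obtain ⟨u, W, ξ, hu0, hW, hξ0, hξ⟩ := hump hB hBC hCi hCd m k hm hk
  set e := WithLp.prodContinuousLinearEquiv 2 ℂ K LL with he
  set S : LL →L[ℂ] LL := lp.mapCLM 2 (fun _ => bshift) zero_le_one (fun _ => norm_bshift_le)
    with hS
  have hSa : ∀ (b : LL) i, (S b : ℕ → L2) i = bshift ((b : ℕ → L2) i) := fun _ _ => rfl
  set A0 : WithLp 2 (K × LL) →L[ℂ] WithLp 2 (K × LL) :=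
    e.symm.toContinuousLinearMap ∘L B.prodMap S ∘L e.toContinuousLinearMap with hA0
  set Y0 : K →L[ℂ] WithLp 2 (K × LL) := e.symm.toContinuousLinearMap ∘L C.prod W with hY0
  have hCB : ∀ y, C (B y) = B (C y) := fun y => congrArg (fun T : K →L[ℂ] K => T y) hBC
  have hAY : ∀ y, A0 (Y0 y) = Y0 (B y) := by
    intro y
    have : (B.prodMap S) (C.prod W y) = C.prod W (B y) := by
      refine Prod.ext (hCB y).symm ?_
      change S (W y) = W (B y)
      ext1
      funext i
      rw [hSa, hW, hW, D_B]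
    exact congrArg e.symm this
  set H := Y0.range.topologicalClosure with hH
  have hHc : IsClosed (H : Set (WithLp 2 (K × LL))) := Submodule.isClosed_topologicalClosure _
  have : CompleteSpace H := hHc.completeSpace_coe
  have hind : ∀ p : WithLp 2 (K × LL) → Prop, IsClosed {h | p h} → (∀ y, p (Y0 y)) →
      ∀ h ∈ H, p h := by
    intro p hp hy h hh
    refine closure_minimal (s := (Y0.range : Set (WithLp 2 (K × LL)))) ?_ hp hh
    rintro _ ⟨y, rfl⟩
    exact hy y
  have hYH : ∀ y, Y0 y ∈ H := fun y => Submodule.le_topologicalClosure _ ⟨y, rfl⟩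
  have hAH : ∀ h ∈ H, A0 h ∈ H :=
    hind (fun h => A0 h ∈ H) (hHc.preimage A0.continuous) fun y => by rw [hAY]; exact hYH _
  set A : H →L[ℂ] H := (A0 ∘L H.subtypeL).codRestrict H (fun h => hAH h h.2) with hA
  set X : H →L[ℂ] K := fst ℂ K LL ∘L e.toContinuousLinearMap ∘L H.subtypeL with hX
  set Y : K →L[ℂ] H := Y0.codRestrict H hYH with hY
  have hXY : ∀ y, X (Y y) = C y := fun _ => rfl
  set ev : ℕ → WithLp 2 (K × LL) →L[ℂ] L2 := fun i =>
    lp.evalCLM ℂ (fun _ : ℕ => L2) 2 i ∘L snd ℂ K LL ∘L e.toContinuousLinearMap with hev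
  have hevY : ∀ i y, ev i (Y0 y) = D hB (m - adjoint C (u i)) y := fun i y => hW y i
  have hrel : ∀ i, ∀ h ∈ H, ev i h = ev 0 h - D hB (u i) (e h).1 := by
    intro i
    refine hind _ (isClosed_eq (by fun_prop) (by fun_prop)) fun y => ?_
    rw [hevY, hevY, hu0, map_zero, sub_zero, D_sub, D_adj hB hBC]
    rfl
  refine transfer A B X Y ?_ ?_ ?_ ?_ (fun h => rfl) (fun y => Subtype.ext (hAY y)) ?_
  · rw [injective_iff_map_eq_zero]
    intro h hh
    have h1 : (e h).1 = 0 := hh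
    have h2 : (e h).2 = 0 := by
      apply LL_const
      intro i
      have := hrel i h h.2
      rw [h1, map_zero, sub_zero] at this
      exact this
    have h3 : e h = 0 := Prod.ext h1 h2
    exact Subtype.ext (by simpa using h3)
  · exact DenseRange.of_comp (g := Y) hCd
  · exact Function.Injective.of_comp (f := X) hCi
  · rw [DenseRange, Subtype.dense_iff]
    refine closure_mono ?_
    rintro _ ⟨y, rfl⟩
    exact ⟨Y y, ⟨y, rfl⟩, rfl⟩
  · refine ⟨(ev 0 ∘L H.subtypeL).ker, (ev 0 ∘L H.subtypeL).isClosed_ker, ?_, ?_, ?_⟩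
    · have hx : e.symm (k, ξ) ∈ H := by
        have := image_closure_subset_closure_image e.symm.continuous ⟨_, hξ, rfl⟩
        refine closure_mono ?_ this
        rintro _ ⟨_, ⟨y, rfl⟩, rfl⟩
        exact ⟨y, rfl⟩
      intro hbot
      have h1 : (⟨_, hx⟩ : H) ∈ (ev 0 ∘L H.subtypeL).ker := hξ0
      rw [hbot, Submodule.mem_bot] at h1
      have h2 : X ⟨_, hx⟩ = k := rfl
      rw [h1, map_zero] at h2
      exact ne_zero_of_indep hk h2.symm
    · intro htop
      have h1 : Y m ∈ (ev 0 ∘L H.subtypeL).ker := by rw [htop]; trivial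
      have h2 : ev 0 (Y0 m) = 0 := h1
      rw [hevY, hu0, map_zero, sub_zero] at h2
      have h3 := congrArg (fun a : L2 => (a : ℕ → ℂ) 0) h2
      simp only [D_apply, pow_zero] at h3
      exact ne_zero_of_indep hm (inner_self_eq_zero.1 h3)
    · intro h hh
      have h1 : ev 0 h = 0 := hh
      have h2 : ev 0 (A0 h) = bshift (ev 0 h) := rfl
      change ev 0 (A0 h) = 0
      rw [h2, h1, map_zero]

end Pool.Agent.Lib.MP_dee751_an
end

-- part Pool.Agent.Lib.MP_dee751_an.Trans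
section

set_option autoImplicit false
set_option linter.unusedSectionVars false

open scoped InnerProductSpace
open ContinuousLinearMap

namespace Pool.Agent.Lib.MP_dee751_an

variable {K : Type} [NormedAddCommGroup K] [InnerProductSpace ℂ K] [CompleteSpace K]

theorem app_eq {S T : K →L[ℂ] K} (h : S = T) (x : K) : S x = T x := by rw [h]

theorem qs_refl (B : K →L[ℂ] K) : QuasiSimilar B B :=
  ⟨1, 1, Function.injective_id, denseRange_id, Function.injective_id, denseRange_id,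
    by ext; simp, by ext; simp⟩

theorem affine {B : K →L[ℂ] K} {t l : ℂ} (ht : t ≠ 0)
    (h : ∃ A : K →L[ℂ] K, QuasiSimilar A (t • (B - l • 1)) ∧ HasInvSub A) :
    ∃ A : K →L[ℂ] K, QuasiSimilar A B ∧ HasInvSub A := by
  obtain ⟨A, ⟨X, Y, h1, h2, h3, h4, h5, h6⟩, M, m1, m2, m3, m4⟩ := h
  refine ⟨t⁻¹ • A + l • 1, ⟨X, Y, h1, h2, h3, h4, ?_, ?_⟩, M, m1, m2, m3, fun x hx => ?_⟩
  · ext x
    have := app_eq h5 x
    simp only [comp_apply, smul_apply, sub_apply, one_apply_eq_self, add_apply, map_add, map_smul]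
      at this ⊢
    rw [this, smul_smul, inv_mul_cancel₀ ht, one_smul, sub_add_cancel]
  · ext x
    have := app_eq h6 x
    simp only [comp_apply, smul_apply, sub_apply, one_apply_eq_self, add_apply, map_sub, map_smul]
      at this ⊢
    rw [this, smul_smul, inv_mul_cancel₀ ht, one_smul, sub_add_cancel]
  · exact M.add_mem (M.smul_mem _ (m4 x hx)) (M.smul_mem _ hx)

theorem inj_of_comm {B C : K →L[ℂ] K} (hB : ¬HasInvSub B) (hC : C * B = B * C) (h0 : C ≠ 0) :
    Function.Injective C := by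
  by_contra hi
  refine hB ⟨C.ker, C.isClosed_ker, fun h => hi (LinearMap.ker_eq_bot.1 h), fun h => h0 ?_,
    fun x hx => ?_⟩
  · ext x
    have : x ∈ C.ker := by rw [h]; trivial
    exact this
  · have h1 : C x = 0 := hx
    have h2 := app_eq hC x
    simp only [mul_apply_eq_comp, h1, map_zero] at h2
    exact h2

theorem dense_of_comm {B C : K →L[ℂ] K} (hB : ¬HasInvSub B) (hC : C * B = B * C) (h0 : C ≠ 0) :
    DenseRange C := by
  by_contra hi
  refine hB ⟨C.range.topologicalClosure, Submodule.isClosed_topologicalClosure _, fun h => h0 ?_,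
    fun h => hi (Submodule.dense_iff_topologicalClosure_eq_top.2 h), fun x hx => ?_⟩
  · ext x
    have : C x ∈ C.range.topologicalClosure := Submodule.le_topologicalClosure _ ⟨x, rfl⟩
    rw [h] at this
    exact this
  · refine closure_minimal (s := (C.range : Set K))
      (t := B ⁻¹' (C.range.topologicalClosure : Set K)) ?_
      ((Submodule.isClosed_topologicalClosure _).preimage B.continuous) hx
    rintro _ ⟨y, rfl⟩
    exact Submodule.le_topologicalClosure _ ⟨B y, app_eq hC y⟩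

theorem sub_smul_ne_zero (hK : ¬FiniteDimensional ℂ K) {B : K →L[ℂ] K} (hB : ¬HasInvSub B)
    (l : ℂ) : B - l • 1 ≠ 0 := by
  intro h
  have : Nontrivial K := by
    by_contra hn
    rw [not_nontrivial_iff_subsingleton] at hn
    exact hK inferInstance
  obtain ⟨x, hx⟩ := exists_ne (0 : K)
  refine hB ⟨Submodule.span ℂ {x}, Submodule.closed_of_finiteDimensional _, by simpa using hx,
    fun h2 => hK ?_, fun y hy => ?_⟩
  · have : FiniteDimensional ℂ (⊤ : Submodule ℂ K) := by rw [← h2]; infer_instance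
    exact Submodule.topEquiv.finiteDimensional
  · have h3 := app_eq (sub_eq_zero.1 h) y
    rw [h3]
    exact Submodule.smul_mem _ _ hy

theorem ser_shift {T : K →L[ℂ] K} (hT : ‖T‖ ≤ 1 / 2) {a : ℕ → ℂ} {c : ℝ} (ha : ∀ n, ‖a n‖ ≤ c) :
    ser T a = a 0 • 1 + T * ser T (fun n => a (n + 1)) := by
  have h1 := hasSum_ser hT ha
  have h2 := (hasSum_ser hT (a := fun n => a (n + 1)) (fun n => ha (n + 1))).mul_left T
  have h3 := h1.summable.tsum_eq_zero_add
  unfold ser at h2 ⊢
  rw [h3, pow_zero, ← h2.tsum_eq]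
  congr 1
  refine tsum_congr fun n => ?_
  rw [mul_smul_comm, pow_succ']

theorem indep_of_div {T C : K →L[ℂ] K} (hT : ‖T‖ ≤ 1 / 2) (hi : Function.Injective T)
    (hs : ¬Function.Surjective T) (hC : ∀ n, ∃ W, C = T ^ n * W) :
    ∃ k, ∀ (a : L2) (v : K), ser T a k = C v → a = 0 := by
  simp only [Function.Surjective, not_forall, not_exists] at hs
  obtain ⟨k, hk⟩ := hs
  have step : ∀ (a : ℕ → ℂ) (c : ℝ), (∀ n, ‖a n‖ ≤ c) → (∀ n, ∃ w, ser T a k = (T ^ n) w) →
      a 0 = 0 ∧ ∀ n, ∃ w, ser T (fun n => a (n + 1)) k = (T ^ n) w := by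
    intro a c ha h
    have e := app_eq (ser_shift hT ha) k
    simp only [add_apply, smul_apply, one_apply_eq_self, mul_apply_eq_comp] at e
    have h0 : a 0 = 0 := by
      by_contra h0
      obtain ⟨w, hw⟩ := h 1
      apply hk ((a 0)⁻¹ • (w - ser T (fun n => a (n + 1)) k))
      rw [pow_one] at hw
      rw [map_smul, map_sub, ← hw, e, add_sub_cancel_right, smul_smul, inv_mul_cancel₀ h0,
        one_smul]
    refine ⟨h0, fun n => ?_⟩
    obtain ⟨w, hw⟩ := h (n + 1)
    refine ⟨w, hi ?_⟩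
    rw [h0, zero_smul, zero_add] at e
    rw [← e, hw, pow_succ']
    rfl
  have all : ∀ (j : ℕ) (a : ℕ → ℂ) (c : ℝ), (∀ n, ‖a n‖ ≤ c) →
      (∀ n, ∃ w, ser T a k = (T ^ n) w) → a j = 0 := by
    intro j
    induction j with
    | zero => exact fun a c ha h => (step a c ha h).1
    | succ j ih => exact fun a c ha h => ih _ c (fun n => ha (n + 1)) (step a c ha h).2
  refine ⟨k, fun a v h => ?_⟩
  ext j
  refine all j a ‖a‖ (fun n => lp.norm_apply_le_norm (by norm_num) a n) fun n => ?_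
  obtain ⟨W, hW⟩ := hC n
  exact ⟨W v, by rw [h, hW]; rfl⟩

theorem mittag {E : Type} [NormedAddCommGroup E] [NormedSpace ℂ E] [CompleteSpace E]
    (T : E →L[ℂ] E) (S Z : Set E) (hZ : IsClosed Z) (hSZ : ∀ y ∈ S, ∀ k : ℕ, (T ^ k) y ∈ Z)
    (hS : ∀ y ∈ S, ∀ ε > 0, ∃ y' ∈ S, ‖T y' - y‖ < ε) {y0 : E} (hy0 : y0 ∈ S) (h0 : y0 ≠ 0) :
    ∃ x : ℕ → E, x 0 ≠ 0 ∧ (∀ n, x n ∈ Z) ∧ ∀ n, T (x (n + 1)) = x n := by
  choose! f hf1 hf2 using hS
  have hn : 0 < ‖y0‖ := norm_pos_iff.2 h0
  set δ : ℕ → ℝ := fun n => ‖y0‖ / 2 / 2 / 2 ^ n / (1 + ‖T‖) ^ n with hδ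
  have hδ0 : ∀ n, 0 < δ n := fun n => by simp only [hδ]; positivity
  set y : ℕ → E := fun n => Nat.rec y0 (fun n z => f z (δ n)) n with hy
  have y1 : ∀ n, y (n + 1) = f (y n) (δ n) := fun n => rfl
  have yS : ∀ n, y n ∈ S := by
    intro n
    induction n with
    | zero => exact hy0
    | succ n ih => rw [y1]; exact hf1 _ ih _ (hδ0 n)
  have yd : ∀ n, ‖T (y (n + 1)) - y n‖ < δ n := fun n => by
    rw [y1]; exact hf2 _ (yS n) _ (hδ0 n)
  have hpow : ∀ k : ℕ, ‖T ^ k‖ ≤ (1 + ‖T‖) ^ k := by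
    intro k
    rcases k with _ | k
    · rw [pow_zero, pow_zero]
      exact (norm_id_le : ‖ContinuousLinearMap.id ℂ E‖ ≤ 1)
    · exact (norm_pow_le' T (Nat.succ_pos k)).trans
        (pow_le_pow_left₀ (norm_nonneg _) (by linarith) _)
  have hd : ∀ n k, dist ((T ^ k) (y (n + k))) ((T ^ (k + 1)) (y (n + (k + 1)))) ≤
      ‖y0‖ / 2 / 2 / 2 ^ k := by
    intro n k
    have e : (T ^ (k + 1)) (y (n + (k + 1))) - (T ^ k) (y (n + k)) =
        (T ^ k) (T (y (n + k + 1)) - y (n + k)) := by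
      rw [map_sub, pow_succ]; rfl
    rw [dist_comm, dist_eq_norm, e]
    refine ((T ^ k).le_opNorm _).trans ?_
    have a1 : (1 + ‖T‖) ^ k ≤ (1 + ‖T‖) ^ (n + k) :=
      pow_le_pow_right₀ (by linarith [norm_nonneg T]) (by omega)
    have a2 : (2 : ℝ) ^ k ≤ 2 ^ (n + k) := pow_le_pow_right₀ (by norm_num) (by omega)
    calc ‖T ^ k‖ * ‖T (y (n + k + 1)) - y (n + k)‖ ≤ (1 + ‖T‖) ^ (n + k) * δ (n + k) :=
          mul_le_mul ((hpow k).trans a1) (yd _).le (norm_nonneg _) (by positivity)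
      _ = ‖y0‖ / 2 / 2 / 2 ^ (n + k) := by
          simp only [hδ]; field_simp
      _ ≤ ‖y0‖ / 2 / 2 / 2 ^ k := by gcongr
  have hc : ∀ n, ∃ x, Filter.Tendsto (fun k => (T ^ k) (y (n + k))) Filter.atTop (nhds x) :=
    fun n => cauchySeq_tendsto_of_complete (cauchySeq_of_le_geometric_two (hd n))
  choose x hx using hc
  refine ⟨x, fun h => ?_, fun n => ?_, fun n => ?_⟩
  · have := dist_le_of_le_geometric_two_of_tendsto₀ (hd 0) (hx 0)
    rw [h] at this
    simp only [pow_zero, one_apply_eq_self, add_zero, dist_zero_right] at this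
    change ‖y0‖ ≤ _ at this
    linarith
  · exact hZ.mem_of_tendsto (hx n) (Filter.Eventually.of_forall fun k => hSZ _ (yS _) k)
  · have h1 := (T.continuous.tendsto _).comp (hx (n + 1))
    have h2 := (Filter.tendsto_add_atTop_iff_nat 1).2 (hx n)
    refine tendsto_nhds_unique h1 ?_
    refine h2.congr fun k => ?_
    simp only [Function.comp]
    rw [pow_succ', show n + (k + 1) = n + 1 + k by omega]
    rfl

/-- an operator with a nonzero infinitely divisible element in its commutant. -/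
theorem of_div (hK : ¬FiniteDimensional ℂ K) {B : K →L[ℂ] K} {l : ℂ} (hl : l ∈ spectrum ℂ B)
    (x : ℕ → K →L[ℂ] K) (h0 : x 0 ≠ 0) (hx : ∀ n, x n * B = B * x n)
    (hT : ∀ n, (B - l • 1) * x (n + 1) = x n) :
    ∃ A : K →L[ℂ] K, QuasiSimilar A B ∧ HasInvSub A := by
  by_cases hB : HasInvSub B
  · exact ⟨B, qs_refl B, hB⟩
  set T0 := B - l • 1 with hT0
  have hne : T0 ≠ 0 := sub_smul_ne_zero hK hB l
  have hn : 0 < ‖T0‖ := norm_pos_iff.2 hne
  set t : ℂ := ((1 / (2 * ‖T0‖) : ℝ) : ℂ) with ht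
  have ht0 : t ≠ 0 := by
    rw [ht]; exact_mod_cast (by positivity : (1 / (2 * ‖T0‖) : ℝ) ≠ 0)
  set T := t • T0 with hTT
  have hTn : ‖T‖ ≤ 1 / 2 := by
    rw [hTT, norm_smul, ht, Complex.norm_real, Real.norm_of_nonneg (by positivity)]
    apply le_of_eq; field_simp
  have cT0 : ∀ W : K →L[ℂ] K, W * B = B * W → W * T0 = T0 * W := by
    intro W hW
    rw [hT0, mul_sub, sub_mul, hW, mul_smul_comm, smul_mul_assoc, mul_one, one_mul]
  have cT : ∀ W : K →L[ℂ] K, W * B = B * W → W * T = T * W := by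
    intro W hW
    rw [hTT, mul_smul_comm, smul_mul_assoc, cT0 W hW]
  have hTB : T * B = B * T := (cT B rfl).symm
  have hTne : T ≠ 0 := smul_ne_zero ht0 hne
  have hTi := inj_of_comm hB hTB hTne
  have hTd := dense_of_comm hB hTB hTne
  have hnu : ¬IsUnit T := by
    intro hu
    apply hl
    rw [spectrum.mem_resolventSet_iff, Algebra.algebraMap_eq_smul_one]
    have : l • (1 : K →L[ℂ] K) - B = (-t⁻¹) • T := by
      rw [hTT, smul_smul, neg_mul, inv_mul_cancel₀ ht0, neg_smul, one_smul, hT0, neg_sub]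
    rw [this]
    exact IsUnit.smul (Units.mk0 (-t⁻¹) (neg_ne_zero.2 (inv_ne_zero ht0))) hu
  have hdiv : ∀ n, x 0 = T ^ n * (t⁻¹ ^ n • x n) := by
    intro n
    induction n with
    | zero => simp
    | succ n ih =>
      rw [ih, ← hT n, pow_succ T, mul_assoc, hTT]
      congr 1
      rw [smul_mul_assoc, mul_smul_comm, smul_smul, pow_succ', ← mul_assoc, mul_inv_cancel₀ ht0,
        one_mul]
  have hCi := inj_of_comm hB (hx 0) h0
  have hCd := dense_of_comm hB (hx 0) h0
  obtain ⟨k, hk⟩ := indep_of_div (C := x 0) hTn hTi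
    (fun hs => hnu (isUnit_iff_bijective.2 ⟨hTi, hs⟩)) fun n => ⟨_, hdiv n⟩
  obtain ⟨m, hm⟩ := indep_of_div (C := adjoint (x 0)) (norm_adj_half hTn)
    (adj_inj_of_denseRange hTd) (fun hs => hnu (by
      have := isUnit_iff_bijective.2 ⟨adj_inj_of_denseRange hTd, hs⟩
      rw [← star_eq_adjoint] at this
      exact isUnit_star.1 this)) fun n => ⟨adjoint (t⁻¹ ^ n • x n), by
      have c1 : Commute (t⁻¹ ^ n • x n) (T ^ n) :=
        (Commute.pow_right (cT _ (hx n)) n).smul_left _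
      rw [← adjoint_pow', ← star_eq_adjoint, ← star_eq_adjoint, ← star_eq_adjoint, ← star_mul,
        c1.eq, ← hdiv n]⟩
  exact affine ht0 (core hTn (cT _ (hx 0)) hCi hCd m k hm hk)

end Pool.Agent.Lib.MP_dee751_an
end
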