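import Mathlib

/-! Finite models of an invertible bilateral weighted shift: selection of a level in a chain. -/

namespace Pool.Agent.Lib.MP_dee751_an.W

open Module Finset
open scoped InnerProductSpace

section Select
variable {V ι : Type*} [NormedAddCommGroup V] [InnerProductSpace ℂ V] [FiniteDimensional ℂ V]
  [Fintype ι] {e : ι → V}

/-- Trace of a projection against a finite family. -/
noncomputable def tr (e : ι → V) (M : Submodule ℂ V) : ℝ := ∑ i, ‖M.starProjection (e i)‖ ^ 2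

lemma tr_le (he : Orthonormal ℂ e) (D : Submodule ℂ V) : tr e D ≤ finrank ℂ D := by
  let b := stdOrthonormalBasis ℂ D
  have : ∀ i, ‖D.starProjection (e i)‖ ^ 2 = ∑ j, ‖⟪e i, (b j : V)⟫_ℂ‖ ^ 2 := fun i => by
    rw [Submodule.starProjection_apply, ← Submodule.coe_norm, ← b.sum_sq_norm_inner_left]
    simp
  simp only [tr, this]
  rw [sum_comm]
  refine (sum_le_card_nsmul _ _ 1 fun j _ => (he.sum_inner_products_le _).trans ?_).trans (by simp)
  rw [← Submodule.coe_norm, b.orthonormal.1 j]; simp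

lemma tr_step (he : Orthonormal ℂ e) {M M' : Submodule ℂ V} (h : M ≤ M') {r : ℕ}
    (hr : finrank ℂ M' ≤ finrank ℂ M + r) : tr e M' ≤ tr e M + r := by
  have h1 := Submodule.finrank_add_inf_finrank_orthogonal h
  have h2 : (finrank ℂ (Mᗮ ⊓ M' : Submodule ℂ V) : ℝ) ≤ r := by exact_mod_cast (by omega)
  refine le_trans (le_of_eq ?_) (add_le_add_right ((tr_le he _).trans h2) _)
  rw [tr, tr, tr, ← sum_add_distrib]
  refine sum_congr rfl fun i _ => ?_
  have a : M.starProjection (M'.starProjection (e i)) = M.starProjection (e i) :=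
    congrArg (fun A : V →L[ℂ] V => A (e i)) (Submodule.starProjection_comp_starProjection_of_le h)
  rw [M.norm_sq_eq_add_norm_sq_starProjection, a, Submodule.starProjection_orthogonal_val, a]
  congr 3
  refine (Submodule.eq_starProjection_of_mem_of_inner_eq_zero (K := Mᗮ ⊓ M')
    (Submodule.mem_inf.2 ⟨?_, ?_⟩) fun w hw => ?_).symm
  · rw [← a]; exact M.sub_starProjection_mem_orthogonal _
  · exact M'.sub_mem (M'.starProjection_apply_mem _) (h (M.starProjection_apply_mem _))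
  · rw [← sub_add, inner_add_left, M'.starProjection_inner_eq_zero _ _ hw.2,
      hw.1 _ (M.starProjection_apply_mem _), add_zero]

lemma exists_big {M : Submodule ℂ V} (h : 1 ≤ tr e M) :
    ∃ i, 1 / (Fintype.card ι : ℝ) ≤ ‖⟪e i, M.starProjection (e i)⟫_ℂ‖ := by
  by_contra! hn
  rcases isEmpty_or_nonempty ι with hι | hι
  · simp [tr] at h; linarith
  have : tr e M < ∑ _i : ι, 1 / (Fintype.card ι : ℝ) := sum_lt_sum_of_nonempty univ_nonempty
    fun i _ => lt_of_le_of_lt (by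
      have := M.re_inner_starProjection_eq_normSq (e i)
      rw [norm_inner_symm]
      exact le_trans (le_of_eq this.symm) (RCLike.re_le_norm _)) (hn i)
  simp at this
  linarith

lemma select (he : Orthonormal ℂ e) {r : ℕ} (hc : 2 * r + 2 ≤ Fintype.card ι)
    (M : ℕ → Submodule ℂ V) (h0 : M 0 = ⊥) (hm : ∀ m, M m ≤ M (m + 1))
    (hs : ∀ m, finrank ℂ (M (m + 1)) ≤ finrank ℂ (M m) + r) {N : ℕ} (hN : ∀ i, e i ∈ M N)
    {E : Type*} [AddCommGroup E] [Module ℂ E] [FiniteDimensional ℂ E] (hE : finrank ℂ E ≤ r)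
    (L : V →ₗ[ℂ] E) :
    ∃ m f w, f ∈ M m ∧ L f = 0 ∧ w ∈ (M m)ᗮ ∧ ‖f‖ ≤ 1 ∧ ‖w‖ ≤ 1 ∧
      (∃ i, 1 / (Fintype.card ι : ℝ) ≤ ‖⟪e i, f⟫_ℂ‖) ∧
      ∃ i, 1 / (Fintype.card ι : ℝ) ≤ ‖⟪e i, w⟫_ℂ‖ := by
  classical
  have hc' : (2 * r + 2 : ℝ) ≤ Fintype.card ι := by exact_mod_cast hc
  have r0 : (0 : ℝ) ≤ r := Nat.cast_nonneg r
  have sum : ∀ P : Submodule ℂ V, tr e P + tr e Pᗮ = Fintype.card ι := fun P => by
    rw [tr, tr, ← sum_add_distrib]
    simp only [← Submodule.norm_sq_eq_add_norm_sq_starProjection, he.1]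
    simp
  have ex : ∃ m, (r + 1 : ℝ) ≤ tr e (M m) := ⟨N, by
    have : tr e (M N) = Fintype.card ι := by
      simp [tr, Submodule.starProjection_eq_self_iff.2 (hN _), he.1]
    linarith⟩
  have h1 := Nat.find_spec ex
  obtain ⟨m, hm'⟩ : ∃ m, Nat.find ex = m + 1 := Nat.exists_eq_succ_of_ne_zero fun h => by
    rw [h, h0] at h1; simp [tr] at h1; linarith
  have h2 := not_le.1 (Nat.find_min ex (m := m) (by omega))
  rw [hm'] at h1
  have h3 := tr_step he (hm m) (hs m)
  have h4 : finrank ℂ (M (m + 1)) ≤ finrank ℂ (M (m + 1) ⊓ L.ker : Submodule ℂ V) + r := by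
    have a := (L.domRestrict (M (m + 1))).finrank_range_add_finrank_ker
    have b := (L.domRestrict (M (m + 1))).range.finrank_le
    rw [LinearMap.ker_domRestrict, ← Submodule.finrank_map_subtype_eq,
      Submodule.map_comap_subtype] at a
    omega
  obtain ⟨i, hi⟩ := exists_big (e := e) (M := M (m + 1) ⊓ L.ker)
    (by linarith [tr_step he inf_le_left h4])
  obtain ⟨j, hj⟩ := exists_big (e := e) (M := (M (m + 1))ᗮ) (by linarith [sum (M (m + 1))])
  have hf := (M (m + 1) ⊓ L.ker).starProjection_apply_mem (e i)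
  exact ⟨m + 1, _, _, hf.1, hf.2, Submodule.starProjection_apply_mem _ _,
    (Submodule.norm_starProjection_apply_le _ _).trans (he.1 i).le,
    (Submodule.norm_starProjection_apply_le _ _).trans (he.1 j).le, ⟨i, hi⟩, j, hj⟩

end Select

variable {E : Type*} [NormedAddCommGroup E] [InnerProductSpace ℂ E] [FiniteDimensional ℂ E]

/-- The point of the circle with angle `2 pi n / N`. -/
noncomputable def ze (N : ℕ) (n : ℤ) : ℂ := Complex.exp (Complex.I * (2 * Real.pi * n / N : ℝ))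

lemma ze_add (N : ℕ) (a b : ℤ) : ze N (a + b) = ze N a * ze N b := by
  rw [ze, ze, ze, ← Complex.exp_add]; congr 1; push_cast; ring

lemma ze_zero (N : ℕ) : ze N 0 = 1 := by simp [ze]

lemma ze_norm (N : ℕ) (a : ℤ) : ‖ze N a‖ = 1 := Complex.norm_exp_I_mul_ofReal _

lemma ze_pow {N : ℕ} (hN : 0 < N) (a : ℤ) : ze N a ^ N = 1 := by
  rw [ze, ← Complex.exp_nat_mul, ← Complex.exp_int_mul_two_pi_mul_I a]
  congr 1
  have : (N : ℂ) ≠ 0 := by exact_mod_cast hN.ne'
  push_cast; field_simp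

lemma ze_per {N : ℕ} (hN : 0 < N) (a : ℤ) : ze N (a + N) = ze N a := by
  have : ze N N = 1 := by
    rw [ze, ← Complex.exp_two_pi_mul_I]
    congr 1
    have : (N : ℂ) ≠ 0 := by exact_mod_cast hN.ne'
    push_cast; field_simp
  rw [ze_add, this, mul_one]

lemma ze_le (N : ℕ) (a : ℤ) : ‖ze N a - 1‖ ≤ 7 * |(a : ℝ)| / N := by
  refine Real.norm_exp_I_mul_ofReal_sub_one_le.trans ?_
  rw [Real.norm_eq_abs, abs_div, abs_mul, Nat.abs_cast, abs_of_pos Real.two_pi_pos]
  gcongr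
  linarith [Real.pi_lt_d2]

lemma ze_ge {N : ℕ} (hN : 0 < N) {a : ℤ} (ha : 2 * |a| ≤ N) : 4 * |(a : ℝ)| / N ≤ ‖ze N a - 1‖ := by
  have hN' : (0 : ℝ) < N := by exact_mod_cast hN
  have ha' : 2 * |(a : ℝ)| ≤ N := by exact_mod_cast ha
  rw [ze, Complex.norm_exp_I_mul_ofReal_sub_one, norm_mul, Real.norm_eq_abs, Real.norm_eq_abs]
  have h1 : |2 * Real.pi * a / N / 2| = Real.pi * (|(a : ℝ)| / N) := by
    rw [show 2 * Real.pi * a / N / 2 = Real.pi * (a / N) by ring, abs_mul, abs_div,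
      abs_of_pos Real.pi_pos, Nat.abs_cast]
  have h2 := Real.mul_abs_le_abs_sin (x := 2 * Real.pi * a / N / 2) (by
    rw [h1]
    have : |(a : ℝ)| / N ≤ 1 / 2 := by rw [div_le_iff₀ hN']; linarith
    nlinarith [Real.pi_pos])
  rw [h1, ← mul_assoc, div_mul_cancel₀ _ Real.pi_ne_zero] at h2
  rw [abs_two, mul_div_assoc]; linarith

omit [FiniteDimensional ℂ E] in
lemma abel_div (z : ℂ) (c : ℕ → E) (m : ℕ) : ∑ j ∈ range m, z ^ j • c j =
    (z - 1) • ∑ j ∈ range m, z ^ j • (-∑ i ∈ range (j + 1), c i) + z ^ m • ∑ j ∈ range m, c j := by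
  induction m with
  | zero => simp
  | succ m ih =>
    rw [sum_range_succ, ih, sum_range_succ (fun j => z ^ j • _), sum_range_succ c]
    simp only [pow_succ, smul_add, smul_neg, smul_smul, sub_smul, sub_mul, one_mul, mul_comm z]
    module

/-- The window of the finite model. -/
noncomputable def win (R : ℕ) : Finset ℤ := Ioc (-(2 * R : ℤ)) (2 * R)

/-- The finite model: a pair of vectors at an intermediate level of the chain. -/
lemma model (b : ℤ → E ≃L[ℂ] E) {v : E} (hv : ‖v‖ = 1) {R : ℕ} (hR : 2 * finrank ℂ E + 2 ≤ R) :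
    ∃ γ ω : ℤ → E, (∀ n, γ (n + (4 * R : ℕ)) = γ n) ∧
      ∑ n ∈ win R, ‖b n ((ze (4 * R) n - 1) • γ n)‖ ^ 2 ≤ 1 ∧ ∑ n ∈ win R, ‖ω n‖ ^ 2 ≤ 1 ∧
      (∃ n ∈ Icc (1 : ℤ) (2 * finrank ℂ E + 2),
        1 / (2 * finrank ℂ E + 2 : ℝ) ≤ ‖b n ((ze (4 * R) n - 1) • γ n)‖) ∧
      (∃ n ∈ Icc (1 : ℤ) (2 * finrank ℂ E + 2), 1 / (2 * finrank ℂ E + 2 : ℝ) ≤ ‖ω n‖) ∧
      ∀ (k : ℤ) (s : E →L[ℂ] E), ∑ n ∈ win R, ⟪b n (s (γ (n - k))), ω n⟫_ℂ = 0 := by
  classical
  set r := finrank ℂ E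
  set N := 4 * R
  have hN : 0 < N := by omega
  let I := Icc (1 : ℤ) (2 * r + 2)
  have hI : ∀ n ∈ I, n ∈ win R := fun n hn => by
    simp only [I, win, mem_Icc, mem_Ioc] at hn ⊢; omega
  let V := PiLp 2 fun _ : win R => E
  let Ψ : ℕ → E →ₗ[ℂ] V := fun j =>
    { toFun := fun u => WithLp.toLp 2 fun n => b n (ze N n ^ j • u)
      map_add' := fun x y => by ext n; simp [V]
      map_smul' := fun c x => by ext n; simp [V, smul_comm c] }
  have hΨ : ∀ j u n, Ψ j u n = b n (ze N n ^ j • u) := fun _ _ _ => rfl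
  let M : ℕ → Submodule ℂ V := fun m => ⨆ j ∈ range m, (Ψ j).range
  have mem : ∀ m x, x ∈ M m ↔ ∃ c : ℕ → E, ∑ j ∈ range m, Ψ j (c j) = x := fun m x => by
    rw [Submodule.mem_iSup_finset_iff_exists_sum]
    refine ⟨fun ⟨μ, hμ⟩ => ?_, fun ⟨c, hc⟩ => ⟨fun j => ⟨_, c j, rfl⟩, hc⟩⟩
    choose c hc using fun j => (μ j).2
    exact ⟨c, by simpa only [hc] using hμ⟩
  have val : ∀ m (c : ℕ → E) (n : win R), (∑ j ∈ range m, Ψ j (c j)) n =
      b n (∑ j ∈ range m, ze N n ^ j • c j) := fun m c n => by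
    rw [map_sum, WithLp.ofLp_sum, Finset.sum_apply]; rfl
  let e : I → V := fun i => PiLp.single 2 ⟨i.1, hI _ i.2⟩ v
  have ei : ∀ (i : I) (x : V), ⟪e i, x⟫_ℂ = ⟪v, x ⟨i.1, hI _ i.2⟩⟫_ℂ := fun i x => by
    rw [PiLp.inner_apply, sum_eq_single ⟨i.1, hI _ i.2⟩]
    · simp [e]
    · intro n _ hn; simp [e, hn]
    · simp
  have he : Orthonormal ℂ e := ⟨fun i => by simp [e, V, hv], fun i j hij => by
    change ⟪e i, e j⟫_ℂ = 0
    rw [ei]
    simp only [e]
    rw [PiLp.single_eq_of_ne 2 fun h => hij (Subtype.ext (congrArg (·.1) h)), inner_zero_right]⟩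
  have hcard : Fintype.card I = 2 * r + 2 := by simp [I]; omega
  have h0w : (0 : ℤ) ∈ win R := by simp only [win, mem_Ioc]; omega
  obtain ⟨m, f, w, hf, hf0, hw, nf, nw, ⟨i, hi⟩, j, hj⟩ := select he (r := r) hcard.ge M
    (by simp [M]) (fun m => biSup_mono fun j hj => by simp at hj ⊢; omega) (fun m => by
      have : M (m + 1) = M m ⊔ (Ψ m).range := by
        simp only [M]; rw [range_add_one, Finset.iSup_insert, sup_comm]
      rw [this]
      exact (Submodule.finrank_add_le_finrank_add_finrank _ _).trans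
        (Nat.add_le_add_left (Ψ m).finrank_range_le _)) (N := N) (fun i => (mem _ _).2
      ⟨fun j => ((N : ℂ)⁻¹ * ze N (-i) ^ j) • (b i).symm v, by
        ext n
        rw [val]
        have : ∑ j ∈ range N, ze N n ^ j • (((N : ℂ)⁻¹ * ze N (-i) ^ j) • (b i).symm v) =
            ((N : ℂ)⁻¹ * ∑ j ∈ range N, ze N (n - i) ^ j) • (b i).symm v := by
          rw [mul_sum, sum_smul]
          refine sum_congr rfl fun j _ => ?_
          rw [smul_smul, sub_eq_add_neg, ze_add, mul_pow]; congr 1; ring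
        rw [this]
        by_cases h : n = ⟨i.1, hI _ i.2⟩
        · have : (N : ℂ) ≠ 0 := by exact_mod_cast hN.ne'
          subst h; simp [e, ze_zero, inv_mul_cancel₀ ‹(N : ℂ) ≠ 0›]
        · have hne : (n : ℤ) ≠ i := fun h' => h (Subtype.ext h')
          have h1 : ze N (n - i) - 1 ≠ 0 := by
            have a1 := n.2
            have a2 := i.2
            simp only [I, win, mem_Icc, mem_Ioc] at a1 a2
            by_cases hc : 2 * |(n : ℤ) - i| ≤ N
            · refine norm_pos_iff.1 (lt_of_lt_of_le ?_ (ze_ge hN hc))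
              have : ((n - i : ℤ) : ℝ) ≠ 0 := by exact_mod_cast sub_ne_zero.2 hne
              positivity
            · rw [← ze_per hN]
              have hlt : (n : ℤ) - i < 0 := by
                by_contra hh; rw [abs_of_nonneg (not_lt.1 hh)] at hc; omega
              rw [abs_of_neg hlt] at hc
              refine norm_pos_iff.1 (lt_of_lt_of_le ?_ (ze_ge hN (by
                rw [abs_of_nonneg (by omega)]; omega)))
              have : ((n - i + N : ℤ) : ℝ) ≠ 0 := by exact_mod_cast (by omega)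
              positivity
          have h2 := mul_geom_sum (ze N (n - i)) N
          rw [ze_pow hN, sub_self, mul_eq_zero, or_iff_right h1] at h2
          simp only [e]
          rw [h2, PiLp.single_eq_of_ne 2 h]; simp⟩) le_rfl
    (PiLp.projₗ 2 (fun _ : win R => E) ⟨0, h0w⟩)
  obtain ⟨c, rfl⟩ := (mem _ _).1 hf
  have c0 : ∑ j ∈ range m, c j = 0 := by
    have : b 0 (∑ j ∈ range m, ze N 0 ^ j • c j) = 0 := (val m c ⟨0, h0w⟩).symm.trans hf0
    simpa only [ze_zero, one_pow, one_smul, EmbeddingLike.map_eq_zero_iff] using this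
  let d : ℕ → E := fun j => -∑ i ∈ range (j + 1), c i
  have hd : ∀ n : win R, (∑ j ∈ range m, Ψ j (c j)) n =
      b n ((ze N n - 1) • ∑ j ∈ range m, ze N n ^ j • d j) := fun n => by
    rw [val, abel_div, c0, smul_zero, add_zero]
  have nv : ∀ (x : V) (i : I), ‖⟪e i, x⟫_ℂ‖ ≤ ‖x ⟨i.1, hI _ i.2⟩‖ := fun x i => by
    rw [ei]; simpa [hv] using norm_inner_le_norm (𝕜 := ℂ) v (x ⟨i.1, hI _ i.2⟩)
  have hc : (Fintype.card I : ℝ) = 2 * r + 2 := by exact_mod_cast hcard
  rw [hc] at hi hj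
  refine ⟨fun n => ∑ j ∈ range m, ze N n ^ j • d j,
    fun n => if h : n ∈ win R then w ⟨n, h⟩ else 0, fun n => by simp only [ze_per hN], ?_, ?_,
    ⟨i, i.2, hi.trans ((nv _ i).trans_eq (by rw [hd]))⟩,
    ⟨j, j.2, hj.trans ((nv _ j).trans_eq (by simp [hI _ j.2]))⟩, fun k s => ?_⟩
  · rw [← sum_coe_sort]
    simp only [← hd]
    rw [← PiLp.norm_sq_eq_of_L2]
    exact pow_le_one₀ (norm_nonneg _) nf
  · rw [← sum_coe_sort]
    simp only [coe_mem, dif_pos]
    rw [← PiLp.norm_sq_eq_of_L2]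
    exact pow_le_one₀ (norm_nonneg _) nw
  · have := hw _ ((mem m _).2 ⟨fun j => ze N (-k) ^ j • s (d j), rfl⟩)
    rw [PiLp.inner_apply] at this
    rw [← sum_coe_sort, ← this]
    refine sum_congr rfl fun n _ => ?_
    rw [val]
    simp only [coe_mem, dif_pos, map_sum, map_smul, smul_smul, sub_eq_add_neg, ze_add, mul_pow]

end Pool.Agent.Lib.MP_dee751_an.W
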