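import Pool.Agent.Lib.MP_dee751_an.WA

/-! Passage to the limit in the finite models. -/

namespace Pool.Agent.Lib.MP_dee751_an.W

open Module Finset Filter Topology
open scoped InnerProductSpace

variable {E : Type*} [NormedAddCommGroup E] [InnerProductSpace ℂ E] [FiniteDimensional ℂ E]

/-- The periodic triangle wave. -/
def tri (R : ℕ) (n : ℤ) : ℤ := R - |(n + R) % (4 * R : ℕ) - 2 * R|

lemma tri_eq {R : ℕ} (hR : 0 < R) {n : ℤ} (h : |n| ≤ R) : tri R n = n := by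
  rw [abs_le] at h
  rw [tri, Int.emod_eq_of_lt (by omega) (by omega), abs_of_nonpos (by omega)]; ring

lemma tri_per (R : ℕ) (n : ℤ) : tri R (n + (4 * R : ℕ)) = tri R n := by
  rw [tri, tri, add_right_comm, Int.add_emod_right]

lemma tri_step {R : ℕ} (hR : 0 < R) (n : ℤ) : |tri R (n + 1) - tri R n| ≤ 1 := by
  have h0 := Int.emod_nonneg (n + R) (b := (4 * R : ℕ)) (by omega)
  have h1 := Int.emod_lt_of_pos (n + R) (b := (4 * R : ℕ)) (by omega)
  rw [tri, tri, add_right_comm, ← Int.emod_add_emod]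
  set x := (n + R) % (4 * R : ℕ)
  by_cases h : x + 1 < (4 * R : ℕ)
  · rw [Int.emod_eq_of_lt (by omega) h, abs_le]
    rcases abs_cases (x + 1 - 2 * R) with a | a <;> rcases abs_cases (x - 2 * R) with b | b <;>
      omega
  · rw [show x + 1 = (4 * R : ℕ) by omega, Int.emod_self, abs_le]
    rcases abs_cases (0 - 2 * (R : ℤ)) with a | a <;> rcases abs_cases (x - 2 * R) with b | b <;>
      omega

lemma tri_lip {R : ℕ} (hR : 0 < R) (x k : ℤ) : |tri R (x + k) - tri R x| ≤ |k| := by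
  induction k using Int.induction_on with
  | zero => simp
  | succ k ih =>
    have := tri_step hR (x + k)
    rw [abs_of_nonneg (a := (k : ℤ)) (by omega)] at ih
    rw [abs_of_nonneg (a := (k : ℤ) + 1) (by omega), ← add_assoc]
    rw [abs_le] at *; omega
  | pred k ih =>
    have := tri_step hR (x + (-k - 1))
    rw [show x + (-k - 1) + 1 = x + -k by ring] at this
    rw [abs_of_nonpos (a := -(k : ℤ)) (by omega)] at ih
    rw [abs_of_nonpos (a := -(k : ℤ) - 1) (by omega)]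
    rw [abs_le] at *; omega

lemma sum_win_shift {R : ℕ} {F : ℤ → ℝ} (hF : ∀ n, F (n + (4 * R : ℕ)) = F n) (k : ℤ) :
    ∑ n ∈ win R, F (n - k) = ∑ n ∈ win R, F n := by
  have e : ∀ G : ℤ → ℝ, ∑ n ∈ win R, G n = ∑ j ∈ range (4 * R), G (-(2 * R : ℤ) + 1 + j) :=
    fun G => by
      rw [win, Int.Ioc_eq_finset_map, sum_map, show (2 * R - -(2 * R) : ℤ).toNat = 4 * R by omega]
      rfl
  have s : ∀ a : ℤ, ∑ j ∈ range (4 * R), F (a + 1 + j) = ∑ j ∈ range (4 * R), F (a + j) :=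
    fun a => by
      have := sum_range_succ' (fun j : ℕ => F (a + j)) (4 * R)
      rw [sum_range_succ, hF] at this
      simp only [Nat.cast_zero, add_zero, add_left_inj] at this
      rw [this]
      exact sum_congr rfl fun j _ => by congr 1; push_cast; ring
  have t : ∀ a k : ℤ, ∑ j ∈ range (4 * R), F (a + k + j) = ∑ j ∈ range (4 * R), F (a + j) :=
    fun a k => by
      induction k using Int.induction_on with
      | zero => simp
      | succ k ih => rw [← add_assoc, s, ih]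
      | pred k ih => rw [← ih, ← s, show a + (-k - 1) + 1 = a + -k by ring]
  rw [e, e, ← t _ (-k)]
  exact sum_congr rfl fun j _ => by congr 1; ring

variable {β : ℤ → E ≃L[ℂ] E} {c : ℝ}

omit [FiniteDimensional ℂ E] in
lemma comp (hc : 1 ≤ c) (h1 : ∀ n v, ‖β (n + 1) v‖ ≤ c * ‖β n v‖)
    (h2 : ∀ n v, ‖β n v‖ ≤ c * ‖β (n + 1) v‖) (m : ℕ) (v : E) :
    ∀ x y : ℤ, |x - y| ≤ (m : ℤ) → ‖β x v‖ ≤ c ^ m * ‖β y v‖ := by
  induction m with
  | zero => intro x y h; rw [show x = y by rw [abs_le] at h; omega]; simp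
  | succ m ih =>
    intro x y h
    rw [abs_le] at h
    have c0 : 0 ≤ c := by linarith
    rw [pow_succ', mul_assoc]
    rcases lt_trichotomy x y with hxy | hxy | hxy
    · exact (h2 x v).trans (by gcongr; exact ih _ _ (abs_le.2 (by omega)))
    · exact (ih x y (by simp [hxy])).trans (le_mul_of_one_le_left (by positivity) hc)
    · have := h1 (x - 1) v
      rw [sub_add_cancel] at this
      exact this.trans (by gcongr; exact ih _ _ (abs_le.2 (by omega)))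

lemma model2 (hc : 1 ≤ c) (h1 : ∀ n v, ‖β (n + 1) v‖ ≤ c * ‖β n v‖)
    (h2 : ∀ n v, ‖β n v‖ ≤ c * ‖β (n + 1) v‖) {v : E} (hv : ‖v‖ = 1) {D R : ℕ}
    (hD : D = 2 * finrank ℂ E + 2) (hR : 4 * D ^ 2 ≤ R) :
    ∃ a ω : ℤ → E, ∑ n ∈ win R, ‖a n‖ ^ 2 ≤ 1 ∧ ∑ n ∈ win R, ‖ω n‖ ^ 2 ≤ 1 ∧
      1 / 2 ≤ ∑ n ∈ Icc (-(4 * D ^ 2 : ℕ) : ℤ) (4 * D ^ 2 : ℕ), ‖a n‖ ^ 2 ∧
      (1 / D : ℝ) ^ 2 ≤ ∑ n ∈ Icc (1 : ℤ) D, ‖ω n‖ ^ 2 ∧
      ∀ (k : ℤ) (s : E →L[ℂ] E) (C : ℝ), 0 ≤ C → (∀ j u, ‖β (j + k) (s u)‖ ≤ C * ‖β j u‖) →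
        ∀ L : ℕ, 7 * |(k : ℝ)| < 4 * L → L + |k| ≤ R →
        ‖∑ n ∈ Icc (-L : ℤ) L, ⟪β n (s ((β (n - k)).symm (a (n - k)))), ω n⟫_ℂ‖ ≤
          c ^ (2 * k.natAbs) * C * (7 * D ^ 2 / (4 * L - 7 * |(k : ℝ)|)) := by
  have hD1 : 2 ≤ D := by omega
  have hDR : D ≤ R := by nlinarith
  have hR0 : 0 < R := by omega
  obtain ⟨γ, ω, per, g1, w1, ⟨n0, hn0, g2⟩, ⟨n1, hn1, w2⟩, orth⟩ :=
    model (fun n => β (tri R n)) hv (R := R) (by omega)
  have eD : (2 * finrank ℂ E + 2 : ℝ) = D := by rw [hD]; push_cast; ring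
  have eD' : (2 * finrank ℂ E + 2 : ℤ) = D := by rw [hD]; push_cast; ring
  rw [eD] at g2 w2
  rw [eD'] at hn0 hn1
  set N := 4 * R
  have hN : 0 < N := by omega
  have hN' : (0 : ℝ) < N := by exact_mod_cast hN
  have hD' : (0 : ℝ) < D := by exact_mod_cast (by omega)
  let g : ℤ → E := fun n => β (tri R n) (γ n)
  have eg : ∀ n, ‖β (tri R n) ((ze N n - 1) • γ n)‖ = ‖ze N n - 1‖ * ‖g n‖ := fun n => by
    rw [map_smul, norm_smul]
  simp only [eg] at g1 g2
  have sub : ∀ L : ℕ, L ≤ R → Icc (-L : ℤ) L ⊆ win R := fun L hL n hn => by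
    simp only [win, mem_Icc, mem_Ioc] at hn ⊢; omega
  have tail : ∀ (k : ℤ) (L : ℕ), 7 * |(k : ℝ)| < 4 * L →
      ∑ n ∈ win R \ Icc (-L : ℤ) L, ‖g (n - k)‖ ^ 2 ≤ (N / (4 * L - 7 * |(k : ℝ)|)) ^ 2 :=
    fun k L hL => by
      have p : 0 < 4 * L - 7 * |(k : ℝ)| := by linarith
      rw [← sum_win_shift (F := fun n => (‖ze N n - 1‖ * ‖g n‖) ^ 2)
        (fun n => by simp only [g, ze_per hN, per, tri_per, N]) k] at g1
      refine le_trans ?_ (mul_le_of_le_one_right (by positivity) g1)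
      refine le_trans ?_ (mul_le_mul_of_nonneg_left (sum_le_sum_of_subset_of_nonneg
        (sdiff_subset (t := Icc (-L : ℤ) L)) fun _ _ _ => by positivity) (by positivity))
      rw [mul_sum]
      refine sum_le_sum fun n hn => ?_
      simp only [win, Finset.mem_sdiff, mem_Icc, mem_Ioc] at hn
      have a1 := ze_ge hN (a := n) (by rcases abs_cases n with a | a <;> omega)
      have a2 := ze_le N k
      have a3 : ‖ze N n - 1‖ ≤ ‖ze N (n - k) - 1‖ + ‖ze N k - 1‖ := by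
        have : ze N n - 1 = ze N k * (ze N (n - k) - 1) + (ze N k - 1) := by
          rw [mul_sub, ← ze_add]; simp
        rw [this]
        exact (norm_add_le _ _).trans (by rw [norm_mul, ze_norm, one_mul])
      have a4 : (L : ℝ) ≤ |(n : ℝ)| := by
        have : (L : ℤ) ≤ |n| := by rcases abs_cases n with a | a <;> omega
        exact_mod_cast this
      have a5 : 1 ≤ N / (4 * L - 7 * |(k : ℝ)|) * ‖ze N (n - k) - 1‖ := by
        rw [div_mul_eq_mul_div, le_div_iff₀ p]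
        rw [div_le_iff₀ hN'] at a1
        rw [le_div_iff₀ hN'] at a2
        nlinarith
      rw [← mul_pow, ← mul_assoc]
      exact pow_le_pow_left₀ (norm_nonneg _) (le_mul_of_one_le_left (norm_nonneg _) a5) 2
  set t := √(∑ n ∈ win R, ‖g n‖ ^ 2)
  have t2 : t ^ 2 = ∑ n ∈ win R, ‖g n‖ ^ 2 := Real.sq_sqrt (by positivity)
  have t1 : N / (7 * D ^ 2) ≤ t := by
    simp only [mem_Icc] at hn0
    have a1 : ‖g n0‖ ≤ t := Real.le_sqrt_of_sq_le (single_le_sum (f := fun n => ‖g n‖ ^ 2)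
      (fun _ _ => by positivity) (by simp only [win, mem_Ioc]; omega))
    have a2 : ‖ze N n0 - 1‖ ≤ 7 * D / N := (ze_le N n0).trans (by
      gcongr
      have : |n0| ≤ (D : ℤ) := abs_le.2 (by omega)
      exact_mod_cast this)
    have a3 := g2.trans (mul_le_mul a2 a1 (norm_nonneg _) (by positivity))
    rw [div_le_iff₀ (by positivity)]
    rw [div_le_iff₀ hD', div_mul_eq_mul_div, div_mul_eq_mul_div, le_div_iff₀ hN'] at a3
    nlinarith
  have t0 : 0 < t := lt_of_lt_of_le (by positivity) t1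
  have t3 : t⁻¹ * N ≤ 7 * D ^ 2 := by
    rw [inv_mul_le_iff₀ t0]; rwa [div_le_iff₀ (by positivity)] at t1
  have na : ∀ n, ‖((t⁻¹ : ℝ) : ℂ) • g n‖ ^ 2 = t⁻¹ ^ 2 * ‖g n‖ ^ 2 := fun n => by
    rw [norm_smul, mul_pow]; simp
  have one : ∑ n ∈ win R, t⁻¹ ^ 2 * ‖g n‖ ^ 2 = 1 := by
    rw [← mul_sum, ← t2]; field_simp
  refine ⟨fun n => ((t⁻¹ : ℝ) : ℂ) • g n, ω, by simp only [na, one, le_refl], w1, ?_, ?_,
    fun k s C hC hs L hL hLR => ?_⟩
  · simp only [na]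
    rw [← sum_sdiff (sub _ hR), ← mul_sum] at one
    have := tail 0 (4 * D ^ 2) (by simp; positivity)
    simp only [sub_zero, Int.cast_zero, abs_zero, mul_zero] at this
    have a : t⁻¹ ^ 2 * ((N : ℝ) / (4 * (4 * D ^ 2 : ℕ))) ^ 2 ≤ (7 / 16) ^ 2 := by
      rw [← mul_pow]
      gcongr
      push_cast
      rw [← mul_div_assoc, div_le_iff₀ (by positivity)]; linarith
    nlinarith [mul_le_mul_of_nonneg_left this (sq_nonneg t⁻¹)]
  · exact (pow_le_pow_left₀ (by positivity) w2 2).trans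
      (single_le_sum (f := fun n => ‖ω n‖ ^ 2) (fun _ _ => by positivity) hn1)
  have p : 0 < 4 * L - 7 * |(k : ℝ)| := by linarith
  have k0 := abs_nonneg k
  have o := orth k s
  rw [← sum_sdiff (sub L (by omega)), add_comm, add_eq_zero_iff_eq_neg] at o
  have e : ∑ n ∈ Icc (-L : ℤ) L, ⟪β n (s ((β (n - k)).symm (((t⁻¹ : ℝ) : ℂ) • g (n - k)))), ω n⟫_ℂ =
      ((t⁻¹ : ℝ) : ℂ) * ∑ n ∈ Icc (-L : ℤ) L, ⟪β (tri R n) (s (γ (n - k))), ω n⟫_ℂ := by
    rw [mul_sum]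
    refine sum_congr rfl fun n hn => ?_
    rw [mem_Icc] at hn
    simp only [g]
    rw [tri_eq hR0 (n := n) (abs_le.2 (by omega)), tri_eq hR0 (n := n - k)
      (by rcases abs_cases k with a | a <;> exact abs_le.2 (by omega))]
    simp [mul_comm]
  rw [e, o, norm_mul, norm_neg, Complex.norm_real, Real.norm_of_nonneg (by positivity)]
  have b1 : ‖∑ n ∈ win R \ Icc (-L : ℤ) L, ⟪β (tri R n) (s (γ (n - k))), ω n⟫_ℂ‖ ≤
      c ^ (2 * k.natAbs) * C * ∑ n ∈ win R \ Icc (-L : ℤ) L, ‖g (n - k)‖ * ‖ω n‖ := by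
    rw [mul_sum]
    refine (norm_sum_le _ _).trans (sum_le_sum fun n _ => (norm_inner_le_norm _ _).trans ?_)
    rw [← mul_assoc, mul_assoc _ C]
    refine mul_le_mul_of_nonneg_right ((comp hc h1 h2 (2 * k.natAbs) _ _ (tri R (n - k) + k) ?_).trans
      (mul_le_mul_of_nonneg_left (hs _ _) (by positivity))) (norm_nonneg _)
    have := tri_lip hR0 (n - k) k
    rw [sub_add_cancel, abs_le] at this
    rw [abs_le]; push_cast
    rcases abs_cases k with a | a <;> omega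
  have b2 : ∑ n ∈ win R \ Icc (-L : ℤ) L, ‖g (n - k)‖ * ‖ω n‖ ≤ N / (4 * L - 7 * |(k : ℝ)|) := by
    refine (pow_le_pow_iff_left₀ (by positivity) (by positivity) two_ne_zero).1
      ((sum_mul_sq_le_sq_mul_sq _ _ _).trans ?_)
    exact (mul_le_of_le_one_right (by positivity) ((sum_le_sum_of_subset_of_nonneg sdiff_subset
      fun _ _ _ => by positivity).trans w1)).trans (tail k L hL)
  have c0 : 0 ≤ c ^ (2 * k.natAbs) * C := by positivity
  refine (mul_le_mul_of_nonneg_left (b1.trans (mul_le_mul_of_nonneg_left b2 c0))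
    (by positivity)).trans ?_
  rw [mul_left_comm, ← mul_div_assoc]
  gcongr

lemma exists_lim (x : ℕ → ℤ → E) (R : ℕ → ℕ) (hR : ∀ i, i ≤ R i)
    (h : ∀ i, ∑ n ∈ win (R i), ‖x i n‖ ^ 2 ≤ 1) :
    ∃ y : lp (fun _ : ℤ => E) 2, ∀ n, Tendsto (fun i => x i n) (hyperfilter ℕ) (𝓝 (y n)) := by
  have ev : ∀ s : Finset ℤ, ∀ᶠ i in hyperfilter ℕ, ∑ n ∈ s, ‖x i n‖ ^ 2 ≤ 1 := fun s => by
    refine Nat.hyperfilter_le_atTop ((eventually_gt_atTop (s.sup Int.natAbs)).mono fun i hi => ?_)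
    refine (sum_le_sum_of_subset_of_nonneg (fun n hn => ?_) fun _ _ _ => by positivity).trans (h i)
    have := le_sup (f := Int.natAbs) hn
    have := hR i
    simp only [win, mem_Ioc]; omega
  have := FiniteDimensional.proper_rclike ℂ E
  have ex : ∀ n, ∃ y, Tendsto (fun i => x i n) (hyperfilter ℕ) (𝓝 y) := fun n => by
    obtain ⟨y, -, hy⟩ := (isCompact_closedBall (0 : E) 1).ultrafilter_le_nhds
      ((hyperfilter ℕ).map fun i => x i n) (by
        rw [le_principal_iff, Ultrafilter.coe_map, Filter.mem_map]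
        refine (ev {n}).mono fun i hi => ?_
        simpa using hi)
    exact ⟨y, hy⟩
  choose y hy using ex
  refine ⟨⟨y, memℓp_gen' (C := 1) fun s => ?_⟩, hy⟩
  simp only [ENNReal.toReal_ofNat, Real.rpow_ofNat]
  exact le_of_tendsto (tendsto_finsetSum s fun n _ => (hy n).norm.pow 2) (ev s)

theorem limit [Nontrivial E] (hc : 1 ≤ c) (h1 : ∀ n v, ‖β (n + 1) v‖ ≤ c * ‖β n v‖)
    (h2 : ∀ n v, ‖β n v‖ ≤ c * ‖β (n + 1) v‖) :
    ∃ a w : lp (fun _ : ℤ => E) 2, a ≠ 0 ∧ w ≠ 0 ∧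
      ∀ (k : ℤ) (s : E →L[ℂ] E) (C : ℝ), 0 ≤ C → (∀ j u, ‖β (j + k) (s u)‖ ≤ C * ‖β j u‖) →
        Tendsto (fun L : ℕ => ∑ n ∈ Icc (-L : ℤ) L,
          ⟪β n (s ((β (n - k)).symm (a (n - k)))), w n⟫_ℂ) atTop (𝓝 0) := by
  obtain ⟨v, hv⟩ := exists_norm_eq E zero_le_one
  set D := 2 * finrank ℂ E + 2 with hD
  choose a ω a1 w1 a2 w2 h using fun i : ℕ =>
    model2 hc h1 h2 hv hD (R := 4 * D ^ 2 + i) (by omega)
  obtain ⟨a', ha⟩ := exists_lim a _ (fun i => by omega) a1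
  obtain ⟨w', hw⟩ := exists_lim ω _ (fun i => by omega) w1
  refine ⟨a', w', fun h0 => ?_, fun h0 => ?_, fun k s C hC hs => ?_⟩
  · have := ge_of_tendsto' (tendsto_finsetSum _ fun n _ => (ha n).norm.pow 2) a2
    simp [h0] at this; linarith
  · have := ge_of_tendsto' (tendsto_finsetSum _ fun n _ => (hw n).norm.pow 2) w2
    have : (0 : ℝ) < (1 / D : ℝ) ^ 2 := by positivity
    simp only [h0, lp.coeFn_zero, Pi.zero_apply, norm_zero, ne_eq, OfNat.ofNat_ne_zero,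
      not_false_eq_true, zero_pow, sum_const_zero] at *
    linarith
  have t1 : Tendsto (fun L : ℕ => 4 * (L : ℝ) - 7 * |(k : ℝ)|) atTop atTop :=
    tendsto_atTop_add_const_right _ _ (tendsto_natCast_atTop_atTop.const_mul_atTop (by norm_num))
  refine squeeze_zero_norm' ((t1.eventually_gt_atTop 0).mono fun L hL => ?_)
    (by simpa only [mul_zero] using
      (t1.const_div_atTop (7 * D ^ 2 : ℝ)).const_mul (c ^ (2 * k.natAbs) * C))
  refine le_of_tendsto (tendsto_finsetSum _ fun n _ => Tendsto.inner (𝕜 := ℂ)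
    (((β n).continuous.comp (s.continuous.comp (β (n - k)).symm.continuous)).tendsto _ |>.comp
      (ha (n - k))) (hw n)).norm (Nat.hyperfilter_le_atTop
        ((eventually_ge_atTop (L + k.natAbs)).mono fun i hi => ?_))
  exact h i k s C hC hs L (by linarith) (by rw [← Int.natCast_natAbs]; omega)

end Pool.Agent.Lib.MP_dee751_an.W
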