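import Pool.Agent.Lib.MP_dee751_an.WB
import Pool.Agent.Lib.MP_dee751_an.ED

/-! From the diagonals of an operator to the operator, and the theorem on weighted shifts. -/

namespace Pool.Agent.Lib.MP_dee751_an.W

open Module Finset Filter Topology MeasureTheory AddCircle
open scoped InnerProductSpace

variable {E : Type*} [NormedAddCommGroup E] [InnerProductSpace ℂ E]

/-- Rotation of a square summable sequence. -/
noncomputable def rot (θ : AddCircle (1 : ℝ)) (x : lp (fun _ : ℤ => E) 2) : lp (fun _ : ℤ => E) 2 :=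
  ⟨fun n => fourier n θ • x n, (lp.memℓp x).mono' fun n => by simp [norm_smul]⟩

lemma rot_apply (θ : AddCircle (1 : ℝ)) (x : lp (fun _ : ℤ => E) 2) (n : ℤ) :
    rot θ x n = fourier n θ • x n := rfl

lemma norm_rot (θ : AddCircle (1 : ℝ)) (x : lp (fun _ : ℤ => E) 2) : ‖rot θ x‖ ≤ ‖x‖ :=
  lp.norm_mono two_ne_zero fun n => by simp [rot_apply, norm_smul]

lemma rot_sub (θ : AddCircle (1 : ℝ)) (x y : lp (fun _ : ℤ => E) 2) :
    rot θ x - rot θ y = rot θ (x - y) := by
  ext n; simp [rot_apply, smul_sub]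

/-- Truncation to a finite set of indices. -/
noncomputable def cut (s : Finset ℤ) (x : lp (fun _ : ℤ => E) 2) : lp (fun _ : ℤ => E) 2 :=
  ∑ j ∈ s, lp.single 2 j (x j)

lemma rot_cut (θ : AddCircle (1 : ℝ)) (s : Finset ℤ) (x : lp (fun _ : ℤ => E) 2) :
    rot θ (cut s x) = ∑ j ∈ s, fourier j θ • lp.single 2 j (x j) := by
  ext n
  simp only [rot_apply, cut, lp.coeFn_sum, Finset.sum_apply, smul_sum, lp.coeFn_smul,
    Pi.smul_apply, lp.single_apply]
  refine sum_congr rfl fun j _ => ?_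
  by_cases h : n = j
  · rw [h]
  · simp [h]

lemma diag (S : lp (fun _ : ℤ => E) 2 →L[ℂ] lp (fun _ : ℤ => E) 2) (a w : lp (fun _ : ℤ => E) 2)
    (h : ∀ k : ℤ, Tendsto (fun L : ℕ => ∑ n ∈ Icc (-L : ℤ) L,
      ⟪S (lp.single 2 (n - k) (a (n - k))) n, w n⟫_ℂ) atTop (𝓝 0)) : ⟪S a, w⟫_ℂ = 0 := by
  have : Fact ((0 : ℝ) < 1) := ⟨one_pos⟩
  let φ : AddCircle (1 : ℝ) → ℂ := fun θ => ⟪S (rot θ a), rot θ w⟫_ℂ
  let ψ : Finset ℤ → Finset ℤ → AddCircle (1 : ℝ) → ℂ := fun s' s =>
    ∑ i ∈ s, ∑ j ∈ s', fun θ => ⟪S (lp.single 2 j (a j)) i, w i⟫_ℂ * fourier (i - j) θ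
  have cψ : ∀ s' s, Continuous (ψ s' s) := fun s' s => by
    simp only [ψ, Finset.sum_fn]; fun_prop
  have eψ : ∀ s' s θ, ψ s' s θ = ⟪S (rot θ (cut s' a)), rot θ (cut s w)⟫_ℂ := fun s' s θ => by
    simp only [ψ, Finset.sum_apply, rot_cut, map_sum, map_smul, sum_inner, inner_sum,
      inner_smul_left, inner_smul_right, lp.inner_single_right, mul_sum]
    refine sum_congr rfl fun i _ => sum_congr rfl fun j _ => ?_
    rw [sub_eq_add_neg, fourier_add, fourier_neg]; ring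
  let ε : Finset ℤ → Finset ℤ → ℝ := fun s' s =>
    ‖S‖ * ‖a - cut s' a‖ * ‖w‖ + ‖S‖ * ‖cut s' a‖ * ‖w - cut s w‖
  have bd : ∀ s' s θ, ‖φ θ - ψ s' s θ‖ ≤ ε s' s := fun s' s θ => by
    have : φ θ - ψ s' s θ = ⟪S (rot θ (a - cut s' a)), rot θ w⟫_ℂ +
        ⟪S (rot θ (cut s' a)), rot θ (w - cut s w)⟫_ℂ := by
      rw [eψ, ← rot_sub, ← rot_sub, map_sub, inner_sub_left, inner_sub_right]; ring
    rw [this]
    refine (norm_add_le _ _).trans (add_le_add ?_ ?_) <;>
      exact (norm_inner_le_norm _ _).trans (mul_le_mul ((S.le_opNorm _).trans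
        (by gcongr; exact norm_rot _ _)) (norm_rot _ _) (norm_nonneg _) (by positivity))
  have hε : ∀ m : ℕ, Tendsto (fun L : ℕ => ε (Icc (-(L + m : ℕ) : ℤ) (L + m : ℕ)) (Icc (-L : ℤ) L))
      atTop (𝓝 0) := fun m => by
    have a1 : Tendsto (fun L : ℕ => cut (Icc (-(L + m : ℕ) : ℤ) (L + m : ℕ)) a) atTop (𝓝 a) :=
      ((lp.hasSum_single (by simp) a).comp tendsto_Icc_neg).comp (tendsto_add_atTop_nat m)
    have a2 : Tendsto (fun L : ℕ => cut (Icc (-L : ℤ) L) w) atTop (𝓝 w) :=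
      (lp.hasSum_single (by simp) w).comp tendsto_Icc_neg
    simpa only [sub_self, norm_zero, mul_zero, zero_mul, add_zero] using
      ((((tendsto_const_nhds (x := a)).sub a1).norm.const_mul ‖S‖).mul_const ‖w‖).add
        ((a1.norm.const_mul ‖S‖).mul ((tendsto_const_nhds (x := w)).sub a2).norm)
  have cφ : Continuous φ := by
    refine TendstoUniformly.continuous (F := fun L : ℕ =>
      ψ (Icc (-(L + 0 : ℕ) : ℤ) (L + 0 : ℕ)) (Icc (-L : ℤ) L)) (p := atTop)
      (Metric.tendstoUniformly_iff.2 fun δ hδ => ?_) (.of_forall fun L => cψ _ _)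
    exact ((hε 0).eventually (gt_mem_nhds hδ)).mono fun L hL θ => by
      rw [dist_eq_norm]; exact (bd _ _ θ).trans_lt hL
  have int : ∀ {f : AddCircle (1 : ℝ) → ℂ}, Continuous f → Integrable f haarAddCircle :=
    fun hf => hf.integrable_of_hasCompactSupport (HasCompactSupport.of_compactSpace _)
  have co : ∀ k, fourierCoeff φ k = 0 := fun k => by
    refine tendsto_nhds_unique (tendsto_const_nhds (f := (atTop : Filter ℕ))) ?_
    have := (h k).add (squeeze_zero_norm (f := fun L : ℕ => fourierCoeff φ k -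
      ∑ n ∈ Icc (-L : ℤ) L, ⟪S (lp.single 2 (n - k) (a (n - k))) n, w n⟫_ℂ) (fun L => ?_)
      (hε k.natAbs))
    · simpa using this
    set s' := Icc (-(L + k.natAbs : ℕ) : ℤ) (L + k.natAbs : ℕ)
    have e : ∑ n ∈ Icc (-L : ℤ) L, ⟪S (lp.single 2 (n - k) (a (n - k))) n, w n⟫_ℂ =
        fourierCoeff (ψ s' (Icc (-L : ℤ) L)) k := by
      simp only [ψ]
      rw [fourierCoeff.sum _ _ fun i _ => int (by simp only [Finset.sum_fn]; fun_prop),
        Finset.sum_apply]
      refine sum_congr rfl fun i hi => ?_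
      rw [fourierCoeff.sum _ _ fun i _ => int (by fun_prop), Finset.sum_apply,
        sum_eq_single (i - k)]
      · rw [fourierCoeff.const_mul, fourierCoeff_fourier, sub_sub_cancel]; simp
      · intro j _ hj
        rw [fourierCoeff.const_mul, fourierCoeff_fourier, Pi.single_eq_of_ne (by omega), mul_zero]
      · intro hn
        exact absurd (by simp only [s', mem_Icc] at hi ⊢; omega) hn
    rw [e, fourierCoeff, fourierCoeff, ← integral_sub ((int cφ).fourier_smul _)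
      ((int (cψ _ _)).fourier_smul _)]
    refine (norm_integral_le_of_norm_le_const (C := ε s' (Icc (-L : ℤ) L))
      (.of_forall fun θ => ?_)).trans (by simp)
    rw [← smul_sub, norm_smul]
    simpa using bd _ _ θ
  have := has_pointwise_sum_fourier_series_of_summable (f := ⟨φ, cφ⟩)
    (by simp [funext co]) 0
  simp only [ContinuousMap.coe_mk, co, zero_smul] at this
  have r0 : ∀ x : lp (fun _ : ℤ => E) 2, rot 0 x = x := fun x => by
    ext n; rw [rot_apply, fourier_eval_zero, one_smul]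
  simpa only [φ, r0] using this.unique hasSum_zero

lemma exists_beta (U : ℤ → E ≃L[ℂ] E) : ∃ β : ℤ → E ≃L[ℂ] E, ∀ n v, β (n + 1) v = U n (β n v) := by
  let f : ℕ → E ≃L[ℂ] E := fun n => Nat.rec (.refl ℂ E) (fun n e => e.trans (U n)) n
  let g : ℕ → E ≃L[ℂ] E := fun n =>
    Nat.rec (U (-1)).symm (fun n e => e.trans (U (Int.negSucc (n + 1))).symm) n
  refine ⟨fun n => Int.rec f g n, fun n v => ?_⟩
  rcases n with n | _ | n
  · rfl
  · exact ((U (-1)).apply_symm_apply v).symm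
  · exact ((U (Int.negSucc (n + 1))).apply_symm_apply (g n v)).symm

omit [InnerProductSpace ℂ E] in
lemma norm_sg (n : ℤ) (v : E) : ‖(lp.single 2 n v : lp (fun _ : ℤ => E) 2)‖ = ‖v‖ :=
  lp.norm_single (E := fun _ : ℤ => E) (by simp) n v

variable {A : lp (fun _ : ℤ => E) 2 →L[ℂ] lp (fun _ : ℤ => E) 2} {W : ℤ → E →L[ℂ] E}

lemma shift_single (hA : ∀ x n, A x (n + 1) = W n (x n)) (n : ℤ) (v : E) :
    A (lp.single 2 n v) = lp.single 2 (n + 1) (W n v) := by
  ext m
  obtain ⟨m, rfl⟩ : ∃ m', m = m' + 1 := ⟨m - 1, by ring⟩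
  rw [hA]
  by_cases h : m = n
  · subst h; simp
  · simp [lp.single_apply, h]

lemma shift_bounds (hA : ∀ x n, A x (n + 1) = W n (x n)) (hu : IsUnit A) :
    ∃ c : ℝ, 1 ≤ c ∧ (∀ n v, ‖W n v‖ ≤ c * ‖v‖) ∧ ∀ n v, ‖v‖ ≤ c * ‖W n v‖ := by
  obtain ⟨B, hB⟩ := hu.exists_left_inv
  refine ⟨1 + ‖A‖ + ‖B‖, by linarith [norm_nonneg A, norm_nonneg B], fun n v => ?_, fun n v => ?_⟩
  · have := A.le_opNorm (lp.single 2 n v)
    rw [shift_single hA, norm_sg, norm_sg] at this
    nlinarith [norm_nonneg B, norm_nonneg v]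
  · have := B.le_opNorm (A (lp.single 2 n v))
    rw [← mul_apply_eq_comp, hB, shift_single hA, norm_sg, one_apply_eq_self, norm_sg] at this
    nlinarith [norm_nonneg A, norm_nonneg (W n v)]

lemma comm_diag (hA : ∀ x n, A x (n + 1) = W n (x n)) (inj : ∀ n, Function.Injective (W n))
    {β : ℤ → E ≃L[ℂ] E} (hβ : ∀ n v, β (n + 1) v = W n (β n v))
    {S : lp (fun _ : ℤ => E) 2 →L[ℂ] lp (fun _ : ℤ => E) 2} (hS : S * A = A * S) (k : ℤ) :
    ∃ s : E →L[ℂ] E, ∀ j v, β (j + k) (s v) = S (lp.single 2 j (β j v)) (j + k) := by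
  have rel : ∀ i j v, S (lp.single 2 (j + 1) (W j v)) (i + 1) = W i (S (lp.single 2 j v) i) :=
    fun i j v => by rw [← shift_single hA, ← hA, ← mul_apply_eq_comp, hS, mul_apply_eq_comp]
  refine ⟨(β k).symm.toContinuousLinearMap.comp ((lp.evalCLM ℂ (fun _ : ℤ => E) 2 k).comp
    (S.comp ((lp.singleContinuousLinearMap ℂ (fun _ : ℤ => E) 2 0).comp
      (β 0).toContinuousLinearMap))), fun j v => ?_⟩
  induction j using Int.induction_on with
  | zero => rw [zero_add]; exact (β k).apply_symm_apply _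
  | succ j ih => rw [add_right_comm, hβ, hβ, rel, ih]
  | pred j ih =>
    refine inj (-j - 1 + k) ?_
    rw [← rel, ← hβ, ← hβ, add_right_comm, sub_add_cancel, ih]

theorem pair_shift [FiniteDimensional ℂ E] [Nontrivial E]
    (hA : ∀ x n, A x (n + 1) = W n (x n)) (hu : IsUnit A) :
    Pool.Agent.Lib.MP_dee751_an.E.Pair A := by
  obtain ⟨c, hc, b1, b2⟩ := shift_bounds hA hu
  have inj : ∀ n, Function.Injective (W n) := fun n => (injective_iff_map_eq_zero _).2
    fun v hv => by simpa [hv] using b2 n v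
  obtain ⟨β, hβ⟩ := exists_beta fun n =>
    (LinearEquiv.ofInjectiveEndo (W n : E →ₗ[ℂ] E) (inj n)).toContinuousLinearEquiv
  replace hβ : ∀ n v, β (n + 1) v = W n (β n v) := hβ
  obtain ⟨a, w, ha, hw, h⟩ := limit (β := β) hc
    (fun n v => by rw [hβ]; exact b1 _ _) fun n v => by rw [hβ]; exact b2 _ _
  refine ⟨a, w, ha, hw, fun S hS => diag S a w fun k => ?_⟩
  obtain ⟨s, es⟩ := comm_diag hA inj hβ hS k
  refine (h k s ‖S‖ (norm_nonneg S) fun j v => ?_).congr fun L => sum_congr rfl fun n _ => ?_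
  · rw [es]
    exact (lp.norm_apply_le_norm two_ne_zero _ _).trans ((S.le_opNorm _).trans (by rw [norm_sg]))
  · have := es (n - k) ((β (n - k)).symm (a (n - k)))
    rw [sub_add_cancel, ContinuousLinearEquiv.apply_symm_apply] at this
    rw [this]

theorem pair_sum [FiniteDimensional ℂ E] [Nontrivial E] {H : Type*} [NormedAddCommGroup H]
    [InnerProductSpace ℂ H] [CompleteSpace H] {V : ℤ → E →ₗᵢ[ℂ] H}
    (hV : IsHilbertSum ℂ (fun _ : ℤ => E) V) {T : H →L[ℂ] H}
    (hT : ∀ n v, T (V n v) = V (n + 1) (W n v)) (hu : IsUnit T) :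
    Pool.Agent.Lib.MP_dee751_an.E.Pair T := by
  set e := hV.linearIsometryEquiv
  have he : ∀ n v, e.symm (lp.single 2 n v) = V n v := fun n v =>
    hV.linearIsometryEquiv_symm_apply_single v
  let Φ := e.toContinuousLinearEquiv.conjContinuousAlgEquiv
  have hΦ : ∀ S x, Φ S x = e (S (e.symm x)) := fun _ _ => rfl
  obtain ⟨a, w, ha, hw, h⟩ := pair_shift (A := Φ T) (W := W) (fun x n => by
    have h1 := ((lp.evalCLM ℂ (fun _ : ℤ => E) 2 (n + 1)).comp (Φ T)).hasSum
      (lp.hasSum_single (by simp) x)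
    have h2 : ∀ j, ((lp.evalCLM ℂ (fun _ : ℤ => E) 2 (n + 1)).comp (Φ T)) (lp.single 2 j (x j)) =
        (lp.single 2 (j + 1) (W j (x j)) : lp (fun _ : ℤ => E) 2) (n + 1) := fun j => by
      change Φ T (lp.single 2 j (x j)) (n + 1) = _
      rw [hΦ, he, hT, ← he, e.apply_symm_apply]
    simp only [h2] at h1
    have h3 := hasSum_single (f := fun j =>
      (lp.single 2 (j + 1) (W j (x j)) : lp (fun _ : ℤ => E) 2) (n + 1)) n
      fun j hj => by simp [lp.single_apply, hj.symm]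
    exact (h1.unique h3).trans (by simp)) (hu.map Φ)
  refine ⟨e.symm a, e.symm w, by simpa using ha, by simpa using hw, fun S hS => ?_⟩
  have := h (Φ S) (by rw [← map_mul, hS, map_mul])
  rw [hΦ] at this
  rw [← e.inner_map_map, e.apply_symm_apply, this]

end Pool.Agent.Lib.MP_dee751_an.W
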